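import Mathlib

set_option autoImplicit false

namespace Pool.Agent.Helper7.BombA

open MeasureTheory Set Polynomial
open scoped ENNReal

/-- the measure on the phases -/
noncomputable abbrev μ : Measure ℝ := (volume : Measure ℝ).restrict (Ioc 0 (2 * Real.pi))

theorem μ_univ : μ univ = ENNReal.ofReal (2 * Real.pi) := by
  rw [Measure.restrict_apply MeasurableSet.univ, univ_inter, Real.volume_Ioc, sub_zero]

/-- `N w = A - log ‖w‖` with the value `∞` at `0`. -/
noncomputable def N (A : ℝ) (w : ℂ) : ℝ≥0∞ :=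
  open Classical in if w = 0 then ⊤ else ENNReal.ofReal (A - Real.log ‖w‖)

theorem N_zero (A : ℝ) : N A 0 = ⊤ := by simp [N]

theorem N_ne {A : ℝ} {w : ℂ} (hw : w ≠ 0) : N A w = ENNReal.ofReal (A - Real.log ‖w‖) := by
  simp [N, hw]

theorem ofReal_le_N (A : ℝ) (w : ℂ) : ENNReal.ofReal (A - Real.log ‖w‖) ≤ N A w := by
  by_cases h : w = 0
  · rw [h, N_zero]; exact le_top
  · rw [N_ne h]

theorem measurable_N (A : ℝ) : Measurable (N A) := by
  unfold N
  apply Measurable.ite (measurableSet_eq_fun measurable_id measurable_const) measurable_const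
  fun_prop

/-- Jensen's formula in the form needed. -/
theorem jensen {A : ℝ} (hA : 0 ≤ A) {b c : ℂ} (hbc : ‖b‖ + ‖c‖ ≤ Real.exp A) :
    ∫⁻ θ, N A (b + circleMap 0 1 θ * c) ∂μ ≤ ENNReal.ofReal (2 * Real.pi) * min (N A b) (N A c) := by
  have hpi := Real.pi_pos
  by_cases hc : c = 0
  · subst hc
    simp only [mul_zero, add_zero, N_zero, min_top_right, lintegral_const, μ_univ]
    rw [mul_comm]
  -- value of the integral of the logarithm
  have hval : (2 * Real.pi)⁻¹ * ∫ θ in (0:ℝ)..(2 * Real.pi), Real.log ‖b + circleMap 0 1 θ * c‖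
      = Real.log ‖c‖ + Real.posLog ‖c⁻¹ * b‖ := by
    rw [← Polynomial.logMahlerMeasure_C_mul_X_add_C hc b, Polynomial.logMahlerMeasure_def,
      Real.circleAverage_def, smul_eq_mul]
    congr 1
    apply intervalIntegral.integral_congr
    intro θ _
    simp only [eval_add, eval_mul, eval_C, eval_X]
    rw [add_comm, mul_comm]
  have hint : IntervalIntegrable (fun θ => Real.log ‖b + circleMap 0 1 θ * c‖) volume 0
      (2 * Real.pi) := by
    have := Polynomial.intervalIntegrable_mahlerMeasure (C c * X + C b)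
    refine this.congr ?_
    intro θ _
    simp only [eval_add, eval_mul, eval_C, eval_X]
    rw [add_comm, mul_comm]
  have hnull : ∀ᵐ θ ∂μ, N A (b + circleMap 0 1 θ * c) =
      ENNReal.ofReal (A - Real.log ‖b + circleMap 0 1 θ * c‖) := by
    rw [ae_iff]
    rw [Measure.restrict_apply']
    · apply Set.Subsingleton.measure_zero
      intro θ₁ h₁ θ₂ h₂
      obtain ⟨h1, h1'⟩ := h₁
      obtain ⟨h2, h2'⟩ := h₂
      have e1 : b + circleMap 0 1 θ₁ * c = 0 := by
        by_contra h; exact h1 (N_ne h)
      have e2 : b + circleMap 0 1 θ₂ * c = 0 := by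
        by_contra h; exact h2 (N_ne h)
      have e3 : circleMap 0 1 θ₁ = circleMap 0 1 θ₂ := by
        have : circleMap 0 1 θ₁ * c = circleMap 0 1 θ₂ * c := by
          linear_combination e1 - e2
        exact mul_right_cancel₀ hc this
      have hinj := injOn_circleMap_of_abs_sub_le (c := 0) (R := 1) (by norm_num)
        (a := 0) (b := 2 * Real.pi) (by simp [abs_of_pos hpi])
      apply hinj _ _ e3
      · rw [uIoc_of_le (by positivity)]; exact h1'
      · rw [uIoc_of_le (by positivity)]; exact h2'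
    · exact measurableSet_Ioc
  rw [lintegral_congr_ae hnull]
  have hle : ∀ θ, Real.log ‖b + circleMap 0 1 θ * c‖ ≤ A := by
    intro θ
    have h1 : ‖b + circleMap 0 1 θ * c‖ ≤ Real.exp A := by
      refine le_trans (norm_add_le _ _) ?_
      rw [norm_mul, norm_circleMap_zero, abs_one, one_mul]
      exact hbc
    rcases eq_or_lt_of_le (norm_nonneg (b + circleMap 0 1 θ * c)) with h2 | h2
    · rw [← h2, Real.log_zero]
      exact hA
    · rw [← Real.exp_le_exp, Real.exp_log h2]
      exact h1
  have hintI : Integrable (fun θ => Real.log ‖b + circleMap 0 1 θ * c‖) μ :=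
    (intervalIntegrable_iff_integrableOn_Ioc_of_le (by positivity)).mp hint
  have hfin : IsFiniteMeasure μ := ⟨by rw [μ_univ]; exact ENNReal.ofReal_lt_top⟩
  have hI : Integrable (fun θ => A - Real.log ‖b + circleMap 0 1 θ * c‖) μ :=
    (integrable_const A).sub hintI
  rw [← ofReal_integral_eq_lintegral_ofReal hI
    (Filter.Eventually.of_forall fun θ => by
      simp only [Pi.zero_apply]; linarith [hle θ])]
  have hint2 : ∫ θ, (A - Real.log ‖b + circleMap 0 1 θ * c‖) ∂μ
      = 2 * Real.pi * (A - (Real.log ‖c‖ + Real.posLog ‖c⁻¹ * b‖)) := by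
    rw [integral_sub (integrable_const A) hintI, ← hval,
      intervalIntegral.integral_of_le (by positivity : (0:ℝ) ≤ 2 * Real.pi)]
    simp only [integral_const, smul_eq_mul]
    have : μ.real univ = 2 * Real.pi := by
      rw [Measure.real, μ_univ, ENNReal.toReal_ofReal (by positivity)]
    rw [this, mul_sub (2 * Real.pi), mul_inv_cancel_left₀ (by positivity)]
  rw [hint2]
  have hpos : 0 ≤ Real.posLog ‖c⁻¹ * b‖ := Real.posLog_nonneg
  have hc' : ENNReal.ofReal (2 * Real.pi * (A - (Real.log ‖c‖ + Real.posLog ‖c⁻¹ * b‖))) ≤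
      ENNReal.ofReal (2 * Real.pi) * N A c := by
    rw [N_ne hc, ← ENNReal.ofReal_mul (by positivity)]
    apply ENNReal.ofReal_le_ofReal
    apply mul_le_mul_of_nonneg_left _ (by positivity)
    linarith
  have hb' : ENNReal.ofReal (2 * Real.pi * (A - (Real.log ‖c‖ + Real.posLog ‖c⁻¹ * b‖))) ≤
      ENNReal.ofReal (2 * Real.pi) * N A b := by
    by_cases hb : b = 0
    · rw [hb, N_zero, ENNReal.mul_top]
      · exact le_top
      · simpa using hpi
    · rw [N_ne hb, ← ENNReal.ofReal_mul (by positivity)]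
      apply ENNReal.ofReal_le_ofReal
      apply mul_le_mul_of_nonneg_left _ (by positivity)
      have h1 : Real.log ‖c⁻¹ * b‖ = Real.log ‖b‖ - Real.log ‖c‖ := by
        rw [norm_mul, norm_inv, Real.log_mul (by simpa using hc) (by simpa using hb),
          Real.log_inv]
        ring
      have h2 : Real.log ‖c⁻¹ * b‖ ≤ Real.posLog ‖c⁻¹ * b‖ := by
        rw [Real.posLog]; exact le_max_right _ _
      linarith
  rcases min_choice (N A b) (N A c) with h | h <;> rw [h]
  · exact hb'
  · exact hc'

/-- Choosing one phase. -/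
theorem step {A : ℝ} (hA : 0 ≤ A) {B c : ℝ → ℂ} (hB : Continuous B) (hc : Continuous c)
    (hbound : ∀ t, ‖B t‖ + ‖c t‖ ≤ Real.exp A) {g : ℝ → ℝ≥0∞} (hg : Measurable g) :
    ∃ θ, ∫⁻ t, min (N A (B t + circleMap 0 1 θ * c t)) (g t) ∂μ ≤
      ∫⁻ t, min (min (N A (B t)) (N A (c t))) (g t) ∂μ := by
  have hpi := Real.pi_pos
  have hfin : IsFiniteMeasure μ := ⟨by rw [μ_univ]; exact ENNReal.ofReal_lt_top⟩
  have hμ : μ ≠ 0 := by
    intro h
    have := μ_univ
    rw [h] at this
    simp at this
    linarith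
  have hmeas : Measurable (fun p : ℝ × ℝ =>
      min (N A (B p.2 + circleMap 0 1 p.1 * c p.2)) (g p.2)) := by
    apply Measurable.min
    · apply (measurable_N A).comp
      apply Continuous.measurable
      fun_prop
    · exact hg.comp measurable_snd
  have h1 : ∫⁻ θ, ∫⁻ t, min (N A (B t + circleMap 0 1 θ * c t)) (g t) ∂μ ∂μ ≤
      ENNReal.ofReal (2 * Real.pi) * ∫⁻ t, min (min (N A (B t)) (N A (c t))) (g t) ∂μ := by
    rw [lintegral_lintegral_swap hmeas.aemeasurable]
    rw [← lintegral_const_mul']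
    · apply lintegral_mono
      intro t
      calc ∫⁻ θ, min (N A (B t + circleMap 0 1 θ * c t)) (g t) ∂μ
          ≤ min (∫⁻ θ, N A (B t + circleMap 0 1 θ * c t) ∂μ) (∫⁻ θ, g t ∂μ) :=
            le_min (lintegral_mono fun θ => min_le_left _ _)
              (lintegral_mono fun θ => min_le_right _ _)
        _ ≤ min (ENNReal.ofReal (2 * Real.pi) * min (N A (B t)) (N A (c t)))
            (ENNReal.ofReal (2 * Real.pi) * g t) := by
            apply min_le_min (jensen hA (hbound t))
            rw [lintegral_const, μ_univ, mul_comm]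
        _ ≤ ENNReal.ofReal (2 * Real.pi) * min (min (N A (B t)) (N A (c t))) (g t) := by
            rcases min_choice (min (N A (B t)) (N A (c t))) (g t) with h | h
            · rw [h]; exact min_le_left _ _
            · rw [h]; exact min_le_right _ _
    · exact ENNReal.ofReal_ne_top
  obtain ⟨θ, hθ⟩ := exists_le_laverage (μ := μ) hμ
    (f := fun θ => ∫⁻ t, min (N A (B t + circleMap 0 1 θ * c t)) (g t) ∂μ)
    (Measurable.lintegral_prod_right hmeas).aemeasurable
  refine ⟨θ, hθ.trans ?_⟩
  rw [laverage_eq, μ_univ]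
  refine (ENNReal.div_le_iff' ?_ ENNReal.ofReal_ne_top).mpr h1
  simpa using hpi

end Pool.Agent.Helper7.BombA
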