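import Mathlib
import Pool.Agent.Helper7.BombA

set_option autoImplicit false

namespace Pool.Agent.Helper7.BombB

open MeasureTheory Set Polynomial Pool.Agent.Helper7.BombA
open scoped ENNReal

/-- The constant `K = M(1 + |1 + x|)`. -/
noncomputable def K : ℝ :=
  Real.exp ((2 * Real.pi)⁻¹ * ∫ t in (0:ℝ)..(2 * Real.pi),
    Real.log (1 + ‖1 + Complex.exp (t * Complex.I)‖))

/-- `[p] = max_j |a_j| / C(n,j)` with `n = deg p`. -/
noncomputable def bomb (p : ℂ[X]) : ℝ :=
  (Finset.range (p.natDegree + 1)).sup' Finset.nonempty_range_add_one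
    fun j => ‖p.coeff j‖ / (p.natDegree.choose j : ℝ)

/-- the maximum of `|q|` on the closed unit disc -/
noncomputable def diskNorm (q : ℂ[X]) : ℝ := ⨆ z : Metric.closedBall (0:ℂ) 1, ‖q.eval (z:ℂ)‖

/-- the point `1 + e^{it}` -/
noncomputable def zt (t : ℝ) : ℂ := 1 + circleMap 0 1 t

theorem continuous_zt : Continuous zt := by
  unfold zt; fun_prop

theorem norm_zt_le (t : ℝ) : ‖zt t‖ ≤ 2 := by
  unfold zt
  refine le_trans (norm_add_le _ _) ?_
  rw [norm_one, norm_circleMap_zero, abs_one]
  norm_num

/-- the integral defining `K` -/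
noncomputable def IK : ℝ := ∫ t in (0:ℝ)..(2 * Real.pi), Real.log (1 + ‖zt t‖)

theorem logK : Real.log K = (2 * Real.pi)⁻¹ * IK := by
  unfold K IK zt
  rw [Real.log_exp]
  simp [circleMap]

theorem K_pos : 0 < K := Real.exp_pos _

theorem sum_choose (n : ℕ) (x : ℝ) :
    ∑ j ∈ Finset.range (n+1), (n.choose j : ℝ) * x ^ j = (1 + x) ^ n := by
  rw [add_comm 1 x, add_pow]
  apply Finset.sum_congr rfl
  intro j _
  rw [one_pow, mul_one, mul_comm]

theorem eval_bound {n : ℕ} {P : ℂ[X]} (hP : ∀ j, ‖P.coeff j‖ ≤ n.choose j)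
    (hP' : ∀ j, n < j → P.coeff j = 0) (z : ℂ) : ‖P.eval z‖ ≤ (1 + ‖z‖) ^ n := by
  have hdeg : P.natDegree < n + 1 := by
    rw [Nat.lt_succ_iff]
    apply Polynomial.natDegree_le_iff_coeff_eq_zero.mpr
    intro j hj
    exact hP' j hj
  rw [Polynomial.eval_eq_sum_range' hdeg]
  refine le_trans (norm_sum_le _ _) ?_
  rw [← sum_choose]
  apply Finset.sum_le_sum
  intro j _
  rw [norm_mul, norm_pow]
  exact mul_le_mul_of_nonneg_right (hP j) (by positivity)

/-- bound for everything -/
noncomputable def AA (n : ℕ) : ℝ := Real.log (2 * 3 ^ n)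

theorem AA_nonneg (n : ℕ) : 0 ≤ AA n := by
  apply Real.log_nonneg
  have : (1:ℝ) ≤ 3 ^ n := one_le_pow₀ (by norm_num)
  linarith

theorem exp_AA (n : ℕ) : Real.exp (AA n) = 2 * 3 ^ n := by
  unfold AA
  rw [Real.exp_log (by positivity)]

/-- the monomial terms -/
noncomputable def cj (n j : ℕ) (t : ℝ) : ℂ := (n.choose j : ℂ) * zt t ^ j

theorem continuous_cj (n j : ℕ) : Continuous (cj n j) := by
  have := continuous_zt
  unfold cj; fun_prop

theorem norm_cj (n j : ℕ) (t : ℝ) : ‖cj n j t‖ = n.choose j * ‖zt t‖ ^ j := by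
  unfold cj
  rw [norm_mul, norm_pow, Complex.norm_natCast]

theorem cj_le (n j : ℕ) (hj : j ≤ n) (t : ℝ) : ‖cj n j t‖ ≤ 3 ^ n := by
  rw [norm_cj]
  have h1 : (n.choose j : ℝ) * ‖zt t‖ ^ j ≤
      ∑ j ∈ Finset.range (n+1), (n.choose j : ℝ) * ‖zt t‖ ^ j :=
    Finset.single_le_sum (f := fun j => (n.choose j : ℝ) * ‖zt t‖ ^ j)
      (fun i _ => by positivity) (Finset.mem_range.mpr (by omega))
  rw [sum_choose] at h1
  refine h1.trans ?_
  apply pow_le_pow_left₀ (by positivity)
  linarith [norm_zt_le t]

/-- the remaining terms -/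
noncomputable def g (n k : ℕ) (t : ℝ) : ℝ≥0∞ :=
  (Finset.Ico k (n+1)).inf (fun j => N (AA n) (cj n j t))

theorem measurable_g (n k : ℕ) : Measurable (g n k) := by
  unfold g
  induction (Finset.Ico k (n+1)) using Finset.induction_on with
  | empty => simp only [Finset.inf_empty]; exact measurable_const
  | insert a s ha ih =>
    simp only [Finset.inf_insert]
    exact ((measurable_N _).comp (continuous_cj n a).measurable).min ih

theorem g_succ (n k : ℕ) (hk : k < n + 1) (t : ℝ) :
    g n k t = min (N (AA n) (cj n k t)) (g n (k+1) t) := by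
  unfold g
  have : Finset.Ico k (n+1) = insert k (Finset.Ico (k+1) (n+1)) := by
    ext j; simp; omega
  rw [this, Finset.inf_insert]

theorem g_top (n : ℕ) (t : ℝ) : g n (n+1) t = ⊤ := by
  unfold g
  simp

theorem construct (n : ℕ) : ∀ k ≤ n + 1, ∃ P : ℂ[X], (∀ j < k, ‖P.coeff j‖ = n.choose j) ∧
    (∀ j, k ≤ j → P.coeff j = 0) ∧
    ∫⁻ t, min (N (AA n) (P.eval (zt t))) (g n k t) ∂μ ≤ ∫⁻ t, g n 0 t ∂μ := by
  intro k
  induction k with
  | zero =>
    intro _
    refine ⟨0, by simp, by simp, ?_⟩
    simp [N_zero]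
  | succ k ih =>
    intro hk
    obtain ⟨P, hP1, hP2, hP3⟩ := ih (by omega)
    have hPle : ∀ j, ‖P.coeff j‖ ≤ n.choose j := by
      intro j
      rcases Nat.lt_or_ge j k with h | h
      · rw [hP1 j h]
      · rw [hP2 j h, norm_zero]; positivity
    have hbound : ∀ t, ‖P.eval (zt t)‖ + ‖cj n k t‖ ≤ Real.exp (AA n) := by
      intro t
      rw [exp_AA]
      have h1 := eval_bound hPle (fun j hj => hP2 j (by omega)) (zt t)
      have h2 : (1 + ‖zt t‖) ^ n ≤ 3 ^ n := by
        apply pow_le_pow_left₀ (by positivity)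
        linarith [norm_zt_le t]
      have h3 := cj_le n k (by omega) t
      linarith
    obtain ⟨θ, hθ⟩ := step (AA_nonneg n) (B := fun t => P.eval (zt t)) (c := cj n k)
      (P.continuous.comp continuous_zt) (continuous_cj n k) hbound (measurable_g n (k+1))
    refine ⟨P + Polynomial.monomial k (circleMap 0 1 θ * (n.choose k : ℂ)), ?_, ?_, ?_⟩
    · intro j hj
      rw [Polynomial.coeff_add, Polynomial.coeff_monomial]
      split_ifs with h
      · subst h
        rw [hP2 k le_rfl, zero_add, norm_mul, norm_circleMap_zero, abs_one, one_mul,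
          Complex.norm_natCast]
      · rw [add_zero, hP1 j (by omega)]
    · intro j hj
      rw [Polynomial.coeff_add, Polynomial.coeff_monomial, if_neg (by omega), add_zero,
        hP2 j (by omega)]
    · refine le_trans ?_ (hθ.trans (le_trans ?_ hP3))
      · apply lintegral_mono
        intro t
        apply le_of_eq
        simp only [Polynomial.eval_add, Polynomial.eval_monomial, cj]
        rw [mul_assoc]
      · apply lintegral_mono
        intro t
        apply le_of_eq
        simp only
        rw [g_succ n k (by omega), min_assoc]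

theorem g0_le (n : ℕ) (t : ℝ) : g n 0 t ≤
    ENNReal.ofReal (AA n + Real.log (n+1) - n * Real.log (1 + ‖zt t‖)) := by
  have hex : ∃ j ∈ Finset.range (n+1), (1 + ‖zt t‖) ^ n / (n + 1) ≤ n.choose j * ‖zt t‖ ^ j := by
    apply Finset.exists_le_of_sum_le Finset.nonempty_range_add_one
    rw [sum_choose, Finset.sum_const, Finset.card_range, nsmul_eq_mul]
    push_cast
    apply le_of_eq
    field_simp
  obtain ⟨j, hj, hle⟩ := hex
  rw [Finset.mem_range] at hj
  have hpos : 0 < (1 + ‖zt t‖) ^ n / ((n:ℝ) + 1) := by positivity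
  have hne : cj n j t ≠ 0 := by
    intro h
    have := norm_cj n j t
    rw [h, norm_zero] at this
    linarith
  have h1 : g n 0 t ≤ N (AA n) (cj n j t) :=
    Finset.inf_le (Finset.mem_Ico.mpr ⟨Nat.zero_le _, by omega⟩)
  refine h1.trans ?_
  rw [N_ne hne]
  apply ENNReal.ofReal_le_ofReal
  have h2 : Real.log ((1 + ‖zt t‖) ^ n / (n + 1)) ≤ Real.log ‖cj n j t‖ := by
    apply Real.log_le_log hpos
    rw [norm_cj]; exact hle
  rw [Real.log_div (by positivity) (by positivity), Real.log_pow] at h2
  linarith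

/-- There is a monic polynomial of degree `n` with all `|a_j| = C(n,j)` and large Mahler measure
with respect to the circle `|z - 1| = 1`. -/
theorem exists_poly (n : ℕ) : ∃ P : ℂ[X], P.Monic ∧ P.natDegree = n ∧
    (∀ j ≤ n, ‖P.coeff j‖ = n.choose j) ∧
    n * IK - 2 * Real.pi * Real.log (n+1) ≤
      ∫ t in (0:ℝ)..(2 * Real.pi), Real.log ‖(P.comp (X + C 1)).eval (circleMap 0 1 t)‖ := by
  have hpi := Real.pi_pos
  have hfin : IsFiniteMeasure μ := ⟨by rw [μ_univ]; exact ENNReal.ofReal_lt_top⟩
  obtain ⟨P, hP1, hP2, hP3⟩ := construct n (n+1) le_rfl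
  simp only [g_top, min_top_right] at hP3
  have hn : ‖P.coeff n‖ = 1 := by rw [hP1 n (by omega), Nat.choose_self, Nat.cast_one]
  have hdeg : P.natDegree = n := by
    apply le_antisymm
    · apply Polynomial.natDegree_le_iff_coeff_eq_zero.mpr
      intro j hj
      exact hP2 j hj
    · apply Polynomial.le_natDegree_of_ne_zero
      intro h
      rw [h, norm_zero] at hn
      norm_num at hn
  set u := P.coeff n with hu
  have hu0 : u ≠ 0 := by
    intro h; rw [h, norm_zero] at hn; norm_num at hn
  have hP0 : P ≠ 0 := by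
    intro h; apply hu0; rw [hu, h]; simp
  refine ⟨C u⁻¹ * P, ?_, ?_, ?_, ?_⟩
  · have : P.leadingCoeff = u := by rw [Polynomial.leadingCoeff, hdeg]
    rw [Polynomial.Monic, Polynomial.leadingCoeff_mul, Polynomial.leadingCoeff_C, this,
      inv_mul_cancel₀ hu0]
  · rw [Polynomial.natDegree_C_mul (inv_ne_zero hu0), hdeg]
  · intro j hj
    rw [Polynomial.coeff_C_mul, norm_mul, norm_inv, hn, inv_one, one_mul, hP1 j (by omega)]
  · -- the integral
    have hPle : ∀ j, ‖P.coeff j‖ ≤ n.choose j := by
      intro j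
      rcases Nat.lt_or_ge j (n+1) with h | h
      · rw [hP1 j h]
      · rw [hP2 j h, norm_zero]; positivity
    have heval : ∀ t, ‖((C u⁻¹ * P).comp (X + C 1)).eval (circleMap 0 1 t)‖ = ‖P.eval (zt t)‖ := by
      intro t
      rw [Polynomial.eval_comp]
      simp only [eval_add, eval_X, eval_C, eval_mul, norm_mul, norm_inv, hn, inv_one, one_mul]
      rw [zt, add_comm]
    simp only [heval]
    have hint : IntervalIntegrable (fun t => Real.log ‖P.eval (zt t)‖) volume 0 (2 * Real.pi) := by
      have := Polynomial.intervalIntegrable_mahlerMeasure (P.comp (X + C 1))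
      refine this.congr ?_
      intro t _
      simp only [eval_comp, eval_add, eval_X, eval_C]
      rw [zt, add_comm]
    have hle : ∀ t, Real.log ‖P.eval (zt t)‖ ≤ AA n := by
      intro t
      have h1 := eval_bound hPle (fun j hj => hP2 j (by omega)) (zt t)
      have h2 : (1 + ‖zt t‖) ^ n ≤ 3 ^ n := by
        apply pow_le_pow_left₀ (by positivity)
        linarith [norm_zt_le t]
      rcases eq_or_lt_of_le (norm_nonneg (P.eval (zt t))) with h3 | h3
      · rw [← h3, Real.log_zero]; exact AA_nonneg n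
      · rw [← Real.exp_le_exp, Real.exp_log h3, exp_AA]
        have : (0:ℝ) < 3 ^ n := by positivity
        linarith
    have hintI : Integrable (fun t => Real.log ‖P.eval (zt t)‖) μ :=
      (intervalIntegrable_iff_integrableOn_Ioc_of_le (by positivity)).mp hint
    have hI : Integrable (fun t => AA n - Real.log ‖P.eval (zt t)‖) μ :=
      (integrable_const _).sub hintI
    have hcont : Continuous (fun t => Real.log (1 + ‖zt t‖)) := by
      apply Continuous.log
      · have := continuous_zt; fun_prop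
      · intro t; positivity
    have hintK : IntervalIntegrable (fun t => Real.log (1 + ‖zt t‖)) volume 0 (2 * Real.pi) :=
      hcont.intervalIntegrable _ _
    have hintKI : Integrable (fun t => Real.log (1 + ‖zt t‖)) μ :=
      (intervalIntegrable_iff_integrableOn_Ioc_of_le (by positivity)).mp hintK
    have hI2 : Integrable (fun t => AA n + Real.log (n+1) - n * Real.log (1 + ‖zt t‖)) μ :=
      (integrable_const _).sub (hintKI.const_mul _)
    have hnn : ∀ t, 0 ≤ AA n + Real.log (n+1) - n * Real.log (1 + ‖zt t‖) := by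
      intro t
      have h2 : (1 + ‖zt t‖) ^ n ≤ 2 * 3 ^ n := by
        have : (1 + ‖zt t‖) ^ n ≤ 3 ^ n := by
          apply pow_le_pow_left₀ (by positivity)
          linarith [norm_zt_le t]
        have : (0:ℝ) < 3 ^ n := by positivity
        linarith
      have h3 : Real.log ((1 + ‖zt t‖) ^ n) ≤ AA n := Real.log_le_log (by positivity) h2
      rw [Real.log_pow] at h3
      have h4 : 0 ≤ Real.log ((n:ℝ)+1) := Real.log_nonneg (by
        have : (0:ℝ) ≤ n := Nat.cast_nonneg n
        linarith)
      linarith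
    have hkey : ENNReal.ofReal (∫ t, (AA n - Real.log ‖P.eval (zt t)‖) ∂μ) ≤
        ENNReal.ofReal (∫ t, (AA n + Real.log (n+1) - n * Real.log (1 + ‖zt t‖)) ∂μ) := by
      rw [ofReal_integral_eq_lintegral_ofReal hI
        (Filter.Eventually.of_forall fun t => by simp only [Pi.zero_apply]; linarith [hle t]),
        ofReal_integral_eq_lintegral_ofReal hI2 (Filter.Eventually.of_forall fun t => hnn t)]
      calc ∫⁻ t, ENNReal.ofReal (AA n - Real.log ‖P.eval (zt t)‖) ∂μ
          ≤ ∫⁻ t, N (AA n) (P.eval (zt t)) ∂μ := lintegral_mono fun t => ofReal_le_N _ _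
        _ ≤ ∫⁻ t, g n 0 t ∂μ := hP3
        _ ≤ _ := lintegral_mono fun t => g0_le n t
    have hnn2 : 0 ≤ ∫ t, (AA n + Real.log (n+1) - n * Real.log (1 + ‖zt t‖)) ∂μ :=
      integral_nonneg hnn
    have hkey2 := (ENNReal.ofReal_le_ofReal_iff hnn2).mp hkey
    rw [integral_sub (integrable_const _) hintI,
      integral_sub (integrable_const _) (hintKI.const_mul _), integral_const_mul] at hkey2
    simp only [integral_const, smul_eq_mul] at hkey2
    have hμr : μ.real univ = 2 * Real.pi := by
      rw [Measure.real, μ_univ, ENNReal.toReal_ofReal (by positivity)]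
    rw [hμr] at hkey2
    rw [intervalIntegral.integral_of_le (by positivity : (0:ℝ) ≤ 2 * Real.pi), IK,
      intervalIntegral.integral_of_le (by positivity : (0:ℝ) ≤ 2 * Real.pi)]
    linarith


/-- rotation invariance -/
theorem rot {w : ℂ} (hw : ‖w‖ = 1) :
    ∫ t in (0:ℝ)..(2 * Real.pi), Real.log (1 + ‖w + circleMap 0 1 t‖) = IK := by
  obtain ⟨η, hη⟩ : ∃ η : ℝ, w = circleMap 0 1 η := by
    refine ⟨w.arg, ?_⟩
    rw [circleMap, zero_add, Complex.ofReal_one, one_mul]
    have := Complex.norm_mul_exp_arg_mul_I w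
    rw [hw] at this
    simpa using this.symm
  have h1 : ∀ t, Real.log (1 + ‖w + circleMap 0 1 t‖) = Real.log (1 + ‖zt (t - η)‖) := by
    intro t
    have h2 : w + circleMap 0 1 t = w * zt (t - η) := by
      rw [zt, hη]
      simp only [circleMap, zero_add, Complex.ofReal_one, one_mul]
      rw [mul_add, mul_one, ← Complex.exp_add]
      congr 2
      push_cast
      ring
    rw [h2, norm_mul, hw, one_mul]
  simp only [h1]
  rw [intervalIntegral.integral_comp_sub_right (fun t => Real.log (1 + ‖zt t‖)) η, IK]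
  have hper : Function.Periodic (fun t => Real.log (1 + ‖zt t‖)) (2 * Real.pi) := by
    intro t
    simp only [zt]
    rw [periodic_circleMap 0 1 t]
  have := hper.intervalIntegral_add_eq (0 - η) 0
  rw [zero_add] at this
  rw [← this]
  congr 1
  ring

theorem one_le_bomb {p : ℂ[X]} (hp : p.Monic) : 1 ≤ bomb p := by
  unfold bomb
  refine le_trans ?_ (Finset.le_sup' (fun j => ‖p.coeff j‖ / (p.natDegree.choose j : ℝ))
    (Finset.mem_range.mpr (Nat.lt_succ_self p.natDegree)))
  rw [hp.coeff_natDegree]
  simp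

theorem coeff_le_bomb (p : ℂ[X]) (j : ℕ) (hj : j ≤ p.natDegree) :
    ‖p.coeff j‖ ≤ bomb p * (p.natDegree.choose j) := by
  have h1 : ‖p.coeff j‖ / (p.natDegree.choose j : ℝ) ≤ bomb p :=
    Finset.le_sup' (fun j => ‖p.coeff j‖ / (p.natDegree.choose j : ℝ))
      (Finset.mem_range.mpr (by omega))
  have h2 : (0:ℝ) < p.natDegree.choose j := by
    exact_mod_cast Nat.choose_pos hj
  rwa [div_le_iff₀ h2] at h1

theorem eval_le_bomb (p : ℂ[X]) (z : ℂ) : ‖p.eval z‖ ≤ bomb p * (1 + ‖z‖) ^ p.natDegree := by
  rw [Polynomial.eval_eq_sum_range]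
  refine le_trans (norm_sum_le _ _) ?_
  rw [← sum_choose, Finset.mul_sum]
  apply Finset.sum_le_sum
  intro j hj
  rw [norm_mul, norm_pow, ← mul_assoc]
  exact mul_le_mul_of_nonneg_right (coeff_le_bomb p j (by simpa using Nat.lt_succ_iff.mp (Finset.mem_range.mp hj))) (by positivity)

/-- the upper bound on the circle -/
theorem upper_circle {p q : ℂ[X]} (hp : p.Monic) (hq : q.Monic) (hqp : q ∣ p) {w : ℂ}
    (hw : ‖w‖ = 1) : ‖q.eval w‖ ≤ K ^ p.natDegree * bomb p := by
  have hpi := Real.pi_pos
  obtain ⟨r, hr⟩ := hqp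
  have hb : 0 < bomb p := lt_of_lt_of_le one_pos (one_le_bomb hp)
  have hrm : r.Monic := Polynomial.Monic.of_mul_monic_left hq (hr ▸ hp)
  set P := p.comp (X + C w) with hP
  set Q := q.comp (X + C w) with hQ
  set R := r.comp (X + C w) with hR
  have hPQR : P = Q * R := by rw [hP, hr, Polynomial.mul_comp]
  have hPm : P.Monic := hp.comp_X_add_C w
  have hRm : R.Monic := hrm.comp_X_add_C w
  have h1 : ‖q.eval w‖ ≤ Q.mahlerMeasure := by
    have h2 := Polynomial.norm_coeff_le_choose_mul_mahlerMeasure 0 Q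
    have h3 : Q.coeff 0 = q.eval w := by
      rw [Polynomial.coeff_zero_eq_eval_zero, hQ, Polynomial.eval_comp]
      simp
    rw [h3, Nat.choose_zero_right, Nat.cast_one, one_mul] at h2
    exact h2
  have h2 : Q.mahlerMeasure ≤ P.mahlerMeasure := by
    rw [hPQR, Polynomial.mahlerMeasure_mul]
    have h3 : 1 ≤ R.mahlerMeasure :=
      Polynomial.one_le_mahlerMeasure_of_one_le_norm_leadingCoeff (by
        rw [hRm.leadingCoeff]; simp)
    exact le_mul_of_one_le_right (Polynomial.mahlerMeasure_nonneg Q) h3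
  have h3 : P.mahlerMeasure ≤ K ^ p.natDegree * bomb p := by
    rw [Polynomial.mahlerMeasure_def_of_ne_zero hPm.ne_zero]
    rw [← Real.exp_log (show 0 < K ^ p.natDegree * bomb p by
      have := K_pos; positivity)]
    apply Real.exp_le_exp.mpr
    rw [Real.log_mul (by have := K_pos; positivity) hb.ne', Real.log_pow, logK]
    have h4 : ∫ t in (0:ℝ)..(2 * Real.pi), Real.log ‖P.eval (circleMap 0 1 t)‖ ≤
        ∫ t in (0:ℝ)..(2 * Real.pi),
          (Real.log (bomb p) + p.natDegree * Real.log (1 + ‖w + circleMap 0 1 t‖)) := by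
      apply intervalIntegral.integral_mono (by positivity)
        (Polynomial.intervalIntegrable_mahlerMeasure P)
      · apply Continuous.intervalIntegrable
        apply Continuous.add continuous_const
        apply Continuous.mul continuous_const
        apply Continuous.log (by fun_prop)
        intro t; positivity
      · intro t
        simp only
        have h5 : ‖P.eval (circleMap 0 1 t)‖ ≤ bomb p * (1 + ‖w + circleMap 0 1 t‖) ^ p.natDegree := by
          have := eval_le_bomb p (w + circleMap 0 1 t)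
          rw [hP, Polynomial.eval_comp]
          simp only [eval_add, eval_X, eval_C]
          rwa [add_comm (circleMap 0 1 t) w]
        have h6 : Real.log (bomb p) + p.natDegree * Real.log (1 + ‖w + circleMap 0 1 t‖) =
            Real.log (bomb p * (1 + ‖w + circleMap 0 1 t‖) ^ p.natDegree) := by
          rw [Real.log_mul hb.ne' (by positivity), Real.log_pow]
        rw [h6]
        rcases eq_or_lt_of_le (norm_nonneg (P.eval (circleMap 0 1 t))) with h7 | h7
        · rw [← h7, Real.log_zero]
          apply Real.log_nonneg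
          have h8 : (1:ℝ) ≤ (1 + ‖w + circleMap 0 1 t‖) ^ p.natDegree := by
            apply one_le_pow₀
            linarith [norm_nonneg (w + circleMap 0 1 t)]
          nlinarith [one_le_bomb hp]
        · exact Real.log_le_log h7 h5
    rw [intervalIntegral.integral_add (by simp) (by
        apply Continuous.intervalIntegrable
        apply Continuous.mul continuous_const
        apply Continuous.log (by fun_prop)
        intro t; positivity), intervalIntegral.integral_const, intervalIntegral.integral_const_mul,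
      rot hw, smul_eq_mul, sub_zero] at h4
    calc (2 * Real.pi)⁻¹ * ∫ t in (0:ℝ)..(2 * Real.pi), Real.log ‖P.eval (circleMap 0 1 t)‖
        ≤ (2 * Real.pi)⁻¹ * (2 * Real.pi * Real.log (bomb p) + p.natDegree * IK) := by
          apply mul_le_mul_of_nonneg_left h4 (by positivity)
      _ = p.natDegree * ((2 * Real.pi)⁻¹ * IK) + Real.log (bomb p) := by
          field_simp
          ring
  exact h1.trans (h2.trans h3)

/-- the upper bound on the disc -/
theorem upper_disc {p q : ℂ[X]} (hp : p.Monic) (hq : q.Monic) (hqp : q ∣ p) {z : ℂ}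
    (hz : ‖z‖ ≤ 1) : ‖q.eval z‖ ≤ K ^ p.natDegree * bomb p := by
  apply Complex.norm_le_of_forall_mem_frontier_norm_le (U := Metric.ball 0 1)
    (f := fun z => q.eval z) Metric.isBounded_ball q.differentiable.diffContOnCl
  · intro w hw
    rw [frontier_ball (0:ℂ) one_ne_zero, mem_sphere_zero_iff_norm] at hw
    exact upper_circle hp hq hqp hw
  · rw [closure_ball (0:ℂ) one_ne_zero, mem_closedBall_zero_iff]
    exact hz

theorem diskNorm_le {p q : ℂ[X]} (hp : p.Monic) (hq : q.Monic) (hqp : q ∣ p) :
    diskNorm q ≤ K ^ p.natDegree * bomb p := by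
  have : Nonempty (Metric.closedBall (0:ℂ) 1) := ⟨⟨0, by simp⟩⟩
  apply ciSup_le
  intro z
  exact upper_disc hp hq hqp (mem_closedBall_zero_iff.mp z.2)

theorem le_diskNorm (q : ℂ[X]) {z : ℂ} (hz : ‖z‖ ≤ 1) : ‖q.eval z‖ ≤ diskNorm q := by
  have hbdd : BddAbove (Set.range fun z : Metric.closedBall (0:ℂ) 1 => ‖q.eval (z:ℂ)‖) := by
    have hcomp : CompactSpace (Metric.closedBall (0:ℂ) 1) :=
      isCompact_iff_compactSpace.mp (isCompact_closedBall _ _)
    apply IsCompact.bddAbove
    apply isCompact_range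
    have := q.continuous
    fun_prop
  exact le_ciSup hbdd ⟨z, by simpa using hz⟩

theorem prod_max_eq (m : Multiset ℂ) [DecidablePred fun a : ℂ => 1 < ‖a - 1‖] :
    (m.map fun a => max 1 ‖a - 1‖).prod =
      ‖(((m.filter fun a => 1 < ‖a - 1‖).map fun a => X - C a).prod).eval 1‖ := by
  induction m using Multiset.induction_on with
  | empty => simp
  | cons a m ih =>
    rw [Multiset.map_cons, Multiset.prod_cons, ih]
    by_cases h : 1 < ‖a - 1‖
    · rw [Multiset.filter_cons_of_pos (p := fun a : ℂ => 1 < ‖a - 1‖) m h, Multiset.map_cons, Multiset.prod_cons,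
        Polynomial.eval_mul, norm_mul, max_eq_right h.le]
      congr 1
      rw [eval_sub, eval_X, eval_C, norm_sub_rev]
    · rw [Multiset.filter_cons_of_neg (p := fun a : ℂ => 1 < ‖a - 1‖) m h, max_eq_left (not_lt.mp h), one_mul]

/-- the lower bound -/
theorem lower (n : ℕ) : ∃ p q : ℂ[X], p.Monic ∧ p.natDegree = n ∧ q.Monic ∧ q ∣ p ∧
    bomb p = 1 ∧ K ^ n / (n + 1) ≤ diskNorm q := by
  classical
  have hpi := Real.pi_pos
  obtain ⟨p, hpm, hpd, hpc, hint⟩ := exists_poly n
  have hsplit : p = (p.roots.map fun a => X - C a).prod := by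
    have := (IsAlgClosed.splits p).eq_prod_roots
    rw [hpm.leadingCoeff, C_1, one_mul] at this
    exact this
  set s := p.roots.filter (fun a => 1 < ‖a - 1‖) with hs
  set q := (s.map fun a => X - C a).prod with hq
  have hqm : q.Monic := by
    apply Polynomial.monic_multiset_prod_of_monic
    intro a _
    exact Polynomial.monic_X_sub_C a
  have hqp : q ∣ p := by
    conv_rhs => rw [hsplit]
    exact Multiset.prod_dvd_prod_of_le (Multiset.map_le_map (Multiset.filter_le _ _))
  have hbomb : bomb p = 1 := by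
    unfold bomb
    apply le_antisymm
    · apply Finset.sup'_le
      intro j hj
      rw [Finset.mem_range, hpd] at hj
      rw [hpd, hpc j (by omega)]
      exact div_self_le_one _
    · exact one_le_bomb hpm
  refine ⟨p, q, hpm, hpd, hqm, hqp, hbomb, ?_⟩
  -- Mahler measure of `p (x + 1)`
  set P := p.comp (X + C 1) with hP
  have hPm : P.Monic := hpm.comp_X_add_C 1
  have hPprod : P = (p.roots.map fun a => X - C (a - 1)).prod := by
    rw [hP]
    conv_lhs => rw [hsplit]
    rw [Polynomial.multiset_prod_comp, Multiset.map_map]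
    congr 1
    apply Multiset.map_congr rfl
    intro a _
    simp only [Function.comp_apply, sub_comp, X_comp, C_comp, C_sub]
    ring
  have hM1 : P.mahlerMeasure = (p.roots.map fun a => max 1 ‖a - 1‖).prod := by
    rw [hPprod, Polynomial.prod_mahlerMeasure_eq_mahlerMeasure_prod, Multiset.map_map]
    congr 1
    apply Multiset.map_congr rfl
    intro a _
    exact Polynomial.mahlerMeasure_X_sub_C _
  have hM2 : (p.roots.map fun a => max 1 ‖a - 1‖).prod = ‖q.eval 1‖ := by
    rw [hq, hs]
    exact prod_max_eq _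
  have hM3 : K ^ n / (n + 1) ≤ P.mahlerMeasure := by
    rw [Polynomial.mahlerMeasure_def_of_ne_zero hPm.ne_zero]
    have h1 : K ^ n / ((n:ℝ) + 1) = Real.exp ((2 * Real.pi)⁻¹ *
        (n * IK - 2 * Real.pi * Real.log (n+1))) := by
      have h2 : (2 * Real.pi)⁻¹ * (n * IK - 2 * Real.pi * Real.log (n+1)) =
          n * Real.log K - Real.log (n + 1) := by
        rw [logK]
        field_simp
      rw [h2, Real.exp_sub, Real.exp_log (by positivity), ← Real.log_pow,
        Real.exp_log (by have := K_pos; positivity)]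
    rw [h1]
    apply Real.exp_le_exp.mpr
    apply mul_le_mul_of_nonneg_left hint (by positivity)
  calc K ^ n / (n + 1) ≤ P.mahlerMeasure := hM3
    _ = ‖q.eval 1‖ := by rw [hM1, hM2]
    _ ≤ diskNorm q := le_diskNorm q (by simp)

end Pool.Agent.Helper7.BombB
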