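import Mathlib

set_option autoImplicit false

namespace Pool.Agent.Helper7.KummerTree

open Finset

variable {X : Type*}

/-- A complete binary decision tree of depth `d` with labels in `Y`, all of whose branches are
realised by functions in `F`. -/
def Tr : ℕ → Set X → Set (X → Bool) → Prop
  | 0, _, F => F.Nonempty
  | (d+1), Y, F => ∃ x ∈ Y, Tr d Y {f | f ∈ F ∧ f x = false} ∧ Tr d Y {f | f ∈ F ∧ f x = true}

theorem Tr.mono {d : ℕ} {Y Y' : Set X} {F F' : Set (X → Bool)} (hY : Y ⊆ Y') (hF : F ⊆ F')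
    (h : Tr d Y F) : Tr d Y' F' := by
  induction d generalizing F F' with
  | zero => exact Set.Nonempty.mono hF h
  | succ d ih =>
    obtain ⟨x, hx, h0, h1⟩ := h
    exact ⟨x, hY hx, ih (fun f hf => ⟨hF hf.1, hf.2⟩) h0, ih (fun f hf => ⟨hF hf.1, hf.2⟩) h1⟩

theorem Tr.pred {d : ℕ} {Y : Set X} {F : Set (X → Bool)} (h : Tr (d+1) Y F) : Tr d Y F := by
  obtain ⟨x, hx, h0, h1⟩ := h
  exact h0.mono subset_rfl (fun f hf => hf.1)

theorem Tr.le {d e : ℕ} {Y : Set X} {F : Set (X → Bool)} (hde : e ≤ d) (h : Tr d Y F) :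
    Tr e Y F := by
  induction d with
  | zero =>
    have : e = 0 := by omega
    subst this
    exact h
  | succ d ih =>
    rcases Nat.lt_or_ge d e with h1 | h1
    · have : e = d + 1 := by omega
      subst this
      exact h
    · exact ih h1 h.pred

theorem Tr.nonempty {d : ℕ} {Y : Set X} {F : Set (X → Bool)} (h : Tr d Y F) : F.Nonempty :=
  h.le (Nat.zero_le d)

/-- colouring the leaves -/
theorem Tr.leaf_split {a b : ℕ} {Y : Set X} {F : Set (X → Bool)} (x : X) (h : Tr (a+b) Y F) :
    Tr a Y {f | f ∈ F ∧ f x = false} ∨ Tr b Y {f | f ∈ F ∧ f x = true} := by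
  induction a generalizing b F with
  | zero =>
    by_cases hne : ({f | f ∈ F ∧ f x = false} : Set (X → Bool)).Nonempty
    · exact Or.inl hne
    · right
      rw [Nat.zero_add] at h
      refine h.mono subset_rfl fun f hf => ⟨hf, ?_⟩
      by_contra hc
      exact hne ⟨f, hf, by simpa using hc⟩
  | succ a ih =>
    have h' : Tr ((a + b) + 1) Y F := by
      have : a + 1 + b = a + b + 1 := by ring
      rw [← this]; exact h
    obtain ⟨y, hy, h0, h1⟩ := h'
    rcases ih h0 with h0 | h0
    · rcases ih h1 with h1 | h1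
      · left
        refine ⟨y, hy, h0.mono subset_rfl ?_, h1.mono subset_rfl ?_⟩
        · rintro f ⟨⟨hf, hfy⟩, hfx⟩
          exact ⟨⟨hf, hfx⟩, hfy⟩
        · rintro f ⟨⟨hf, hfy⟩, hfx⟩
          exact ⟨⟨hf, hfx⟩, hfy⟩
      · right
        refine h1.mono subset_rfl ?_
        rintro f ⟨⟨hf, hfy⟩, hfx⟩
        exact ⟨hf, hfx⟩
    · right
      refine h0.mono subset_rfl ?_
      rintro f ⟨⟨hf, hfy⟩, hfx⟩
      exact ⟨hf, hfx⟩

/-- colouring the nodes -/
theorem Tr.node_split {a b : ℕ} {Y : Set X} {F : Set (X → Bool)} (t : X → Bool)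
    (h : Tr (a+b) Y F) :
    Tr a {y | y ∈ Y ∧ t y = false} F ∨ Tr b {y | y ∈ Y ∧ t y = true} F := by
  induction hn : a + b generalizing a b F with
  | zero =>
    left
    have ha : a = 0 := by omega
    subst ha
    exact h.nonempty
  | succ m ih =>
    rw [hn] at h
    obtain ⟨y, hy, h0, h1⟩ := h
    cases hty : t y with
    | false =>
      cases a with
      | zero => exact Or.inl (h0.nonempty.mono fun f hf => hf.1)
      | succ a =>
        have hm : a + b = m := by omega
        rcases ih (a := a) (b := b) (by rw [hm]; exact h0) hm with h2 | h2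
        · rcases ih (a := a) (b := b) (by rw [hm]; exact h1) hm with h3 | h3
          · exact Or.inl ⟨y, ⟨hy, hty⟩, h2, h3⟩
          · exact Or.inr (h3.mono subset_rfl fun f hf => hf.1)
        · exact Or.inr (h2.mono subset_rfl fun f hf => hf.1)
    | true =>
      cases b with
      | zero => exact Or.inr (h0.nonempty.mono fun f hf => hf.1)
      | succ b =>
        have hm : a + b = m := by omega
        rcases ih (a := a) (b := b) (by rw [hm]; exact h0) hm with h2 | h2
        · exact Or.inl (h2.mono subset_rfl fun f hf => hf.1)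
        · rcases ih (a := a) (b := b) (by rw [hm]; exact h1) hm with h3 | h3
          · exact Or.inl (h3.mono subset_rfl fun f hf => hf.1)
          · exact Or.inr ⟨y, ⟨hy, hty⟩, h2, h3⟩

/-- number of `w j` on which `f` is true -/
def cnt {n : ℕ} (f : X → Bool) (w : Fin n → X) : ℕ := ∑ j, (f (w j)).toNat

theorem cnt_cons {n : ℕ} (f : X → Bool) (x : X) (w : Fin n → X) :
    cnt f (Fin.cons x w : Fin (n+1) → X) = (f x).toNat + cnt f w := by
  simp [cnt, Fin.sum_univ_succ]

theorem cnt_all_true {n : ℕ} {f : X → Bool} {w : Fin n → X} (h : ∀ j, f (w j) = true) :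
    cnt f w = n := by
  simp [cnt, h]

theorem cnt_all_false {n : ℕ} {f : X → Bool} {w : Fin n → X} (h : ∀ j, f (w j) = false) :
    cnt f w = 0 := by
  simp [cnt, h]

theorem all_false_of_cnt {n : ℕ} {f : X → Bool} {w : Fin n → X} (h : cnt f w = 0) (j : Fin n) :
    f (w j) = false := by
  unfold cnt at h
  rw [Finset.sum_eq_zero_iff] at h
  have := h j (mem_univ j)
  cases hf : f (w j) with
  | false => rfl
  | true => rw [hf] at this; simp at this

theorem all_true_of_cnt {n : ℕ} {f : X → Bool} {w : Fin n → X} (h : cnt f w = n) (j : Fin n) :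
    f (w j) = true := by
  by_contra hc
  have hc : f (w j) = false := by simpa using hc
  have h1 : cnt f w < ∑ _j : Fin n, 1 := by
    unfold cnt
    apply Finset.sum_lt_sum
    · intro i _
      cases f (w i) <;> simp
    · exact ⟨j, mem_univ j, by rw [hc]; simp⟩
  simp at h1
  omega

/-- `n` distinct labels on which all the counts `0, …, n` are realised -/
def Good (n : ℕ) (Y : Set X) (F : Set (X → Bool)) : Prop :=
  ∃ w : Fin n → X, Function.Injective w ∧ (∀ j, w j ∈ Y) ∧ ∀ i ≤ n, ∃ f ∈ F, cnt f w = i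

theorem Good.mono {n : ℕ} {Y Y' : Set X} {F F' : Set (X → Bool)} (hY : Y ⊆ Y') (hF : F ⊆ F')
    (h : Good n Y F) : Good n Y' F' := by
  obtain ⟨w, hw, hwY, hc⟩ := h
  exact ⟨w, hw, fun j => hY (hwY j), fun i hi => by
    obtain ⟨f, hf, h⟩ := hc i hi
    exact ⟨f, hF hf, h⟩⟩

theorem cons_injective {n : ℕ} {x : X} {w : Fin n → X} (hw : Function.Injective w)
    (hx : ∀ j, w j ≠ x) : Function.Injective (Fin.cons x w : Fin (n+1) → X) := by
  rw [Fin.cons_injective_iff]
  refine ⟨?_, hw⟩
  rintro ⟨j, hj⟩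
  exact hx j hj

/-- shrinking the labels of the right part with respect to a leaf of the left part -/
theorem shrink {n r a : ℕ} {Y Y' : Set X} {F G : Set (X → Bool)}
    (hr : ∀ (Y : Set X) (F : Set (X → Bool)), Tr r Y F → Good n Y F)
    (hY : Y' ⊆ Y) (hG : G ⊆ F) {s : X} (hs : s ∈ Y) {t : X → Bool} (ht : t ∈ F)
    (hts : t s = false) (hGs : ∀ g ∈ G, g s = true) (h : Tr (r + a) Y' G) :
    Good (n+1) Y F ∨ Tr a {y | y ∈ Y' ∧ t y = true} G := by
  rcases h.node_split t with h1 | h1
  · left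
    obtain ⟨w, hw, hwY, hc⟩ := hr _ _ h1
    obtain ⟨f0, hf0, hf0c⟩ := hc 0 (Nat.zero_le n)
    refine ⟨Fin.cons s w, cons_injective hw ?_, ?_, ?_⟩
    · intro j hj
      have h2 := all_false_of_cnt hf0c j
      rw [hj, hGs f0 hf0] at h2
      exact absurd h2 (by simp)
    · intro j
      refine Fin.cases hs (fun i => hY (hwY i).1) j
    · intro i hi
      rcases Nat.eq_zero_or_pos i with h0 | h0
      · subst h0
        refine ⟨t, ht, ?_⟩
        rw [cnt_cons, hts, cnt_all_false fun j => (hwY j).2]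
        rfl
      · obtain ⟨f, hf, hfc⟩ := hc (i-1) (by omega)
        refine ⟨f, hG hf, ?_⟩
        rw [cnt_cons, hGs f hf, hfc]
        simp
        omega
  · exact Or.inr h1

/-- finding a label of the left part which is false on a big subtree of the right part -/
theorem find_label {n a : ℕ} {Y Y'' : Set X} {F Gl Gr : Set (X → Bool)}
    (hl : Gl ⊆ F) {s : X} (hs : s ∈ Y) (hls : ∀ g ∈ Gl, g s = false)
    {w : Fin n → X} (hw : Function.Injective w) (hwY : ∀ j, w j ∈ Y)
    (hc : ∀ i ≤ n, ∃ f ∈ Gl, cnt f w = i)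
    (hrF : Gr ⊆ F) (hrs : ∀ g ∈ Gr, g s = true) (h : Tr (n * a) Y'' Gr) :
    Good (n+1) Y F ∨ ∃ j, Tr a Y'' {g | g ∈ Gr ∧ g (w j) = false} := by
  by_cases hex : ∃ j, Tr a Y'' {g | g ∈ Gr ∧ g (w j) = false}
  · exact Or.inr hex
  left
  have key : ∀ m : ℕ, m ≤ n → Tr ((n - m) * a) Y'' {g | g ∈ Gr ∧ ∀ j : Fin n, j.1 < m → g (w j) = true} := by
    intro m
    induction m with
    | zero =>
      intro _
      simpa using h
    | succ m ih =>
      intro hm
      have h1 := ih (by omega)
      have h2 : (n - m) * a = a + (n - (m+1)) * a := by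
        have : n - m = (n - (m+1)) + 1 := by omega
        rw [this]; ring
      rw [h2] at h1
      rcases h1.leaf_split (w ⟨m, hm⟩) with h3 | h3
      · exact absurd ⟨⟨m, hm⟩, h3.mono subset_rfl fun g hg => ⟨hg.1.1, hg.2⟩⟩ hex
      · refine h3.mono subset_rfl fun g hg => ⟨hg.1.1, fun j hj => ?_⟩
        rcases Nat.lt_or_ge j.1 m with h4 | h4
        · exact hg.1.2 j h4
        · have : j = ⟨m, hm⟩ := Fin.ext (by simp; omega)
          rw [this]; exact hg.2
  obtain ⟨g, hg, hgw⟩ := (key n le_rfl).nonempty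
  obtain ⟨f1, hf1, hf1c⟩ := hc n le_rfl
  refine ⟨Fin.cons s w, cons_injective hw ?_, ?_, ?_⟩
  · intro j hj
    have h2 := all_true_of_cnt hf1c j
    rw [hj, hls f1 hf1] at h2
    exact absurd h2 (by simp)
  · intro j
    refine Fin.cases hs (fun i => hwY i) j
  · intro i hi
    rcases Nat.lt_or_ge n i with h0 | h0
    · have : i = n + 1 := by omega
      subst this
      refine ⟨g, hrF hg, ?_⟩
      rw [cnt_cons, hrs g hg, cnt_all_true fun j => hgw j j.2]
      simp
      omega
    · obtain ⟨f, hf, hfc⟩ := hc i h0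
      refine ⟨f, hl hf, ?_⟩
      rw [cnt_cons, hls f hf, hfc]
      simp

/-- the threshold pattern -/
def Pattern (m : ℕ) (Y : Set X) (F : Set (X → Bool)) : Prop :=
  ∃ (w : Fin m → X) (t : Fin (m+1) → (X → Bool)), (∀ j, w j ∈ Y) ∧ (∀ i, t i ∈ F) ∧
    ∀ i j, t i (w j) = decide (i.1 ≤ j.1)

theorem pattern_step {n r : ℕ}
    (hr : ∀ (Y : Set X) (F : Set (X → Bool)), Tr r Y F → Good n Y F) (m : ℕ) :
    ∃ D : ℕ, ∀ (Y : Set X) (F : Set (X → Bool)), Tr D Y F → Good (n+1) Y F ∨ Pattern m Y F := by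
  induction m with
  | zero =>
    refine ⟨0, fun Y F h => Or.inr ?_⟩
    obtain ⟨f, hf⟩ := h.nonempty
    exact ⟨Fin.elim0, fun _ => f, fun j => j.elim0, fun _ => hf, fun i j => j.elim0⟩
  | succ m ih =>
    obtain ⟨D, hD⟩ := ih
    refine ⟨(r + ((r + n * D) + 1)) + 1, fun Y F h => ?_⟩
    obtain ⟨s, hs, hl, hrt⟩ := h
    obtain ⟨t0, ht0, ht0s⟩ := hl.nonempty
    rcases shrink hr (subset_rfl : Y ⊆ Y) (G := {f | f ∈ F ∧ f s = true}) (fun f hf => hf.1) hs ht0
      ht0s (fun g hg => hg.2) hrt with h1 | h1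
    · exact Or.inl h1
    set Y1 : Set X := {y | y ∈ Y ∧ t0 y = true} with hY1
    have hY1Y : Y1 ⊆ Y := fun y hy => hy.1
    obtain ⟨s', hs', hl', hr'⟩ := h1
    obtain ⟨w, hw, hwY, hc⟩ := hr _ _ (hl'.le (by omega : r ≤ r + n * D))
    rcases find_label (Y := Y) (F := F)
      (Gl := {f | f ∈ ({f | f ∈ F ∧ f s = true} : Set (X → Bool)) ∧ f s' = false})
      (Gr := {f | f ∈ ({f | f ∈ F ∧ f s = true} : Set (X → Bool)) ∧ f s' = true})
      (fun f hf => hf.1.1) (hY1Y hs') (fun g hg => hg.2) hw (fun j => hY1Y (hwY j)) hc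
      (fun f hf => hf.1.1) (fun g hg => hg.2) (hr'.le (by omega : n * D ≤ r + n * D)) with h2 | ⟨j0, h2⟩
    · exact Or.inl h2
    rcases hD _ _ h2 with h3 | h3
    · exact Or.inl (h3.mono hY1Y fun f hf => hf.1.1.1)
    · right
      obtain ⟨w', t', hw', ht', hp⟩ := h3
      refine ⟨Fin.cons (w j0) w', Fin.cons t0 t', ?_, ?_, ?_⟩
      · intro j
        refine Fin.cases (hY1Y (hwY j0)) (fun i => hY1Y (hw' i)) j
      · intro i
        refine Fin.cases ht0 (fun i => (ht' i).1.1.1) i
      · intro i j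
        refine Fin.cases ?_ (fun i => ?_) i
        · refine Fin.cases ?_ (fun j => ?_) j
          · simp only [Fin.cons_zero]
            rw [(hwY j0).2]
            simp
          · simp only [Fin.cons_zero, Fin.cons_succ]
            rw [(hw' j).2]
            simp
        · refine Fin.cases ?_ (fun j => ?_) j
          · simp only [Fin.cons_zero, Fin.cons_succ]
            rw [(ht' i).2]
            simp
          · simp only [Fin.cons_succ]
            rw [hp i j]
            simp

theorem pattern_good {n : ℕ} {Y : Set X} {F : Set (X → Bool)} (h : Pattern n Y F) :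
    Good n Y F := by
  obtain ⟨w, t, hw, ht, hp⟩ := h
  refine ⟨w, ?_, hw, ?_⟩
  · have key : ∀ j k : Fin n, j < k → w j ≠ w k := by
      intro j k hjk he
      have h1 := hp ⟨j.1+1, by omega⟩ j
      have h2 := hp ⟨j.1+1, by omega⟩ k
      rw [he, h2] at h1
      have : j.1 + 1 ≤ k.1 := hjk
      simp [this] at h1
    intro j k he
    rcases lt_trichotomy j k with h1 | h1 | h1
    · exact absurd he (key j k h1)
    · exact h1
    · exact absurd he.symm (key k j h1)
  · intro i hi
    refine ⟨t ⟨n - i, by omega⟩, ht _, ?_⟩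
    unfold cnt
    have h1 : ∀ j : Fin n, (t ⟨n - i, by omega⟩ (w j)).toNat = if n - i ≤ j.1 then 1 else 0 := by
      intro j
      rw [hp]
      by_cases h : n - i ≤ j.1 <;> simp [h]
    rw [Finset.sum_congr rfl fun j _ => h1 j]
    rw [Fin.sum_univ_eq_sum_range (fun j => if n - i ≤ j then 1 else 0) n]
    rw [← Finset.sum_filter]
    simp only [Finset.sum_const, smul_eq_mul, mul_one]
    have : (Finset.range n).filter (fun j => n - i ≤ j) = Finset.Ico (n - i) n := by
      ext j
      simp [Finset.mem_Ico, and_comm]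
    rw [this, Nat.card_Ico]
    omega

/-- Kummer's tree lemma. -/
theorem kummer (n : ℕ) : ∃ R : ℕ, ∀ (Y : Set X) (F : Set (X → Bool)), Tr R Y F → Good n Y F := by
  induction n with
  | zero =>
    refine ⟨0, fun Y F h => ?_⟩
    obtain ⟨f, hf⟩ := h.nonempty
    refine ⟨Fin.elim0, fun i => i.elim0, fun i => i.elim0, fun i hi => ⟨f, hf, ?_⟩⟩
    have : i = 0 := by omega
    subst this
    simp [cnt]
  | succ n ih =>
    obtain ⟨r, hr⟩ := ih
    obtain ⟨D, hD⟩ := pattern_step hr (n+1)
    exact ⟨D, fun Y F h => (hD Y F h).elim id pattern_good⟩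

end Pool.Agent.Helper7.KummerTree
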