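import Mathlib
import Pool.Agent.Helper7.KummerTree

set_option autoImplicit false

namespace Pool.Agent.Helper7.CardAutomata

open Finset Pool.Agent.Helper7.KummerTree

variable {α : Type} {Q : Type} {n : ℕ}

/-- step function which ignores all-blank letters -/
noncomputable def step' (step : Q → (Fin n → Option α) → Q) (q : Q) (a : Fin n → Option α) : Q :=
  open Classical in if (∀ j, a j = none) then q else step q a

/-- state after reading `N` (padded) letters -/
noncomputable def st (step : Q → (Fin n → Option α) → Q) (start : Q) (w : Fin n → List α) : ℕ → Q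
  | 0 => start
  | N+1 => step' step (st step start w N) (fun j => (w j)[N]?)

/-- the final state of the run -/
def run (step : Q → (Fin n → Option α) → Q) (start : Q) (w : Fin n → List α) : Q :=
  List.foldl step start
    ((List.range (Finset.univ.sup fun j => (w j).length)).map fun i j => (w j)[i]?)

variable (step : Q → (Fin n → Option α) → Q) (start : Q)

theorem st_eq_foldl (w : Fin n → List α) (N : ℕ)
    (hN : N ≤ Finset.univ.sup fun j => (w j).length) :
    st step start w N = List.foldl step start ((List.range N).map fun i j => (w j)[i]?) := by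
  induction N with
  | zero => rfl
  | succ N ih =>
    rw [st, ih (by omega), List.range_succ, List.map_append, List.foldl_append]
    simp only [List.map_cons, List.map_nil, List.foldl_cons, List.foldl_nil]
    unfold step'
    rw [if_neg]
    intro h
    have h1 : (Finset.univ.sup fun j => (w j).length) ≤ N := by
      apply Finset.sup_le
      intro j _
      have := h j
      rw [List.getElem?_eq_none_iff] at this
      exact this
    omega

theorem st_stable (w : Fin n → List α) (N : ℕ) (hN : ∀ j, (w j).length ≤ N) (M : ℕ) :
    st step start w (N + M) = st step start w N := by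
  induction M with
  | zero => rfl
  | succ M ih =>
    rw [← Nat.add_assoc, st, ih]
    unfold step'
    rw [if_pos]
    intro j
    rw [List.getElem?_eq_none_iff]
    have := hN j
    omega

theorem run_eq (w : Fin n → List α) (N : ℕ) (hN : ∀ j, (w j).length ≤ N) :
    run step start w = st step start w N := by
  set L := Finset.univ.sup fun j => (w j).length with hL
  have h1 : run step start w = st step start w L := (st_eq_foldl step start w L le_rfl).symm
  have h2 : L ≤ N := Finset.sup_le fun j _ => hN j
  have h3 : ∀ j, (w j).length ≤ L := fun j =>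
    Finset.le_sup (f := fun j => (w j).length) (mem_univ j)
  obtain ⟨M, rfl⟩ := Nat.exists_eq_add_of_le h2
  rw [h1, st_stable step start w L h3]

theorem st_take (w w' : Fin n → List α) (N : ℕ) (h : ∀ j, (w j).take N = (w' j).take N) :
    ∀ M ≤ N, st step start w M = st step start w' M := by
  intro M
  induction M with
  | zero => intro _; rfl
  | succ M ih =>
    intro hM
    rw [st, st, ih (by omega)]
    congr 1
    funext j
    have h1 : (w j)[M]? = ((w j).take N)[M]? := by
      rw [List.getElem?_take_of_lt (by omega)]
    have h2 : (w' j)[M]? = ((w' j).take N)[M]? := by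
      rw [List.getElem?_take_of_lt (by omega)]
    rw [h1, h2, h j]

theorem st_drop (w w' : Fin n → List α) (N N' : ℕ) (h : ∀ j, (w j).drop N = (w' j).drop N')
    (hs : st step start w N = st step start w' N') (M : ℕ) :
    st step start w (N + M) = st step start w' (N' + M) := by
  induction M with
  | zero => exact hs
  | succ M ih =>
    rw [← Nat.add_assoc, ← Nat.add_assoc, st, st, ih]
    congr 1
    funext j
    have h1 : (w j)[N+M]? = ((w j).drop N)[M]? := by
      rw [List.getElem?_drop]
    have h2 : (w' j)[N'+M]? = ((w' j).drop N')[M]? := by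
      rw [List.getElem?_drop]
    rw [h1, h2, h j]

theorem run_transfer (w w' : Fin n → List α) (N N' : ℕ) (h : ∀ j, (w j).drop N = (w' j).drop N')
    (hs : st step start w N = st step start w' N') :
    run step start w = run step start w' := by
  set L := Finset.univ.sup fun j => (w j).length with hL
  set L' := Finset.univ.sup fun j => (w' j).length with hL'
  have h3 : ∀ j, (w j).length ≤ L := fun j =>
    Finset.le_sup (f := fun j => (w j).length) (mem_univ j)
  have h3' : ∀ j, (w' j).length ≤ L' := fun j =>
    Finset.le_sup (f := fun j => (w' j).length) (mem_univ j)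
  rw [run_eq step start w (N + (L + L')) (fun j => by have := h3 j; omega),
    run_eq step start w' (N' + (L + L')) (fun j => by have := h3' j; omega)]
  exact st_drop step start w w' N N' h hs _

/-- types of tuples of prefixes -/
def T (Q : Type) (n : ℕ) : ℕ → ℕ → Type
  | 0, k => ((Fin n → Fin k) → Q) × (Fin k → Prop) × (Fin k → Fin k → Prop)
  | (m+1), k => Set (T Q n m (k+1))

theorem T_finite [Finite Q] (n m k : ℕ) : Finite (T Q n m k) := by
  induction m generalizing k with
  | zero =>
    show Finite (((Fin n → Fin k) → Q) × (Fin k → Prop) × (Fin k → Fin k → Prop))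
    infer_instance
  | succ m ih =>
    have := ih (k+1)
    show Finite (Set (T Q n m (k+1)))
    infer_instance

/-- the type of a tuple at position `N` -/
noncomputable def tp : (m k : ℕ) → (Fin k → List α) → ℕ → T Q n m k
  | 0, _, w, N => (fun s => st step start (w ∘ s) N, fun i => N ≤ (w i).length,
      fun i j => (w i).take N = (w j).take N)
  | (m+1), k, w, N => {τ | ∃ y : List α, tp m (k+1) (Fin.cons y w) N = τ}

theorem tp_take (m : ℕ) : ∀ (k : ℕ) (w w' : Fin k → List α) (N : ℕ),
    (∀ j, (w j).take N = (w' j).take N) → tp step start m k w N = tp step start m k w' N := by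
  induction m with
  | zero =>
    intro k w w' N h
    have hlen : ∀ j, (N ≤ (w j).length ↔ N ≤ (w' j).length) := by
      intro j
      have h1 := congrArg List.length (h j)
      rw [List.length_take, List.length_take] at h1
      omega
    simp only [tp]
    refine Prod.ext ?_ (Prod.ext ?_ ?_)
    · funext s
      exact st_take step start (w ∘ s) (w' ∘ s) N (fun j => h (s j)) N le_rfl
    · funext i
      exact propext (hlen i)
    · funext i j
      simp only [h i, h j]
  | succ m ih =>
    intro k w w' N h
    have key : ∀ y : List α, tp step start m (k+1) (Fin.cons y w) N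
        = tp step start m (k+1) (Fin.cons y w') N := by
      intro y
      apply ih
      intro j
      refine Fin.cases rfl (fun i => ?_) j
      simpa using h i
    exact congrArg (fun g : List α → T Q n m (k+1) => ({τ | ∃ y, g y = τ} : Set (T Q n m (k+1))))
      (funext key)

theorem tp_succ_eq {m k : ℕ} {w w' : Fin k → List α} {N N' : ℕ}
    (h : tp step start (m+1) k w N = tp step start (m+1) k w' N') (y : List α) :
    ∃ y', tp step start m (k+1) (Fin.cons y' w') N' = tp step start m (k+1) (Fin.cons y w) N := by
  have h1 : ({τ | ∃ y, tp step start m (k+1) (Fin.cons y w) N = τ} : Set (T Q n m (k+1))) =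
    {τ | ∃ y, tp step start m (k+1) (Fin.cons y w') N' = τ} := h
  have h2 : tp step start m (k+1) (Fin.cons y w) N ∈
    ({τ | ∃ y, tp step start m (k+1) (Fin.cons y w) N = τ} : Set (T Q n m (k+1))) := ⟨y, rfl⟩
  rw [h1] at h2
  exact h2

theorem tp_flag (m : ℕ) : ∀ (k : ℕ) (w w' : Fin k → List α) (N N' : ℕ),
    tp step start m k w N = tp step start m k w' N' →
    ∀ i, (N ≤ (w i).length ↔ N' ≤ (w' i).length) := by
  induction m with
  | zero =>
    intro k w w' N N' h i
    simp only [tp] at h
    have h1 := congrArg (fun p => p.2.1 i) h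
    simp only at h1
    exact iff_of_eq h1
  | succ m ih =>
    intro k w w' N N' h i
    obtain ⟨y, hy⟩ := tp_succ_eq step start h []
    have h2 := ih (k+1) _ _ N N' hy.symm i.succ
    simpa using h2

/-- `P` is determined by the `m`-type at any position together with the rest of the words. -/
def Det (m k : ℕ) (P : (Fin k → List α) → Prop) : Prop :=
  ∀ (w w' : Fin k → List α) (N N' : ℕ), tp step start m k w N = tp step start m k w' N' →
    (∀ i, (w i).drop N = (w' i).drop N') → (P w ↔ P w')

variable {step start}

theorem Det.not {m k : ℕ} {P : (Fin k → List α) → Prop} (h : Det step start m k P) :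
    Det step start m k (fun w => ¬ P w) :=
  fun w w' N N' h1 h2 => not_congr (h w w' N N' h1 h2)

theorem Det.and {m k : ℕ} {P P' : (Fin k → List α) → Prop} (h : Det step start m k P)
    (h' : Det step start m k P') : Det step start m k (fun w => P w ∧ P' w) :=
  fun w w' N N' h1 h2 => and_congr (h w w' N N' h1 h2) (h' w w' N N' h1 h2)

theorem Det.exb {m k : ℕ} {P : Bool → (Fin k → List α) → Prop}
    (h : ∀ b, Det step start m k (P b)) : Det step start m k (fun w => ∃ b, P b w) :=
  fun w w' N N' h1 h2 => exists_congr fun b => h b w w' N N' h1 h2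

theorem Det.ex_aux {m k : ℕ} {P : (Fin (k+1) → List α) → Prop} (h : Det step start m (k+1) P)
    (w w' : Fin k → List α) (N N' : ℕ)
    (h1 : tp step start (m+1) k w N = tp step start (m+1) k w' N')
    (h2 : ∀ i, (w i).drop N = (w' i).drop N') (hP : ∃ y, P (Fin.cons y w)) :
    ∃ y, P (Fin.cons y w') := by
  obtain ⟨y, hy⟩ := hP
  obtain ⟨y'', hy''⟩ := tp_succ_eq step start h1 y
  have hflag := tp_flag step start m (k+1) _ _ N N' hy''.symm 0
  simp only [Fin.cons_zero] at hflag
  have htake : (y''.take N' ++ y.drop N).take N' = y''.take N' := by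
    rcases Nat.lt_or_ge y''.length N' with h4 | h4
    · have h5 : y.drop N = [] := by
        rw [List.drop_eq_nil_iff]
        by_contra h6
        have : N' ≤ y''.length := hflag.mp (by omega)
        omega
      rw [h5, List.append_nil, List.take_take, min_self]
    · rw [List.take_append_of_le_length (by rw [List.length_take]; omega), List.take_take, min_self]
  have hdrop : (y''.take N' ++ y.drop N).drop N' = y.drop N := by
    rcases Nat.lt_or_ge y''.length N' with h4 | h4
    · have h5 : y.drop N = [] := by
        rw [List.drop_eq_nil_iff]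
        by_contra h6
        have : N' ≤ y''.length := hflag.mp (by omega)
        omega
      rw [h5, List.append_nil, List.drop_eq_nil_iff, List.length_take]
      omega
    · have h5 : (y''.take N').length = N' := by rw [List.length_take]; omega
      rw [List.drop_append, h5]
      simp
  refine ⟨y''.take N' ++ y.drop N, ?_⟩
  rw [← h (Fin.cons y w) _ N N' ?_ ?_]
  · exact hy
  · rw [← hy'']
    apply tp_take
    intro j
    refine Fin.cases ?_ (fun i => rfl) j
    simp only [Fin.cons_zero]
    exact htake.symm
  · intro i
    refine Fin.cases ?_ (fun i => ?_) i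
    · simp only [Fin.cons_zero]
      exact hdrop.symm
    · simp only [Fin.cons_succ]
      exact h2 i

theorem Det.ex {m k : ℕ} {P : (Fin (k+1) → List α) → Prop} (h : Det step start m (k+1) P) :
    Det step start (m+1) k (fun w => ∃ y, P (Fin.cons y w)) :=
  fun w w' N N' h1 h2 =>
    ⟨h.ex_aux w w' N N' h1 h2, h.ex_aux w' w N' N h1.symm (fun i => (h2 i).symm)⟩

variable (step start)

/-- local consistency of a partial assignment -/
def Cons (out : Q → Finset ℕ) (k : ℕ) (x : Fin k → List α) (c : Fin k → Bool) : Prop :=
  (∀ i j, x i = x j → c i = c j) ∧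
  ∀ s : Fin n → Fin k, Function.Injective (x ∘ s) →
    ∑ j, (c (s j)).toNat ∈ out (run step start (x ∘ s))

theorem det_cons (out : Q → Finset ℕ) (k : ℕ) (c : Fin k → Bool) :
    Det step start 0 k (fun x => Cons step start out k x c) := by
  intro w w' N N' h h2
  simp only [tp] at h
  have hst : ∀ s : Fin n → Fin k, st step start (w ∘ s) N = st step start (w' ∘ s) N' := by
    intro s
    exact congrFun (congrArg (fun p => p.1) h) s
  have htk : ∀ i j, ((w i).take N = (w j).take N ↔ (w' i).take N' = (w' j).take N') := by
    intro i j
    have := congrFun (congrFun (congrArg (fun p => p.2.2) h) i) j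
    exact iff_of_eq this
  have heq : ∀ i j, (w i = w j ↔ w' i = w' j) := by
    intro i j
    constructor
    · intro he
      rw [← List.take_append_drop N' (w' i), ← List.take_append_drop N' (w' j), ← h2 i, ← h2 j,
        (htk i j).mp (by rw [he]), he]
    · intro he
      rw [← List.take_append_drop N (w i), ← List.take_append_drop N (w j), h2 i, h2 j,
        (htk i j).mpr (by rw [he]), he]
  have hrun : ∀ s : Fin n → Fin k, run step start (w ∘ s) = run step start (w' ∘ s) := by
    intro s
    exact run_transfer step start (w ∘ s) (w' ∘ s) N N' (fun j => h2 (s j)) (hst s)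
  have hinj : ∀ s : Fin n → Fin k, Function.Injective (w ∘ s) ↔ Function.Injective (w' ∘ s) := by
    intro s
    constructor
    · intro hi a b hab
      exact hi ((heq _ _).mpr hab)
    · intro hi a b hab
      exact hi ((heq _ _).mp hab)
  unfold Cons
  simp only [heq, hrun, hinj]

/-- `j`-step extendability -/
def psi (out : Q → Finset ℕ) : (j k : ℕ) → (Fin k → List α) → (Fin k → Bool) → Prop
  | 0, k, x, c => Cons step start out k x c
  | (j+1), k, x, c => ∀ y : List α, ∃ b : Bool, psi out j (k+1) (Fin.cons y x) (Fin.cons b c)

theorem det_psi (out : Q → Finset ℕ) (j : ℕ) : ∀ (k : ℕ) (c : Fin k → Bool),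
    Det step start j k (fun x => psi step start out j k x c) := by
  induction j with
  | zero => intro k c; exact det_cons step start out k c
  | succ j ih =>
    intro k c
    have h1 : Det step start j (k+1) (fun x => ∃ b, psi step start out j (k+1) x (Fin.cons b c)) :=
      Det.exb fun b => ih (k+1) (Fin.cons b c)
    have h2 := (h1.not.ex).not
    have h3 : (fun x : Fin k → List α => psi step start out (j+1) k x c) =
        (fun w => ¬ ∃ y, ¬ ∃ b, psi step start out j (k+1) (Fin.cons y w) (Fin.cons b c)) := by
      funext w
      simp only [psi, not_exists, not_not, not_forall]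
    rw [h3]
    exact h2

/-- trees of depth `r` -/
def Phi (out : Q → Finset ℕ) (Y : Set (List α)) (K : ℕ) :
    (r k : ℕ) → (Fin k → List α) → (Fin k → Bool) → Prop
  | 0, k, x, c => psi step start out K k x c
  | (r+1), k, x, c => ∃ y : List α, y ∈ Y ∧ Phi out Y K r (k+1) (Fin.cons y x) (Fin.cons false c) ∧
      Phi out Y K r (k+1) (Fin.cons y x) (Fin.cons true c)

theorem det_phi (out : Q → Finset ℕ) (K r : ℕ) : ∀ (k : ℕ) (c : Fin k → Bool),
    Det step start (K + r) k (fun x => Phi step start out Set.univ K r k x c) := by
  induction r with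
  | zero => intro k c; exact det_psi step start out K k c
  | succ r ih =>
    intro k c
    have h1 := ((ih (k+1) (Fin.cons false c)).and (ih (k+1) (Fin.cons true c))).ex
    have h3 : (fun x : Fin k → List α => Phi step start out Set.univ K (r+1) k x c) =
        (fun w => ∃ y, Phi step start out Set.univ K r (k+1) (Fin.cons y w) (Fin.cons false c) ∧
          Phi step start out Set.univ K r (k+1) (Fin.cons y w) (Fin.cons true c)) := by
      funext w
      simp only [Phi, Set.mem_univ, true_and]
    rw [h3]
    exact h1

theorem Phi_mono (out : Q → Finset ℕ) {Y Y' : Set (List α)} (hY : Y ⊆ Y') (K r : ℕ) :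
    ∀ (k : ℕ) (x : Fin k → List α) (c : Fin k → Bool), Phi step start out Y K r k x c →
      Phi step start out Y' K r k x c := by
  induction r with
  | zero => intro k x c h; exact h
  | succ r ih =>
    rintro k x c ⟨y, hy, h0, h1⟩
    exact ⟨y, hY hy, ih _ _ _ h0, ih _ _ _ h1⟩

theorem Phi_labels (out : Q → Finset ℕ) (K r : ℕ) :
    ∀ (k : ℕ) (x : Fin k → List α) (c : Fin k → Bool), Phi step start out Set.univ K r k x c →
      ∃ Y : Finset (List α), Y.card + 1 ≤ 2 ^ r ∧ Phi step start out (↑Y) K r k x c := by
  classical
  induction r with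
  | zero =>
    intro k x c h
    exact ⟨∅, by simp, h⟩
  | succ r ih =>
    rintro k x c ⟨y, -, h0, h1⟩
    obtain ⟨Y0, hY0, h0'⟩ := ih _ _ _ h0
    obtain ⟨Y1, hY1, h1'⟩ := ih _ _ _ h1
    refine ⟨insert y (Y0 ∪ Y1), ?_, y, by simp, ?_, ?_⟩
    · have h2 := Finset.card_insert_le y (Y0 ∪ Y1)
      have h3 := Finset.card_union_le Y0 Y1
      have h4 : 2 ^ (r+1) = 2 ^ r + 2 ^ r := by ring
      omega
    · refine Phi_mono step start out ?_ K r _ _ _ h0'
      intro z hz
      simp only [Finset.coe_insert, Finset.coe_union, Set.mem_insert_iff, Set.mem_union]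
      exact Or.inr (Or.inl hz)
    · refine Phi_mono step start out ?_ K r _ _ _ h1'
      intro z hz
      simp only [Finset.coe_insert, Finset.coe_union, Set.mem_insert_iff, Set.mem_union]
      exact Or.inr (Or.inr hz)

theorem psi_extend (out : Q → Finset ℕ) (j : ℕ) :
    ∀ (k : ℕ) (x : Fin k → List α) (c : Fin k → Bool) (ys : List (List α)), ys.length ≤ j →
      psi step start out j k x c →
      ∃ f : List α → Bool, (∀ i, f (x i) = c i) ∧
        ∀ s : Fin n → List α, Function.Injective s → (∀ i, (∃ l, x l = s i) ∨ s i ∈ ys) →
          cnt f s ∈ out (run step start s) := by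
  classical
  induction j with
  | zero =>
    intro k x c ys hys h
    have hys : ys = [] := List.length_eq_zero_iff.mp (by omega)
    subst hys
    have hf : ∀ i, (if h : ∃ l, x l = x i then c h.choose else false) = c i := by
      intro i
      have hex : ∃ l, x l = x i := ⟨i, rfl⟩
      rw [dif_pos hex]
      exact h.1 _ _ hex.choose_spec
    refine ⟨fun z => if h : ∃ l, x l = z then c h.choose else false, hf, ?_⟩
    intro s hs hsx
    have hsx' : ∀ i, ∃ l, x l = s i := by
      intro i
      rcases hsx i with h1 | h1
      · exact h1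
      · simp at h1
    choose g hg using hsx'
    have hxg : x ∘ g = s := funext hg
    have h2 := h.2 g (by rw [hxg]; exact hs)
    rw [hxg] at h2
    convert h2 using 1
    unfold cnt
    apply Finset.sum_congr rfl
    intro i _
    rw [← hg i]
    exact congrArg Bool.toNat (hf (g i))
  | succ j ih =>
    intro k x c ys hys h
    cases ys with
    | nil =>
      obtain ⟨b, hb⟩ := h []
      obtain ⟨f, hf, hf2⟩ := ih _ _ _ [] (by simp) hb
      refine ⟨f, fun i => by simpa using hf i.succ, fun s hs hsx => hf2 s hs fun i => ?_⟩
      rcases hsx i with ⟨l, hl⟩ | h1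
      · exact Or.inl ⟨l.succ, by simpa using hl⟩
      · simp at h1
    | cons y ys =>
      obtain ⟨b, hb⟩ := h y
      obtain ⟨f, hf, hf2⟩ := ih _ _ _ ys (by simp at hys; omega) hb
      refine ⟨f, fun i => by simpa using hf i.succ, fun s hs hsx => hf2 s hs fun i => ?_⟩
      rcases hsx i with ⟨l, hl⟩ | h1
      · exact Or.inl ⟨l.succ, by simpa using hl⟩
      · rcases List.mem_cons.mp h1 with h2 | h2
        · exact Or.inl ⟨0, by simpa using h2.symm⟩
        · exact Or.inr h2

theorem Tr_of_Phi (out : Q → Finset ℕ) (K : ℕ) (Y : Finset (List α)) (hY : Y.card ≤ K) (r : ℕ) :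
    ∀ (k : ℕ) (x : Fin k → List α) (c : Fin k → Bool), Phi step start out (↑Y) K r k x c →
      Tr r (↑Y : Set (List α)) {f | (∀ s : Fin n → List α, Function.Injective s → (∀ i, s i ∈ Y) →
          cnt f s ∈ out (run step start s)) ∧ ∀ i, f (x i) = c i} := by
  induction r with
  | zero =>
    intro k x c h
    obtain ⟨f, hf, hf2⟩ := psi_extend step start out K k x c Y.toList (by simpa using hY) h
    exact ⟨f, fun s hs hsY => hf2 s hs fun i => Or.inr (by simpa using hsY i), hf⟩
  | succ r ih =>
    rintro k x c ⟨y, hy, h0, h1⟩
    refine ⟨y, hy, (ih _ _ _ h0).mono subset_rfl ?_, (ih _ _ _ h1).mono subset_rfl ?_⟩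
    · rintro f ⟨hf, hf2⟩
      exact ⟨⟨hf, fun i => by simpa using hf2 i.succ⟩, by simpa using hf2 0⟩
    · rintro f ⟨hf, hf2⟩
      exact ⟨⟨hf, fun i => by simpa using hf2 i.succ⟩, by simpa using hf2 0⟩

theorem psi_self (out : Q → Finset ℕ) (a : List α → Bool)
    (ha : ∀ s : Fin n → List α, Function.Injective s → cnt a s ∈ out (run step start s)) (j : ℕ) :
    ∀ (k : ℕ) (x : Fin k → List α), psi step start out j k x (fun i => a (x i)) := by
  induction j with
  | zero =>
    intro k x
    refine ⟨fun i j h => congrArg a h, fun s hs => ?_⟩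
    exact ha (x ∘ s) hs
  | succ j ih =>
    intro k x y
    refine ⟨a y, ?_⟩
    have := ih (k+1) (Fin.cons y x)
    convert this using 1
    funext i
    refine Fin.cases rfl (fun i => rfl) i

theorem definable [Finite Q] (out : Q → Finset ℕ) (hout : ∀ q, (out q).card ≤ n)
    (a : List α → Bool)
    (ha : ∀ s : Fin n → List α, Function.Injective s → cnt a s ∈ out (run step start s)) :
    ∃ (m k : ℕ) (P : (Fin (k+1) → List α) → Prop) (x0 : Fin k → List α),
      Det step start m (k+1) P ∧ ∀ y, a y = true ↔ P (Fin.cons y x0) := by
  classical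
  obtain ⟨R, hR⟩ := kummer (X := List α) n
  have hnot : ¬ Phi step start out Set.univ (2 ^ R) R 0 Fin.elim0 Fin.elim0 := by
    intro h
    obtain ⟨Y, hYc, hY⟩ := Phi_labels step start out _ _ _ _ _ h
    have h1 := Tr_of_Phi step start out _ Y (by omega) R _ _ _ hY
    obtain ⟨w, hw, hwY, hc⟩ := hR _ _ h1
    have h2 : Finset.range (n+1) ⊆ out (run step start w) := by
      intro i hi
      rw [Finset.mem_range] at hi
      obtain ⟨f, hf, hfc⟩ := hc i (by omega)
      rw [← hfc]
      exact hf.1 w hw hwY
    have h3 := Finset.card_le_card h2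
    rw [Finset.card_range] at h3
    have := hout (run step start w)
    omega
  have hex : ∃ r, ∃ (k : ℕ) (x : Fin k → List α),
      ¬ Phi step start out Set.univ (2 ^ R) r k x (fun i => a (x i)) := by
    refine ⟨R, 0, Fin.elim0, ?_⟩
    have e : (fun i : Fin 0 => a ((Fin.elim0 : Fin 0 → List α) i)) = Fin.elim0 :=
      Subsingleton.elim _ _
    rw [e]
    exact hnot
  obtain ⟨r0, hr0⟩ : ∃ r0, r0 = Nat.find hex := ⟨_, rfl⟩
  obtain ⟨k, x0, hx0⟩ := Nat.find_spec hex
  have hmin : ∀ r < Nat.find hex, ∀ (k : ℕ) (x : Fin k → List α),
      Phi step start out Set.univ (2 ^ R) r k x (fun i => a (x i)) := by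
    intro r hr k x
    by_contra hc
    exact Nat.find_min hex hr ⟨k, x, hc⟩
  rw [← hr0] at hx0 hmin
  cases r0 with
  | zero =>
    exact absurd (psi_self step start out a ha _ k x0) hx0
  | succ r =>
    refine ⟨2 ^ R + r, k, fun z => Phi step start out Set.univ (2 ^ R) r (k+1) z
      (Fin.cons true fun i => a (x0 i)), x0, det_phi step start out _ _ _ _, fun y => ?_⟩
    have h1 := hmin r (by omega) (k+1) (Fin.cons y x0)
    have h2 : (fun i => a ((Fin.cons y x0 : Fin (k+1) → List α) i)) =
        (Fin.cons (a y) (fun i => a (x0 i)) : Fin (k+1) → Bool) := by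
      funext i
      refine Fin.cases rfl (fun i => rfl) i
    rw [h2] at h1
    constructor
    · intro hy
      rw [hy] at h1
      exact h1
    · intro hP
      by_contra hy
      have hy : a y = false := by simpa using hy
      rw [hy] at h1
      exact hx0 ⟨y, Set.mem_univ _, h1, hP⟩

theorem finite_quotients [Finite Q] [Finite α] (A : Language α) {m k : ℕ}
    {P : (Fin (k+1) → List α) → Prop} {x0 : Fin k → List α} (hP : Det step start m (k+1) P)
    (hA : ∀ y, y ∈ A ↔ P (Fin.cons y x0)) : (Set.range A.leftQuotient).Finite := by
  set L := Finset.univ.sup fun j => (x0 j).length with hL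
  have h3 : ∀ j, (x0 j).length ≤ L := fun j =>
    Finset.le_sup (f := fun j => (x0 j).length) (mem_univ j)
  have key : ∀ u u' : List α, L ≤ u.length → L ≤ u'.length →
      tp step start m (k+1) (Fin.cons u x0) u.length = tp step start m (k+1) (Fin.cons u' x0) u'.length →
      A.leftQuotient u = A.leftQuotient u' := by
    intro u u' hu hu' h
    ext v
    rw [Language.mem_leftQuotient, Language.mem_leftQuotient, hA, hA]
    apply hP _ _ u.length u'.length
    · have h4 : tp step start m (k+1) (Fin.cons (u ++ v) x0) u.length =
          tp step start m (k+1) (Fin.cons u x0) u.length := by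
        apply tp_take
        intro j
        refine Fin.cases ?_ (fun i => rfl) j
        simp
      have h5 : tp step start m (k+1) (Fin.cons (u' ++ v) x0) u'.length =
          tp step start m (k+1) (Fin.cons u' x0) u'.length := by
        apply tp_take
        intro j
        refine Fin.cases ?_ (fun i => rfl) j
        simp
      rw [h4, h5, h]
    · intro i
      refine Fin.cases ?_ (fun i => ?_) i
      · simp
      · simp only [Fin.cons_succ]
        rw [List.drop_eq_nil_iff.mpr ((h3 i).trans hu), List.drop_eq_nil_iff.mpr ((h3 i).trans hu')]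
  have hfin := T_finite (Q := Q) n m (k+1)
  have h1 : (A.leftQuotient '' {u | L ≤ u.length}).Finite := by
    classical
    let S : Set (T Q n m (k+1)) :=
      (fun u : List α => tp step start m (k+1) (Fin.cons u x0) u.length) '' {u | L ≤ u.length}
    have hS : S.Finite := Set.toFinite S
    let g : T Q n m (k+1) → Language α := fun τ =>
      if h : ∃ u : List α, L ≤ u.length ∧
        tp step start m (k+1) (Fin.cons u x0) u.length = τ then A.leftQuotient h.choose else ⊥
    refine (hS.image g).subset ?_
    rintro _ ⟨u, hu, rfl⟩
    refine ⟨_, ⟨u, hu, rfl⟩, ?_⟩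
    have hex : ∃ u' : List α, L ≤ u'.length ∧ tp step start m (k+1) (Fin.cons u' x0) u'.length =
        tp step start m (k+1) (Fin.cons u x0) u.length := ⟨u, hu, rfl⟩
    show g _ = _
    simp only [g]
    rw [dif_pos hex]
    exact key _ _ hex.choose_spec.1 hu hex.choose_spec.2
  have h2 : (A.leftQuotient '' {u | u.length < L}).Finite :=
    (List.finite_length_lt α L).image _
  refine (h1.union h2).subset ?_
  rintro _ ⟨u, rfl⟩
  rcases Nat.lt_or_ge u.length L with h | h
  · exact Or.inr ⟨u, h, rfl⟩
  · exact Or.inl ⟨u, h, rfl⟩

end Pool.Agent.Helper7.CardAutomata
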