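import Mathlib

open MeasureTheory Filter Topology unitInterval

namespace Pool.Agent.Helper7.Copula

/-- The `C`-volume of the box `[u, v]`: the sum over all subsets `S` of the coordinates (the
coordinates `k` with `ε_k = 1`) of `(-1)^(n - |S|) C(w_S)`, where `w_S` has `k`-th coordinate `v k`
for `k ∈ S` and `u k` for `k ∉ S`. -/
noncomputable def boxVol (n : ℕ) (C : (Fin n → I) → I) (u v : Fin n → I) : ℝ :=
  ∑ S : Finset (Fin n), (-1 : ℝ) ^ (n - S.card) * (C (fun k => if k ∈ S then v k else u k) : ℝ)

/-- `n`-copulas on the unit cube `Fin n → [0,1]`. -/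
structure IsCopula (n : ℕ) (C : (Fin n → I) → I) : Prop where
  grounded : ∀ x, (∃ k, x k = 0) → C x = 0
  margin : ∀ x k, (∀ j, j ≠ k → x j = 1) → C x = x k
  boxVol_nonneg : ∀ u v, u ≤ v → 0 ≤ boxVol n C u v

/-- The lower Fréchet bound `W^{n-1}`. -/
noncomputable def W (n : ℕ) (x : Fin n → I) : ℝ := max ((∑ k, (x k : ℝ)) - n + 1) 0

/-- The number `s_n`, as an extended nonnegative real. -/
noncomputable def s (n : ℕ) : ENNReal :=
  ⨆ (A : Set (Fin n → I)) (_ : MeasurableSet A)
    (_ : ∃ C, IsCopula n C ∧ ∀ x ∈ A, (C x : ℝ) = W n x), volume A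

theorem boxVol_eq (n : ℕ) (C : (Fin n → I) → I) (u v : Fin n → I) :
    boxVol n C u v = ∑ T : Finset (Fin n), (-1 : ℝ) ^ T.card * (C (T.piecewise u v) : ℝ) := by
  unfold boxVol
  refine Fintype.sum_equiv (Function.Involutive.toPerm compl compl_involutive) _ _ ?_
  intro S
  show _ = (-1 : ℝ) ^ (Sᶜ).card * (C (Sᶜ.piecewise u v) : ℝ)
  rw [Finset.card_compl, Fintype.card_fin]
  congr 3
  funext k
  by_cases hk : k ∈ S <;> simp [Finset.piecewise, hk]

theorem boxVol_supp (n : ℕ) {C : (Fin n → I) → I} (hC : ∀ x, (∃ k, x k = 0) → C x = 0)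
    (u v : Fin n → I) (K : Finset (Fin n)) (hu : ∀ i, i ∉ K → u i = 0) :
    boxVol n C u v = ∑ T ∈ K.powerset, (-1 : ℝ) ^ T.card * (C (T.piecewise u v) : ℝ) := by
  rw [boxVol_eq]
  symm
  apply Finset.sum_subset (Finset.subset_univ _)
  intro T _ hT
  rw [Finset.mem_powerset, Finset.not_subset] at hT
  obtain ⟨i, hiT, hiK⟩ := hT
  rw [hC _ ⟨i, by simp [Finset.piecewise, hiT, hu i hiK]⟩]
  simp

theorem boxVol_one (n : ℕ) {C : (Fin n → I) → I} (hC : ∀ x, (∃ k, x k = 0) → C x = 0)
    (u v : Fin n → I) (k : Fin n) (hu : ∀ i, i ≠ k → u i = 0) :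
    boxVol n C u v = (C v : ℝ) - C (Function.update v k (u k)) := by
  rw [boxVol_supp n hC u v {k} (by intro i hi; exact hu i (by simpa using hi))]
  rw [show ({k} : Finset (Fin n)) = insert k ∅ by simp, Finset.sum_powerset_insert (by simp)]
  simp only [Finset.powerset_empty, Finset.sum_singleton, Finset.card_empty, pow_zero, one_mul,
    Finset.piecewise_empty, Finset.piecewise_insert, Finset.card_insert_of_notMem
      (Finset.notMem_empty k)]
  ring

theorem boxVol_two (n : ℕ) {C : (Fin n → I) → I} (hC : ∀ x, (∃ k, x k = 0) → C x = 0)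
    (u v : Fin n → I) (j k : Fin n) (hjk : j ≠ k) (hu : ∀ i, i ≠ j → i ≠ k → u i = 0) :
    boxVol n C u v = (C v : ℝ) - C (Function.update v k (u k)) -
      (C (Function.update v j (u j)) - C (Function.update (Function.update v k (u k)) j (u j))) := by
  rw [boxVol_supp n hC u v {j, k} (by
    intro i hi
    simp only [Finset.mem_insert, Finset.mem_singleton, not_or] at hi
    exact hu i hi.1 hi.2)]
  rw [Finset.sum_powerset_insert (by simpa using hjk)]
  rw [show ({k} : Finset (Fin n)) = insert k ∅ by simp, Finset.sum_powerset_insert (by simp),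
    Finset.sum_powerset_insert (by simp)]
  have hne : j ∉ ({k} : Finset (Fin n)) := by simpa using hjk
  simp [Finset.piecewise_insert, Finset.card_insert_of_notMem hne]
  ring

theorem incr_nonneg {n : ℕ} {C : (Fin n → I) → I} (hC : IsCopula n C) (y : Fin n → I) (k : Fin n)
    (a b : I) (hab : a ≤ b) :
    (C (Function.update y k a) : ℝ) ≤ C (Function.update y k b) := by
  have h := hC.boxVol_nonneg (Function.update (fun _ => 0) k a) (Function.update y k b) (by
    intro i
    by_cases hi : i = k
    · subst hi; simpa using hab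
    · simp only [Function.update_of_ne hi]
      exact unitInterval.nonneg')
  rw [boxVol_one n hC.grounded _ _ k (by intro i hi; simp [Function.update_of_ne hi])] at h
  simp only [Function.update_self, Function.update_idem] at h
  linarith

theorem incr_mono {n : ℕ} {C : (Fin n → I) → I} (hC : IsCopula n C) (y : Fin n → I) (j k : Fin n)
    (hjk : j ≠ k) (a b : I) (hab : a ≤ b) (d : I) (hd : y j ≤ d) :
    (C (Function.update y k b) : ℝ) - C (Function.update y k a) ≤
      C (Function.update (Function.update y j d) k b) -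
        C (Function.update (Function.update y j d) k a) := by
  have h := hC.boxVol_nonneg (Function.update (Function.update (fun _ => 0) j (y j)) k a)
    (Function.update (Function.update y j d) k b) (by
    intro i
    by_cases hi : i = k
    · subst hi; simpa using hab
    · simp only [Function.update_of_ne hi]
      by_cases hij : i = j
      · subst hij; simpa using hd
      · simp only [Function.update_of_ne hij]
        exact unitInterval.nonneg')
  rw [boxVol_two n hC.grounded _ _ j k hjk (by
    intro i hi hik; simp [Function.update_of_ne hi, Function.update_of_ne hik])] at h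
  simp only [Function.update_self, Function.update_idem, Function.update_of_ne hjk] at h
  have e1 : Function.update (Function.update (Function.update y j d) k b) j (y j) =
      Function.update y k b := by
    rw [Function.update_comm hjk.symm, Function.update_idem, Function.update_eq_self]
  have e2 : Function.update (Function.update (Function.update y j d) k a) j (y j) =
      Function.update y k a := by
    rw [Function.update_comm hjk.symm, Function.update_idem, Function.update_eq_self]
  rw [e1, e2] at h
  linarith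

theorem incr_le {n : ℕ} {C : (Fin n → I) → I} (hC : IsCopula n C) (y : Fin n → I) (k : Fin n)
    (a b : I) (hab : a ≤ b) :
    (C (Function.update y k b) : ℝ) - C (Function.update y k a) ≤ (b : ℝ) - a := by
  have key : ∀ S : Finset (Fin n), k ∉ S →
      (C (Function.update y k b) : ℝ) - C (Function.update y k a) ≤
      C (Function.update (S.piecewise 1 y) k b) - C (Function.update (S.piecewise 1 y) k a) := by
    intro S
    induction S using Finset.induction_on with
    | empty => intro _; simp
    | insert j S hj ih =>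
      intro hk
      rw [Finset.mem_insert, not_or] at hk
      refine (ih hk.2).trans ?_
      rw [Finset.piecewise_insert]
      exact incr_mono hC _ j k (fun h => hk.1 h.symm) a b hab _ unitInterval.le_one'
  have h := key (Finset.univ.erase k) (by simp)
  have e : ∀ c : I, C (Function.update ((Finset.univ.erase k).piecewise 1 y) k c) = c := by
    intro c
    rw [hC.margin _ k]
    · simp
    · intro j hj
      simp [hj]
  rw [e, e] at h
  exact h

theorem lip_one {n : ℕ} {C : (Fin n → I) → I} (hC : IsCopula n C) (y : Fin n → I) (k : Fin n)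
    (a b : I) : |(C (Function.update y k b) : ℝ) - C (Function.update y k a)| ≤ |(b : ℝ) - a| := by
  rcases le_total a b with h | h
  · have h1 := incr_nonneg hC y k a b h
    have h2 := incr_le hC y k a b h
    have h3 : (a : ℝ) ≤ b := h
    rw [abs_of_nonneg (by linarith), abs_of_nonneg (by linarith)]
    exact h2
  · have h1 := incr_nonneg hC y k b a h
    have h2 := incr_le hC y k b a h
    have h3 : (b : ℝ) ≤ a := h
    rw [abs_of_nonpos (by linarith), abs_of_nonpos (by linarith)]
    linarith

theorem lip_sum {n : ℕ} {C : (Fin n → I) → I} (hC : IsCopula n C) (x y : Fin n → I) :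
    |(C x : ℝ) - C y| ≤ ∑ k, |(x k : ℝ) - y k| := by
  have key : ∀ S : Finset (Fin n), |(C (S.piecewise x y) : ℝ) - C y| ≤ ∑ k ∈ S, |(x k : ℝ) - y k| := by
    intro S
    induction S using Finset.induction_on with
    | empty => simp
    | insert j S hj ih =>
      rw [Finset.piecewise_insert, Finset.sum_insert hj]
      have h1 := lip_one hC (S.piecewise x y) j (y j) (x j)
      have e : Function.update (S.piecewise x y) j (y j) = S.piecewise x y := by
        have : (S.piecewise x y) j = y j := by simp [Finset.piecewise, hj]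
        rw [← this, Function.update_eq_self]
      rw [e] at h1
      calc |(C (Function.update (S.piecewise x y) j (x j)) : ℝ) - C y|
          = |((C (Function.update (S.piecewise x y) j (x j)) : ℝ) - C (S.piecewise x y)) +
            ((C (S.piecewise x y) : ℝ) - C y)| := by ring_nf
        _ ≤ _ := (abs_add_le _ _).trans (add_le_add h1 ih)
  have h := key Finset.univ
  simpa using h

theorem lipschitz {n : ℕ} {C : (Fin n → I) → I} (hC : IsCopula n C) :
    LipschitzWith (n : NNReal) C := by
  apply LipschitzWith.of_dist_le_mul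
  intro x y
  rw [Subtype.dist_eq, Real.dist_eq]
  refine (lip_sum hC x y).trans ?_
  calc ∑ k, |(x k : ℝ) - y k| ≤ ∑ _k : Fin n, dist x y := by
        apply Finset.sum_le_sum
        intro k _
        have := dist_le_pi_dist x y k
        rw [Subtype.dist_eq, Real.dist_eq] at this
        exact this
    _ = ((n : NNReal) : ℝ) * dist x y := by simp

theorem continuous_W (n : ℕ) : Continuous (W n) := by
  unfold W
  fun_prop

theorem coe_prod {ι : Type*} (s : Finset ι) (f : ι → I) :
    ((∏ i ∈ s, f i : I) : ℝ) = ∏ i ∈ s, (f i : ℝ) := by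
  classical
  induction s using Finset.induction_on with
  | empty => simp
  | insert a s ha ih => rw [Finset.prod_insert ha, Finset.prod_insert ha, ← ih]; simp

/-- The product copula. -/
theorem isCopula_prod (n : ℕ) : IsCopula n (fun x => ∏ k, x k) where
  grounded := by
    rintro x ⟨k, hk⟩
    exact Finset.prod_eq_zero (Finset.mem_univ k) hk
  margin := by
    intro x k hk
    show ∏ k, x k = x k
    rw [Finset.prod_eq_single k (fun j _ hj => hk j hj) (fun h => absurd (Finset.mem_univ k) h)]
  boxVol_nonneg := by
    intro u v huv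
    rw [boxVol_eq]
    have h : ∑ T : Finset (Fin n), (-1 : ℝ) ^ T.card *
        ((∏ k, (T.piecewise u v) k : I) : ℝ) = ∏ k, ((-(u k : ℝ)) + v k) := by
      rw [Finset.prod_add, ← Finset.powerset_univ]
      apply Finset.sum_congr rfl
      intro T _
      have e1 : ((∏ k, (T.piecewise u v) k : I) : ℝ) =
          (∏ k ∈ T, (u k : ℝ)) * ∏ k ∈ Finset.univ \ T, (v k : ℝ) := by
        rw [coe_prod, ← Finset.prod_mul_prod_compl T (fun k => ((T.piecewise u v) k : ℝ))]
        congr 1
        · apply Finset.prod_congr rfl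
          intro k hk
          simp [Finset.piecewise, hk]
        · rw [Finset.compl_eq_univ_sdiff]
          apply Finset.prod_congr rfl
          intro k hk
          have : k ∉ T := by simpa using hk
          simp [Finset.piecewise, this]
      rw [e1, Finset.prod_neg]
      ring
    rw [h]
    apply Finset.prod_nonneg
    intro k _
    have : (u k : ℝ) ≤ v k := huv k
    linarith

theorem isCopula_lim {n : ℕ} {F : ℕ → (Fin n → I) → I} (hF : ∀ m, IsCopula n (F m))
    {Cs : (Fin n → I) → I} {U : Filter ℕ} [U.NeBot]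
    (h : ∀ x, Tendsto (fun m => F m x) U (𝓝 (Cs x))) : IsCopula n Cs where
  grounded := by
    intro x hx
    refine tendsto_nhds_unique (h x) ?_
    have : (fun m => F m x) = fun _ => 0 := by
      funext m; exact (hF m).grounded x hx
    rw [this]
    exact tendsto_const_nhds
  margin := by
    intro x k hx
    refine tendsto_nhds_unique (h x) ?_
    have : (fun m => F m x) = fun _ => x k := by
      funext m; exact (hF m).margin x k hx
    rw [this]
    exact tendsto_const_nhds
  boxVol_nonneg := by
    intro u v huv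
    have ht : Tendsto (fun m => boxVol n (F m) u v) U (𝓝 (boxVol n Cs u v)) := by
      unfold boxVol
      apply tendsto_finsetSum
      intro S _
      apply Tendsto.const_mul
      exact (continuous_subtype_val.tendsto _).comp (h _)
    exact ge_of_tendsto' ht (fun m => (hF m).boxVol_nonneg u v huv)

theorem exists_attain (n : ℕ) : ∃ C, IsCopula n C ∧ s n = volume {x | (C x : ℝ) = W n x} := by
  have hmeas : ∀ C : (Fin n → I) → I, IsCopula n C → IsClosed {x | (C x : ℝ) = W n x} := by
    intro C hC
    exact isClosed_eq (continuous_subtype_val.comp (lipschitz hC).continuous) (continuous_W n)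
  suffices h : ∃ C, IsCopula n C ∧ s n ≤ volume {x | (C x : ℝ) = W n x} by
    obtain ⟨C, hC, hle⟩ := h
    refine ⟨C, hC, le_antisymm hle ?_⟩
    unfold s
    refine le_iSup_of_le {x | (C x : ℝ) = W n x} (le_iSup_of_le (hmeas C hC).measurableSet
      (le_iSup_of_le ⟨C, hC, fun x hx => hx⟩ le_rfl))
  let S : Set ENNReal := {r | ∃ C, IsCopula n C ∧ r = volume {x | (C x : ℝ) = W n x}}
  have hsS : s n ≤ sSup S := by
    unfold s
    refine iSup_le fun A => iSup_le fun _ => iSup_le fun hC => ?_
    obtain ⟨C, hC, hA⟩ := hC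
    exact (measure_mono hA).trans (le_sSup ⟨C, hC, rfl⟩)
  have hSne : S.Nonempty := ⟨_, _, isCopula_prod n, rfl⟩
  obtain ⟨u, -, hu, huS⟩ := exists_seq_tendsto_sSup hSne (OrderTop.bddAbove S)
  choose F hF hFu using huS
  let U : Ultrafilter ℕ := hyperfilter ℕ
  let Cs : (Fin n → I) → I := (U.map F).lim
  have hlim : Tendsto F (U : Filter ℕ) (𝓝 Cs) := (U.map F).le_nhds_lim
  have hpt : ∀ x, Tendsto (fun m => F m x) (U : Filter ℕ) (𝓝 (Cs x)) := fun x =>
    (tendsto_pi_nhds.mp hlim) x
  have hCs : IsCopula n Cs := isCopula_lim hF hpt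
  have heq : Equicontinuous F :=
    (LipschitzWith.uniformEquicontinuous F (n : NNReal) (fun m => lipschitz (hF m))).equicontinuous
  have hunif := (heq.tendsto_uniformFun_iff_pi (U : Filter ℕ) Cs).mpr hlim
  rw [UniformFun.tendsto_iff_tendstoUniformly] at hunif
  have hunif' := Metric.tendstoUniformly_iff.mp hunif
  have huU : Tendsto u (U : Filter ℕ) (𝓝 (sSup S)) := hu.mono_left Nat.hyperfilter_le_atTop
  let B : ℕ → Set (Fin n → I) := fun j => {x | |(Cs x : ℝ) - W n x| ≤ 1 / ((j : ℝ) + 1)}
  have hBclosed : ∀ j, IsClosed (B j) := by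
    intro j
    exact isClosed_le (((continuous_subtype_val.comp (lipschitz hCs).continuous).sub
      (continuous_W n)).abs) continuous_const
  have hB : ∀ j, sSup S ≤ volume (B j) := by
    intro j
    refine le_of_tendsto huU ?_
    filter_upwards [hunif' (1 / ((j : ℝ) + 1)) (by positivity)] with m hm
    rw [hFu m]
    apply measure_mono
    intro x hx
    have h1 := hm x
    rw [Subtype.dist_eq, Real.dist_eq] at h1
    have hx' : (F m x : ℝ) = W n x := hx
    show |(Cs x : ℝ) - W n x| ≤ 1 / ((j : ℝ) + 1)
    rw [← hx']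
    exact h1.le
  have hBanti : Antitone B := by
    intro i j hij x hx
    have hx' : |(Cs x : ℝ) - W n x| ≤ 1 / ((j : ℝ) + 1) := hx
    refine hx'.trans ?_
    apply one_div_le_one_div_of_le (by positivity)
    have : (i : ℝ) ≤ j := by exact_mod_cast hij
    linarith
  have hInter : {x | (Cs x : ℝ) = W n x} = ⋂ j, B j := by
    ext x
    simp only [Set.mem_iInter]
    constructor
    · intro hx j
      have hx' : (Cs x : ℝ) = W n x := hx
      show |(Cs x : ℝ) - W n x| ≤ 1 / ((j : ℝ) + 1)
      rw [hx', sub_self, abs_zero]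
      positivity
    · intro hx
      have h0 : |(Cs x : ℝ) - W n x| ≤ 0 :=
        ge_of_tendsto' (tendsto_one_div_add_atTop_nhds_zero_nat (𝕜 := ℝ)) (fun j => hx j)
      have h1 := abs_nonpos_iff.mp h0
      show (Cs x : ℝ) = W n x
      linarith
  refine ⟨Cs, hCs, hsS.trans ?_⟩
  rw [hInter]
  exact ge_of_tendsto' (tendsto_measure_iInter_atTop
    (fun j => (hBclosed j).measurableSet.nullMeasurableSet) hBanti ⟨0, measure_ne_top _ _⟩) hB

instance : (volume : Measure I).IsOpenPosMeasure where
  open_pos := by
    intro V hV hne h0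
    obtain ⟨a, b, hab, hsub⟩ := hV.exists_Ioo_subset hne
    have h1 := measure_mono_null hsub h0
    rw [unitInterval.volume_Ioo] at h1
    have : (a : ℝ) < b := hab
    simp at h1
    exact absurd h1 (not_le.mpr hab)

theorem not_W (n : ℕ) (hn : 3 ≤ n) {C : (Fin n → I) → I} (hC : IsCopula n C)
    (h : ∀ x, (C x : ℝ) = W n x) : False := by
  have hhalf : (1 / 2 : ℝ) ∈ I := ⟨by norm_num, by norm_num⟩
  have h1 := hC.boxVol_nonneg (fun _ => ⟨1 / 2, hhalf⟩) (fun _ => 1) (fun _ => unitInterval.le_one')
  rw [boxVol_eq] at h1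
  have h2 : ∀ T : Finset (Fin n), (-1 : ℝ) ^ T.card *
      (C (T.piecewise (fun _ => ⟨1 / 2, hhalf⟩) (fun _ => 1)) : ℝ) =
      (fun m : ℕ => (-1 : ℝ) ^ m * max (1 - (m : ℝ) / 2) 0) T.card := by
    intro T
    rw [h]
    unfold W
    have e : ∑ k, ((T.piecewise (fun _ => (⟨1 / 2, hhalf⟩ : I)) (fun _ => 1) k : I) : ℝ) =
        n - (T.card : ℝ) / 2 := by
      have e1 : ∀ k, ((T.piecewise (fun _ => (⟨1 / 2, hhalf⟩ : I)) (fun _ => 1) k : I) : ℝ) =
          1 - (if k ∈ T then (1 / 2 : ℝ) else 0) := by
        intro k
        by_cases hk : k ∈ T <;> simp [Finset.piecewise, hk]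
        norm_num
      simp only [e1]
      rw [Finset.sum_sub_distrib, Finset.sum_ite_mem]
      simp
      ring
    rw [e]
    simp only
    congr 2
    ring
  rw [Finset.sum_congr rfl (fun T _ => h2 T), ← Finset.powerset_univ,
    Finset.sum_powerset_apply_card (fun m : ℕ => (-1 : ℝ) ^ m * max (1 - (m : ℝ) / 2) 0)] at h1
  rw [Finset.card_univ, Fintype.card_fin] at h1
  obtain ⟨k, rfl⟩ := Nat.exists_eq_add_of_le hn
  rw [show 3 + k + 1 = (k + 2) + 1 + 1 by ring, Finset.sum_range_succ', Finset.sum_range_succ'] at h1
  have h3 : ∑ m ∈ Finset.range (k + 2), (3 + k).choose (m + 1 + 1) •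
      ((-1 : ℝ) ^ (m + 1 + 1) * max (1 - ((m + 1 + 1 : ℕ) : ℝ) / 2) 0) = 0 := by
    apply Finset.sum_eq_zero
    intro m _
    rw [max_eq_right]
    · simp
    · push_cast
      have : (0 : ℝ) ≤ m := Nat.cast_nonneg m
      linarith
  rw [h3] at h1
  norm_num at h1
  have : (0 : ℝ) ≤ k := Nat.cast_nonneg k
  linarith

theorem s_lt_one (n : ℕ) (hn : 3 ≤ n) : s n < 1 := by
  obtain ⟨C, hC, hs⟩ := exists_attain n
  have hclosed : IsClosed {x | (C x : ℝ) = W n x} :=
    isClosed_eq (continuous_subtype_val.comp (lipschitz hC).continuous) (continuous_W n)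
  rw [hs]
  refine lt_of_le_of_ne prob_le_one ?_
  intro h1
  have h2 : volume {x | (C x : ℝ) = W n x}ᶜ = 0 := by
    rw [prob_compl_eq_zero_iff hclosed.measurableSet]; exact h1
  have hpos : (volume : Measure (Fin n → I)).IsOpenPosMeasure := by
    rw [volume_pi]; infer_instance
  have h3 := (IsOpen.measure_eq_zero_iff (volume : Measure (Fin n → I)) hclosed.isOpen_compl).mp h2
  apply not_W n hn hC
  intro x
  by_contra hx
  have : x ∈ {x | (C x : ℝ) = W n x}ᶜ := hx
  rw [h3] at this
  exact this

end Pool.Agent.Helper7.Copula
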