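import Mathlib

open MeasureTheory Set Filter
open scoped ENNReal

namespace Pool.Agent.Helper7.Hilbert

/-- Cauchy-Schwarz in squared form -/
lemma cs {α : Type*} [MeasurableSpace α] (μ : Measure α) (a b : α → ℝ≥0∞)
    (ha : AEMeasurable a μ) (hb : AEMeasurable b μ) :
    (∫⁻ x, a x * b x ∂μ) ^ 2 ≤ (∫⁻ x, a x ^ 2 ∂μ) * (∫⁻ x, b x ^ 2 ∂μ) := by
  have h := ENNReal.lintegral_mul_le_Lp_mul_Lq μ Real.HolderConjugate.two_two ha hb
  have h1 : (∫⁻ x, a x * b x ∂μ) ≤ (∫⁻ x, a x ^ (2 : ℝ) ∂μ) ^ (1 / (2 : ℝ)) *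
      (∫⁻ x, b x ^ (2 : ℝ) ∂μ) ^ (1 / (2 : ℝ)) := h
  have h2 : ((∫⁻ x, a x ^ (2 : ℝ) ∂μ) ^ (1 / (2 : ℝ))) ^ 2 = ∫⁻ x, a x ^ 2 ∂μ := by
    rw [← ENNReal.rpow_natCast, ← ENNReal.rpow_mul]
    norm_num
  have h3 : ((∫⁻ x, b x ^ (2 : ℝ) ∂μ) ^ (1 / (2 : ℝ))) ^ 2 = ∫⁻ x, b x ^ 2 ∂μ := by
    rw [← ENNReal.rpow_natCast, ← ENNReal.rpow_mul]
    norm_num
  calc (∫⁻ x, a x * b x ∂μ) ^ 2 ≤ _ := pow_le_pow_left' h1 2
    _ = _ := by rw [mul_pow, h2, h3]

/-- Cauchy-Schwarz with square roots -/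
lemma cs' {α : Type*} [MeasurableSpace α] (μ : Measure α) (a b : α → ℝ≥0∞)
    (ha : AEMeasurable a μ) (hb : AEMeasurable b μ) :
    (∫⁻ x, a x * b x ∂μ) ≤ (∫⁻ x, a x ^ 2 ∂μ) ^ (1 / (2 : ℝ)) *
      (∫⁻ x, b x ^ 2 ∂μ) ^ (1 / (2 : ℝ)) := by
  have h := ENNReal.lintegral_mul_le_Lp_mul_Lq μ Real.HolderConjugate.two_two ha hb
  have h2 : ∀ c : α → ℝ≥0∞, ∫⁻ x, c x ^ (2 : ℝ) ∂μ = ∫⁻ x, c x ^ 2 ∂μ := by
    intro c
    refine lintegral_congr fun x => ?_
    rw [← ENNReal.rpow_natCast]; norm_num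
  rw [h2, h2] at h
  exact h

/-- change of variables -/
lemma cv (κ : ℝ → ℝ≥0∞) (y : ℝ) (hy : 0 < y) :
    ∫⁻ x in Ioi 0, κ x = ENNReal.ofReal y * ∫⁻ r in Ioi 0, κ (r * y) := by
  have himg : (fun r : ℝ => r * y) '' Ioi 0 = Ioi 0 := by
    ext x
    simp only [mem_image, mem_Ioi]
    constructor
    · rintro ⟨r, hr, rfl⟩; positivity
    · intro hx; exact ⟨x / y, by positivity, by field_simp⟩
  have h := lintegral_image_eq_lintegral_abs_deriv_mul (s := Ioi (0 : ℝ)) (f := fun r => r * y)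
    (f' := fun _ => y) measurableSet_Ioi
    (fun x _ => by simpa using ((hasDerivAt_id x).mul_const y).hasDerivWithinAt)
    (fun a _ b _ hab => by
      simp only at hab
      exact mul_right_cancel₀ hy.ne' hab) κ
  rw [himg] at h
  rw [h, abs_of_pos hy, lintegral_const_mul' _ _ ENNReal.ofReal_ne_top]

/-- the beta integral -/
lemma pi_int : ∫⁻ r in Ioi (0 : ℝ), ENNReal.ofReal (1 / ((1 + r) * Real.sqrt r)) ≤
    ENNReal.ofReal Real.pi := by
  have hcont : ContinuousWithinAt (fun r : ℝ => 2 * Real.arctan (Real.sqrt r)) (Ici 0) 0 := by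
    apply Continuous.continuousWithinAt
    fun_prop
  have hderiv : ∀ x ∈ Ioi (0 : ℝ), HasDerivAt (fun r : ℝ => 2 * Real.arctan (Real.sqrt r))
      (1 / ((1 + x) * Real.sqrt x)) x := by
    intro x hx
    have hx0 : 0 < x := hx
    have h1 := ((Real.hasDerivAt_sqrt hx0.ne').arctan).const_mul 2
    have h2 : 2 * (1 / (1 + Real.sqrt x ^ 2) * (1 / (2 * Real.sqrt x))) =
        1 / ((1 + x) * Real.sqrt x) := by
      rw [Real.sq_sqrt hx0.le]
      have : 0 < Real.sqrt x := Real.sqrt_pos.mpr hx0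
      field_simp
    rw [← h2]
    exact h1
  have hpos : ∀ x ∈ Ioi (0 : ℝ), 0 ≤ 1 / ((1 + x) * Real.sqrt x) := by
    intro x hx
    have hx0 : 0 < x := hx
    positivity
  have hlim : Tendsto (fun r : ℝ => 2 * Real.arctan (Real.sqrt r)) atTop
      (nhds (2 * (Real.pi / 2))) := by
    apply Tendsto.const_mul
    exact (tendsto_nhds_of_tendsto_nhdsWithin Real.tendsto_arctan_atTop).comp
      Real.tendsto_sqrt_atTop
  have hint := integrableOn_Ioi_deriv_of_nonneg hcont hderiv hpos hlim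
  have hval := integral_Ioi_of_hasDerivAt_of_nonneg hcont hderiv hpos hlim
  rw [← ofReal_integral_eq_lintegral_ofReal hint
    ((ae_restrict_iff' measurableSet_Ioi).mpr (Eventually.of_forall hpos)), hval]
  apply ENNReal.ofReal_le_ofReal
  rw [Real.sqrt_zero, Real.arctan_zero]
  linarith

lemma cdf_bound (P : Measure ℝ) [IsProbabilityMeasure P] [NullSingletonClass P] (s : ℝ) (hs : 0 < s) :
    P {x | s < P.real (Iic x)} ≤ ENNReal.ofReal (1 - s) := by
  have hcdf : ∀ x, ProbabilityTheory.cdf P x = P.real (Iic x) :=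
    fun x => ProbabilityTheory.cdf_eq_real P x
  rcases le_or_gt 1 s with h1 | h1
  · have : {x | s < P.real (Iic x)} = ∅ := by
      rw [Set.eq_empty_iff_forall_notMem]
      intro x hx
      have hx' : s < P.real (Iic x) := hx
      have := measureReal_le_one (μ := P) (s := Iic x)
      linarith
    rw [this, measure_empty]; exact zero_le
  · set V : Set ℝ := {x | P.real (Iic x) ≤ s} with hV
    have hne : V.Nonempty := by
      have := (ProbabilityTheory.tendsto_cdf_atBot P).eventually (ge_mem_nhds hs)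
      obtain ⟨x, hx⟩ := this.exists
      exact ⟨x, by rw [hV, mem_ofPred_eq, ← hcdf]; exact hx⟩
    have hbdd : BddAbove V := by
      have := (ProbabilityTheory.tendsto_cdf_atTop P).eventually (lt_mem_nhds h1)
      obtain ⟨x, hx⟩ := this.exists
      refine ⟨x, fun y hy => ?_⟩
      by_contra hxy
      push Not at hxy
      have h3 : P.real (Iic x) ≤ P.real (Iic y) := measureReal_mono (Iic_subset_Iic.mpr hxy.le)
      have h4 : P.real (Iic y) ≤ s := hy
      rw [hcdf] at hx
      linarith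
    set b := sSup V with hb
    have hsub : {x | s < P.real (Iic x)} ⊆ Ici b := by
      intro x hx
      apply csSup_le hne
      intro y hy
      by_contra hxy
      push Not at hxy
      have h3 : P.real (Iic x) ≤ P.real (Iic y) := measureReal_mono (Iic_subset_Iic.mpr hxy.le)
      have h4 : P.real (Iic y) ≤ s := hy
      have h5 : s < P.real (Iic x) := hx
      linarith
    have hFb : s ≤ P.real (Iic b) := by
      have hrc := (ProbabilityTheory.cdf P).right_continuous b
      have h6 : Tendsto (ProbabilityTheory.cdf P) (nhdsWithin b (Ioi b))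
          (nhds (ProbabilityTheory.cdf P b)) := hrc.mono_left (nhdsWithin_mono _ Ioi_subset_Ici_self)
      rw [← hcdf]
      refine ge_of_tendsto h6 ?_
      filter_upwards [self_mem_nhdsWithin] with x hx
      by_contra hlt
      push Not at hlt
      have hxV : x ∈ V := by rw [hV, mem_ofPred_eq, ← hcdf]; exact hlt.le
      have := le_csSup hbdd hxV
      have hx' : b < x := hx
      linarith
    have h7 : P.real (Ici b) = 1 - P.real (Iic b) := by
      have h8 : P.real (Ici b) = P.real (Ioi b) := by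
        rw [measureReal_def, measureReal_def, Ioi_ae_eq_Ici.measure_eq]
      rw [h8, ← compl_Iic, measureReal_compl measurableSet_Iic, probReal_univ]
    calc P {x | s < P.real (Iic x)} ≤ P (Ici b) := measure_mono hsub
      _ = ENNReal.ofReal (P.real (Ici b)) := (ofReal_measureReal).symm
      _ ≤ ENNReal.ofReal (1 - s) := by
          apply ENNReal.ofReal_le_ofReal
          rw [h7]; linarith

lemma real_int : ∫⁻ t in Ioi (0 : ℝ), ENNReal.ofReal (1 - t ^ 2) ≤ ENNReal.ofReal (2 / 3) := by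
  have h1 : ∫⁻ t in Ioi (0 : ℝ), ENNReal.ofReal (1 - t ^ 2) =
      ∫⁻ t in Ioc (0 : ℝ) 1, ENNReal.ofReal (1 - t ^ 2) := by
    have hU : Ioi (0 : ℝ) = Ioc 0 1 ∪ Ioi 1 := (Ioc_union_Ioi_eq_Ioi zero_le_one).symm
    rw [hU, lintegral_union measurableSet_Ioi (by
      rw [Set.disjoint_left]; intro x hx hx'; exact absurd hx.2 (not_le.mpr hx'))]
    have h2 : ∫⁻ t in Ioi (1 : ℝ), ENNReal.ofReal (1 - t ^ 2) = 0 := by
      rw [setLIntegral_congr_fun (g := fun _ => 0) measurableSet_Ioi]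
      · simp
      · intro t ht
        have ht' : (1 : ℝ) < t := ht
        exact ENNReal.ofReal_of_nonpos (by nlinarith)
    rw [h2, add_zero]
  rw [h1, ← ofReal_integral_eq_lintegral_ofReal]
  · apply ENNReal.ofReal_le_ofReal
    rw [← intervalIntegral.integral_of_le zero_le_one]
    rw [intervalIntegral.integral_sub (by simp) (by simp)]
    rw [integral_pow]
    norm_num
  · apply Continuous.integrableOn_Ioc
    fun_prop
  · refine (ae_restrict_iff' measurableSet_Ioc).mpr (Eventually.of_forall fun t ht => ?_)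
    have h3 := ht.1
    have h4 := ht.2
    change 0 ≤ 1 - t ^ 2
    nlinarith

lemma sqrt_cdf (P : Measure ℝ) [IsProbabilityMeasure P] [NullSingletonClass P] :
    ∫⁻ x, (P (Iic x)) ^ (1 / (2 : ℝ)) ∂P ≤ ENNReal.ofReal (2 / 3) := by
  have hmono : Monotone fun x => P.real (Iic x) := fun x y hxy =>
    measureReal_mono (Iic_subset_Iic.mpr hxy)
  have h1 : ∀ x, (P (Iic x)) ^ (1 / (2 : ℝ)) = ENNReal.ofReal (Real.sqrt (P.real (Iic x))) := by
    intro x
    rw [Real.sqrt_eq_rpow, ← ENNReal.ofReal_rpow_of_nonneg measureReal_nonneg (by norm_num),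
      ofReal_measureReal]
  simp only [h1]
  rw [lintegral_eq_lintegral_meas_lt P (Eventually.of_forall fun x => Real.sqrt_nonneg _)
    (hmono.measurable.sqrt.aemeasurable)]
  refine le_trans (setLIntegral_mono' measurableSet_Ioi fun t ht => ?_) real_int
  have ht' : (0 : ℝ) < t := ht
  have h2 : {a | t < Real.sqrt (P.real (Iic a))} = {a | t ^ 2 < P.real (Iic a)} := by
    ext a
    simp only [mem_ofPred_eq]
    exact Real.lt_sqrt ht'.le
  rw [h2]
  exact cdf_bound P (t ^ 2) (by positivity)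

lemma sqrt_cdf' (P : Measure ℝ) [IsProbabilityMeasure P] [NullSingletonClass P] :
    ∫⁻ x, (P (Ioi x)) ^ (1 / (2 : ℝ)) ∂P ≤ ENNReal.ofReal (2 / 3) := by
  let e : ℝ ≃ᵐ ℝ := MeasurableEquiv.neg ℝ
  set Q := P.map e with hQ
  haveI : IsProbabilityMeasure Q := Measure.isProbabilityMeasure_map e.measurable.aemeasurable
  haveI : NullSingletonClass Q := by
    constructor
    intro x
    rw [hQ, e.map_apply]
    have : e ⁻¹' {x} = {-x} := by
      ext y
      simp only [mem_preimage, mem_singleton_iff]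
      constructor
      · intro h; rw [← h]; exact (neg_neg y).symm
      · intro h; rw [h]; exact neg_neg x
    rw [this, measure_singleton]
  have h := sqrt_cdf Q
  rw [hQ, lintegral_map_equiv] at h
  refine le_trans (le_of_eq ?_) h
  refine lintegral_congr fun x => ?_
  rw [e.map_apply]
  congr 1
  have : e ⁻¹' (Iic (e x)) = Ici x := by
    ext y
    change -y ≤ -x ↔ x ≤ y
    exact neg_le_neg_iff
  rw [this]
  exact Ioi_ae_eq_Ici.measure_eq

end Pool.Agent.Helper7.Hilbert
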