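import Pool.Agent.Helper7.HilbertA

open MeasureTheory Set Filter
open scoped ENNReal

namespace Pool.Agent.Helper7.Hilbert

/-- the measure with density `φ ^ 4` on the half line -/
noncomputable def PM (φ : ℝ → ℝ≥0∞) : Measure ℝ :=
  (volume.restrict (Ioi 0)).withDensity (fun x => φ x ^ 4)

instance (φ : ℝ → ℝ≥0∞) : NullSingletonClass (PM φ) := by
  unfold PM
  infer_instance

lemma PM_prob (φ : ℝ → ℝ≥0∞) (h : ∫⁻ x in Ioi 0, φ x ^ 4 = 1) : IsProbabilityMeasure (PM φ) := by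
  constructor
  rw [PM, withDensity_apply _ MeasurableSet.univ, Measure.restrict_univ, h]

lemma PM_lintegral (φ : ℝ → ℝ≥0∞) (hφ : Measurable φ) (g : ℝ → ℝ≥0∞) (hg : Measurable g) :
    ∫⁻ x, g x ∂(PM φ) = ∫⁻ x in Ioi 0, φ x ^ 4 * g x := by
  rw [PM, lintegral_withDensity_eq_lintegral_mul _ (hφ.pow_const 4) hg]
  rfl

lemma PM_apply (φ : ℝ → ℝ≥0∞) (s : Set ℝ) (hs : MeasurableSet s) :
    PM φ s = ∫⁻ x in Ioi 0, s.indicator (fun x => φ x ^ 4) x := by
  rw [PM, withDensity_apply _ hs, lintegral_indicator hs]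

lemma meas_Iic (P : Measure ℝ) : Measurable fun x => P (Iic x) := by
  have : Monotone fun x => P (Iic x) := fun x y hxy => measure_mono (Iic_subset_Iic.mpr hxy)
  exact this.measurable

lemma meas_Ioi (P : Measure ℝ) : Measurable fun x => P (Ioi x) := by
  have : Antitone fun x => P (Ioi x) := fun x y hxy => measure_mono (Ioi_subset_Ioi hxy)
  exact this.measurable

lemma psi_part (φ ψ : ℝ → ℝ≥0∞) (hφ : Measurable φ) (hψ : Measurable ψ) (r : ℝ)
    (hr : 0 < r) (s s' : Set ℝ) (hs : MeasurableSet s) (hs' : MeasurableSet s')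
    (hss : ∀ z, z ∈ s ↔ z * r ∈ s') :
    ENNReal.ofReal (Real.sqrt r) *
      ∫⁻ z in Ioi 0, s.indicator (fun z => φ (z * r) ^ 2 * ψ z ^ 2) z ≤
      (PM φ s') ^ (1 / (2 : ℝ)) * (PM ψ s) ^ (1 / (2 : ℝ)) := by
  classical
  have h1 : ∀ z, s.indicator (fun z => φ (z * r) ^ 2 * ψ z ^ 2) z =
      (s'.indicator (fun x => φ x ^ 2) (z * r)) * (s.indicator (fun x => ψ x ^ 2) z) := by
    intro z
    by_cases hz : z ∈ s
    · rw [indicator_of_mem hz, indicator_of_mem hz, indicator_of_mem ((hss z).mp hz)]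
    · rw [indicator_of_notMem hz, indicator_of_notMem hz, mul_zero]
  simp only [h1]
  have hm1 : Measurable fun z => s'.indicator (fun x => φ x ^ 2) (z * r) :=
    ((hφ.pow_const 2).indicator hs').comp (measurable_id.mul_const r)
  have hm2 : Measurable fun z => s.indicator (fun x => ψ x ^ 2) z :=
    (hψ.pow_const 2).indicator hs
  have h2 := cs' (volume.restrict (Ioi 0)) (fun z => s'.indicator (fun x => φ x ^ 2) (z * r))
    (fun z => s.indicator (fun x => ψ x ^ 2) z) hm1.aemeasurable hm2.aemeasurable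
  have h3 : ∫⁻ z in Ioi 0, (s.indicator (fun x => ψ x ^ 2) z) ^ 2 = PM ψ s := by
    rw [PM_apply ψ s hs]
    refine lintegral_congr fun z => ?_
    by_cases hz : z ∈ s
    · rw [indicator_of_mem hz, indicator_of_mem hz, ← pow_mul]
    · rw [indicator_of_notMem hz, indicator_of_notMem hz]; simp
  have h4 : PM φ s' = ENNReal.ofReal r *
      ∫⁻ z in Ioi 0, (s'.indicator (fun x => φ x ^ 2) (z * r)) ^ 2 := by
    rw [PM_apply φ s' hs', cv _ r hr]
    congr 1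
    refine lintegral_congr fun z => ?_
    by_cases hz : z * r ∈ s'
    · rw [indicator_of_mem hz, indicator_of_mem hz, ← pow_mul]
    · rw [indicator_of_notMem hz, indicator_of_notMem hz]; simp
  rw [h3] at h2
  have h5 : (ENNReal.ofReal r) ^ (1 / (2 : ℝ)) = ENNReal.ofReal (Real.sqrt r) := by
    rw [ENNReal.ofReal_rpow_of_pos hr, Real.sqrt_eq_rpow]
  rw [h4, ENNReal.mul_rpow_of_nonneg _ _ (by norm_num), h5, mul_assoc]
  exact mul_le_mul_right h2 _

/-- the bound for the affinity -/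
lemma psi_bound (φ ψ : ℝ → ℝ≥0∞) (hφ : Measurable φ) (hψ : Measurable ψ) (r y : ℝ)
    (hr : 0 < r) :
    ENNReal.ofReal (Real.sqrt r) * ∫⁻ z in Ioi 0, φ (z * r) ^ 2 * ψ z ^ 2 ≤
      (PM φ (Iic (y * r))) ^ (1 / (2 : ℝ)) * (PM ψ (Iic y)) ^ (1 / (2 : ℝ)) +
      (PM φ (Ioi (y * r))) ^ (1 / (2 : ℝ)) * (PM ψ (Ioi y)) ^ (1 / (2 : ℝ)) := by
  have hm : Measurable fun z => φ (z * r) ^ 2 * ψ z ^ 2 := by
    have := hφ.comp (measurable_id.mul_const r)
    exact (this.pow_const 2).mul (hψ.pow_const 2)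
  have h1 := psi_part φ ψ hφ hψ r hr (Iic y) (Iic (y * r)) measurableSet_Iic measurableSet_Iic
    (fun z => by simp only [mem_Iic]; exact (mul_le_mul_iff_left₀ hr).symm)
  have h2 := psi_part φ ψ hφ hψ r hr (Ioi y) (Ioi (y * r)) measurableSet_Ioi measurableSet_Ioi
    (fun z => by simp only [mem_Ioi]; exact (mul_lt_mul_iff_left₀ hr).symm)
  refine le_trans (le_of_eq ?_) (add_le_add h1 h2)
  rw [← mul_add, ← lintegral_add_left (hm.indicator measurableSet_Iic)]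
  congr 1
  refine lintegral_congr fun z => ?_
  by_cases hz : z ≤ y
  · rw [indicator_of_mem (mem_Iic.mpr hz), indicator_of_notMem (by simp [hz]), add_zero]
  · rw [indicator_of_notMem (by simpa using hz), indicator_of_mem (by simpa using hz), zero_add]

/-- the double integral with cubes -/
noncomputable def II (φ ψ : ℝ → ℝ≥0∞) : ℝ≥0∞ :=
  ∫⁻ y in Ioi 0, ∫⁻ x in Ioi 0, φ x ^ 3 * ψ y ^ 3 * ENNReal.ofReal (1 / Real.sqrt (x + y))

noncomputable def MM (φ ψ : ℝ → ℝ≥0∞) (r : ℝ) : ℝ≥0∞ :=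
  ∫⁻ y in Ioi 0, ENNReal.ofReal (Real.sqrt y) * (φ (r * y) ^ 3 * ψ y ^ 3)

lemma step12 (φ ψ : ℝ → ℝ≥0∞) (hφ : Measurable φ) (hψ : Measurable ψ) :
    II φ ψ = ∫⁻ r in Ioi 0, ENNReal.ofReal (1 / Real.sqrt (1 + r)) * MM φ ψ r := by
  have h1 : II φ ψ = ∫⁻ y in Ioi (0 : ℝ), ∫⁻ r in Ioi (0 : ℝ),
      ENNReal.ofReal (1 / Real.sqrt (1 + r)) *
        (ENNReal.ofReal (Real.sqrt y) * (φ (r * y) ^ 3 * ψ y ^ 3)) := by
    unfold II
    refine setLIntegral_congr_fun measurableSet_Ioi fun y hy => ?_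
    have hy0 : (0 : ℝ) < y := hy
    rw [cv _ y hy0, ← lintegral_const_mul' _ _ ENNReal.ofReal_ne_top]
    refine setLIntegral_congr_fun measurableSet_Ioi fun r hr => ?_
    have hr0 : (0 : ℝ) < r := hr
    have h2 : ENNReal.ofReal y * ENNReal.ofReal (1 / Real.sqrt (r * y + y)) =
        ENNReal.ofReal (1 / Real.sqrt (1 + r)) * ENNReal.ofReal (Real.sqrt y) := by
      rw [← ENNReal.ofReal_mul hy0.le, ← ENNReal.ofReal_mul (by positivity)]
      congr 1
      have h3 : r * y + y = (1 + r) * y := by ring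
      rw [h3, Real.sqrt_mul (by positivity)]
      have h4 : 0 < Real.sqrt y := Real.sqrt_pos.mpr hy0
      have h5 : 0 < Real.sqrt (1 + r) := Real.sqrt_pos.mpr (by positivity)
      have h6 : y = Real.sqrt y * Real.sqrt y := (Real.mul_self_sqrt hy0.le).symm
      field_simp
      rw [Real.sq_sqrt hy0.le]
    calc ENNReal.ofReal y * (φ (r * y) ^ 3 * ψ y ^ 3 *
          ENNReal.ofReal (1 / Real.sqrt (r * y + y))) =
        (ENNReal.ofReal y * ENNReal.ofReal (1 / Real.sqrt (r * y + y))) *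
          (φ (r * y) ^ 3 * ψ y ^ 3) := by ring
      _ = _ := by rw [h2]; ring
  rw [h1, lintegral_lintegral_swap]
  · refine lintegral_congr fun r => ?_
    rw [lintegral_const_mul' _ _ ENNReal.ofReal_ne_top]
    rfl
  · apply Measurable.aemeasurable
    have e1 : Measurable fun p : ℝ × ℝ => φ (p.2 * p.1) :=
      hφ.comp (measurable_snd.mul measurable_fst)
    have e2 : Measurable fun p : ℝ × ℝ => ψ p.1 := hψ.comp measurable_fst
    have e3 : Measurable fun p : ℝ × ℝ => ENNReal.ofReal (1 / Real.sqrt (1 + p.2)) := by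
      fun_prop
    have e4 : Measurable fun p : ℝ × ℝ => ENNReal.ofReal (Real.sqrt p.1) := by fun_prop
    exact e3.mul (e4.mul ((e1.pow_const 3).mul (e2.pow_const 3)))

lemma MM_meas (φ ψ : ℝ → ℝ≥0∞) (hφ : Measurable φ) (hψ : Measurable ψ) :
    Measurable (MM φ ψ) := by
  unfold MM
  apply Measurable.lintegral_prod_right'
    (f := fun p : ℝ × ℝ => ENNReal.ofReal (Real.sqrt p.2) * (φ (p.1 * p.2) ^ 3 * ψ p.2 ^ 3))
  have e1 : Measurable fun p : ℝ × ℝ => φ (p.1 * p.2) :=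
    hφ.comp (measurable_fst.mul measurable_snd)
  have e2 : Measurable fun p : ℝ × ℝ => ψ p.2 := hψ.comp measurable_snd
  have e4 : Measurable fun p : ℝ × ℝ => ENNReal.ofReal (Real.sqrt p.2) := by fun_prop
  exact e4.mul ((e1.pow_const 3).mul (e2.pow_const 3))

lemma step3 (φ ψ : ℝ → ℝ≥0∞) (hφ : Measurable φ) (hψ : Measurable ψ) :
    (II φ ψ) ^ 2 ≤ ENNReal.ofReal Real.pi *
      ∫⁻ r in Ioi 0, ENNReal.ofReal (Real.sqrt r) * MM φ ψ r ^ 2 := by
  have h0 : II φ ψ = ∫⁻ r in Ioi (0 : ℝ),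
      ENNReal.ofReal (1 / (Real.sqrt (1 + r) * Real.sqrt (Real.sqrt r))) *
      (ENNReal.ofReal (Real.sqrt (Real.sqrt r)) * MM φ ψ r) := by
    rw [step12 φ ψ hφ hψ]
    refine setLIntegral_congr_fun measurableSet_Ioi fun r hr => ?_
    have hr0 : (0 : ℝ) < r := hr
    have h1 : 0 < Real.sqrt (Real.sqrt r) := Real.sqrt_pos.mpr (Real.sqrt_pos.mpr hr0)
    have h2 : 0 < Real.sqrt (1 + r) := Real.sqrt_pos.mpr (by positivity)
    rw [← mul_assoc, ← ENNReal.ofReal_mul (by positivity)]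
    congr 2
    field_simp
  rw [h0]
  have hM := MM_meas φ ψ hφ hψ
  refine (cs (volume.restrict (Ioi 0))
    (fun r => ENNReal.ofReal (1 / (Real.sqrt (1 + r) * Real.sqrt (Real.sqrt r))))
    (fun r => ENNReal.ofReal (Real.sqrt (Real.sqrt r)) * MM φ ψ r)
    (by apply Measurable.aemeasurable; fun_prop)
    (by
      apply Measurable.aemeasurable
      have e4 : Measurable fun r : ℝ => ENNReal.ofReal (Real.sqrt (Real.sqrt r)) := by fun_prop
      exact e4.mul hM)).trans ?_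
  have h3 : ∫⁻ r in Ioi (0 : ℝ),
      ENNReal.ofReal (1 / (Real.sqrt (1 + r) * Real.sqrt (Real.sqrt r))) ^ 2 ≤
      ENNReal.ofReal Real.pi := by
    refine le_trans (le_of_eq ?_) pi_int
    refine setLIntegral_congr_fun measurableSet_Ioi fun r hr => ?_
    have hr0 : (0 : ℝ) < r := hr
    rw [← ENNReal.ofReal_pow (by positivity)]
    congr 1
    rw [div_pow, mul_pow, Real.sq_sqrt (by positivity), Real.sq_sqrt (by positivity), one_pow]
  have h4 : ∫⁻ r in Ioi (0 : ℝ), (ENNReal.ofReal (Real.sqrt (Real.sqrt r)) * MM φ ψ r) ^ 2 =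
      ∫⁻ r in Ioi 0, ENNReal.ofReal (Real.sqrt r) * MM φ ψ r ^ 2 := by
    refine lintegral_congr fun r => ?_
    rw [mul_pow, ← ENNReal.ofReal_pow (Real.sqrt_nonneg _), Real.sq_sqrt (Real.sqrt_nonneg _)]
  rw [h4]
  exact mul_le_mul_left h3 _

lemma step4 (φ ψ : ℝ → ℝ≥0∞) (hφ : Measurable φ) (hψ : Measurable ψ) (r : ℝ) :
    MM φ ψ r ^ 2 ≤ (∫⁻ y in Ioi 0, ENNReal.ofReal y * (φ (r * y) ^ 4 * ψ y ^ 4)) *
      ∫⁻ z in Ioi 0, φ (z * r) ^ 2 * ψ z ^ 2 := by
  have e1 : Measurable fun y : ℝ => φ (r * y) := hφ.comp (measurable_id.const_mul r)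
  have h1 : MM φ ψ r = ∫⁻ y in Ioi 0,
      (ENNReal.ofReal (Real.sqrt y) * (φ (r * y) ^ 2 * ψ y ^ 2)) * (φ (r * y) * ψ y) := by
    unfold MM
    refine lintegral_congr fun y => ?_
    ring
  rw [h1]
  refine (cs _ _ _ ?_ ?_).trans (le_of_eq ?_)
  · apply Measurable.aemeasurable
    have e4 : Measurable fun y : ℝ => ENNReal.ofReal (Real.sqrt y) := by fun_prop
    exact e4.mul ((e1.pow_const 2).mul (hψ.pow_const 2))
  · exact (e1.mul hψ).aemeasurable
  · congr 1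
    · refine setLIntegral_congr_fun measurableSet_Ioi fun y hy => ?_
      have hy0 : (0 : ℝ) < y := hy
      rw [mul_pow, ← ENNReal.ofReal_pow (Real.sqrt_nonneg _), Real.sq_sqrt hy0.le]
      ring
    · refine lintegral_congr fun y => ?_
      rw [mul_comm r y]; ring

noncomputable def TH (φ ψ : ℝ → ℝ≥0∞) (x y : ℝ) : ℝ≥0∞ :=
  (PM φ (Iic x)) ^ (1 / (2 : ℝ)) * (PM ψ (Iic y)) ^ (1 / (2 : ℝ)) +
      (PM φ (Ioi x)) ^ (1 / (2 : ℝ)) * (PM ψ (Ioi y)) ^ (1 / (2 : ℝ))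

lemma step5 (φ ψ : ℝ → ℝ≥0∞) (hφ : Measurable φ) (hψ : Measurable ψ) :
    (II φ ψ) ^ 2 ≤ ENNReal.ofReal Real.pi *
      ∫⁻ y in Ioi 0, ∫⁻ x in Ioi 0, φ x ^ 4 * ψ y ^ 4 * TH φ ψ x y := by
  refine (step3 φ ψ hφ hψ).trans ?_
  apply mul_le_mul_right
  have h1 : ∫⁻ r in Ioi (0 : ℝ), ENNReal.ofReal (Real.sqrt r) * MM φ ψ r ^ 2 ≤
      ∫⁻ r in Ioi (0 : ℝ), ∫⁻ y in Ioi (0 : ℝ),
        ENNReal.ofReal y * (φ (r * y) ^ 4 * ψ y ^ 4 * TH φ ψ (r * y) y) := by
    refine setLIntegral_mono' measurableSet_Ioi fun r hr => ?_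
    have hr0 : (0 : ℝ) < r := hr
    have e1 : Measurable fun y : ℝ => φ (r * y) := hφ.comp (measurable_id.const_mul r)
    calc ENNReal.ofReal (Real.sqrt r) * MM φ ψ r ^ 2 ≤
        ENNReal.ofReal (Real.sqrt r) *
          ((∫⁻ y in Ioi 0, ENNReal.ofReal y * (φ (r * y) ^ 4 * ψ y ^ 4)) *
          ∫⁻ z in Ioi 0, φ (z * r) ^ 2 * ψ z ^ 2) := mul_le_mul_right (step4 φ ψ hφ hψ r) _
      _ = (∫⁻ y in Ioi 0, ENNReal.ofReal y * (φ (r * y) ^ 4 * ψ y ^ 4)) *
          (ENNReal.ofReal (Real.sqrt r) * ∫⁻ z in Ioi 0, φ (z * r) ^ 2 * ψ z ^ 2) := by ring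
      _ = ∫⁻ y in Ioi 0, (ENNReal.ofReal y * (φ (r * y) ^ 4 * ψ y ^ 4)) *
          (ENNReal.ofReal (Real.sqrt r) * ∫⁻ z in Ioi 0, φ (z * r) ^ 2 * ψ z ^ 2) := by
          rw [lintegral_mul_const]
          have e4 : Measurable fun y : ℝ => ENNReal.ofReal y := by fun_prop
          exact e4.mul ((e1.pow_const 4).mul (hψ.pow_const 4))
      _ ≤ ∫⁻ y in Ioi (0 : ℝ),
        ENNReal.ofReal y * (φ (r * y) ^ 4 * ψ y ^ 4 * TH φ ψ (r * y) y) := by
          refine lintegral_mono fun y => ?_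
          have hb := psi_bound φ ψ hφ hψ r y hr0
          rw [mul_comm y r] at hb
          calc (ENNReal.ofReal y * (φ (r * y) ^ 4 * ψ y ^ 4)) *
              (ENNReal.ofReal (Real.sqrt r) * ∫⁻ z in Ioi 0, φ (z * r) ^ 2 * ψ z ^ 2) ≤
              (ENNReal.ofReal y * (φ (r * y) ^ 4 * ψ y ^ 4)) * TH φ ψ (r * y) y :=
                mul_le_mul_right hb _
            _ = _ := by ring
  refine h1.trans (le_of_eq ?_)
  rw [lintegral_lintegral_swap]
  · refine setLIntegral_congr_fun measurableSet_Ioi fun y hy => ?_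
    have hy0 : (0 : ℝ) < y := hy
    rw [cv (fun x => φ x ^ 4 * ψ y ^ 4 * TH φ ψ x y) y hy0,
      lintegral_const_mul' _ _ ENNReal.ofReal_ne_top]
  · apply Measurable.aemeasurable
    have e1 : Measurable fun p : ℝ × ℝ => φ (p.1 * p.2) :=
      hφ.comp (measurable_fst.mul measurable_snd)
    have e2 : Measurable fun p : ℝ × ℝ => ψ p.2 := hψ.comp measurable_snd
    have e4 : Measurable fun p : ℝ × ℝ => ENNReal.ofReal p.2 := by fun_prop
    have e5 : Measurable fun p : ℝ × ℝ => TH φ ψ (p.1 * p.2) p.2 := by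
      unfold TH
      have f1 : Measurable fun p : ℝ × ℝ => PM φ (Iic (p.1 * p.2)) :=
        (meas_Iic (PM φ)).comp (measurable_fst.mul measurable_snd)
      have f2 : Measurable fun p : ℝ × ℝ => PM ψ (Iic p.2) :=
        (meas_Iic (PM ψ)).comp measurable_snd
      have f3 : Measurable fun p : ℝ × ℝ => PM φ (Ioi (p.1 * p.2)) :=
        (meas_Ioi (PM φ)).comp (measurable_fst.mul measurable_snd)
      have f4 : Measurable fun p : ℝ × ℝ => PM ψ (Ioi p.2) :=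
        (meas_Ioi (PM ψ)).comp measurable_snd
      exact ((f1.pow_const _).mul (f2.pow_const _)).add ((f3.pow_const _).mul (f4.pow_const _))
    exact e4.mul (((e1.pow_const 4).mul (e2.pow_const 4)).mul e5)

theorem main_bound (φ ψ : ℝ → ℝ≥0∞) (hφ : Measurable φ) (hψ : Measurable ψ)
    (h1 : ∫⁻ x in Ioi 0, φ x ^ 4 = 1) (h2 : ∫⁻ x in Ioi 0, ψ x ^ 4 = 1) :
    (II φ ψ) ^ 2 ≤ ENNReal.ofReal (8 / 9 * Real.pi) := by
  have := PM_prob φ h1
  have := PM_prob ψ h2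
  refine (step5 φ ψ hφ hψ).trans ?_
  have a1 := sqrt_cdf (PM φ)
  have a2 := sqrt_cdf (PM ψ)
  have b1 := sqrt_cdf' (PM φ)
  have b2 := sqrt_cdf' (PM ψ)
  have m1 : Measurable fun x => (PM φ (Iic x)) ^ (1 / (2 : ℝ)) := (meas_Iic _).pow_const _
  have m2 : Measurable fun x => (PM ψ (Iic x)) ^ (1 / (2 : ℝ)) := (meas_Iic _).pow_const _
  have m3 : Measurable fun x => (PM φ (Ioi x)) ^ (1 / (2 : ℝ)) := (meas_Ioi _).pow_const _
  have m4 : Measurable fun x => (PM ψ (Ioi x)) ^ (1 / (2 : ℝ)) := (meas_Ioi _).pow_const _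
  rw [PM_lintegral φ hφ _ m1] at a1
  rw [PM_lintegral ψ hψ _ m2] at a2
  rw [PM_lintegral φ hφ _ m3] at b1
  rw [PM_lintegral ψ hψ _ m4] at b2
  have h3 : ∫⁻ y in Ioi 0, ∫⁻ x in Ioi 0, φ x ^ 4 * ψ y ^ 4 * TH φ ψ x y =
      (∫⁻ x in Ioi 0, φ x ^ 4 * (PM φ (Iic x)) ^ (1 / (2 : ℝ))) *
        (∫⁻ y in Ioi 0, ψ y ^ 4 * (PM ψ (Iic y)) ^ (1 / (2 : ℝ))) +
      (∫⁻ x in Ioi 0, φ x ^ 4 * (PM φ (Ioi x)) ^ (1 / (2 : ℝ))) *
        (∫⁻ y in Ioi 0, ψ y ^ 4 * (PM ψ (Ioi y)) ^ (1 / (2 : ℝ))) := by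
    rw [← lintegral_const_mul, ← lintegral_const_mul, ← lintegral_add_left]
    · refine lintegral_congr fun y => ?_
      rw [← lintegral_mul_const, ← lintegral_mul_const, ← lintegral_add_left]
      · refine lintegral_congr fun x => ?_
        unfold TH
        ring
      · exact ((hφ.pow_const 4).mul m1).mul_const _
      · exact (hφ.pow_const 4).mul m3
      · exact (hφ.pow_const 4).mul m1
    · exact ((hψ.pow_const 4).mul m2).const_mul _
    · exact (hψ.pow_const 4).mul m4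
    · exact (hψ.pow_const 4).mul m2
  rw [h3]
  calc _ ≤ ENNReal.ofReal Real.pi * (ENNReal.ofReal (2 / 3) * ENNReal.ofReal (2 / 3) +
        ENNReal.ofReal (2 / 3) * ENNReal.ofReal (2 / 3)) := by
        apply mul_le_mul_right
        exact add_le_add (mul_le_mul' a1 a2) (mul_le_mul' b1 b2)
    _ = ENNReal.ofReal (8 / 9 * Real.pi) := by
        rw [← ENNReal.ofReal_mul (by norm_num), ← ENNReal.ofReal_add (by norm_num) (by norm_num),
          ← ENNReal.ofReal_mul Real.pi_pos.le]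
        congr 1
        ring

end Pool.Agent.Helper7.Hilbert
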