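import Mathlib

open MeasureTheory Set
open scoped ENNReal

namespace Pool.Agent.Helper7.Hilbert

/-- The exponent `λ = 2 - 1/p - 1/q`. -/
noncomputable def lam (p q : ℝ) : ℝ := 2 - 1 / p - 1 / q

/-- The constant `K(p,q) = π ^ λ * csc ^ λ (π (q - 1) / (λ q))`. -/
noncomputable def K (p q : ℝ) : ℝ :=
  Real.pi ^ lam p q * (1 / Real.sin (Real.pi * (q - 1) / (lam p q * q))) ^ lam p q

/-- The integral inequality (I) with constant `C`. -/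
def IntegralIneq (p q C : ℝ) : Prop :=
  ∀ f g : ℝ → ℝ≥0∞, Measurable f → Measurable g →
    ∫⁻ x in Ioi 0, ∫⁻ y in Ioi 0, f x * g y * ENNReal.ofReal ((x + y) ^ (-lam p q)) ≤
      ENNReal.ofReal C * (∫⁻ x in Ioi 0, f x ^ p) ^ (1 / p) * (∫⁻ y in Ioi 0, g y ^ q) ^ (1 / q)

/-- The series inequality (S) with constant `C`. -/
def SeriesIneq (p q C : ℝ) : Prop :=
  ∀ a b : ℕ+ → ℝ≥0∞,
    ∑' m : ℕ+, ∑' n : ℕ+, a m * b n * ENNReal.ofReal (((m : ℝ) + (n : ℝ)) ^ (-lam p q)) ≤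
      ENNReal.ofReal C * (∑' m : ℕ+, a m ^ p) ^ (1 / p) * (∑' n : ℕ+, b n ^ q) ^ (1 / q)

end Pool.Agent.Helper7.Hilbert
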