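import Pool.Agent.Helper7.HilbertB
import Pool.Agent.Helper7.HilbertDefs

open MeasureTheory Set Filter
open scoped ENNReal

namespace Pool.Agent.Helper7.Hilbert

lemma lam_val : lam (4 / 3) (4 / 3) = 1 / 2 := by unfold lam; norm_num

lemma K_val : K (4 / 3) (4 / 3) = Real.sqrt Real.pi := by
  unfold K
  rw [lam_val]
  have h : Real.pi * (4 / 3 - 1) / (1 / 2 * (4 / 3)) = Real.pi / 2 := by ring
  rw [h, Real.sin_pi_div_two, Real.sqrt_eq_rpow]
  simp

lemma C_lt : Real.sqrt (8 / 9 * Real.pi) < K (4 / 3) (4 / 3) := by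
  rw [K_val]
  apply Real.sqrt_lt_sqrt (by positivity)
  linarith [Real.pi_pos]

lemma normalized (φ ψ : ℝ → ℝ≥0∞) (hφ : Measurable φ) (hψ : Measurable ψ)
    (h1 : ∫⁻ x in Ioi 0, φ x ^ 4 = 1) (h2 : ∫⁻ x in Ioi 0, ψ x ^ 4 = 1) :
    II φ ψ ≤ ENNReal.ofReal (Real.sqrt (8 / 9 * Real.pi)) := by
  have h := main_bound φ ψ hφ hψ h1 h2
  have h3 : ENNReal.ofReal (8 / 9 * Real.pi) =
      ENNReal.ofReal (Real.sqrt (8 / 9 * Real.pi)) ^ 2 := by
    rw [← ENNReal.ofReal_pow (Real.sqrt_nonneg _), Real.sq_sqrt (by positivity)]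
  rw [h3] at h
  by_contra hcon
  push Not at hcon
  have := ENNReal.pow_lt_pow_left two_ne_zero hcon
  exact absurd h (not_le.mpr this)

theorem integral_ineq : IntegralIneq (4 / 3) (4 / 3) (Real.sqrt (8 / 9 * Real.pi)) := by
  intro f g hf hg
  rw [lam_val]
  have hk : ∀ x y : ℝ, 0 < x → 0 < y →
      ENNReal.ofReal ((x + y) ^ (-(1 / 2 : ℝ))) = ENNReal.ofReal (1 / Real.sqrt (x + y)) := by
    intro x y hx hy
    rw [Real.rpow_neg (by positivity), ← Real.sqrt_eq_rpow, inv_eq_one_div]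
  set Nf := ∫⁻ x in Ioi 0, f x ^ (4 / 3 : ℝ) with hNf
  set Ng := ∫⁻ y in Ioi 0, g y ^ (4 / 3 : ℝ) with hNg
  by_cases hf0 : Nf = 0
  · have h1 : ∀ᵐ x ∂(volume.restrict (Ioi (0 : ℝ))), f x = 0 := by
      rw [hNf, lintegral_eq_zero_iff (hf.pow_const _)] at hf0
      filter_upwards [hf0] with x hx
      have hx' : f x ^ (4 / 3 : ℝ) = 0 := hx
      rw [ENNReal.rpow_eq_zero_iff] at hx'
      rcases hx' with h | h
      · exact h.1
      · exact absurd h.2 (by norm_num)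
    have h2 : ∫⁻ x in Ioi 0, ∫⁻ y in Ioi 0, f x * g y *
        ENNReal.ofReal ((x + y) ^ (-(1 / 2 : ℝ))) = 0 := by
      rw [lintegral_congr_ae (g := fun _ => 0)]
      · simp
      · filter_upwards [h1] with x hx
        simp [hx]
    rw [h2]; exact zero_le
  by_cases hg0 : Ng = 0
  · have h1 : ∀ᵐ x ∂(volume.restrict (Ioi (0 : ℝ))), g x = 0 := by
      rw [hNg, lintegral_eq_zero_iff (hg.pow_const _)] at hg0
      filter_upwards [hg0] with x hx
      have hx' : g x ^ (4 / 3 : ℝ) = 0 := hx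
      rw [ENNReal.rpow_eq_zero_iff] at hx'
      rcases hx' with h | h
      · exact h.1
      · exact absurd h.2 (by norm_num)
    have h2 : ∀ x, ∫⁻ y in Ioi 0, f x * g y *
        ENNReal.ofReal ((x + y) ^ (-(1 / 2 : ℝ))) = 0 := by
      intro x
      rw [lintegral_congr_ae (g := fun _ => 0)]
      · simp
      · filter_upwards [h1] with y hy
        simp [hy]
    simp only [h2, lintegral_zero]; exact zero_le
  have hC : ENNReal.ofReal (Real.sqrt (8 / 9 * Real.pi)) ≠ 0 := by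
    rw [ne_eq, ENNReal.ofReal_eq_zero, not_le]
    exact Real.sqrt_pos.mpr (by positivity)
  have hp : (0 : ℝ) < 1 / (4 / 3) := by norm_num
  by_cases hft : Nf = ⊤
  · rw [hft, ENNReal.top_rpow_of_pos hp, ENNReal.mul_top hC, ENNReal.top_mul]
    · exact le_top
    · rw [ne_eq, ENNReal.rpow_eq_zero_iff]
      push Not
      exact ⟨fun h => absurd h hg0, fun _ => hp.le⟩
  by_cases hgt : Ng = ⊤
  · rw [hgt, ENNReal.top_rpow_of_pos hp, ENNReal.mul_top]
    · exact le_top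
    · apply mul_ne_zero hC
      rw [ne_eq, ENNReal.rpow_eq_zero_iff]
      push Not
      exact ⟨fun h => absurd h hf0, fun _ => hp.le⟩
  set A := Nf ^ (1 / (4 / 3) : ℝ) with hA
  set B := Ng ^ (1 / (4 / 3) : ℝ) with hB
  have hA0 : A ≠ 0 := by
    rw [hA, ne_eq, ENNReal.rpow_eq_zero_iff]; push Not
    exact ⟨fun h => absurd h hf0, fun _ => hp.le⟩
  have hAt : A ≠ ⊤ := ENNReal.rpow_ne_top_of_nonneg hp.le hft
  have hB0 : B ≠ 0 := by
    rw [hB, ne_eq, ENNReal.rpow_eq_zero_iff]; push Not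
    exact ⟨fun h => absurd h hg0, fun _ => hp.le⟩
  have hBt : B ≠ ⊤ := ENNReal.rpow_ne_top_of_nonneg hp.le hgt
  have key : ∀ (u : ℝ → ℝ≥0∞) (N : ℝ≥0∞), Measurable u → N = ∫⁻ x in Ioi 0, u x ^ (4 / 3 : ℝ) →
      N ≠ 0 → N ≠ ⊤ →
      Measurable (fun x => (u x / N ^ (1 / (4 / 3) : ℝ)) ^ (1 / 3 : ℝ)) ∧
      (∀ x, ((u x / N ^ (1 / (4 / 3) : ℝ)) ^ (1 / 3 : ℝ)) ^ 3 = u x / N ^ (1 / (4 / 3) : ℝ)) ∧
      ∫⁻ x in Ioi 0, ((u x / N ^ (1 / (4 / 3) : ℝ)) ^ (1 / 3 : ℝ)) ^ 4 = 1 := by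
    intro u N hu hN hN0 hNt
    refine ⟨(hu.div_const _).pow_const _, ?_, ?_⟩
    · intro x
      rw [← ENNReal.rpow_natCast, ← ENNReal.rpow_mul]
      norm_num
    · have h4 : ∀ x, ((u x / N ^ (1 / (4 / 3) : ℝ)) ^ (1 / 3 : ℝ)) ^ 4 =
          u x ^ (4 / 3 : ℝ) * N⁻¹ := by
        intro x
        rw [← ENNReal.rpow_natCast, ← ENNReal.rpow_mul, div_eq_mul_inv,
          ENNReal.mul_rpow_of_nonneg _ _ (by norm_num), ENNReal.inv_rpow, ← ENNReal.rpow_mul]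
        norm_num
      simp only [h4]
      rw [lintegral_mul_const _ (hu.pow_const _), ← hN, ENNReal.mul_inv_cancel hN0 hNt]
  obtain ⟨m1, c1, i1⟩ := key f Nf hf rfl hf0 hft
  obtain ⟨m2, c2, i2⟩ := key g Ng hg rfl hg0 hgt
  have hII := normalized _ _ m2 m1 i2 i1
  have hval : ∫⁻ x in Ioi 0, ∫⁻ y in Ioi 0, f x * g y *
      ENNReal.ofReal ((x + y) ^ (-(1 / 2 : ℝ))) =
      A * B * II (fun x => (g x / Ng ^ (1 / (4 / 3) : ℝ)) ^ (1 / 3 : ℝ))
        (fun x => (f x / Nf ^ (1 / (4 / 3) : ℝ)) ^ (1 / 3 : ℝ)) := by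
    unfold II
    rw [← lintegral_const_mul' _ _ (ENNReal.mul_ne_top hAt hBt)]
    refine setLIntegral_congr_fun measurableSet_Ioi fun x hx => ?_
    rw [← lintegral_const_mul' _ _ (ENNReal.mul_ne_top hAt hBt)]
    refine setLIntegral_congr_fun measurableSet_Ioi fun y hy => ?_
    rw [c1, c2, hk x y hx hy, ← hA, ← hB, add_comm x y]
    have e1 : f x = A * (f x / A) := (ENNReal.mul_div_cancel hA0 hAt).symm
    have e2 : g y = B * (g y / B) := (ENNReal.mul_div_cancel hB0 hBt).symm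
    calc f x * g y * ENNReal.ofReal (1 / Real.sqrt (y + x)) =
        (A * (f x / A)) * (B * (g y / B)) * ENNReal.ofReal (1 / Real.sqrt (y + x)) := by
          rw [← e1, ← e2]
      _ = _ := by ring
  rw [hval]
  calc A * B * II _ _ ≤ A * B * ENNReal.ofReal (Real.sqrt (8 / 9 * Real.pi)) :=
        mul_le_mul_right hII _
    _ = _ := by ring

end Pool.Agent.Helper7.Hilbert
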