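import Pool.Agent.Helper7.HilbertC

open MeasureTheory Set Filter
open scoped ENNReal

namespace Pool.Agent.Helper7.Hilbert

/-- step function of a sequence -/
noncomputable def stp (a : ℕ → ℝ≥0∞) (x : ℝ) : ℝ≥0∞ := a (⌈x⌉₊ - 1)

lemma stp_meas (a : ℕ → ℝ≥0∞) : Measurable (stp a) :=
  (measurable_from_top (f := fun n : ℕ => a (n - 1))).comp Nat.measurable_ceil

lemma stp_val (a : ℕ → ℝ≥0∞) (m : ℕ) (x : ℝ) (hx : x ∈ Ioc (m : ℝ) (m + 1)) :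
    stp a x = a m := by
  unfold stp
  have : ⌈x⌉₊ = m + 1 := by
    rw [Nat.ceil_eq_iff (by omega)]
    constructor
    · simpa using hx.1
    · push_cast; exact hx.2
  rw [this]; rfl

lemma Ioi_eq : Ioi (0 : ℝ) = ⋃ m : ℕ, Ioc (m : ℝ) (m + 1) := by
  ext x
  simp only [mem_Ioi, mem_iUnion, mem_Ioc]
  constructor
  · intro hx
    refine ⟨⌈x⌉₊ - 1, ?_, ?_⟩
    · have h1 : 0 < ⌈x⌉₊ := Nat.ceil_pos.mpr hx
      have h2 : ⌈x⌉₊ - 1 < ⌈x⌉₊ := by omega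
      exact Nat.lt_ceil.mp h2
    · have h1 : 0 < ⌈x⌉₊ := Nat.ceil_pos.mpr hx
      have h3 : ((⌈x⌉₊ - 1 : ℕ) : ℝ) + 1 = ⌈x⌉₊ := by
        rw [Nat.cast_sub (by omega)]; simp
      rw [h3]; exact Nat.le_ceil x
  · rintro ⟨m, h1, _⟩
    exact lt_of_le_of_lt (Nat.cast_nonneg m) h1

lemma lint_Ioi (F : ℝ → ℝ≥0∞) :
    ∫⁻ x in Ioi 0, F x = ∑' m : ℕ, ∫⁻ x in Ioc (m : ℝ) (m + 1), F x := by
  rw [Ioi_eq, lintegral_iUnion (fun m => measurableSet_Ioc)]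
  intro i j hij
  rw [Function.onFun, Set.disjoint_left]
  intro x hx hx'
  apply hij
  have h1 := hx.1
  have h2 := hx.2
  have h3 := hx'.1
  have h4 := hx'.2
  have h5 : (i : ℝ) < j + 1 := by linarith
  have h6 : (j : ℝ) < i + 1 := by linarith
  have h5' : i < j + 1 := by exact_mod_cast h5
  have h6' : j < i + 1 := by exact_mod_cast h6
  omega

lemma stp_int (a : ℕ → ℝ≥0∞) (p : ℝ) :
    ∫⁻ x in Ioi 0, stp a x ^ p = ∑' m, a m ^ p := by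
  rw [lint_Ioi]
  congr 1
  funext m
  rw [setLIntegral_congr_fun (g := fun _ => a m ^ p) measurableSet_Ioc]
  · simp
  · intro x hx
    change stp a x ^ p = a m ^ p
    rw [stp_val a m x hx]

theorem series_nat (C : ℝ) (h : IntegralIneq (4 / 3) (4 / 3) C) (a b : ℕ → ℝ≥0∞) :
    ∑' m : ℕ, ∑' n : ℕ, a m * b n *
      ENNReal.ofReal ((((m : ℝ) + 1) + ((n : ℝ) + 1)) ^ (-lam (4 / 3) (4 / 3))) ≤
      ENNReal.ofReal C * (∑' m : ℕ, a m ^ (4 / 3 : ℝ)) ^ (1 / (4 / 3) : ℝ) *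
        (∑' n : ℕ, b n ^ (4 / 3 : ℝ)) ^ (1 / (4 / 3) : ℝ) := by
  have h1 := h (stp a) (stp b) (stp_meas a) (stp_meas b)
  rw [stp_int, stp_int] at h1
  refine le_trans ?_ h1
  rw [lint_Ioi]
  refine ENNReal.tsum_le_tsum fun m => ?_
  have h2 : ∀ x ∈ Ioc (m : ℝ) (m + 1), ∑' n : ℕ, a m * b n *
      ENNReal.ofReal ((((m : ℝ) + 1) + ((n : ℝ) + 1)) ^ (-lam (4 / 3) (4 / 3))) ≤
      ∫⁻ y in Ioi 0, stp a x * stp b y * ENNReal.ofReal ((x + y) ^ (-lam (4 / 3) (4 / 3))) := by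
    intro x hx
    rw [lint_Ioi]
    refine ENNReal.tsum_le_tsum fun n => ?_
    have h3 : a m * b n *
        ENNReal.ofReal ((((m : ℝ) + 1) + ((n : ℝ) + 1)) ^ (-lam (4 / 3) (4 / 3))) =
        ∫⁻ _ in Ioc (n : ℝ) (n + 1), a m * b n *
        ENNReal.ofReal ((((m : ℝ) + 1) + ((n : ℝ) + 1)) ^ (-lam (4 / 3) (4 / 3))) := by
      simp
    rw [h3]
    refine setLIntegral_mono' measurableSet_Ioc fun y hy => ?_
    rw [stp_val a m x hx, stp_val b n y hy]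
    apply mul_le_mul_right
    apply ENNReal.ofReal_le_ofReal
    have hm : (0 : ℝ) ≤ m := Nat.cast_nonneg m
    have hn : (0 : ℝ) ≤ n := Nat.cast_nonneg n
    apply Real.rpow_le_rpow_of_nonpos
    · linarith [hx.1, hy.1]
    · linarith [hx.2, hy.2]
    · rw [lam_val]; norm_num
  calc ∑' n : ℕ, a m * b n *
      ENNReal.ofReal ((((m : ℝ) + 1) + ((n : ℝ) + 1)) ^ (-lam (4 / 3) (4 / 3))) =
      ∫⁻ _ in Ioc (m : ℝ) (m + 1), ∑' n : ℕ, a m * b n *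
      ENNReal.ofReal ((((m : ℝ) + 1) + ((n : ℝ) + 1)) ^ (-lam (4 / 3) (4 / 3))) := by simp
    _ ≤ _ := setLIntegral_mono' measurableSet_Ioc h2

theorem series_ineq : SeriesIneq (4 / 3) (4 / 3) (Real.sqrt (8 / 9 * Real.pi)) := by
  intro a b
  have h := series_nat _ integral_ineq (fun m => a m.succPNat) (fun n => b n.succPNat)
  have ht : ∀ F : ℕ+ → ℝ≥0∞, ∑' m : ℕ+, F m = ∑' m : ℕ, F m.succPNat := fun F =>
    (Equiv.pnatEquivNat.symm.tsum_eq F).symm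
  rw [ht, ht (fun m => a m ^ (4 / 3 : ℝ)), ht (fun m => b m ^ (4 / 3 : ℝ))]
  refine le_trans (le_of_eq ?_) h
  congr 1
  funext m
  rw [ht]
  congr 1
  funext n
  simp

end Pool.Agent.Helper7.Hilbert
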