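import Mathlib

open FirstOrder

universe u

namespace Pool.Agent.Helper7.Homog

/-- Function symbols of the language of `K`-algebras: `0`, `-`, one unary symbol for the
multiplication by each scalar `c ∈ K`, `+`, and the product. -/
inductive AlgFunc (K : Type u) : ℕ → Type u
  | zero : AlgFunc K 0
  | neg : AlgFunc K 1
  | smul (c : K) : AlgFunc K 1
  | add : AlgFunc K 2
  | mul : AlgFunc K 2

/-- The first-order language of `K`-algebras (no relation symbols besides equality). -/
def algLang (K : Type u) : FirstOrder.Language.{u, 0} := ⟨AlgFunc K, fun _ => Empty⟩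

/-- The interpretation of a function symbol in a `K`-algebra. -/
def algFunMap (K A : Type u) [NonUnitalRing A] [SMul K A] :
    {n : ℕ} → AlgFunc K n → (Fin n → A) → A
  | _, .zero, _ => 0
  | _, .neg, v => - v 0
  | _, .smul c, v => c • v 0
  | _, .add, v => v 0 + v 1
  | _, .mul, v => v 0 * v 1

/-- A (not necessarily unital) associative `K`-algebra as a first-order structure. -/
@[reducible] def algStructure (K A : Type u) [NonUnitalRing A] [SMul K A] : (algLang K).Structure A where
  funMap := fun f v => algFunMap K A f v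
  RelMap := fun r => Empty.elim r

/-- `A` is logically homogeneous: two tuples with the same complete first-order type (in the
language of `K`-algebras) are mapped to one another by a `K`-algebra automorphism of `A`. -/
def LogicallyHomogeneous (K A : Type u) [Field K] [NonUnitalRing A] [Module K A] : Prop :=
  ∀ (m : ℕ) (a b : Fin m → A),
    (∀ φ : (algLang K).Formula (Fin m),
      @FirstOrder.Language.Formula.Realize (algLang K) A (algStructure K A) (Fin m) φ a ↔
      @FirstOrder.Language.Formula.Realize (algLang K) A (algStructure K A) (Fin m) φ b) →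
    ∃ σ : A →ₙₐ[K] A, Function.Bijective σ ∧ ∀ i, σ (a i) = b i

section defs

variable (K A : Type u) [Field K] [NonUnitalRing A] [Module K A] [IsScalarTower K A A]
  [SMulCommClass K A A]

/-- `npow K A k` is the subspace `A^k`: `A^1 = A` and `A^(k+1) = ∑_{i+j=k+1} A^i A^j`
(here `i = i' + 1` and `j = k + 1 - i'` for the exponent `k + 2`; `A^0` is a dummy value). -/
noncomputable def npow : ℕ → Submodule K A
  | 0 => ⊤
  | 1 => ⊤
  | (k + 2) => ⨆ i : Fin (k + 1),
      Submodule.map₂ (LinearMap.mul K A) (npow (i + 1)) (npow (k + 1 - i))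

/-- `dpow K A k` is the subspace `A^(k)`: `A^(0) = A`, `A^(k+1) = A^(k) A^(k)`. -/
noncomputable def dpow : ℕ → Submodule K A
  | 0 => ⊤
  | (k + 1) => Submodule.map₂ (LinearMap.mul K A) (dpow k) (dpow k)

end defs

/-- `A` is the free `n`-nilpotent associative `K`-algebra of rank `r`: `A^n = 0`, and there are
`r` elements `e i` such that every map `e i ↦ f i` into an associative `K`-algebra `B` with
`B^n = 0` extends uniquely to a homomorphism `A → B`. -/
def IsFreeNilpotent (K : Type u) [Field K] (n r : ℕ) (A : Type u) [NonUnitalRing A] [Module K A]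
    [IsScalarTower K A A] [SMulCommClass K A A] : Prop :=
  npow K A n = ⊥ ∧ ∃ e : Fin r → A,
    ∀ (B : Type u) [NonUnitalRing B] [Module K B] [IsScalarTower K B B] [SMulCommClass K B B],
      npow K B n = ⊥ → ∀ f : Fin r → B, ∃! φ : A →ₙₐ[K] B, ∀ i, φ (e i) = f i

/-- `A` is the free `n`-solvable associative `K`-algebra of rank `r`. -/
def IsFreeSolvable (K : Type u) [Field K] (n r : ℕ) (A : Type u) [NonUnitalRing A] [Module K A]
    [IsScalarTower K A A] [SMulCommClass K A A] : Prop :=
  dpow K A n = ⊥ ∧ ∃ e : Fin r → A,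
    ∀ (B : Type u) [NonUnitalRing B] [Module K B] [IsScalarTower K B B] [SMulCommClass K B B],
      dpow K B n = ⊥ → ∀ f : Fin r → B, ∃! φ : A →ₙₐ[K] B, ∀ i, φ (e i) = f i

section lp

variable (K A : Type u) [Field K] [NonUnitalRing A] [Module K A] [IsScalarTower K A A]
  [SMulCommClass K A A]

/-- left-normed powers: `lp k = A^(k+1)` -/
noncomputable def lp : ℕ → Submodule K A
  | 0 => ⊤
  | (k + 1) => Submodule.map₂ (LinearMap.mul K A) (lp k) ⊤

variable {K A}

theorem lp_succ (k : ℕ) : lp K A (k + 1) = Submodule.map₂ (LinearMap.mul K A) (lp K A k) ⊤ := rfl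

theorem mul_mem_lp_succ {k : ℕ} {a b : A} (ha : a ∈ lp K A k) : a * b ∈ lp K A (k + 1) :=
  Submodule.apply_mem_map₂ (LinearMap.mul K A) ha Submodule.mem_top

theorem mul_mem_lp {i j : ℕ} {a b : A} (ha : a ∈ lp K A i) (hb : b ∈ lp K A j) :
    a * b ∈ lp K A (i + j + 1) := by
  induction j generalizing b with
  | zero => exact mul_mem_lp_succ ha
  | succ j ih =>
    have h : lp K A (j + 1) ≤ (lp K A (i + (j + 1) + 1)).comap (LinearMap.mulLeft K a) := by
      rw [lp_succ j, Submodule.map₂_le]
      intro c hc d _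
      show a * (c * d) ∈ lp K A (i + (j + 1) + 1)
      rw [← mul_assoc]
      exact mul_mem_lp_succ (ih hc)
    exact h hb

theorem lp_succ_le (k : ℕ) : lp K A (k + 1) ≤ lp K A k := by
  induction k with
  | zero => exact le_top
  | succ k ih => exact Submodule.map₂_le_map₂_left ih

theorem lp_anti {i j : ℕ} (h : i ≤ j) : lp K A j ≤ lp K A i := by
  induction j, h using Nat.le_induction with
  | base => exact le_rfl
  | succ j _ ih => exact (lp_succ_le j).trans ih

theorem map₂_lp (i j : ℕ) :
    Submodule.map₂ (LinearMap.mul K A) (lp K A i) (lp K A j) = lp K A (i + j + 1) := by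
  apply le_antisymm
  · rw [Submodule.map₂_le]
    intro a ha b hb
    exact mul_mem_lp ha hb
  · induction j with
    | zero => exact le_rfl
    | succ j ih =>
      rw [show i + (j + 1) + 1 = (i + j + 1) + 1 by ring, lp_succ (i + j + 1), Submodule.map₂_le]
      intro a ha b _
      have h1 : Submodule.map₂ (LinearMap.mul K A) (lp K A i) (lp K A j) ≤
          (Submodule.map₂ (LinearMap.mul K A) (lp K A i) (lp K A (j + 1))).comap
            (LinearMap.mulRight K b) := by
        rw [Submodule.map₂_le]
        intro c hc d hd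
        show c * d * b ∈ Submodule.map₂ (LinearMap.mul K A) (lp K A i) (lp K A (j + 1))
        rw [mul_assoc]
        exact Submodule.apply_mem_map₂ (LinearMap.mul K A) hc (mul_mem_lp_succ hd)
      exact h1 (ih ha)

theorem npow_eq_lp (k : ℕ) : npow K A (k + 1) = lp K A k := by
  induction k using Nat.strong_induction_on with
  | _ k ih =>
    cases k with
    | zero => simp [npow, lp]
    | succ k =>
      rw [npow]
      have h : ∀ i : Fin (k + 1), Submodule.map₂ (LinearMap.mul K A) (npow K A (i + 1))
          (npow K A (k + 1 - i)) = lp K A (k + 1) := by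
        intro i
        have hi : (i : ℕ) ≤ k := Nat.lt_succ_iff.mp i.2
        rw [ih i (by omega), show k + 1 - (i : ℕ) = (k - i) + 1 by omega, ih (k - i) (by omega),
          map₂_lp]
        congr 1
        omega
      simp only [h, ciSup_const]

theorem dpow_eq_lp (k : ℕ) : dpow K A k = lp K A (2 ^ k - 1) := by
  induction k with
  | zero => simp [dpow, lp]
  | succ k ih =>
    rw [dpow, ih, map₂_lp]
    congr 1
    have : 1 ≤ 2 ^ k := Nat.one_le_two_pow
    rw [pow_succ]
    omega

end lp

section aux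

variable (K A : Type u) [Field K] [NonUnitalRing A] [Module K A] [IsScalarTower K A A]
  [SMulCommClass K A A]

/-- An auxiliary algebra: `A × Hom_K(A, A)` with product `(a, f) (a', f') = (a a', f ∘ L_{a'})`. -/
def Aux : Type u := A × (A →ₗ[K] A)

instance : AddCommGroup (Aux K A) := inferInstanceAs (AddCommGroup (A × (A →ₗ[K] A)))
instance : Module K (Aux K A) := inferInstanceAs (Module K (A × (A →ₗ[K] A)))

variable {K A} in
/-- constructor -/
def Aux.mk (a : A) (f : A →ₗ[K] A) : Aux K A := (a, f)

instance : Mul (Aux K A) := ⟨fun x y => Aux.mk (x.1 * y.1) (x.2 ∘ₗ LinearMap.mulLeft K y.1)⟩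

variable {K A}

theorem Aux.ext' {x y : Aux K A} (h1 : x.1 = y.1) (h2 : ∀ b, x.2 b = y.2 b) : x = y :=
  Prod.ext h1 (LinearMap.ext h2)

theorem Aux.add_fst (x y : Aux K A) : (x + y).1 = x.1 + y.1 := rfl
theorem Aux.add_snd (x y : Aux K A) (b : A) : (x + y).2 b = x.2 b + y.2 b := rfl
theorem Aux.mul_fst (x y : Aux K A) : (x * y).1 = x.1 * y.1 := rfl
theorem Aux.mul_snd (x y : Aux K A) (b : A) : (x * y).2 b = x.2 (y.1 * b) := rfl
theorem Aux.smul_fst (c : K) (x : Aux K A) : (c • x).1 = c • x.1 := rfl
theorem Aux.smul_snd (c : K) (x : Aux K A) (b : A) : (c • x).2 b = c • x.2 b := rfl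
theorem Aux.zero_fst : (0 : Aux K A).1 = 0 := rfl
theorem Aux.zero_snd (b : A) : (0 : Aux K A).2 b = 0 := rfl

instance : NonUnitalRing (Aux K A) :=
  { (inferInstance : AddCommGroup (Aux K A)), (inferInstance : Mul (Aux K A)) with
    left_distrib := by
      intro x y z
      apply Aux.ext'
      · simp only [Aux.mul_fst, Aux.add_fst, mul_add]
      · intro b; simp only [Aux.mul_snd, Aux.add_snd, Aux.add_fst, add_mul, map_add]
    right_distrib := by
      intro x y z
      apply Aux.ext'
      · simp only [Aux.mul_fst, Aux.add_fst, add_mul]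
      · intro b; simp only [Aux.mul_snd, Aux.add_snd]
    zero_mul := by
      intro x
      apply Aux.ext'
      · simp only [Aux.mul_fst, Aux.zero_fst, zero_mul]
      · intro b; simp only [Aux.mul_snd, Aux.zero_snd]
    mul_zero := by
      intro x
      apply Aux.ext'
      · simp only [Aux.mul_fst, Aux.zero_fst, mul_zero]
      · intro b; simp only [Aux.mul_snd, Aux.zero_snd, Aux.zero_fst, zero_mul, map_zero]
    mul_assoc := by
      intro x y z
      apply Aux.ext'
      · simp only [Aux.mul_fst, mul_assoc]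
      · intro b; simp only [Aux.mul_snd, Aux.mul_fst, mul_assoc] }

instance : IsScalarTower K (Aux K A) (Aux K A) := ⟨by
  intro c x y
  apply Aux.ext'
  · simp only [smul_eq_mul, Aux.mul_fst, Aux.smul_fst, smul_mul_assoc]
  · intro b; simp only [smul_eq_mul, Aux.mul_snd, Aux.smul_snd]⟩

instance : SMulCommClass K (Aux K A) (Aux K A) := ⟨by
  intro c x y
  apply Aux.ext'
  · simp only [smul_eq_mul, Aux.mul_fst, Aux.smul_fst, mul_smul_comm]
  · intro b
    simp only [smul_eq_mul, Aux.mul_snd, Aux.smul_snd, Aux.smul_fst, smul_mul_assoc, map_smul]⟩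

/-- the filtration of the auxiliary algebra -/
def auxS (N k : ℕ) : Submodule K (Aux K A) where
  carrier := {x | x.1 ∈ lp K A k ∧ ∀ b ∈ lp K A (N - k), x.2 b = 0}
  add_mem' := by
    rintro x y ⟨h1, h2⟩ ⟨h3, h4⟩
    refine ⟨Submodule.add_mem _ h1 h3, fun b hb => ?_⟩
    rw [Aux.add_snd, h2 b hb, h4 b hb, add_zero]
  zero_mem' := ⟨Submodule.zero_mem _, fun b _ => rfl⟩
  smul_mem' := by
    rintro c x ⟨h1, h2⟩
    refine ⟨Submodule.smul_mem _ c h1, fun b hb => ?_⟩
    rw [Aux.smul_snd, h2 b hb, smul_zero]

theorem aux_lp {N : ℕ} (hN : lp K A N = ⊥) : ∀ k ≤ N, lp K (Aux K A) k ≤ auxS N k := by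
  intro k
  induction k with
  | zero =>
    intro _ x _
    refine ⟨Submodule.mem_top, fun b hb => ?_⟩
    rw [Nat.sub_zero, hN, Submodule.mem_bot] at hb
    rw [hb, map_zero]
  | succ k ih =>
    intro hk
    rw [lp_succ, Submodule.map₂_le]
    intro x hx y _
    obtain ⟨h1, h2⟩ := ih (by omega) hx
    refine ⟨mul_mem_lp_succ h1, fun b hb => ?_⟩
    show x.2 (y.1 * b) = 0
    apply h2
    have h3 : y.1 * b ∈ lp K A (0 + (N - (k + 1)) + 1) := mul_mem_lp (Submodule.mem_top) hb
    rwa [show 0 + (N - (k + 1)) + 1 = N - k by omega] at h3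

theorem aux_lp_bot {N : ℕ} (hN : lp K A N = ⊥) : lp K (Aux K A) N = ⊥ := by
  rw [eq_bot_iff]
  intro x hx
  obtain ⟨h1, h2⟩ := aux_lp hN N le_rfl hx
  rw [hN, Submodule.mem_bot] at h1
  rw [Submodule.mem_bot]
  refine Aux.ext' h1 (fun b => ?_)
  rw [h2 b (by rw [Nat.sub_self]; exact Submodule.mem_top)]
  rfl

end aux

section lang

open FirstOrder.Language

variable {K A : Type u} [Field K] [NonUnitalRing A] [Module K A]

attribute [local instance] algStructure

/-- terms -/
def tZero (K : Type u) {α : Type*} : (algLang K).Term α :=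
  Term.func (L := algLang K) (l := 0) (AlgFunc.zero : AlgFunc K 0) ![]
def tSmul {K : Type u} {α : Type*} (c : K) (t : (algLang K).Term α) : (algLang K).Term α :=
  Term.func (L := algLang K) (l := 1) (AlgFunc.smul c : AlgFunc K 1) ![t]
def tAdd {K : Type u} {α : Type*} (t s : (algLang K).Term α) : (algLang K).Term α :=
  Term.func (L := algLang K) (l := 2) (AlgFunc.add : AlgFunc K 2) ![t, s]
def tMul {K : Type u} {α : Type*} (t s : (algLang K).Term α) : (algLang K).Term α :=
  Term.func (L := algLang K) (l := 2) (AlgFunc.mul : AlgFunc K 2) ![t, s]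

theorem realize_tZero {α : Type*} (v : α → A) : (tZero K).realize v = 0 := rfl
theorem realize_tSmul {α : Type*} (v : α → A) (c : K) (t : (algLang K).Term α) :
    (tSmul c t).realize v = c • t.realize v := rfl
theorem realize_tAdd {α : Type*} (v : α → A) (t s : (algLang K).Term α) :
    (tAdd t s).realize v = t.realize v + s.realize v := rfl
theorem realize_tMul {α : Type*} (v : α → A) (t s : (algLang K).Term α) :
    (tMul t s).realize v = t.realize v * s.realize v := rfl

/-- sum of terms -/
def tSum (K : Type u) {α : Type*} : (n : ℕ) → (Fin n → (algLang K).Term α) → (algLang K).Term α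
  | 0, _ => tZero K
  | (n + 1), t => tAdd (tSum K n (fun i => t i.castSucc)) (t (Fin.last n))

theorem realize_tSum {α : Type*} (v : α → A) (n : ℕ) (t : Fin n → (algLang K).Term α) :
    (tSum K n t).realize v = ∑ i, (t i).realize v := by
  induction n with
  | zero => simp [tSum, realize_tZero]
  | succ n ih =>
    rw [tSum, realize_tAdd, ih, Fin.sum_univ_castSucc]

theorem realize_hom {B : Type u} [NonUnitalRing B] [Module K B] {α : Type*} (σ : A →ₙₐ[K] B)
    (v : α → A) (t : (algLang K).Term α) : σ (t.realize v) = t.realize (fun i => σ (v i)) := by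
  induction t with
  | var i => rfl
  | func f ts ih =>
    cases f with
    | zero => exact map_zero σ
    | neg =>
      show σ (- ((ts 0).realize v)) = - ((ts 0).realize _)
      rw [map_neg, ih]
    | smul c =>
      show σ (c • ((ts 0).realize v)) = c • ((ts 0).realize _)
      rw [map_smul, ih]
    | add =>
      show σ ((ts 0).realize v + (ts 1).realize v) = (ts 0).realize _ + (ts 1).realize _
      rw [map_add, ih, ih]
    | mul =>
      show σ ((ts 0).realize v * (ts 1).realize v) = (ts 0).realize _ * (ts 1).realize _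
      rw [map_mul, ih, ih]

/-- The condition `θ(x)`: `∑ xᵢ yᵢ = 0` implies `yᵢ A = 0`. -/
def Theta {r : ℕ} (x : Fin r → A) : Prop :=
  ∀ y : Fin r → A, ∑ i, x i * y i = 0 → ∀ i b, y i * b = 0

/-- the formula for `θ`, with free variables `Fin m ⊕ Fin r` -/
noncomputable def thetaF (K : Type u) (m r : ℕ) : (algLang K).Formula (Fin m ⊕ Fin r) :=
  Formula.iAlls (L := algLang K) (α := Fin m ⊕ Fin r) (Fin r)
    ((Term.equal (tSum K r (fun i => tMul (Term.var (Sum.inl (Sum.inr i))) (Term.var (Sum.inr i))))
      (tZero K)).imp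
    (Formula.iInf (fun i : Fin r =>
      Formula.iAlls (L := algLang K) (α := (Fin m ⊕ Fin r) ⊕ Fin r) (Fin 1)
        (Term.equal (tMul (Term.var (Sum.inl (Sum.inr i))) (Term.var (Sum.inr 0))) (tZero K)))))

theorem realize_thetaF {m r : ℕ} (v : Fin m ⊕ Fin r → A) :
    (thetaF K m r).Realize v ↔ Theta (fun i => v (Sum.inr i)) := by
  unfold thetaF Theta
  rw [Formula.realize_iAlls]
  apply forall_congr'
  intro y
  rw [Formula.realize_imp, Formula.realize_equal, realize_tSum, Formula.realize_iInf]
  have e1 : ∀ i : Fin r, ((tMul (Term.var (Sum.inl (Sum.inr i))) (Term.var (Sum.inr i)) :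
    (algLang K).Term ((Fin m ⊕ Fin r) ⊕ Fin r))).realize (Sum.elim v y) = v (Sum.inr i) * y i :=
    fun i => rfl
  simp only [e1, realize_tZero]
  apply imp_congr_right
  intro _
  apply forall_congr'
  intro i
  rw [Formula.realize_iAlls]
  constructor
  · intro h b
    have := h (fun _ => b)
    rw [Formula.realize_equal] at this
    exact this
  · intro h b
    rw [Formula.realize_equal]
    exact h (b 0)

/-- the final formula -/
noncomputable def psiF (K : Type u) (m r : ℕ) (t : Fin m → (algLang K).Term (Fin r)) :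
    (algLang K).Formula (Fin m) :=
  Formula.iExs (L := algLang K) (α := Fin m) (Fin r)
    (thetaF K m r ⊓ Formula.iInf (fun j : Fin m =>
      Term.equal (Term.var (Sum.inl j)) ((t j).relabel Sum.inr)))

theorem realize_psiF {m r : ℕ} (t : Fin m → (algLang K).Term (Fin r)) (a : Fin m → A) :
    (psiF K m r t).Realize a ↔ ∃ x : Fin r → A, Theta x ∧ ∀ j, a j = (t j).realize x := by
  unfold psiF
  rw [Formula.realize_iExs]
  apply exists_congr
  intro x
  rw [Formula.realize_inf, realize_thetaF, Formula.realize_iInf]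
  apply and_congr
  · exact Iff.rfl
  · apply forall_congr'
    intro j
    rw [Formula.realize_equal, Term.realize_relabel]
    exact Iff.rfl

end lang

section main

variable {K A : Type u} [Field K] [NonUnitalRing A] [Module K A] [IsScalarTower K A A]
  [SMulCommClass K A A]

theorem hom_lp {B : Type u} [NonUnitalRing B] [Module K B] [IsScalarTower K B B]
    [SMulCommClass K B B] (f : B →ₙₐ[K] A) (k : ℕ) {x : B} (hx : x ∈ lp K B k) :
    f x ∈ lp K A k := by
  induction k generalizing x with
  | zero => exact Submodule.mem_top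
  | succ k ih =>
    have h : lp K B (k + 1) ≤ (lp K A (k + 1)).comap (f : B →ₗ[K] A) := by
      rw [lp_succ k, Submodule.map₂_le]
      intro c hc d _
      show f (c * d) ∈ lp K A (k + 1)
      rw [map_mul]
      exact mul_mem_lp_succ (ih hc)
    exact h hx

/-- freeness with respect to `A^(N+1) = 0` -/
def Free (K : Type u) [Field K] (A : Type u) [NonUnitalRing A] [Module K A]
    [IsScalarTower K A A] [SMulCommClass K A A] (N : ℕ) {r : ℕ} (e : Fin r → A) : Prop :=
  lp K A N = ⊥ ∧
    ∀ (B : Type u) [NonUnitalRing B] [Module K B] [IsScalarTower K B B] [SMulCommClass K B B],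
      lp K B N = ⊥ → ∀ f : Fin r → B, ∃! φ : A →ₙₐ[K] B, ∀ i, φ (e i) = f i

variable {N r : ℕ} {e : Fin r → A}

theorem Free.hom_ext (h : Free K A N e) {B : Type u} [NonUnitalRing B] [Module K B]
    [IsScalarTower K B B] [SMulCommClass K B B] (hB : lp K B N = ⊥) (φ ψ : A →ₙₐ[K] B)
    (h1 : ∀ i, φ (e i) = ψ (e i)) : φ = ψ := by
  obtain ⟨χ, _, h2⟩ := h.2 B hB (fun i => ψ (e i))
  rw [h2 φ h1, h2 ψ (fun _ => rfl)]

theorem Free.adjoin_top (h : Free K A N e) (a : A) :
    a ∈ NonUnitalAlgebra.adjoin K (Set.range e) := by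
  set S := NonUnitalAlgebra.adjoin K (Set.range e) with hS
  have hSN : lp K S N = ⊥ := by
    rw [eq_bot_iff]
    intro x hx
    have h1 := hom_lp (NonUnitalSubalgebraClass.subtype S) N hx
    rw [h.1, Submodule.mem_bot] at h1
    rw [Submodule.mem_bot]
    exact Subtype.ext h1
  obtain ⟨φ, hφ, _⟩ := h.2 S hSN (fun i => ⟨e i, NonUnitalAlgebra.subset_adjoin K ⟨i, rfl⟩⟩)
  have h2 : (NonUnitalSubalgebraClass.subtype S).comp φ = NonUnitalAlgHom.id K A := by
    apply h.hom_ext h.1
    intro i
    show ((φ (e i) : S) : A) = e i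
    rw [hφ]
  have h3 : ((φ a : S) : A) = a := by
    have := congrArg (fun f : A →ₙₐ[K] A => f a) h2
    exact this
  rw [← h3]
  exact (φ a).2

theorem Free.exists_term (h : Free K A N e) (a : A) :
    ∃ t : (algLang K).Term (Fin r), @FirstOrder.Language.Term.realize (algLang K) A
      (algStructure K A) (Fin r) e t = a := by
  let _ := algStructure K A
  refine NonUnitalAlgebra.adjoin_induction (p := fun a _ => ∃ t : (algLang K).Term (Fin r),
    t.realize e = a) ?_ ?_ ?_ ?_ ?_ (h.adjoin_top a)
  · rintro _ ⟨i, rfl⟩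
    exact ⟨FirstOrder.Language.Term.var i, rfl⟩
  · rintro x y _ _ ⟨t, rfl⟩ ⟨s, rfl⟩
    exact ⟨tAdd t s, rfl⟩
  · exact ⟨tZero K, rfl⟩
  · rintro x y _ _ ⟨t, rfl⟩ ⟨s, rfl⟩
    exact ⟨tMul t s, rfl⟩
  · rintro c x _ ⟨t, rfl⟩
    exact ⟨tSmul c t, rfl⟩

/-- first projection -/
def fstHom (K A : Type u) [Field K] [NonUnitalRing A] [Module K A] [IsScalarTower K A A]
    [SMulCommClass K A A] : Aux K A →ₙₐ[K] A where
  toFun x := x.1
  map_smul' _ _ := rfl
  map_zero' := rfl
  map_add' _ _ := rfl
  map_mul' _ _ := rfl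

/-- second component evaluated at `b` -/
def sndAt (K : Type u) {A : Type u} [Field K] [NonUnitalRing A] [Module K A] [IsScalarTower K A A]
    [SMulCommClass K A A] (b : A) : Aux K A →+ A where
  toFun x := x.2 b
  map_zero' := rfl
  map_add' _ _ := rfl

theorem Free.theta (h : Free K A N e) : Theta e := by
  intro y hy i b
  obtain ⟨φ, hφ, _⟩ := h.2 (Aux K A) (aux_lp_bot h.1)
    (fun j => Aux.mk (e j) (if j = i then LinearMap.id else 0))
  have h1 : (fstHom K A).comp φ = NonUnitalAlgHom.id K A := by
    apply h.hom_ext h.1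
    intro j
    show (φ (e j)).1 = e j
    rw [hφ]; rfl
  have h2 : ∀ a, (φ a).1 = a := by
    intro a
    have := congrArg (fun f : A →ₙₐ[K] A => f a) h1
    exact this
  have h3 : φ (∑ j, e j * y j) = 0 := by rw [hy, map_zero]
  rw [map_sum] at h3
  have h4 : sndAt K b (∑ j, φ (e j * y j)) = 0 := by rw [h3, map_zero]
  rw [map_sum] at h4
  have h5 : ∀ j, sndAt K b (φ (e j * y j)) = if j = i then y i * b else 0 := by
    intro j
    rw [map_mul, hφ]
    show (if j = i then LinearMap.id else (0 : A →ₗ[K] A)) ((φ (y j)).1 * b) = _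
    rw [h2]
    by_cases hj : j = i
    · rw [if_pos hj, if_pos hj, hj]; rfl
    · rw [if_neg hj, if_neg hj]; rfl
  simp only [h5, Finset.sum_ite_eq', Finset.mem_univ, if_true] at h4
  exact h4

theorem indep (hA : lp K A 1 ≠ ⊥) (hN : lp K A N = ⊥) {x : Fin r → A} (hx : Theta x)
    (c : Fin r → K) (hc : ∑ i, c i • x i ∈ lp K A 1) : ∀ i, c i = 0 := by
  classical
  have hex : ∃ N, lp K A N = ⊥ := ⟨N, hN⟩
  have h0 : Nat.find hex ≠ 0 := by
    intro h
    have h1 := Nat.find_spec hex
    rw [h] at h1
    apply hA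
    rw [eq_bot_iff, ← h1]
    exact lp_anti (Nat.zero_le 1)
  have h1 : Nat.find hex ≠ 1 := by
    intro h
    have h1 := Nat.find_spec hex
    rw [h] at h1
    exact hA h1
  obtain ⟨M, hM⟩ : ∃ M, Nat.find hex = M + 2 := ⟨Nat.find hex - 2, by omega⟩
  have hM1 : lp K A (M + 1) ≠ ⊥ := Nat.find_min hex (by omega)
  have hM2 : lp K A (M + 2) = ⊥ := by rw [← hM]; exact Nat.find_spec hex
  obtain ⟨z, hz, b, hzb⟩ : ∃ z ∈ lp K A M, ∃ b, z * b ≠ 0 := by
    by_contra hcon
    push Not at hcon
    apply hM1
    rw [eq_bot_iff, lp_succ, Submodule.map₂_le]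
    intro z hz b _
    rw [Submodule.mem_bot]
    exact hcon z hz b
  have h2 : ∑ i, x i * (c i • z) = 0 := by
    have h3 : (∑ i, c i • x i) * z ∈ lp K A (1 + M + 1) := mul_mem_lp hc hz
    rw [show 1 + M + 1 = M + 2 by ring, hM2, Submodule.mem_bot, Finset.sum_mul] at h3
    rw [← h3]
    apply Finset.sum_congr rfl
    intro i _
    rw [mul_smul_comm, smul_mul_assoc]
  intro i
  have h3 := hx _ h2 i b
  rw [smul_mul_assoc] at h3
  rcases smul_eq_zero.mp h3 with h | h
  · exact h
  · exact absurd h hzb

/-- the linear combination map modulo `A²` -/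
noncomputable def psi (K : Type u) {A : Type u} [Field K] [NonUnitalRing A] [Module K A]
    [IsScalarTower K A A] [SMulCommClass K A A] {r : ℕ} (x : Fin r → A) :
    (Fin r → K) →ₗ[K] (A ⧸ lp K A 1) :=
  (lp K A 1).mkQ ∘ₗ Fintype.linearCombination K x

theorem psi_apply (x : Fin r → A) (c : Fin r → K) :
    psi K x c = (lp K A 1).mkQ (∑ i, c i • x i) := rfl

theorem Free.psi_surj (h : Free K A N e) : Function.Surjective (psi K e) := by
  intro q
  obtain ⟨a, rfl⟩ := (lp K A 1).mkQ_surjective q
  refine NonUnitalAlgebra.adjoin_induction (p := fun a _ => ∃ c, psi K e c = (lp K A 1).mkQ a)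
    ?_ ?_ ?_ ?_ ?_ (h.adjoin_top a)
  · rintro _ ⟨i, rfl⟩
    refine ⟨Pi.single i 1, ?_⟩
    rw [psi_apply]
    congr 1
    rw [Finset.sum_eq_single i]
    · simp
    · intro j _ hj; simp [Pi.single_eq_of_ne hj]
    · intro hi; exact absurd (Finset.mem_univ i) hi
  · rintro x y _ _ ⟨c, hc⟩ ⟨d, hd⟩
    exact ⟨c + d, by rw [map_add, map_add, hc, hd]⟩
  · exact ⟨0, by rw [map_zero, map_zero]⟩
  · rintro x y _ _ _ _
    refine ⟨0, ?_⟩
    rw [map_zero]
    symm
    rw [Submodule.mkQ_apply, Submodule.Quotient.mk_eq_zero]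
    exact mul_mem_lp_succ (Submodule.mem_top)
  · rintro t x _ ⟨c, hc⟩
    exact ⟨t • c, by rw [map_smul, map_smul, hc]⟩

theorem Free.psi_surj_of_indep (h : Free K A N e) (x : Fin r → A)
    (hx : ∀ c : Fin r → K, ∑ i, c i • x i ∈ lp K A 1 → ∀ i, c i = 0) (a : A) :
    ∃ c : Fin r → K, a - ∑ i, c i • x i ∈ lp K A 1 := by
  have hfin : FiniteDimensional K (A ⧸ lp K A 1) :=
    Module.Finite.of_surjective (psi K e) h.psi_surj
  have h1 : Module.finrank K (A ⧸ lp K A 1) ≤ r := by
    have := LinearMap.finrank_le_finrank_of_surjective (f := psi K e) h.psi_surj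
    simpa using this
  have hinj : Function.Injective (psi K x) := by
    rw [injective_iff_map_eq_zero]
    intro c hc
    rw [psi_apply, Submodule.mkQ_apply, Submodule.Quotient.mk_eq_zero] at hc
    funext i
    exact hx c hc i
  have h2 : r ≤ Module.finrank K (A ⧸ lp K A 1) := by
    have := LinearMap.finrank_le_finrank_of_injective (f := psi K x) hinj
    simpa using this
  have hsurj : Function.Surjective (psi K x) := by
    rw [← LinearMap.injective_iff_surjective_of_finrank_eq_finrank]
    · exact hinj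
    · simp; omega
  obtain ⟨c, hc⟩ := hsurj ((lp K A 1).mkQ a)
  refine ⟨c, ?_⟩
  rw [← Submodule.Quotient.mk_eq_zero, Submodule.Quotient.mk_sub, sub_eq_zero]
  exact hc.symm

theorem Free.surj_of_span (h : Free K A N e) (x : Fin r → A) (σ : A →ₙₐ[K] A)
    (hσ : ∀ i, σ (e i) = x i)
    (hx : ∀ a : A, ∃ c : Fin r → K, a - ∑ i, c i • x i ∈ lp K A 1) :
    Function.Surjective σ := by
  have step : ∀ k, ∀ a ∈ lp K A k, ∃ w ∈ lp K A k, a - σ w ∈ lp K A (k + 1) := by
    intro k
    induction k with
    | zero =>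
      intro a _
      obtain ⟨c, hc⟩ := hx a
      refine ⟨∑ i, c i • e i, Submodule.mem_top, ?_⟩
      rw [map_sum]
      simp only [map_smul, hσ]
      exact hc
    | succ k ih =>
      let T : Submodule K A :=
        { carrier := {a | ∃ w ∈ lp K A (k + 1), a - σ w ∈ lp K A (k + 1 + 1)}
          add_mem' := by
            rintro a b ⟨w, hw, ha⟩ ⟨w', hw', hb⟩
            refine ⟨w + w', Submodule.add_mem _ hw hw', ?_⟩
            have : a + b - σ (w + w') = (a - σ w) + (b - σ w') := by
              rw [map_add]; abel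
            rw [this]
            exact Submodule.add_mem _ ha hb
          zero_mem' := ⟨0, Submodule.zero_mem _, by rw [map_zero, sub_zero]; exact Submodule.zero_mem _⟩
          smul_mem' := by
            rintro t a ⟨w, hw, ha⟩
            refine ⟨t • w, Submodule.smul_mem _ t hw, ?_⟩
            rw [map_smul, ← smul_sub]
            exact Submodule.smul_mem _ t ha }
      have hT : lp K A (k + 1) ≤ T := by
        rw [lp_succ k, Submodule.map₂_le]
        intro c hc d _
        obtain ⟨wc, hwc, hc'⟩ := ih c hc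
        obtain ⟨cd, hd⟩ := hx d
        refine ⟨wc * (∑ i, cd i • e i), mul_mem_lp_succ hwc, ?_⟩
        have e1 : σ (∑ i, cd i • e i) = ∑ i, cd i • x i := by
          rw [map_sum]; simp only [map_smul, hσ]
        have e2 : (LinearMap.mul K A c d) - σ (wc * (∑ i, cd i • e i)) =
            (c - σ wc) * d + σ wc * (d - ∑ i, cd i • x i) := by
          rw [map_mul, e1, LinearMap.mul_apply', sub_mul, mul_sub]
          abel
        rw [e2]
        exact Submodule.add_mem _ (mul_mem_lp_succ hc') (mul_mem_lp (hom_lp σ k hwc) hd)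
      intro a ha
      exact hT ha
  have step2 : ∀ k, ∀ a, ∃ w, a - σ w ∈ lp K A k := by
    intro k
    induction k with
    | zero => exact fun a => ⟨0, Submodule.mem_top⟩
    | succ k ih =>
      intro a
      obtain ⟨w, hw⟩ := ih a
      obtain ⟨w', _, hw'⟩ := step k _ hw
      refine ⟨w + w', ?_⟩
      rw [map_add, ← sub_sub]
      exact hw'
  intro a
  obtain ⟨w, hw⟩ := step2 N a
  rw [h.1, Submodule.mem_bot, sub_eq_zero] at hw
  exact ⟨w, hw.symm⟩

theorem Free.bij (h : Free K A N e) (hA : lp K A 1 ≠ ⊥) (x : Fin r → A) (hx : Theta x)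
    (σ : A →ₙₐ[K] A) (hσ : ∀ i, σ (e i) = x i) : Function.Bijective σ := by
  have hsurj : Function.Surjective σ :=
    h.surj_of_span x σ hσ (h.psi_surj_of_indep x (fun c hc => indep hA h.1 hx c hc))
  choose w hw using fun i => hsurj (e i)
  obtain ⟨τ, hτ, _⟩ := h.2 A h.1 w
  have hcomp : σ.comp τ = NonUnitalAlgHom.id K A := by
    apply h.hom_ext h.1
    intro i
    show σ (τ (e i)) = e i
    rw [hτ, hw]
  have hcomp' : ∀ a, σ (τ a) = a := by
    intro a
    have := congrArg (fun f : A →ₙₐ[K] A => f a) hcomp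
    exact this
  have hτsurj : Function.Surjective τ := by
    apply h.surj_of_span w τ hτ
    apply h.psi_surj_of_indep w
    intro c hc
    have h1 := hom_lp σ 1 hc
    rw [map_sum] at h1
    simp only [map_smul, hw] at h1
    exact indep hA h.1 h.theta c h1
  refine ⟨?_, hsurj⟩
  intro a b hab
  obtain ⟨a', rfl⟩ := hτsurj a
  obtain ⟨b', rfl⟩ := hτsurj b
  rw [hcomp', hcomp'] at hab
  rw [hab]

theorem Free.homog (h : Free K A N e) : LogicallyHomogeneous K A := by
  let _ := algStructure K A
  intro m a b hab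
  by_cases hA : lp K A 1 = ⊥
  · -- zero multiplication
    have hmul : ∀ x y : A, x * y = 0 := by
      intro x y
      have : x * y ∈ lp K A 1 := mul_mem_lp_succ (k := 0) Submodule.mem_top
      rw [hA, Submodule.mem_bot] at this
      exact this
    have hfin : FiniteDimensional K A := by
      have h1 : Function.Surjective (Fintype.linearCombination K e) := by
        intro x
        obtain ⟨c, hc⟩ := h.psi_surj ((lp K A 1).mkQ x)
        refine ⟨c, ?_⟩
        rw [psi_apply, ← sub_eq_zero, ← map_sub, Submodule.mkQ_apply,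
          Submodule.Quotient.mk_eq_zero, hA, Submodule.mem_bot, sub_eq_zero] at hc
        exact hc
      exact Module.Finite.of_surjective _ h1
    have hker : LinearMap.ker (Fintype.linearCombination K a) =
        LinearMap.ker (Fintype.linearCombination K b) := by
      ext c
      rw [LinearMap.mem_ker, LinearMap.mem_ker]
      have h1 := hab (FirstOrder.Language.Term.equal
        (tSum K m (fun j => tSmul (c j) (FirstOrder.Language.Term.var j))) (tZero K))
      rw [FirstOrder.Language.Formula.realize_equal, FirstOrder.Language.Formula.realize_equal,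
        realize_tSum, realize_tSum] at h1
      exact h1
    let fa := Fintype.linearCombination K a
    let fb := Fintype.linearCombination K b
    let E : LinearMap.range fa ≃ₗ[K] LinearMap.range fb :=
      fa.quotKerEquivRange.symm.trans
        ((Submodule.quotEquivOfEq _ _ hker).trans fb.quotKerEquivRange)
    have hE : ∀ c, ((E ⟨fa c, LinearMap.mem_range_self fa c⟩ : LinearMap.range fb) : A) = fb c := by
      intro c
      have h1 : fa.quotKerEquivRange (Submodule.Quotient.mk c) =
          ⟨fa c, LinearMap.mem_range_self fa c⟩ := rfl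
      have h2 : fa.quotKerEquivRange.symm ⟨fa c, LinearMap.mem_range_self fa c⟩ =
          Submodule.Quotient.mk c := by
        rw [← h1, LinearEquiv.symm_apply_apply]
      show ((fb.quotKerEquivRange (Submodule.quotEquivOfEq _ _ hker
        (fa.quotKerEquivRange.symm ⟨fa c, LinearMap.mem_range_self fa c⟩)) :
          LinearMap.range fb) : A) = fb c
      rw [h2]
      rfl
    obtain ⟨Ca, hCa⟩ := Submodule.exists_isCompl (LinearMap.range fa)
    obtain ⟨Cb, hCb⟩ := Submodule.exists_isCompl (LinearMap.range fb)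
    have hrank : Module.finrank K Ca = Module.finrank K Cb := by
      have h1 := Submodule.finrank_add_eq_of_isCompl hCa
      have h2 := Submodule.finrank_add_eq_of_isCompl hCb
      have h3 := E.finrank_eq
      omega
    let E' : Ca ≃ₗ[K] Cb := LinearEquiv.ofFinrankEq _ _ hrank
    let G : A ≃ₗ[K] A := (Submodule.prodEquivOfIsCompl _ _ hCa).symm.trans
      ((E.prodCongr E').trans (Submodule.prodEquivOfIsCompl _ _ hCb))
    have hG : ∀ c, G (fa c) = fb c := by
      intro c
      show (Submodule.prodEquivOfIsCompl _ _ hCb) ((E.prodCongr E')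
        ((Submodule.prodEquivOfIsCompl _ _ hCa).symm (fa c))) = fb c
      have h1 : (Submodule.prodEquivOfIsCompl _ _ hCa).symm (fa c) =
          (⟨fa c, LinearMap.mem_range_self fa c⟩, 0) :=
        Submodule.prodEquivOfIsCompl_symm_apply_left _ _ hCa ⟨fa c, LinearMap.mem_range_self fa c⟩
      rw [h1]
      show (Submodule.prodEquivOfIsCompl _ _ hCb) (E ⟨fa c, LinearMap.mem_range_self fa c⟩, E' 0) = _
      rw [map_zero, Submodule.coe_prodEquivOfIsCompl', ← hE c]
      simp
    have hfa : ∀ i, fa (Pi.single i 1) = a i := by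
      intro i
      simp [fa]
    have hfb : ∀ i, fb (Pi.single i 1) = b i := by
      intro i
      simp [fb]
    let σ : A →ₙₐ[K] A :=
      { toFun := G
        map_smul' := fun c x => map_smul G c x
        map_zero' := map_zero G
        map_add' := map_add G
        map_mul' := fun x y => by rw [hmul, hmul, map_zero] }
    refine ⟨σ, G.bijective, ?_⟩
    intro i
    show G (a i) = b i
    rw [← hfa, ← hfb, hG]
  · choose t ht using fun j => h.exists_term (a j)
    have h1 : (psiF K m r t).Realize a := by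
      rw [realize_psiF]
      exact ⟨e, h.theta, fun j => (ht j).symm⟩
    have h2 : (psiF K m r t).Realize b := (hab _).mp h1
    rw [realize_psiF] at h2
    obtain ⟨x, hx, hb⟩ := h2
    obtain ⟨σ, hσ, _⟩ := h.2 A h.1 x
    refine ⟨σ, h.bij hA x hx σ hσ, ?_⟩
    intro j
    rw [← ht j, realize_hom, hb j]
    congr 1
    funext i
    exact hσ i

theorem IsFreeNilpotent.homog {n : ℕ} (hn : 1 ≤ n) (h : IsFreeNilpotent K n r A) :
    LogicallyHomogeneous K A := by
  obtain ⟨N, rfl⟩ := Nat.exists_eq_add_of_le' hn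
  obtain ⟨h1, e, h2⟩ := h
  refine Free.homog (N := N) (e := e) ⟨by rw [← npow_eq_lp]; exact h1, ?_⟩
  intro B _ _ _ _ hB f
  exact h2 B (by rw [npow_eq_lp]; exact hB) f

theorem IsFreeSolvable.homog {n : ℕ} (h : IsFreeSolvable K n r A) :
    LogicallyHomogeneous K A := by
  obtain ⟨h1, e, h2⟩ := h
  refine Free.homog (N := 2 ^ n - 1) (e := e) ⟨by rw [← dpow_eq_lp]; exact h1, ?_⟩
  intro B _ _ _ _ hB f
  exact h2 B (by rw [dpow_eq_lp]; exact hB) f

end main

end Pool.Agent.Helper7.Homog
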