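import Mathlib

namespace Pool.Agent.Helper7.LPrime

/-- pointwise maximum of two order automorphisms -/
noncomputable def supIso {T : Type} [LinearOrder T] (f g : T ≃o T) : T ≃o T :=
  StrictMono.orderIsoOfRightInverse (fun t => max (f t) (g t))
    (by
      intro a b hab
      have h1 : f a < f b := f.strictMono hab
      have h2 : g a < g b := g.strictMono hab
      exact max_lt_max h1 h2)
    (fun t => min (f.symm t) (g.symm t))
    (by
      intro t
      show max (f (min (f.symm t) (g.symm t))) (g (min (f.symm t) (g.symm t))) = t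
      rcases le_total (f.symm t) (g.symm t) with h | h
      · rw [min_eq_left h]
        have h' : g (f.symm t) ≤ t := by
          have := g.monotone h
          simpa using this
        simpa using h'
      · rw [min_eq_right h]
        have h' : f (g.symm t) ≤ t := by
          have := f.monotone h
          simpa using this
        simpa using h')

theorem supIso_apply {T : Type} [LinearOrder T] (f g : T ≃o T) (t : T) :
    supIso f g t = max (f t) (g t) := rfl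

theorem infIso_apply {T : Type} [LinearOrder T] (f g : T ≃o T) (t : T) :
    (supIso f⁻¹ g⁻¹)⁻¹ t = min (f t) (g t) := by
  have h : (supIso f⁻¹ g⁻¹) (min (f t) (g t)) = t := by
    rw [supIso_apply]
    rcases le_total (f t) (g t) with h | h
    · rw [min_eq_left h]
      have h' : g⁻¹ (f t) ≤ t := by
        have := (g⁻¹ : T ≃o T).monotone h
        simpa using this
      simpa using h'
    · rw [min_eq_right h]
      have h' : f⁻¹ (g t) ≤ t := by
        have := (f⁻¹ : T ≃o T).monotone h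
        simpa using this
      simpa using h'
  calc (supIso f⁻¹ g⁻¹)⁻¹ t = (supIso f⁻¹ g⁻¹)⁻¹ ((supIso f⁻¹ g⁻¹) (min (f t) (g t))) := by rw [h]
    _ = min (f t) (g t) := by
      rw [← RelIso.mul_apply, inv_mul_cancel]; rfl

/-- bounded support -/
def Bdd {T : Type} [LinearOrder T] (f : T ≃o T) : Prop :=
  ∃ t1 t2 : T, ∀ s, (s < t1 ∨ t2 < s) → f s = s

theorem Bdd.mul {T : Type} [LinearOrder T] {f g : T ≃o T} (hf : Bdd f) (hg : Bdd g) :
    Bdd (f * g) := by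
  obtain ⟨a1, a2, ha⟩ := hf
  obtain ⟨b1, b2, hb⟩ := hg
  refine ⟨min a1 b1, max a2 b2, ?_⟩
  intro s hs
  rw [RelIso.mul_apply]
  have e1 : g s = s := hb s (by
    rcases hs with h | h
    · exact Or.inl (lt_of_lt_of_le h (min_le_right _ _))
    · exact Or.inr (lt_of_le_of_lt (le_max_right _ _) h))
  have e2 : f s = s := ha s (by
    rcases hs with h | h
    · exact Or.inl (lt_of_lt_of_le h (min_le_left _ _))
    · exact Or.inr (lt_of_le_of_lt (le_max_left _ _) h))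
  rw [e1, e2]

theorem Bdd.inv {T : Type} [LinearOrder T] {f : T ≃o T} (hf : Bdd f) : Bdd (f⁻¹) := by
  obtain ⟨a1, a2, ha⟩ := hf
  refine ⟨a1, a2, ?_⟩
  intro s hs
  have := ha s hs
  calc f⁻¹ s = f⁻¹ (f s) := by rw [this]
    _ = s := by rw [← RelIso.mul_apply, inv_mul_cancel]; rfl

theorem Bdd.one {T : Type} [LinearOrder T] [Nonempty T] : Bdd (1 : T ≃o T) := by
  obtain ⟨t⟩ := ‹Nonempty T›
  exact ⟨t, t, fun s _ => rfl⟩

theorem Bdd.sup {T : Type} [LinearOrder T] {f g : T ≃o T} (hf : Bdd f) (hg : Bdd g) :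
    Bdd (supIso f g) := by
  obtain ⟨a1, a2, ha⟩ := hf
  obtain ⟨b1, b2, hb⟩ := hg
  refine ⟨min a1 b1, max a2 b2, ?_⟩
  intro s hs
  rw [supIso_apply]
  have e1 : g s = s := hb s (by
    rcases hs with h | h
    · exact Or.inl (lt_of_lt_of_le h (min_le_right _ _))
    · exact Or.inr (lt_of_le_of_lt (le_max_right _ _) h))
  have e2 : f s = s := ha s (by
    rcases hs with h | h
    · exact Or.inl (lt_of_lt_of_le h (min_le_left _ _))
    · exact Or.inr (lt_of_le_of_lt (le_max_left _ _) h))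
  rw [e1, e2, max_self]

/-- A tower of chains with compatible actions. -/
structure Tower where
  T : ℕ → Type
  [ord : ∀ n, LinearOrder (T n)]
  ι : ∀ n, T n → T (n + 1)
  ι_mono : ∀ n, StrictMono (ι n)
  st : ∀ n, (T n ≃o T n) → (T (n + 1) ≃o T (n + 1))
  st_mul : ∀ n f g, st n (f * g) = st n f * st n g
  st_ι : ∀ n f x, st n f (ι n x) = ι n (f x)
  st_sup : ∀ n f g, st n (supIso f g) = supIso (st n f) (st n g)
  st_bdd : ∀ n f t1 t2, (∀ s, (s < t1 ∨ t2 < s) → f s = s) →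
    (∀ s, (s < ι n t1 ∨ ι n t2 < s) → st n f s = s)
  two : ∀ n, ∀ r1 r2 s1 s2 : T n, r1 < r2 → s1 < s2 → ∃ f : T n ≃o T n, Bdd f ∧ f r1 = s1 ∧ f r2 = s2
  split : ∀ n, ∀ f : T n ≃o T n, Bdd f → (∀ t, t ≤ f t) → f ≠ 1 →
    ∃ g h : T (n + 1) ≃o T (n + 1), Bdd g ∧ Bdd h ∧ g ≠ 1 ∧ h ≠ 1 ∧ supIso g h = st n f ∧
      supIso g⁻¹ h⁻¹ = 1
  three : ∃ a b c : T 0, a < b ∧ b < c

attribute [instance] Tower.ord

namespace Tower

variable (W : Tower)

theorem st_one (n : ℕ) : W.st n 1 = 1 := by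
  have h := W.st_mul n 1 1
  rw [one_mul] at h
  exact (mul_eq_left.mp h.symm)

theorem st_inv (n : ℕ) (f : W.T n ≃o W.T n) : W.st n f⁻¹ = (W.st n f)⁻¹ := by
  have h := W.st_mul n f f⁻¹
  rw [mul_inv_cancel, W.st_one] at h
  exact (inv_eq_of_mul_eq_one_right h.symm).symm

theorem st_inj (n : ℕ) (f : W.T n ≃o W.T n) (h : W.st n f = 1) : f = 1 := by
  ext x
  have h1 := W.st_ι n f x
  rw [h] at h1
  exact ((W.ι_mono n).injective h1).symm

theorem exists_seq {X : ℕ → Type} (next : ∀ n, X n → X (n + 1)) (hX : ∀ n, Nonempty (X n)) (N : ℕ)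
    (x : X N) : ∃ y : ∀ n, X n, y N = x ∧ ∀ n ≥ N, y (n + 1) = next n (y n) := by
  induction N generalizing X with
  | zero =>
    refine ⟨fun n => Nat.rec x (fun n y => next n y) n, rfl, ?_⟩
    intro n _
    rfl
  | succ N ih =>
    obtain ⟨y, hy, hy'⟩ := ih (X := fun n => X (n + 1)) (fun n => next (n + 1))
      (fun n => hX (n + 1)) x
    refine ⟨fun n => Nat.casesOn n (Classical.choice (hX 0)) (fun n => y n), hy, ?_⟩
    intro n hn
    cases n with
    | zero => omega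
    | succ n => exact hy' n (by omega)

/-- eventually coherent sequences -/
@[ext] structure Coh where
  val : ∀ n, W.T n
  prop : ∃ N, ∀ n ≥ N, val (n + 1) = W.ι n (val n)

theorem nonempty (n : ℕ) : Nonempty (W.T n) := by
  induction n with
  | zero => exact ⟨W.three.choose⟩
  | succ n ih => exact ⟨W.ι n ih.some⟩

theorem exists_coh (N : ℕ) (x : W.T N) : ∃ y : W.Coh, y.1 N = x ∧
    ∀ n ≥ N, y.1 (n + 1) = W.ι n (y.1 n) := by
  obtain ⟨y, hy, hy'⟩ := exists_seq W.ι W.nonempty N x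
  exact ⟨⟨y, N, hy'⟩, hy, hy'⟩

instance : Preorder W.Coh where
  le x y := ∃ N, ∀ n ≥ N, x.1 n ≤ y.1 n
  le_refl x := ⟨0, fun n _ => le_refl _⟩
  le_trans x y z := by
    rintro ⟨N, hN⟩ ⟨M, hM⟩
    exact ⟨max N M, fun n hn => (hN n (le_trans (le_max_left _ _) hn)).trans
      (hM n (le_trans (le_max_right _ _) hn))⟩

theorem le_def (x y : W.Coh) : x ≤ y ↔ ∃ N, ∀ n ≥ N, x.1 n ≤ y.1 n := Iff.rfl

theorem le_prop {x y : ∀ n, W.T n} {N : ℕ} (hx : ∀ n ≥ N, x (n + 1) = W.ι n (x n))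
    (hy : ∀ n ≥ N, y (n + 1) = W.ι n (y n)) (h : x N ≤ y N) : ∀ n ≥ N, x n ≤ y n := by
  intro n hn
  induction n, hn using Nat.le_induction with
  | base => exact h
  | succ n hn ih =>
    rw [hx n hn, hy n hn]
    exact (W.ι_mono n).monotone ih

theorem lt_prop {x y : ∀ n, W.T n} {N : ℕ} (hx : ∀ n ≥ N, x (n + 1) = W.ι n (x n))
    (hy : ∀ n ≥ N, y (n + 1) = W.ι n (y n)) (h : x N < y N) : ∀ n ≥ N, x n < y n := by
  intro n hn
  induction n, hn using Nat.le_induction with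
  | base => exact h
  | succ n hn ih =>
    rw [hx n hn, hy n hn]
    exact (W.ι_mono n) ih

theorem le_iff {x y : W.Coh} {N : ℕ} (hx : ∀ n ≥ N, x.1 (n + 1) = W.ι n (x.1 n))
    (hy : ∀ n ≥ N, y.1 (n + 1) = W.ι n (y.1 n)) : x ≤ y ↔ x.1 N ≤ y.1 N := by
  constructor
  · rintro ⟨M, hM⟩
    by_contra hlt
    rw [not_le] at hlt
    have := W.lt_prop hy hx hlt (max N M) (le_max_left _ _)
    exact absurd (hM (max N M) (le_max_right _ _)) (not_le.mpr this)
  · intro h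
    exact ⟨N, W.le_prop hx hy h⟩

theorem common (x y : W.Coh) : ∃ N, (∀ n ≥ N, x.1 (n + 1) = W.ι n (x.1 n)) ∧
    (∀ n ≥ N, y.1 (n + 1) = W.ι n (y.1 n)) := by
  obtain ⟨N, hN⟩ := x.2
  obtain ⟨M, hM⟩ := y.2
  exact ⟨max N M, fun n hn => hN n (le_trans (le_max_left _ _) hn),
    fun n hn => hM n (le_trans (le_max_right _ _) hn)⟩

theorem lt_iff {x y : W.Coh} {N : ℕ} (hx : ∀ n ≥ N, x.1 (n + 1) = W.ι n (x.1 n))
    (hy : ∀ n ≥ N, y.1 (n + 1) = W.ι n (y.1 n)) : x < y ↔ x.1 N < y.1 N := by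
  rw [lt_iff_le_not_ge, W.le_iff hx hy, W.le_iff hy hx, lt_iff_le_not_ge]

instance : Std.Total (α := W.Coh) (· ≤ ·) := ⟨by
  intro x y
  obtain ⟨N, hx, hy⟩ := W.common x y
  rw [W.le_iff hx hy, W.le_iff hy hx]
  exact le_total _ _⟩

noncomputable instance : DecidableLE W.Coh := Classical.decRel _
noncomputable instance : DecidableLT W.Coh := Classical.decRel _

/-- the limit chain -/
abbrev Lim : Type := Antisymmetrization W.Coh (· ≤ ·)

noncomputable instance : LinearOrder W.Lim := inferInstance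

/-- coherent sequences of automorphisms -/
structure CohAut where
  val : ∀ n, (W.T n ≃o W.T n)
  prop : ∃ N, ∀ n ≥ N, val (n + 1) = W.st n (val n)

theorem exists_cohAut (N : ℕ) (f : W.T N ≃o W.T N) : ∃ y : W.CohAut, y.1 N = f ∧
    ∀ n ≥ N, y.1 (n + 1) = W.st n (y.1 n) := by
  obtain ⟨y, hy, hy'⟩ := exists_seq W.st (fun n => ⟨1⟩) N f
  exact ⟨⟨y, N, hy'⟩, hy, hy'⟩

/-- action of a coherent sequence of automorphisms on coherent sequences -/
def act (f : W.CohAut) (x : W.Coh) : W.Coh :=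
  ⟨fun n => f.1 n (x.1 n), by
    obtain ⟨N, hN⟩ := f.2
    obtain ⟨M, hM⟩ := x.2
    refine ⟨max N M, fun n hn => ?_⟩
    show f.1 (n + 1) (x.1 (n + 1)) = W.ι n (f.1 n (x.1 n))
    rw [hN n (le_trans (le_max_left _ _) hn), hM n (le_trans (le_max_right _ _) hn), W.st_ι]⟩

/-- inverse -/
def cinv (f : W.CohAut) : W.CohAut := ⟨fun n => (f.1 n)⁻¹, by
  obtain ⟨N, hN⟩ := f.2
  refine ⟨N, fun n hn => ?_⟩
  show (f.1 (n + 1))⁻¹ = W.st n (f.1 n)⁻¹
  rw [hN n hn, W.st_inv]⟩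

/-- product -/
def cmul (f g : W.CohAut) : W.CohAut := ⟨fun n => (f.1 n) * (g.1 n), by
  obtain ⟨N, hN⟩ := f.2
  obtain ⟨M, hM⟩ := g.2
  refine ⟨max N M, fun n hn => ?_⟩
  show f.1 (n + 1) * g.1 (n + 1) = W.st n (f.1 n * g.1 n)
  rw [hN n (le_trans (le_max_left _ _) hn), hM n (le_trans (le_max_right _ _) hn), W.st_mul]⟩

/-- sup -/
noncomputable def csup (f g : W.CohAut) : W.CohAut := ⟨fun n => supIso (f.1 n) (g.1 n), by
  obtain ⟨N, hN⟩ := f.2
  obtain ⟨M, hM⟩ := g.2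
  refine ⟨max N M, fun n hn => ?_⟩
  show supIso (f.1 (n + 1)) (g.1 (n + 1)) = W.st n (supIso (f.1 n) (g.1 n))
  rw [hN n (le_trans (le_max_left _ _) hn), hM n (le_trans (le_max_right _ _) hn), W.st_sup]⟩

/-- identity -/
def cone : W.CohAut := ⟨fun _ => 1, 0, fun n _ => (W.st_one n).symm⟩

theorem act_mono (f : W.CohAut) {x y : W.Coh} (h : x ≤ y) : W.act f x ≤ W.act f y := by
  obtain ⟨N, hN⟩ := h
  exact ⟨N, fun n hn => (f.1 n).monotone (hN n hn)⟩

theorem act_cinv (f : W.CohAut) (x : W.Coh) : W.act f (W.act (W.cinv f) x) = x := by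
  apply Coh.ext
  funext n
  show f.1 n ((f.1 n)⁻¹ (x.1 n)) = x.1 n
  rw [← RelIso.mul_apply, mul_inv_cancel]; rfl

theorem cinv_act (f : W.CohAut) (x : W.Coh) : W.act (W.cinv f) (W.act f x) = x := by
  apply Coh.ext
  funext n
  show (f.1 n)⁻¹ (f.1 n (x.1 n)) = x.1 n
  rw [← RelIso.mul_apply, inv_mul_cancel]; rfl

/-- class of a coherent sequence -/
def cls (x : W.Coh) : W.Lim := toAntisymmetrization (· ≤ ·) x

theorem cls_le {x y : W.Coh} : W.cls x ≤ W.cls y ↔ x ≤ y :=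
  toAntisymmetrization_le_toAntisymmetrization_iff

theorem cls_lt {x y : W.Coh} : W.cls x < W.cls y ↔ x < y :=
  toAntisymmetrization_lt_toAntisymmetrization_iff

theorem cls_surj (x : W.Lim) : ∃ y, W.cls y = x := by
  induction x using Antisymmetrization.induction_on with
  | h a => exact ⟨a, rfl⟩

theorem cls_eq {x y : W.Coh} : W.cls x = W.cls y ↔ ∃ N, ∀ n ≥ N, x.1 n = y.1 n := by
  constructor
  · intro h
    obtain ⟨N, hN⟩ := W.cls_le.mp h.le
    obtain ⟨M, hM⟩ := W.cls_le.mp h.ge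
    exact ⟨max N M, fun n hn => le_antisymm (hN n (le_trans (le_max_left _ _) hn))
      (hM n (le_trans (le_max_right _ _) hn))⟩
  · rintro ⟨N, hN⟩
    exact le_antisymm (W.cls_le.mpr ⟨N, fun n hn => (hN n hn).le⟩)
      (W.cls_le.mpr ⟨N, fun n hn => (hN n hn).ge⟩)

/-- the action on the limit, as a function -/
noncomputable def actFun (f : W.CohAut) (x : W.Lim) : W.Lim :=
  W.cls (W.act f (W.cls_surj x).choose)

theorem actFun_cls (f : W.CohAut) (x : W.Coh) : W.actFun f (W.cls x) = W.cls (W.act f x) := by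
  have h := (W.cls_surj (W.cls x)).choose_spec
  apply le_antisymm
  · exact W.cls_le.mpr (W.act_mono f (W.cls_le.mp h.le))
  · exact W.cls_le.mpr (W.act_mono f (W.cls_le.mp h.ge))

/-- the automorphism of the limit -/
noncomputable def aut (f : W.CohAut) : W.Lim ≃o W.Lim where
  toFun := W.actFun f
  invFun := W.actFun (W.cinv f)
  left_inv := by
    intro x
    obtain ⟨y, rfl⟩ := W.cls_surj x
    rw [actFun_cls, actFun_cls, cinv_act]
  right_inv := by
    intro x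
    obtain ⟨y, rfl⟩ := W.cls_surj x
    rw [actFun_cls, actFun_cls, act_cinv]
  map_rel_iff' := by
    intro a b
    obtain ⟨x, rfl⟩ := W.cls_surj a
    obtain ⟨y, rfl⟩ := W.cls_surj b
    show W.actFun f (W.cls x) ≤ W.actFun f (W.cls y) ↔ _
    rw [actFun_cls, actFun_cls, cls_le, cls_le]
    constructor
    · intro h
      have := W.act_mono (W.cinv f) h
      rwa [cinv_act, cinv_act] at this
    · exact W.act_mono f

theorem aut_cls (f : W.CohAut) (x : W.Coh) : W.aut f (W.cls x) = W.cls (W.act f x) :=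
  W.actFun_cls f x

theorem aut_mul (f g : W.CohAut) : W.aut (W.cmul f g) = W.aut f * W.aut g := by
  ext x
  obtain ⟨y, rfl⟩ := W.cls_surj x
  rw [RelIso.mul_apply, aut_cls, aut_cls, aut_cls]
  rfl

theorem aut_cone : W.aut W.cone = 1 := by
  ext x
  obtain ⟨y, rfl⟩ := W.cls_surj x
  rw [aut_cls]
  rfl

theorem aut_cinv (f : W.CohAut) : W.aut (W.cinv f) = (W.aut f)⁻¹ := by
  ext x
  obtain ⟨y, rfl⟩ := W.cls_surj x
  rfl

theorem aut_csup (f g : W.CohAut) : W.aut (W.csup f g) = supIso (W.aut f) (W.aut g) := by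
  ext x
  obtain ⟨y, rfl⟩ := W.cls_surj x
  rw [supIso_apply, aut_cls, aut_cls, aut_cls]
  obtain ⟨N, hx, hy⟩ := W.common (W.act f y) (W.act g y)
  rcases le_total (W.cls (W.act f y)) (W.cls (W.act g y)) with h | h
  · rw [max_eq_right h, cls_eq]
    obtain ⟨N, hN⟩ := W.cls_le.mp h
    exact ⟨N, fun n hn => max_eq_right (hN n hn)⟩
  · rw [max_eq_left h, cls_eq]
    obtain ⟨N, hN⟩ := W.cls_le.mp h
    exact ⟨N, fun n hn => max_eq_left (hN n hn)⟩

/-- the group -/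
noncomputable def L : Subgroup (W.Lim ≃o W.Lim) where
  carrier := {F | ∃ f : W.CohAut, (∃ N, ∀ n ≥ N, Bdd (f.1 n)) ∧ W.aut f = F}
  mul_mem' := by
    rintro _ _ ⟨f, ⟨N, hf⟩, rfl⟩ ⟨g, ⟨M, hg⟩, rfl⟩
    exact ⟨W.cmul f g, ⟨max N M, fun n hn => (hf n (le_trans (le_max_left _ _) hn)).mul
      (hg n (le_trans (le_max_right _ _) hn))⟩, W.aut_mul f g⟩
  one_mem' := ⟨W.cone, ⟨0, fun n _ => by have := W.nonempty n; exact Bdd.one⟩, W.aut_cone⟩
  inv_mem' := by
    rintro _ ⟨f, ⟨N, hf⟩, rfl⟩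
    exact ⟨W.cinv f, ⟨N, fun n hn => (hf n hn).inv⟩, W.aut_cinv f⟩

theorem st_Bdd (n : ℕ) (f : W.T n ≃o W.T n) (h : Bdd f) : Bdd (W.st n f) := by
  obtain ⟨a, b, hab⟩ := h
  exact ⟨W.ι n a, W.ι n b, W.st_bdd n f a b hab⟩

theorem bdd_prop {f : ∀ n, W.T n ≃o W.T n} {N : ℕ} (hf : ∀ n ≥ N, f (n + 1) = W.st n (f n))
    (h : Bdd (f N)) : ∀ n ≥ N, Bdd (f n) := by
  intro n hn
  induction n, hn using Nat.le_induction with
  | base => exact h
  | succ n hn ih =>
    rw [hf n hn]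
    exact W.st_Bdd n _ ih

include W in
theorem main : ∃ (T : Type) (_ : LinearOrder T) (L : Subgroup (T ≃o T)),
    (∃ a b c : T, a < b ∧ b < c) ∧
    (∀ f ∈ L, ∀ g ∈ L, ∃ h ∈ L, ∀ t, h t = max (f t) (g t)) ∧
    (∀ f ∈ L, ∀ g ∈ L, ∃ h ∈ L, ∀ t, h t = min (f t) (g t)) ∧
    (∀ r₁ r₂ s₁ s₂ : T, r₁ < r₂ → s₁ < s₂ → ∃ f ∈ L, f r₁ = s₁ ∧ f r₂ = s₂) ∧
    (∀ f ∈ L, ∃ t₁ t₂ : T, (∀ s, s < t₁ → f s = s) ∧ (∀ s, t₂ < s → f s = s)) ∧
    (∀ f ∈ L, (∀ t, t ≤ f t) → f ≠ 1 →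
      ∃ f₁ ∈ L, ∃ f₂ ∈ L, f₁ ≠ 1 ∧ f₂ ≠ 1 ∧ (∀ t, min (f₁ t) (f₂ t) = t) ∧
        (∀ t, max (f₁ t) (f₂ t) = f t)) := by
  have hsup : ∀ f ∈ W.L, ∀ g ∈ W.L, supIso f g ∈ W.L := by
    rintro _ ⟨f, ⟨N, hf⟩, rfl⟩ _ ⟨g, ⟨M, hg⟩, rfl⟩
    refine ⟨W.csup f g, ⟨max N M, fun n hn => (hf n (le_trans (le_max_left _ _) hn)).sup
      (hg n (le_trans (le_max_right _ _) hn))⟩, W.aut_csup f g⟩
  refine ⟨W.Lim, inferInstance, W.L, ?_, ?_, ?_, ?_, ?_, ?_⟩
  · obtain ⟨a, b, c, hab, hbc⟩ := W.three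
    obtain ⟨x, hx, hx'⟩ := W.exists_coh 0 a
    obtain ⟨y, hy, hy'⟩ := W.exists_coh 0 b
    obtain ⟨z, hz, hz'⟩ := W.exists_coh 0 c
    refine ⟨W.cls x, W.cls y, W.cls z, W.cls_lt.mpr ?_, W.cls_lt.mpr ?_⟩
    · rw [W.lt_iff hx' hy', hx, hy]; exact hab
    · rw [W.lt_iff hy' hz', hy, hz]; exact hbc
  · intro f hf g hg
    exact ⟨supIso f g, hsup f hf g hg, fun t => rfl⟩
  · intro f hf g hg
    exact ⟨(supIso f⁻¹ g⁻¹)⁻¹, W.L.inv_mem (hsup _ (W.L.inv_mem hf) _ (W.L.inv_mem hg)),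
      fun t => infIso_apply f g t⟩
  · intro r₁ r₂ s₁ s₂ hr hs
    obtain ⟨x, rfl⟩ := W.cls_surj r₁
    obtain ⟨y, rfl⟩ := W.cls_surj r₂
    obtain ⟨z, rfl⟩ := W.cls_surj s₁
    obtain ⟨w, rfl⟩ := W.cls_surj s₂
    obtain ⟨N, hx, hy⟩ := W.common x y
    obtain ⟨M, hz, hw⟩ := W.common z w
    set K := max N M with hK
    have hx' : ∀ n ≥ K, x.1 (n + 1) = W.ι n (x.1 n) :=
      fun n hn => hx n (le_trans (le_max_left _ _) hn)
    have hy' : ∀ n ≥ K, y.1 (n + 1) = W.ι n (y.1 n) :=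
      fun n hn => hy n (le_trans (le_max_left _ _) hn)
    have hz' : ∀ n ≥ K, z.1 (n + 1) = W.ι n (z.1 n) :=
      fun n hn => hz n (le_trans (le_max_right _ _) hn)
    have hw' : ∀ n ≥ K, w.1 (n + 1) = W.ι n (w.1 n) :=
      fun n hn => hw n (le_trans (le_max_right _ _) hn)
    rw [W.cls_lt, W.lt_iff hx' hy'] at hr
    rw [W.cls_lt, W.lt_iff hz' hw'] at hs
    obtain ⟨f, hfb, hf1, hf2⟩ := W.two K _ _ _ _ hr hs
    obtain ⟨F, hF, hF'⟩ := W.exists_cohAut K f
    refine ⟨W.aut F, ⟨F, ⟨K, W.bdd_prop hF' (by rw [hF]; exact hfb)⟩, rfl⟩, ?_, ?_⟩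
    · rw [aut_cls, cls_eq]
      refine ⟨K, fun n hn => ?_⟩
      show F.1 n (x.1 n) = z.1 n
      induction n, hn using Nat.le_induction with
      | base => rw [hF]; exact hf1
      | succ n hn ih =>
        rw [hF' n hn, hx' n hn, hz' n hn, W.st_ι, ih]
    · rw [aut_cls, cls_eq]
      refine ⟨K, fun n hn => ?_⟩
      show F.1 n (y.1 n) = w.1 n
      induction n, hn using Nat.le_induction with
      | base => rw [hF]; exact hf2
      | succ n hn ih =>
        rw [hF' n hn, hy' n hn, hw' n hn, W.st_ι, ih]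
  · rintro _ ⟨f, ⟨N, hf⟩, rfl⟩
    obtain ⟨M, hM⟩ := f.2
    set K := max N M with hK
    have hM' : ∀ n ≥ K, f.1 (n + 1) = W.st n (f.1 n) :=
      fun n hn => hM n (le_trans (le_max_right _ _) hn)
    obtain ⟨a, b, hab⟩ := hf K (le_max_left _ _)
    obtain ⟨x, hx, hx'⟩ := W.exists_coh K a
    obtain ⟨y, hy, hy'⟩ := W.exists_coh K b
    have key : ∀ n ≥ K, ∀ s, (s < x.1 n ∨ y.1 n < s) → f.1 n s = s := by
      intro n hn
      induction n, hn using Nat.le_induction with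
      | base => rw [hx, hy]; exact hab
      | succ n hn ih =>
        rw [hM' n hn, hx' n hn, hy' n hn]
        exact W.st_bdd n _ _ _ ih
    refine ⟨W.cls x, W.cls y, ?_, ?_⟩
    · intro s hs
      obtain ⟨z, rfl⟩ := W.cls_surj s
      obtain ⟨R, hR⟩ := z.2
      rw [W.cls_lt, W.lt_iff (N := max K R) (fun n hn => hR n (le_trans (le_max_right _ _) hn))
        (fun n hn => hx' n (le_trans (le_max_left _ _) hn))] at hs
      rw [aut_cls, cls_eq]
      refine ⟨max K R, fun n hn => ?_⟩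
      apply key n (le_trans (le_max_left _ _) hn)
      left
      exact W.lt_prop (fun n hn => hR n (le_trans (le_max_right _ _) hn))
        (fun n hn => hx' n (le_trans (le_max_left _ _) hn)) hs n hn
    · intro s hs
      obtain ⟨z, rfl⟩ := W.cls_surj s
      obtain ⟨R, hR⟩ := z.2
      rw [W.cls_lt, W.lt_iff (N := max K R) (fun n hn => hy' n (le_trans (le_max_left _ _) hn))
        (fun n hn => hR n (le_trans (le_max_right _ _) hn))] at hs
      rw [aut_cls, cls_eq]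
      refine ⟨max K R, fun n hn => ?_⟩
      apply key n (le_trans (le_max_left _ _) hn)
      right
      exact W.lt_prop (fun n hn => hy' n (le_trans (le_max_left _ _) hn))
        (fun n hn => hR n (le_trans (le_max_right _ _) hn)) hs n hn
  · rintro _ ⟨f, ⟨N, hf⟩, rfl⟩ hpos hne
    obtain ⟨M, hM⟩ := f.2
    set K := max N M with hK
    have hM' : ∀ n ≥ K, f.1 (n + 1) = W.st n (f.1 n) :=
      fun n hn => hM n (le_trans (le_max_right _ _) hn)
    have hfK : Bdd (f.1 K) := hf K (le_max_left _ _)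
    have hposK : ∀ t, t ≤ f.1 K t := by
      intro t
      obtain ⟨x, hx, hx'⟩ := W.exists_coh K t
      have h1 := hpos (W.cls x)
      rw [aut_cls, cls_le] at h1
      rw [W.le_iff (N := K) hx' (fun n hn => by
        show f.1 (n + 1) (x.1 (n + 1)) = W.ι n (f.1 n (x.1 n))
        rw [hM' n hn, hx' n hn, W.st_ι])] at h1
      rw [← hx]
      exact h1
    have hneK : f.1 K ≠ 1 := by
      intro h
      apply hne
      rw [← W.aut_cone]
      ext z
      obtain ⟨z, rfl⟩ := W.cls_surj z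
      rw [aut_cls, aut_cls, cls_eq]
      refine ⟨K, fun n hn => ?_⟩
      have h1 : ∀ n ≥ K, f.1 n = 1 := by
        intro n hn
        induction n, hn using Nat.le_induction with
        | base => exact h
        | succ n hn ih => rw [hM' n hn, ih, W.st_one]
      show f.1 n (z.1 n) = z.1 n
      rw [h1 n hn]; rfl
    obtain ⟨g, h, hg, hh, hg1, hh1, hsupgh, hinfgh⟩ := W.split K (f.1 K) hfK hposK hneK
    obtain ⟨G, hG, hG'⟩ := W.exists_cohAut (K + 1) g
    obtain ⟨H, hH, hH'⟩ := W.exists_cohAut (K + 1) h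
    have hneL : ∀ (A : W.CohAut), (∀ n ≥ K + 1, A.1 (n + 1) = W.st n (A.1 n)) → A.1 (K + 1) ≠ 1 →
        W.aut A ≠ 1 := by
      intro A hA hA1 hA2
      apply hA1
      ext t
      obtain ⟨x, hx, hx'⟩ := W.exists_coh (K + 1) t
      have h1 : W.aut A (W.cls x) = W.cls x := by rw [hA2]; rfl
      rw [aut_cls] at h1
      have e1 : ∀ n ≥ K + 1, (W.act A x).1 (n + 1) = W.ι n ((W.act A x).1 n) := by
        intro n hn
        show A.1 (n + 1) (x.1 (n + 1)) = W.ι n (A.1 n (x.1 n))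
        rw [hA n hn, hx' n hn, W.st_ι]
      have h2 := (W.le_iff e1 hx').mp (W.cls_le.mp h1.le)
      have h3 := (W.le_iff hx' e1).mp (W.cls_le.mp h1.ge)
      have h4 : A.1 (K + 1) (x.1 (K + 1)) = x.1 (K + 1) := le_antisymm h2 h3
      rw [hx] at h4
      exact h4
    have hsupAll : ∀ n ≥ K + 1, supIso (G.1 n) (H.1 n) = f.1 n := by
      intro n hn
      induction n, hn using Nat.le_induction with
      | base => rw [hG, hH, hsupgh, hM' K le_rfl]
      | succ n hn ih =>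
        rw [hG' n hn, hH' n hn, ← W.st_sup, ih, hM' n (by omega)]
    have hinfAll : ∀ n ≥ K + 1, supIso (G.1 n)⁻¹ (H.1 n)⁻¹ = 1 := by
      intro n hn
      induction n, hn using Nat.le_induction with
      | base => rw [hG, hH, hinfgh]
      | succ n hn ih =>
        rw [hG' n hn, hH' n hn, ← W.st_inv, ← W.st_inv, ← W.st_sup, ih, W.st_one]
    have hsupL : supIso (W.aut G) (W.aut H) = W.aut f := by
      rw [← W.aut_csup]
      ext z
      obtain ⟨z, rfl⟩ := W.cls_surj z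
      rw [aut_cls, aut_cls, cls_eq]
      refine ⟨K + 1, fun n hn => ?_⟩
      show supIso (G.1 n) (H.1 n) (z.1 n) = f.1 n (z.1 n)
      rw [hsupAll n hn]
    have hinfL : supIso (W.aut G)⁻¹ (W.aut H)⁻¹ = 1 := by
      rw [← W.aut_cinv, ← W.aut_cinv, ← W.aut_csup, ← W.aut_cone]
      ext z
      obtain ⟨z, rfl⟩ := W.cls_surj z
      rw [aut_cls, aut_cls, cls_eq]
      refine ⟨K + 1, fun n hn => ?_⟩
      show supIso (G.1 n)⁻¹ (H.1 n)⁻¹ (z.1 n) = z.1 n
      rw [hinfAll n hn]; rfl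
    refine ⟨W.aut G, ⟨G, ⟨K + 1, W.bdd_prop hG' (by rw [hG]; exact hg)⟩, rfl⟩,
      W.aut H, ⟨H, ⟨K + 1, W.bdd_prop hH' (by rw [hH]; exact hh)⟩, rfl⟩,
      hneL G hG' (by rw [hG]; exact hg1), hneL H hH' (by rw [hH]; exact hh1), ?_, ?_⟩
    · intro t
      rw [← infIso_apply, hinfL]; simp
    · intro t
      rw [← hsupL]; rfl

end Tower

end Pool.Agent.Helper7.LPrime
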