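import Mathlib
import Pool.Agent.Helper7.LPrimeTower

namespace Pool.Agent.Helper7.LPrime

open Filter

/-- the ultrafilter -/
noncomputable abbrev U : Ultrafilter ℕ := hyperfilter ℕ

/-- pointwise action of a sequence of automorphisms on the ultrapower -/
noncomputable def starFun {T : Type} [LinearOrder T] (f : ℕ → (T ≃o T)) (x : Germ (U : Filter ℕ) T) :
    Germ (U : Filter ℕ) T :=
  Germ.map' (fun (y : ℕ → T) i => f i (y i)) (by
    intro a b hab
    have : ∀ᶠ i in (U : Filter ℕ), a i = b i := hab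
    filter_upwards [this] with i hi
    simp only [hi]) x

theorem starFun_coe {T : Type} [LinearOrder T] (f : ℕ → (T ≃o T)) (x : ℕ → T) :
    starFun f (x : Germ (U : Filter ℕ) T) = ((fun i => f i (x i) : ℕ → T) : Germ (U : Filter ℕ) T) :=
  rfl

/-- the automorphism of the ultrapower -/
noncomputable def starSeq {T : Type} [LinearOrder T] (f : ℕ → (T ≃o T)) :
    Germ (U : Filter ℕ) T ≃o Germ (U : Filter ℕ) T where
  toFun := starFun f
  invFun := starFun (fun i => (f i)⁻¹)
  left_inv := by
    intro x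
    induction x using Germ.inductionOn with
    | _ x =>
      rw [starFun_coe, starFun_coe]
      congr 1
      funext i
      rw [← RelIso.mul_apply, inv_mul_cancel]; rfl
  right_inv := by
    intro x
    induction x using Germ.inductionOn with
    | _ x =>
      rw [starFun_coe, starFun_coe]
      congr 1
      funext i
      rw [← RelIso.mul_apply, mul_inv_cancel]; rfl
  map_rel_iff' := by
    intro x y
    induction x using Germ.inductionOn with
    | _ x =>
    induction y using Germ.inductionOn with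
    | _ y =>
      show starFun f x ≤ starFun f y ↔ _
      rw [starFun_coe, starFun_coe, Germ.coe_le, Germ.coe_le]
      constructor
      · intro h
        filter_upwards [h] with i hi
        exact (f i).le_iff_le.mp hi
      · intro h
        filter_upwards [h] with i hi
        exact (f i).le_iff_le.mpr hi

theorem starSeq_coe {T : Type} [LinearOrder T] (f : ℕ → (T ≃o T)) (x : ℕ → T) :
    starSeq f (x : Germ (U : Filter ℕ) T) = ((fun i => f i (x i) : ℕ → T) : Germ (U : Filter ℕ) T) :=
  rfl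

/-- the diagonal action -/
noncomputable def star {T : Type} [LinearOrder T] (f : T ≃o T) :
    Germ (U : Filter ℕ) T ≃o Germ (U : Filter ℕ) T := starSeq (fun _ => f)

theorem star_coe {T : Type} [LinearOrder T] (f : T ≃o T) (x : ℕ → T) :
    star f (x : Germ (U : Filter ℕ) T) = ((fun i => f (x i) : ℕ → T) : Germ (U : Filter ℕ) T) :=
  rfl

theorem star_mul {T : Type} [LinearOrder T] (f g : T ≃o T) : star (f * g) = star f * star g := by
  ext x
  induction x using Germ.inductionOn with
  | _ x => rfl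

theorem star_sup {T : Type} [LinearOrder T] (f g : T ≃o T) :
    star (supIso f g) = supIso (star f) (star g) := by
  ext x
  induction x using Germ.inductionOn with
  | _ x =>
    rw [supIso_apply, star_coe, star_coe, star_coe, Germ.max_def]
    rfl

theorem star_bdd {T : Type} [LinearOrder T] (f : T ≃o T) (t1 t2 : T)
    (h : ∀ s, (s < t1 ∨ t2 < s) → f s = s) (s : Germ (U : Filter ℕ) T)
    (hs : s < (t1 : Germ (U : Filter ℕ) T) ∨ (t2 : Germ (U : Filter ℕ) T) < s) : star f s = s := by
  induction s using Germ.inductionOn with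
  | _ x =>
    rw [star_coe, Germ.coe_eq]
    rcases hs with hs | hs
    · have h1 : ∀ᶠ i in (U : Filter ℕ), x i < t1 := Germ.coe_lt.mp hs
      filter_upwards [h1] with i hi
      exact h _ (Or.inl hi)
    · have h1 : ∀ᶠ i in (U : Filter ℕ), t2 < x i := Germ.coe_lt.mp hs
      filter_upwards [h1] with i hi
      exact h _ (Or.inr hi)

theorem const_strictMono {T : Type} [LinearOrder T] :
    StrictMono (fun x : T => (x : Germ (U : Filter ℕ) T)) := by
  intro a b hab
  show ((fun _ => a : ℕ → T) : Germ (U : Filter ℕ) T) < ((fun _ => b : ℕ → T) : Germ (U : Filter ℕ) T)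
  rw [Germ.coe_lt]
  exact Eventually.of_forall (fun _ => hab)

/-- 2-transitivity by bounded automorphisms passes to the ultrapower. -/
theorem two_ultra {T : Type} [LinearOrder T]
    (h : ∀ r1 r2 s1 s2 : T, r1 < r2 → s1 < s2 → ∃ f : T ≃o T, Bdd f ∧ f r1 = s1 ∧ f r2 = s2)
    (r1 r2 s1 s2 : Germ (U : Filter ℕ) T) (hr : r1 < r2) (hs : s1 < s2) :
    ∃ f : Germ (U : Filter ℕ) T ≃o Germ (U : Filter ℕ) T, Bdd f ∧ f r1 = s1 ∧ f r2 = s2 := by
  induction r1 using Germ.inductionOn with
  | _ r1 =>
  induction r2 using Germ.inductionOn with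
  | _ r2 =>
  induction s1 using Germ.inductionOn with
  | _ s1 =>
  induction s2 using Germ.inductionOn with
  | _ s2 =>
  rw [Germ.coe_lt] at hr hs
  have h1 : ∀ i, ∃ (f : T ≃o T) (a b : T), (∀ s, (s < a ∨ b < s) → f s = s) ∧
      (r1 i < r2 i → s1 i < s2 i → f (r1 i) = s1 i ∧ f (r2 i) = s2 i) := by
    intro i
    by_cases hi : r1 i < r2 i ∧ s1 i < s2 i
    · obtain ⟨f, ⟨a, b, hab⟩, hf⟩ := h _ _ _ _ hi.1 hi.2
      exact ⟨f, a, b, hab, fun _ _ => hf⟩
    · exact ⟨1, r1 i, r1 i, fun _ _ => rfl, fun h1 h2 => absurd ⟨h1, h2⟩ hi⟩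
  choose f a b hab hf using h1
  refine ⟨starSeq f, ⟨(a : Germ (U : Filter ℕ) T), (b : Germ (U : Filter ℕ) T), ?_⟩, ?_, ?_⟩
  · intro s hs
    induction s using Germ.inductionOn with
    | _ x =>
      rw [starSeq_coe, Germ.coe_eq]
      rcases hs with hs | hs
      · rw [Germ.coe_lt] at hs
        filter_upwards [hs] with i hi
        exact hab i _ (Or.inl hi)
      · rw [Germ.coe_lt] at hs
        filter_upwards [hs] with i hi
        exact hab i _ (Or.inr hi)
  · rw [starSeq_coe, Germ.coe_eq]
    filter_upwards [hr, hs] with i h1 h2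
    exact (hf i h1 h2).1
  · rw [starSeq_coe, Germ.coe_eq]
    filter_upwards [hr, hs] with i h1 h2
    exact (hf i h1 h2).2

/-- restriction of an automorphism to an invariant lower set -/
noncomputable def cutIso {T : Type} [LinearOrder T] (f : T ≃o T) (C : Set T) (hC : IsLowerSet C)
    (hf : ∀ x, f x ∈ C ↔ x ∈ C) : T ≃o T :=
  haveI := Classical.decPred (· ∈ C)
  StrictMono.orderIsoOfRightInverse (fun x => if x ∈ C then f x else x)
    (by
      intro x y hxy
      show (if x ∈ C then f x else x) < (if y ∈ C then f y else y)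
      by_cases hx : x ∈ C
      · by_cases hy : y ∈ C
        · rw [if_pos hx, if_pos hy]; exact f.strictMono hxy
        · rw [if_pos hx, if_neg hy]
          by_contra hcon
          exact hy (hC (not_lt.mp hcon) ((hf x).mpr hx))
      · have hy : y ∉ C := fun h => hx (hC hxy.le h)
        rw [if_neg hx, if_neg hy]; exact hxy)
    (fun x => if x ∈ C then f.symm x else x)
    (by
      intro x
      show (if (if x ∈ C then f.symm x else x) ∈ C then f (if x ∈ C then f.symm x else x)
        else (if x ∈ C then f.symm x else x)) = x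
      by_cases hx : x ∈ C
      · have h1 : f.symm x ∈ C := by
          rw [← hf]; simpa using hx
        rw [if_pos hx, if_pos h1]; simp
      · rw [if_neg hx, if_neg hx])

theorem cutIso_pos {T : Type} [LinearOrder T] (f : T ≃o T) (C : Set T) (hC : IsLowerSet C)
    (hf : ∀ x, f x ∈ C ↔ x ∈ C) {x : T} (hx : x ∈ C) : cutIso f C hC hf x = f x := by
  classical
  show (@ite T (x ∈ C) _ (f x) x) = _
  rw [if_pos hx]

theorem cutIso_neg {T : Type} [LinearOrder T] (f : T ≃o T) (C : Set T) (hC : IsLowerSet C)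
    (hf : ∀ x, f x ∈ C ↔ x ∈ C) {x : T} (hx : x ∉ C) : cutIso f C hC hf x = x := by
  classical
  show (@ite T (x ∈ C) _ (f x) x) = _
  rw [if_neg hx]

theorem split_ultra {T : Type} [LinearOrder T] (f : T ≃o T) (hb : Bdd f) (hpos : ∀ t, t ≤ f t)
    (hne : f ≠ 1) : ∃ g h : Germ (U : Filter ℕ) T ≃o Germ (U : Filter ℕ) T,
      Bdd g ∧ Bdd h ∧ g ≠ 1 ∧ h ≠ 1 ∧ supIso g h = star f ∧ supIso g⁻¹ h⁻¹ = 1 := by
  -- a moved point
  have hx : ∃ x, x < f x := by
    by_contra hcon
    push Not at hcon
    apply hne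
    ext x
    exact le_antisymm (hcon x) (hpos x)
  obtain ⟨x, hx⟩ := hx
  -- backward orbit
  let o : ℕ → T := fun k => (f⁻¹ ^ k) x
  have ho0 : o 0 = x := rfl
  have hof : ∀ k, f (o (k + 1)) = o k := by
    intro k
    show f ((f⁻¹ ^ (k + 1)) x) = (f⁻¹ ^ k) x
    rw [← RelIso.mul_apply, pow_succ', ← mul_assoc, mul_inv_cancel, one_mul]
  have hoinc : ∀ k, o (k + 1) < o k := by
    intro k
    induction k with
    | zero =>
      have h1 : f (o 1) < f (o 0) := by rw [hof 0, ho0]; exact hx
      exact f.lt_iff_lt.mp h1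
    | succ k ih =>
      have h1 : f (o (k + 2)) < f (o (k + 1)) := by rw [hof, hof]; exact ih
      exact f.lt_iff_lt.mp h1
  have hoanti : StrictAnti o := strictAnti_nat_of_succ_lt hoinc
  let C : Set (Germ (U : Filter ℕ) T) := {ξ | ∀ k, ξ < ((o k : T) : Germ (U : Filter ℕ) T)}
  have hC : IsLowerSet C := by
    intro a b hab ha k
    exact lt_of_le_of_lt hab (ha k)
  have hstar_const : ∀ t : T, star f (t : Germ (U : Filter ℕ) T) = ((f t : T) : Germ (U : Filter ℕ) T) :=
    fun t => rfl
  have hCf : ∀ ξ, star f ξ ∈ C ↔ ξ ∈ C := by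
    intro ξ
    constructor
    · intro h k
      have h1 : star f ξ < star f ((o (k + 1) : T) : Germ (U : Filter ℕ) T) := by
        rw [hstar_const, hof]; exact h k
      have h2 := (star f).lt_iff_lt.mp h1
      exact h2.trans (const_strictMono (hoinc k))
    · intro h k
      have h1 : star f ξ < star f ((o (k + 1) : T) : Germ (U : Filter ℕ) T) :=
        (star f).lt_iff_lt.mpr (h (k + 1))
      rw [hstar_const, hof] at h1
      exact h1
  have hstar_pos : ∀ ξ, ξ ≤ star f ξ := by
    intro ξ
    induction ξ using Germ.inductionOn with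
    | _ y =>
      rw [star_coe, Germ.coe_le]
      exact Eventually.of_forall (fun i => hpos _)
  set g := cutIso (star f) C hC hCf with hg
  set h := g⁻¹ * star f with hh
  -- g agrees with star f on C and is the identity off C
  have hgC : ∀ ξ ∈ C, g ξ = star f ξ := fun ξ hξ => cutIso_pos _ _ _ _ hξ
  have hgN : ∀ ξ, ξ ∉ C → g ξ = ξ := fun ξ hξ => cutIso_neg _ _ _ _ hξ
  have hginv : ∀ ξ η, g ξ = η → g⁻¹ η = ξ := by
    intro ξ η e
    rw [← e, ← RelIso.mul_apply, inv_mul_cancel]; rfl
  have hhC : ∀ ξ ∈ C, h ξ = ξ := by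
    intro ξ hξ
    rw [hh, RelIso.mul_apply]
    exact hginv _ _ (hgC ξ hξ)
  have hhN : ∀ ξ, ξ ∉ C → h ξ = star f ξ := by
    intro ξ hξ
    rw [hh, RelIso.mul_apply]
    exact hginv _ _ (hgN _ (fun hc => hξ ((hCf ξ).mp hc)))
  obtain ⟨a, b, hab⟩ := hb
  have hsupp : ∀ s, (s < (a : Germ (U : Filter ℕ) T) ∨ (b : Germ (U : Filter ℕ) T) < s) → star f s = s :=
    fun s hs => star_bdd f a b hab s hs
  have hgb : Bdd g := by
    refine ⟨(a : Germ (U : Filter ℕ) T), (b : Germ (U : Filter ℕ) T), fun s hs => ?_⟩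
    by_cases hsC : s ∈ C
    · rw [hgC s hsC]; exact hsupp s hs
    · exact hgN s hsC
  have hhb : Bdd h := by
    refine ⟨(a : Germ (U : Filter ℕ) T), (b : Germ (U : Filter ℕ) T), fun s hs => ?_⟩
    by_cases hsC : s ∈ C
    · exact hhC s hsC
    · rw [hhN s hsC]; exact hsupp s hs
  refine ⟨g, h, hgb, hhb, ?_, ?_, ?_, ?_⟩
  · intro hg1
    -- the germ of the orbit is in C and moved
    have hmem : (o : Germ (U : Filter ℕ) T) ∈ C := by
      intro k
      show (o : Germ (U : Filter ℕ) T) < ((fun _ => o k : ℕ → T) : Germ (U : Filter ℕ) T)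
      rw [Germ.coe_lt]
      have : ∀ᶠ i in (atTop : Filter ℕ), o i < o k := by
        filter_upwards [eventually_gt_atTop k] with i hi
        exact hoanti hi
      have hle : (U : Filter ℕ) ≤ atTop := by
        rw [← Nat.cofinite_eq_atTop]; exact hyperfilter_le_cofinite
      exact hle this
    have h1 := hgC _ hmem
    rw [hg1] at h1
    have h2 : star f (o : Germ (U : Filter ℕ) T) = (o : Germ (U : Filter ℕ) T) := h1.symm
    rw [star_coe, Germ.coe_eq] at h2
    have h3 : ∀ i, o i < f (o i) := by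
      intro i
      cases i with
      | zero => exact hx
      | succ i => rw [hof]; exact hoinc i
    have h4 : ∀ᶠ i in (U : Filter ℕ), False := by
      filter_upwards [h2] with i hi
      exact absurd hi (h3 i).ne'
    exact (U : Ultrafilter ℕ).neBot.ne (by simpa using h4)
  · intro hh1
    have hmem : ((x : T) : Germ (U : Filter ℕ) T) ∉ C := by
      intro hc
      exact lt_irrefl _ (hc 0)
    have h1 := hhN _ hmem
    rw [hh1, hstar_const] at h1
    have h2 : ((x : T) : Germ (U : Filter ℕ) T) < ((f x : T) : Germ (U : Filter ℕ) T) :=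
      const_strictMono hx
    exact absurd h1 h2.ne
  · ext ξ
    rw [supIso_apply]
    by_cases hξ : ξ ∈ C
    · rw [hgC ξ hξ, hhC ξ hξ, max_eq_left (hstar_pos ξ)]
    · rw [hgN ξ hξ, hhN ξ hξ, max_eq_right (hstar_pos ξ)]
  · have key : ∀ ξ, (supIso g⁻¹ h⁻¹)⁻¹ ξ = ξ := by
      intro ξ
      rw [infIso_apply]
      by_cases hξ : ξ ∈ C
      · rw [hgC ξ hξ, hhC ξ hξ, min_eq_right (hstar_pos ξ)]
      · rw [hgN ξ hξ, hhN ξ hξ, min_eq_left (hstar_pos ξ)]
    have : (supIso g⁻¹ h⁻¹)⁻¹ = 1 := by
      ext ξ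
      exact key ξ
    exact inv_eq_one.mp this

/-! ### The rationals -/

/-- affine map fixing `p` with slope `c > 0` -/
def aff (c p : ℚ) (hc : 0 < c) : ℚ ≃o ℚ where
  toFun x := p + c * (x - p)
  invFun x := p + c⁻¹ * (x - p)
  left_inv := by
    intro x
    field_simp
    ring
  right_inv := by
    intro x
    field_simp
    ring
  map_rel_iff' := by
    intro a b
    show p + c * (a - p) ≤ p + c * (b - p) ↔ a ≤ b
    constructor
    · intro h
      have : c * a ≤ c * b := by linarith
      exact le_of_mul_le_mul_left this hc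
    · intro h
      have : c * a ≤ c * b := mul_le_mul_of_nonneg_left h hc.le
      linarith

theorem aff_apply (c p : ℚ) (hc : 0 < c) (x : ℚ) : aff c p hc x = p + c * (x - p) := rfl

/-- upward block map -/
theorem block_up (a r s b : ℚ) (har : a < r) (hrs : r < s) (hsb : s < b) :
    ∃ f : ℚ ≃o ℚ, f r = s ∧ (∀ x, x ≤ a → f x = x) ∧ (∀ x, b ≤ x → f x = x) := by
  have hc1 : 0 < (s - a) / (r - a) := div_pos (by linarith) (by linarith)
  have hc2 : 0 < (b - s) / (b - r) := div_pos (by linarith) (by linarith)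
  have hc1' : 1 ≤ (s - a) / (r - a) := by rw [le_div_iff₀ (by linarith)]; linarith
  have hc2' : (b - s) / (b - r) ≤ 1 := by rw [div_le_iff₀ (by linarith)]; linarith
  refine ⟨supIso 1 ((supIso (aff _ a hc1)⁻¹ (aff _ b hc2)⁻¹)⁻¹), ?_, ?_, ?_⟩
  · rw [supIso_apply, infIso_apply, aff_apply, aff_apply]
    have e1 : a + (s - a) / (r - a) * (r - a) = s := by
      rw [div_mul_cancel₀ _ (by linarith)]; ring
    have e2 : b + (b - s) / (b - r) * (r - b) = s := by
      have : (b - s) / (b - r) * (r - b) = -(b - s) := by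
        rw [show r - b = -(b - r) by ring, mul_neg, div_mul_cancel₀ _ (by linarith)]
      rw [this]; ring
    rw [e1, e2, min_self]
    exact max_eq_right hrs.le
  · intro x hx
    rw [supIso_apply, infIso_apply, aff_apply, aff_apply]
    apply max_eq_left
    apply (min_le_left _ _).trans
    show a + (s - a) / (r - a) * (x - a) ≤ x
    nlinarith
  · intro x hx
    rw [supIso_apply, infIso_apply, aff_apply, aff_apply]
    apply max_eq_left
    apply (min_le_right _ _).trans
    show b + (b - s) / (b - r) * (x - b) ≤ x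
    nlinarith

theorem block (a r s b : ℚ) (har : a < r) (hrb : r < b) (has : a < s) (hsb : s < b) :
    ∃ f : ℚ ≃o ℚ, f r = s ∧ (∀ x, x ≤ a → f x = x) ∧ (∀ x, b ≤ x → f x = x) := by
  rcases lt_trichotomy r s with h | h | h
  · exact block_up a r s b har h hsb
  · exact ⟨1, h, fun _ _ => rfl, fun _ _ => rfl⟩
  · obtain ⟨f, hf, h1, h2⟩ := block_up a s r b has h hrb
    have key : ∀ x y, f x = y → f⁻¹ y = x := by
      intro x y e
      rw [← e, ← RelIso.mul_apply, inv_mul_cancel]; rfl
    exact ⟨f⁻¹, key _ _ hf, fun x hx => key _ _ (h1 x hx), fun x hx => key _ _ (h2 x hx)⟩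

theorem two_rat (r1 r2 s1 s2 : ℚ) (hr : r1 < r2) (hs : s1 < s2) :
    ∃ f : ℚ ≃o ℚ, Bdd f ∧ f r1 = s1 ∧ f r2 = s2 := by
  set a := min r1 s1 - 1 with ha
  set b := max r2 s2 + 1 with hb
  have ha1 : a < r1 := by have := min_le_left r1 s1; linarith
  have ha2 : a < s1 := by have := min_le_right r1 s1; linarith
  have hb1 : r2 < b := by have := le_max_left r2 s2; linarith
  have hb2 : s2 < b := by have := le_max_right r2 s2; linarith
  obtain ⟨g, hg, hg1, hg2⟩ := block a r1 s1 b ha1 (by linarith) ha2 (by linarith)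
  have h1 : s1 < g r2 := by rw [← hg]; exact g.strictMono hr
  have h2 : g r2 < b := by
    have := g.strictMono hb1
    rwa [hg2 b le_rfl] at this
  obtain ⟨h, hh, hh1, hh2⟩ := block s1 (g r2) s2 b h1 h2 hs hb2
  refine ⟨h * g, ⟨a, b, ?_⟩, ?_, ?_⟩
  · intro s hs'
    rw [RelIso.mul_apply]
    rcases hs' with hs' | hs'
    · rw [hg1 s hs'.le, hh1 s (hs'.le.trans ha2.le)]
    · rw [hg2 s hs'.le, hh2 s hs'.le]
  · rw [RelIso.mul_apply, hg, hh1 s1 le_rfl]
  · rw [RelIso.mul_apply, hh]

/-! ### The tower -/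

/-- bundled chain -/
structure Chn where
  T : Type
  [ord : LinearOrder T]

attribute [instance] Chn.ord

/-- the tower of ultrapowers -/
noncomputable def chn : ℕ → Chn
  | 0 => ⟨ℚ⟩
  | n + 1 => ⟨Germ (U : Filter ℕ) (chn n).T⟩

theorem two_all : ∀ n, ∀ r1 r2 s1 s2 : (chn n).T, r1 < r2 → s1 < s2 →
    ∃ f : (chn n).T ≃o (chn n).T, Bdd f ∧ f r1 = s1 ∧ f r2 = s2
  | 0 => two_rat
  | n + 1 => two_ultra (two_all n)

/-- the tower of ultrapowers of `ℚ` -/
noncomputable def tower : Tower where
  T n := (chn n).T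
  ord n := (chn n).ord
  ι n := fun x => (show (chn (n + 1)).T from ((x : (chn n).T) : Germ (U : Filter ℕ) (chn n).T))
  ι_mono n := const_strictMono
  st n := star
  st_mul n := star_mul
  st_ι n f x := rfl
  st_sup n := star_sup
  st_bdd n := star_bdd
  two n := two_all n
  split n := split_ultra
  three := ⟨(0 : ℚ), (1 : ℚ), (2 : ℚ), by show (0 : ℚ) < 1; norm_num, by show (1 : ℚ) < 2; norm_num⟩

end Pool.Agent.Helper7.LPrime
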