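import Mathlib

namespace Pool.Agent.Helper7.NimSum

/-- The 2-kernel of an integer sequence. -/
def twoKernel (a : ℕ → ℤ) : Set (ℕ → ℤ) :=
  {b | ∃ e r : ℕ, r < 2 ^ e ∧ b = fun n => a (2 ^ e * n + r)}

/-- A sequence is 2-regular if the module generated by its 2-kernel is finitely generated. -/
def IsTwoRegular (a : ℕ → ℤ) : Prop :=
  (Submodule.span ℤ (twoKernel a)).FG

/-- An array is 2-regular if its subarrays along residue classes modulo powers of two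
are all integer combinations of finitely many arrays. -/
def IsTwoRegularArray (c : ℕ → ℕ → ℤ) : Prop :=
  ∃ s : Finset (ℕ → ℕ → ℤ), ∀ e r t : ℕ, r < 2 ^ e → t < 2 ^ e →
    (fun m n => c (2 ^ e * m + r) (2 ^ e * n + t)) ∈
      Submodule.span ℤ (s : Set (ℕ → ℕ → ℤ))

lemma xor_add_two_mul_and (x y : ℕ) : (x ^^^ y) + 2 * (x &&& y) = x + y := by
  induction x using Nat.strong_induction_on generalizing y with
  | _ x ih =>
    rcases Nat.eq_zero_or_pos x with hx | hx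
    · subst hx; simp
    · have h := ih (x / 2) (Nat.div_lt_self hx (by norm_num)) (y / 2)
      have h1 : (x ^^^ y) / 2 = x / 2 ^^^ y / 2 := Nat.xor_div_two
      have h2 : (x &&& y) / 2 = x / 2 &&& y / 2 := Nat.and_div_two
      have h3 : (x ^^^ y) % 2 = (x + y) % 2 := Nat.xor_mod_two_eq
      have h4 : (x &&& y) % 2 = 1 ↔ x % 2 = 1 ∧ y % 2 = 1 := by
        have := @Nat.and_mod_two_eq_one x y
        exact this
      rw [← h1, ← h2] at h
      have := Nat.div_add_mod (x ^^^ y) 2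
      have := Nat.div_add_mod (x &&& y) 2
      have := Nat.div_add_mod x 2
      have := Nat.div_add_mod y 2
      rcases Nat.mod_two_eq_zero_or_one x with hx2 | hx2 <;>
      rcases Nat.mod_two_eq_zero_or_one y with hy2 | hy2 <;>
      rcases Nat.mod_two_eq_zero_or_one (x &&& y) with ha | ha <;>
      simp [hx2, hy2, ha] at h4 <;> omega

lemma testBit_add_two_pow_mul (a M m i : ℕ) (h : i < m) :
    Nat.testBit (a + 2 ^ m * M) i = Nat.testBit a i := by
  have h1 : Nat.testBit ((a + 2 ^ m * M) % 2 ^ m) i = Nat.testBit (a + 2 ^ m * M) i := by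
    rw [Nat.testBit_mod_two_pow]; simp [h]
  have h2 : Nat.testBit (a % 2 ^ m) i = Nat.testBit a i := by
    rw [Nat.testBit_mod_two_pow]; simp [h]
  rw [← h1, ← h2, Nat.add_mul_mod_self_left]

lemma xor_split (e A B s r : ℕ) (hs : s < 2 ^ e) (hr : r < 2 ^ e) :
    (2 ^ e * A + s) ^^^ (2 ^ e * B + r) = 2 ^ e * (A ^^^ B) + (s ^^^ r) := by
  apply Nat.eq_of_testBit_eq
  intro i
  rw [Nat.testBit_xor, Nat.testBit_two_pow_mul_add _ hs, Nat.testBit_two_pow_mul_add _ hr,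
    Nat.testBit_two_pow_mul_add _ (Nat.xor_lt_two_pow hs hr)]
  split_ifs <;> simp

/-- main value formula -/
lemma value (e j n : ℕ) (hj : 2 * j < e) :
    ((2 ^ e * n + 2 ^ j) ^ 2 ^^^ (2 ^ e * n + 2 ^ j)) +
      2 ^ e * (2 * ((2 ^ e * n ^ 2 + 2 ^ (j + 1) * n) &&& n)) =
    2 ^ e * (2 ^ e * n ^ 2 + 2 ^ (j + 1) * n + n) + (2 ^ (2 * j) ^^^ 2 ^ j) := by
  have h1 : (2 ^ e * n + 2 ^ j) ^ 2 = 2 ^ e * (2 ^ e * n ^ 2 + 2 ^ (j + 1) * n) + 2 ^ (2 * j) := by
    ring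
  have hs : 2 ^ (2 * j) < 2 ^ e := Nat.pow_lt_pow_right (by norm_num) hj
  have hr : 2 ^ j < 2 ^ e := Nat.pow_lt_pow_right (by norm_num) (by omega)
  rw [h1, xor_split e _ _ _ _ hs hr]
  have h2 := xor_add_two_mul_and (2 ^ e * n ^ 2 + 2 ^ (j + 1) * n) n
  rw [← h2]
  ring

lemma q_one (e j : ℕ) (he : 0 < e) : (2 ^ e * 1 ^ 2 + 2 ^ (j + 1) * 1) &&& 1 = 0 := by
  rw [Nat.and_one_is_mod]
  obtain ⟨e, rfl⟩ : ∃ e', e = e' + 1 := ⟨e - 1, by omega⟩
  rw [pow_succ, pow_succ]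
  omega

lemma q_two (e j : ℕ) : (2 ^ e * 2 ^ 2 + 2 ^ (j + 1) * 2) &&& 2 = 0 := by
  have h := Nat.and_two_pow (2 ^ e * 2 ^ 2 + 2 ^ (j + 1) * 2) 1
  have h2 : Nat.testBit (2 ^ e * 2 ^ 2 + 2 ^ (j + 1) * 2) 1 = false := by
    have := testBit_add_two_pow_mul 0 (2 ^ e + 2 ^ j) 2 1 (by norm_num)
    rw [Nat.zero_testBit] at this
    rw [← this]
    congr 1
    ring
  rw [h2] at h
  simpa using h

lemma q_pow (e j k : ℕ) (hk : 0 < k) (he : k < e) :
    (2 ^ e * (1 + 2 ^ k) ^ 2 + 2 ^ (j + 1) * (1 + 2 ^ k)) &&& (1 + 2 ^ k) =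
      if k = j + 1 then 2 ^ k else 0 := by
  set x := 2 ^ e * (1 + 2 ^ k) ^ 2 + 2 ^ (j + 1) * (1 + 2 ^ k) with hx
  have hx' : x = 2 ^ (j + 1) + 2 ^ (k + 1) * (2 ^ (e - (k + 1)) * (1 + 2 ^ k) ^ 2 + 2 ^ j) := by
    have : 2 ^ e = 2 ^ (k + 1) * 2 ^ (e - (k + 1)) := by
      rw [← pow_add]; congr 1; omega
    rw [hx, this]; ring
  have hb : ∀ i, i < k + 1 → Nat.testBit x i = decide (j + 1 = i) := by
    intro i hi
    rw [hx', testBit_add_two_pow_mul _ _ _ _ hi, Nat.testBit_two_pow]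
  have h1 : 1 + 2 ^ k = 2 ^ 0 ^^^ 2 ^ k := by
    have := xor_add_two_mul_and (2 ^ 0) (2 ^ k)
    rw [Nat.and_two_pow, Nat.testBit_two_pow] at this
    have h0 : decide (0 = k) = false := by simp; omega
    rw [h0] at this
    simpa using this.symm
  rw [h1, Nat.and_xor_distrib_left, Nat.and_two_pow, Nat.and_two_pow, hb 0 (by omega),
    hb k (by omega)]
  by_cases h : k = j + 1
  · simp [h]
  · have : ¬ (j + 1 = k) := fun h' => h h'.symm
    simp [h, this]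

/-- The sequence `n ↦ n ^ 2 XOR n`. -/
def c (n : ℕ) : ℤ := ((n ^ 2 ^^^ n : ℕ) : ℤ)

lemma c_value (e j n : ℕ) (hj : 2 * j < e) :
    c (2 ^ e * n + 2 ^ j) = 2 ^ (2 * e) * (n : ℤ) ^ 2 + 2 ^ e * (2 ^ (j + 1) + 1) * n
      + ((2 ^ (2 * j) ^^^ 2 ^ j : ℕ) : ℤ)
      - 2 ^ (e + 1) * (((2 ^ e * n ^ 2 + 2 ^ (j + 1) * n) &&& n : ℕ) : ℤ) := by
  have h := value e j n hj
  have h' := congrArg (fun z : ℕ => (z : ℤ)) h
  simp only [Nat.cast_add, Nat.cast_mul, Nat.cast_pow, Nat.cast_ofNat] at h'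
  unfold c
  rw [two_mul e, pow_add, pow_succ (2 : ℤ) e]
  linarith

theorem not_reg : ¬ IsTwoRegular c := by
  intro hfg
  have hfin : Module.Finite ℤ (Submodule.span ℤ (twoKernel c)) :=
    Module.Finite.iff_fg.mpr hfg
  set M := Submodule.span ℤ (twoKernel c) with hM
  set N := Module.finrank ℤ M + 1 with hN
  set e := 2 * N + 2 with he
  let x : Fin N → (ℕ → ℤ) := fun j n => c (2 ^ e * n + 2 ^ (j : ℕ))
  have hx : ∀ j, x j ∈ M := by
    intro j
    refine Submodule.subset_span ⟨e, 2 ^ (j : ℕ), ?_, rfl⟩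
    exact Nat.pow_lt_pow_right (by norm_num) (by have := j.2; omega)
  let v : Fin N → M := fun j => ⟨x j, hx j⟩
  have hli : LinearIndependent ℤ v := by
    apply LinearIndependent.of_comp M.subtype
    rw [Fintype.linearIndependent_iff]
    intro g hg
    have hev : ∀ n : ℕ, ∑ j : Fin N, g j * c (2 ^ e * n + 2 ^ (j : ℕ)) = 0 := by
      intro n
      have := congrFun hg n
      simpa [v, x, Finset.sum_apply] using this
    set A : ℤ := ∑ j : Fin N, g j with hA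
    set B : ℤ := ∑ j : Fin N, g j * (2 ^ ((j : ℕ) + 1) + 1) with hB
    set C : ℤ := ∑ j : Fin N, g j * ((2 ^ (2 * (j : ℕ)) ^^^ 2 ^ (j : ℕ) : ℕ) : ℤ) with hC
    have hmain : ∀ n : ℕ, 2 ^ (2 * e) * A * (n : ℤ) ^ 2 + 2 ^ e * B * n + C =
        2 ^ (e + 1) * ∑ j : Fin N, g j *
          (((2 ^ e * n ^ 2 + 2 ^ ((j : ℕ) + 1) * n) &&& n : ℕ) : ℤ) := by
      intro n
      have h0 := hev n
      have h1 : ∑ j : Fin N, g j * c (2 ^ e * n + 2 ^ (j : ℕ)) =
          2 ^ (2 * e) * A * (n : ℤ) ^ 2 + 2 ^ e * B * n + C -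
        2 ^ (e + 1) * ∑ j : Fin N, g j *
          (((2 ^ e * n ^ 2 + 2 ^ ((j : ℕ) + 1) * n) &&& n : ℕ) : ℤ) := by
        rw [hA, hB, hC, Finset.mul_sum, Finset.mul_sum, Finset.mul_sum, Finset.sum_mul,
          Finset.sum_mul, ← Finset.sum_add_distrib, ← Finset.sum_add_distrib,
          ← Finset.sum_sub_distrib]
        refine Finset.sum_congr rfl fun j _ => ?_
        rw [c_value e j n (by have := j.2; omega)]
        ring
      rw [h0] at h1
      linarith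
    have e0 := hmain 0
    have e1 := hmain 1
    have e2 := hmain 2
    have s0 : ∑ j : Fin N, g j *
          (((2 ^ e * 0 ^ 2 + 2 ^ ((j : ℕ) + 1) * 0) &&& 0 : ℕ) : ℤ) = 0 := by
      simp
    have s1 : ∑ j : Fin N, g j *
          (((2 ^ e * 1 ^ 2 + 2 ^ ((j : ℕ) + 1) * 1) &&& 1 : ℕ) : ℤ) = 0 := by
      refine Finset.sum_eq_zero fun j _ => ?_
      rw [q_one e j (by omega)]; simp
    have s2 : ∑ j : Fin N, g j *
          (((2 ^ e * 2 ^ 2 + 2 ^ ((j : ℕ) + 1) * 2) &&& 2 : ℕ) : ℤ) = 0 := by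
      refine Finset.sum_eq_zero fun j _ => ?_
      rw [q_two e j]; simp
    rw [s0] at e0
    rw [s1] at e1
    rw [s2] at e2
    push_cast at e0 e1 e2
    have hC0 : C = 0 := by linarith
    have hA0 : 2 ^ (2 * e) * A = 0 := by linarith
    have hB0 : 2 ^ e * B = 0 := by linarith
    intro i
    have hi := hmain (1 + 2 ^ ((i : ℕ) + 1))
    rw [hA0, hB0, hC0] at hi
    have si : ∑ j : Fin N, g j *
          (((2 ^ e * (1 + 2 ^ ((i : ℕ) + 1)) ^ 2 + 2 ^ ((j : ℕ) + 1) * (1 + 2 ^ ((i : ℕ) + 1)))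
            &&& (1 + 2 ^ ((i : ℕ) + 1)) : ℕ) : ℤ) = g i * 2 ^ ((i : ℕ) + 1) := by
      rw [Finset.sum_eq_single i]
      · rw [q_pow e i (i + 1) (by omega) (by have := i.2; omega)]
        simp
      · intro j _ hji
        rw [q_pow e j (i + 1) (by omega) (by have := i.2; omega)]
        have : ¬ ((i : ℕ) + 1 = (j : ℕ) + 1) := by
          intro h
          apply hji
          apply Fin.ext
          omega
        rw [if_neg this]
        simp
      · intro h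
        exact absurd (Finset.mem_univ i) h
    rw [si] at hi
    have h2 : (2 : ℤ) ^ (e + 1) * (g i * 2 ^ ((i : ℕ) + 1)) = 0 := by
      rw [← hi]; ring
    have h3 : (2 : ℤ) ^ (e + 1) ≠ 0 := by positivity
    have h4 : (2 : ℤ) ^ ((i : ℕ) + 1) ≠ 0 := by positivity
    rcases mul_eq_zero.mp h2 with h | h
    · exact absurd h h3
    · rcases mul_eq_zero.mp h with h | h
      · exact h
      · exact absurd h h4
  have := hli.fintype_card_le_finrank
  rw [Fintype.card_fin] at this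
  omega

lemma reg_of_poly (a b d : ℤ) : IsTwoRegular (fun n : ℕ => a * (n : ℤ) ^ 2 + b * n + d) := by
  let s : Set (ℕ → ℤ) :=
    {fun n : ℕ => (n : ℤ) ^ 2, fun n : ℕ => (n : ℤ), fun _ : ℕ => (1 : ℤ)}
  have hs : (Submodule.span ℤ s).FG := Submodule.fg_span (by simp [s])
  refine Submodule.FG.of_le hs ?_
  rw [Submodule.span_le]
  rintro f ⟨e, r, _, rfl⟩
  have h1 : (fun n : ℕ => (n : ℤ) ^ 2) ∈ Submodule.span ℤ s :=
    Submodule.subset_span (by simp [s])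
  have h2 : (fun n : ℕ => (n : ℤ)) ∈ Submodule.span ℤ s :=
    Submodule.subset_span (by simp [s])
  have h3 : (fun _ : ℕ => (1 : ℤ)) ∈ Submodule.span ℤ s :=
    Submodule.subset_span (by simp [s])
  have h := Submodule.add_mem _ (Submodule.add_mem _
    (Submodule.smul_mem _ (a * 2 ^ (2 * e)) h1)
    (Submodule.smul_mem _ (2 * a * 2 ^ e * r + b * 2 ^ e) h2))
    (Submodule.smul_mem _ (a * r ^ 2 + b * r + d) h3)
  have heq : (fun n : ℕ => (fun n : ℕ => a * (n : ℤ) ^ 2 + b * n + d) (2 ^ e * n + r)) =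
      ((a * 2 ^ (2 * e)) • fun n : ℕ => (n : ℤ) ^ 2) +
        ((2 * a * 2 ^ e * r + b * 2 ^ e) • fun n : ℕ => (n : ℤ)) +
        (a * r ^ 2 + b * r + d) • fun _ : ℕ => (1 : ℤ) := by
    funext n
    simp only [Pi.add_apply, Pi.smul_apply, smul_eq_mul]
    push_cast
    ring
  rw [heq]
  exact h

theorem not_reg_array :
    ¬ IsTwoRegularArray (fun i j : ℕ => ((i ^ 2 ^^^ j : ℕ) : ℤ)) := by
  rintro ⟨s, hs⟩
  apply not_reg
  let D : (ℕ → ℕ → ℤ) →ₗ[ℤ] (ℕ → ℤ) :=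
    { toFun := fun f n => f n n
      map_add' := fun _ _ => rfl
      map_smul' := fun _ _ => rfl }
  have hfg : (Submodule.map D (Submodule.span ℤ (s : Set (ℕ → ℕ → ℤ)))).FG :=
    (Submodule.fg_span s.finite_toSet).map D
  refine Submodule.FG.of_le hfg ?_
  rw [Submodule.span_le]
  rintro f ⟨e, r, hr, rfl⟩
  exact ⟨_, hs e r r hr hr, rfl⟩

end Pool.Agent.Helper7.NimSum
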