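import Mathlib

open MeasureTheory Matrix

namespace Pool.Agent.Helper7.OSI

/-- Squared Euclidean norm of a real vector. -/
def sqNorm {ι : Type*} [Fintype ι] (x : ι → ℝ) : ℝ := ∑ i, x i ^ 2

/-- Frobenius norm of a real matrix. -/
noncomputable def frob {m n : ℕ} (M : Matrix (Fin m) (Fin n) ℝ) : ℝ :=
  Real.sqrt (∑ i, ∑ j, M i j ^ 2)

/-- The four Penrose equations: `N` is the Moore-Penrose pseudoinverse of `M`. -/
def IsMoorePenrose {m n : ℕ} (M : Matrix (Fin m) (Fin n) ℝ) (N : Matrix (Fin n) (Fin m) ℝ) :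
    Prop :=
  M * N * M = M ∧ N * M * N = N ∧ (M * N)ᵀ = M * N ∧ (N * M)ᵀ = N * M

theorem exists_symm_pinv {n : ℕ} (G : Matrix (Fin n) (Fin n) ℝ) (hH : G.IsHermitian) :
    ∃ P : Matrix (Fin n) (Fin n) ℝ, Pᵀ = P ∧ G * P * G = G ∧ P * G * P = P ∧ P * G = G * P := by
  obtain ⟨U, D, hUU, hdec⟩ : ∃ (U : Matrix (Fin n) (Fin n) ℝ) (D : Fin n → ℝ),
      Uᵀ * U = 1 ∧ G = U * Matrix.diagonal D * Uᵀ := by
    refine ⟨(hH.eigenvectorUnitary : Matrix (Fin n) (Fin n) ℝ), hH.eigenvalues, ?_, ?_⟩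
    · have := (Matrix.mem_unitaryGroup_iff' (A := (hH.eigenvectorUnitary :
        Matrix (Fin n) (Fin n) ℝ))).mp hH.eigenvectorUnitary.2
      rwa [Matrix.star_eq_conjTranspose, Matrix.conjTranspose_eq_transpose_of_trivial] at this
    · have := hH.spectral_theorem
      rw [Unitary.conjStarAlgAut_apply, Matrix.star_eq_conjTranspose,
        Matrix.conjTranspose_eq_transpose_of_trivial] at this
      exact this
  let D' : Fin n → ℝ := fun i => if D i = 0 then 0 else (D i)⁻¹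
  have h1 : Matrix.diagonal D * Matrix.diagonal D' * Matrix.diagonal D = Matrix.diagonal D := by
    rw [Matrix.diagonal_mul_diagonal, Matrix.diagonal_mul_diagonal]
    congr 1
    funext i
    by_cases h : D i = 0 <;> simp [D', h]
  have h2 : Matrix.diagonal D' * Matrix.diagonal D * Matrix.diagonal D' =
      Matrix.diagonal D' := by
    rw [Matrix.diagonal_mul_diagonal, Matrix.diagonal_mul_diagonal]
    congr 1
    funext i
    by_cases h : D i = 0 <;> simp [D', h]
  have h3 : Matrix.diagonal D * Matrix.diagonal D' = Matrix.diagonal D' * Matrix.diagonal D := by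
    rw [Matrix.diagonal_mul_diagonal, Matrix.diagonal_mul_diagonal]
    congr 1
    funext i
    rw [mul_comm]
  have hmul : ∀ A B : Matrix (Fin n) (Fin n) ℝ, (U * A * Uᵀ) * (U * B * Uᵀ) =
      U * (A * B) * Uᵀ := by
    intro A B
    calc (U * A * Uᵀ) * (U * B * Uᵀ) = U * A * (Uᵀ * U) * B * Uᵀ := by
          simp only [Matrix.mul_assoc]
      _ = U * (A * B) * Uᵀ := by rw [hUU, Matrix.mul_one]; simp only [Matrix.mul_assoc]
  refine ⟨U * Matrix.diagonal D' * Uᵀ, ?_, ?_, ?_, ?_⟩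
  · rw [Matrix.transpose_mul, Matrix.transpose_mul, Matrix.transpose_transpose,
      Matrix.diagonal_transpose, Matrix.mul_assoc]
  · rw [hdec, hmul, hmul, h1]
  · rw [hdec, hmul, hmul, h2]
  · rw [hdec, hmul, hmul, h3]

theorem exists_moorePenrose {m n : ℕ} (M : Matrix (Fin m) (Fin n) ℝ) :
    ∃ N : Matrix (Fin n) (Fin m) ℝ, IsMoorePenrose M N := by
  have hGs : (Mᵀ * M)ᵀ = Mᵀ * M := by
    rw [Matrix.transpose_mul, Matrix.transpose_transpose]
  have hH : (Mᵀ * M).IsHermitian := by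
    rw [Matrix.IsHermitian, Matrix.conjTranspose_eq_transpose_of_trivial, hGs]
  obtain ⟨P, hP, h1, h2, h3⟩ := exists_symm_pinv (Mᵀ * M) hH
  set G := Mᵀ * M with hG
  have hPG : (P * G)ᵀ = P * G := by
    rw [Matrix.transpose_mul, hP, hGs, h3]
  have hM : M * (P * G) = M := by
    have h0 : (M - M * (P * G))ᵀ * (M - M * (P * G)) = 0 := by
      have e1 : (M - M * (P * G))ᵀ = Mᵀ - P * G * Mᵀ := by
        rw [Matrix.transpose_sub, Matrix.transpose_mul, hPG]
      have e2 : G * (P * G) = G := by rw [← Matrix.mul_assoc, h1]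
      have e3 : P * G * G = G := by rw [h3, h1]
      calc (M - M * (P * G))ᵀ * (M - M * (P * G)) =
          (Mᵀ - P * G * Mᵀ) * (M - M * (P * G)) := by rw [e1]
        _ = Mᵀ * M - Mᵀ * M * (P * G) - P * G * (Mᵀ * M) + P * G * (Mᵀ * M) * (P * G) := by
            simp only [Matrix.sub_mul, Matrix.mul_sub, Matrix.mul_assoc]
            abel
        _ = G - G * (P * G) - P * G * G + P * G * G * (P * G) := by rw [← hG]
        _ = 0 := by rw [e2, e3, e2]; abel
    have h0' := Matrix.conjTranspose_mul_self_eq_zero.mp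
      (show (M - M * (P * G))ᴴ * (M - M * (P * G)) = 0 by
        rw [Matrix.conjTranspose_eq_transpose_of_trivial]; exact h0)
    exact (sub_eq_zero.mp h0').symm
  refine ⟨P * Mᵀ, ?_, ?_, ?_, ?_⟩
  · calc M * (P * Mᵀ) * M = M * (P * (Mᵀ * M)) := by simp only [Matrix.mul_assoc]
      _ = M := by rw [← hG, hM]
  · calc P * Mᵀ * M * (P * Mᵀ) = P * (Mᵀ * M) * P * Mᵀ := by simp only [Matrix.mul_assoc]
      _ = P * Mᵀ := by rw [← hG, h2]
  · rw [Matrix.transpose_mul, Matrix.transpose_mul, Matrix.transpose_transpose, hP,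
      Matrix.mul_assoc]
  · have : P * Mᵀ * M = P * G := by rw [hG, Matrix.mul_assoc]
    rw [this, hPG]

/-- The Moore-Penrose pseudoinverse. -/
noncomputable def pinv {m n : ℕ} (M : Matrix (Fin m) (Fin n) ℝ) : Matrix (Fin n) (Fin m) ℝ :=
  Classical.choose (exists_moorePenrose M)

/-- The randomized SVD approximation `(A Ω) (A Ω)⁺ A`. -/
noncomputable def rsvd {n d k : ℕ} (A : Matrix (Fin n) (Fin d) ℝ)
    (W : Matrix (Fin d) (Fin k) ℝ) : Matrix (Fin n) (Fin d) ℝ :=
  (A * W) * pinv (A * W) * A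

/-- Error of the best approximation of rank at most `r` in Frobenius norm. -/
noncomputable def bestError {n d : ℕ} (A : Matrix (Fin n) (Fin d) ℝ) (r : ℕ) : ℝ :=
  ⨅ B : {B : Matrix (Fin n) (Fin d) ℝ // B.rank ≤ r}, frob (A - B.1)

/-- The random matrix `W` on the probability space `(S, μ)` is an oblivious subspace injection
with dimension `r`, injectivity `α` and failure probability `δ`. -/
structure IsOSI {d k : ℕ} {S : Type} [MeasurableSpace S] (μ : Measure S)
    (W : S → Matrix (Fin d) (Fin k) ℝ) (r : ℕ) (α δ : ℝ) : Prop where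
  measurable : ∀ i j, Measurable fun ω => W ω i j
  isotropy : ∀ x : Fin d → ℝ, Integrable (fun ω => sqNorm ((W ω)ᵀ *ᵥ x)) μ ∧
    ∫ ω, sqNorm ((W ω)ᵀ *ᵥ x) ∂μ = sqNorm x
  injectivity : ∀ V : Submodule ℝ (Fin d → ℝ), Module.finrank ℝ V = r →
    1 - δ ≤ μ.real {ω | ∀ x ∈ V, α * sqNorm x ≤ sqNorm ((W ω)ᵀ *ᵥ x)}

/-- The relative error bound for every OSI with failure probability `δ`: there are constants
`C` and `p > 0` such that the bound holds with probability at least `p`. -/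
def RelativeErrorBound (δ : ℝ) : Prop :=
  ∃ C p : ℝ, 0 < C ∧ 0 < p ∧
    ∀ (n d k r : ℕ) (A : Matrix (Fin n) (Fin d) ℝ) (ε : ℝ), 1 ≤ r → r ≤ n →
      r ≤ d → 0 < ε → ε < 1 → ∀ (S : Type) [MeasurableSpace S] (μ : Measure S) [IsProbabilityMeasure μ]
        (W : S → Matrix (Fin d) (Fin k) ℝ), IsOSI μ W r (1 - ε) δ →
          p ≤ μ.real {ω | frob (A - rsvd A (W ω)) ≤ (1 + C * ε) * bestError A r}

end Pool.Agent.Helper7.OSI
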