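import Mathlib

namespace Pool.Agent.Helper7.OSI

/-- balanced pairwise almost universal hash family -/
theorem exists_hash (q : ℕ) [Fact q.Prime] :
    ∃ h : (ZMod q × ZMod q) → Fin (q ^ 3) → Fin q,
      (∀ x y, x ≠ y → q * (Finset.univ.filter fun c => h c x = h c y).card ≤
        Fintype.card (ZMod q × ZMod q)) ∧
      (∀ c j, (Finset.univ.filter fun x => h c x = j).card = q ^ 2) := by
  have hq0 : q ≠ 0 := (Fact.out : q.Prime).ne_zero
  have hcard : Fintype.card (Fin (q ^ 3)) = Fintype.card (ZMod q × ZMod q × ZMod q) := by
    simp only [Fintype.card_fin, Fintype.card_prod, ZMod.card]; ring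
  let e : Fin (q ^ 3) ≃ ZMod q × ZMod q × ZMod q := Fintype.equivOfCardEq hcard
  have hcard2 : Fintype.card (ZMod q) = Fintype.card (Fin q) := by
    simp only [Fintype.card_fin, ZMod.card]
  let f : ZMod q ≃ Fin q := Fintype.equivOfCardEq hcard2
  refine ⟨fun c x => f (c.1 * (e x).1 + c.2 * (e x).2.1 + (e x).2.2), ?_, ?_⟩
  · intro x y hxy
    simp only [EmbeddingLike.apply_eq_iff_eq]
    have hxy' : e x ≠ e y := fun h => hxy (e.injective h)
    generalize e x = X at *
    generalize e y = Y at *
    obtain ⟨x1, x2, x3⟩ := X
    obtain ⟨y1, y2, y3⟩ := Y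
    simp only
    by_cases h1 : x1 = y1
    · by_cases h2 : x2 = y2
      · have h3 : x3 ≠ y3 := by
          intro h3; apply hxy'; rw [h1, h2, h3]
        have : (Finset.univ.filter fun c : ZMod q × ZMod q =>
            c.1 * x1 + c.2 * x2 + x3 = c.1 * y1 + c.2 * y2 + y3) = ∅ := by
          rw [Finset.filter_eq_empty_iff]
          intro c _ hc
          rw [h1, h2] at hc
          exact h3 (add_left_cancel hc)
        rw [this]; simp
      · -- c.2 determined
        have hle : (Finset.univ.filter fun c : ZMod q × ZMod q =>
            c.1 * x1 + c.2 * x2 + x3 = c.1 * y1 + c.2 * y2 + y3).card ≤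
            (Finset.univ : Finset (ZMod q)).card := by
          apply Finset.card_le_card_of_injOn (fun c => c.1) (fun _ _ => Finset.mem_univ _)
          intro c hc c' hc' h
          simp only [Finset.coe_filter, Finset.mem_univ, true_and, Set.mem_ofPred_eq] at hc hc'
          simp only at h
          have : (c.2 - c'.2) * (x2 - y2) = 0 := by
            rw [h] at hc
            linear_combination hc - hc'
          rcases mul_eq_zero.mp this with h' | h'
          · exact Prod.ext h (sub_eq_zero.mp h')
          · exact absurd (sub_eq_zero.mp h') h2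
        rw [Finset.card_univ, ZMod.card] at hle
        rw [Fintype.card_prod, ZMod.card]
        exact Nat.mul_le_mul_left _ hle
    · have hle : (Finset.univ.filter fun c : ZMod q × ZMod q =>
          c.1 * x1 + c.2 * x2 + x3 = c.1 * y1 + c.2 * y2 + y3).card ≤
          (Finset.univ : Finset (ZMod q)).card := by
        apply Finset.card_le_card_of_injOn (fun c => c.2) (fun _ _ => Finset.mem_univ _)
        intro c hc c' hc' h
        simp only [Finset.coe_filter, Finset.mem_univ, true_and, Set.mem_ofPred_eq] at hc hc'
        simp only at h
        have : (c.1 - c'.1) * (x1 - y1) = 0 := by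
          rw [h] at hc
          linear_combination hc - hc'
        rcases mul_eq_zero.mp this with h' | h'
        · exact Prod.ext (sub_eq_zero.mp h') h
        · exact absurd (sub_eq_zero.mp h') h1
      rw [Finset.card_univ, ZMod.card] at hle
      rw [Fintype.card_prod, ZMod.card]
      exact Nat.mul_le_mul_left _ hle
  · intro c j
    have : (Finset.univ.filter fun x =>
        f (c.1 * (e x).1 + c.2 * (e x).2.1 + (e x).2.2) = j).card =
        (Finset.univ : Finset (ZMod q × ZMod q)).card := by
      apply Finset.card_bij' (fun x _ => ((e x).1, (e x).2.1))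
        (fun p _ => e.symm (p.1, p.2, f.symm j - c.1 * p.1 - c.2 * p.2))
      · intro x _; exact Finset.mem_univ _
      · intro p _
        simp
      · intro x hx
        simp only [Finset.mem_filter, Finset.mem_univ, true_and] at hx
        apply e.injective
        rw [Equiv.apply_symm_apply, ← hx, Equiv.symm_apply_apply]
        ext
        · rfl
        · rfl
        · simp only
          ring
      · intro p _
        simp
    rw [this, Finset.card_univ, Fintype.card_prod, ZMod.card, sq]

end Pool.Agent.Helper7.OSI
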