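import Mathlib

namespace Pool.Agent.Helper7.OSI

/-- sign of a boolean -/
def sgn (b : Bool) : ℝ := if b then 1 else -1

lemma sgn_sq (b : Bool) : sgn b * sgn b = 1 := by cases b <;> simp [sgn]

lemma sgn_not (b : Bool) : sgn (!b) = - sgn b := by cases b <;> simp [sgn]

variable {D : ℕ}

def flip (a : Fin D) (s : Fin D → Bool) : Fin D → Bool := Function.update s a (!s a)

lemma flip_flip (a : Fin D) (s : Fin D → Bool) : flip a (flip a s) = s := by
  unfold flip
  funext x
  by_cases h : x = a
  · subst h; simp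
  · simp [h]

lemma sum_flip (a : Fin D) (F : (Fin D → Bool) → ℝ) : ∑ s, F (flip a s) = ∑ s, F s := by
  let e : Equiv.Perm (Fin D → Bool) := Function.Involutive.toPerm (flip a) (flip_flip a)
  exact Equiv.sum_comp e F

lemma sum_zero_of_flip (a : Fin D) (F : (Fin D → Bool) → ℝ) (h : ∀ s, F (flip a s) = - F s) :
    ∑ s, F s = 0 := by
  have h1 := sum_flip a F
  simp only [h, Finset.sum_neg_distrib] at h1
  linarith

lemma sgn_flip_self (a : Fin D) (s : Fin D → Bool) : sgn (flip a s a) = - sgn (s a) := by
  simp [flip, sgn_not]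

lemma sgn_flip_ne (a x : Fin D) (h : x ≠ a) (s : Fin D → Bool) :
    sgn (flip a s x) = sgn (s x) := by
  simp [flip, h]

lemma sum_two (x y : Fin D) (h : x ≠ y) :
    ∑ s : Fin D → Bool, sgn (s x) * sgn (s y) = 0 := by
  apply sum_zero_of_flip x
  intro s
  rw [sgn_flip_self, sgn_flip_ne x y h.symm]; ring

lemma sum_four (x y z w : Fin D) (h : x ≠ y)
    (h1 : ¬ (z = x ∧ w = y)) (h2 : ¬ (z = y ∧ w = x)) :
    ∑ s : Fin D → Bool, (sgn (s x) * sgn (s y)) * (sgn (s z) * sgn (s w)) = 0 := by
  by_cases hx : z ≠ x ∧ w ≠ x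
  · apply sum_zero_of_flip x
    intro s
    rw [sgn_flip_self, sgn_flip_ne x y h.symm, sgn_flip_ne x z hx.1, sgn_flip_ne x w hx.2]; ring
  · have hy : z ≠ y ∧ w ≠ y := by
      constructor
      · rintro rfl
        apply hx
        exact ⟨h.symm, fun hw => h2 ⟨rfl, hw⟩⟩
      · rintro rfl
        apply hx
        exact ⟨fun hz => h1 ⟨hz, rfl⟩, h.symm⟩
    apply sum_zero_of_flip y
    intro s
    rw [sgn_flip_self, sgn_flip_ne y x h, sgn_flip_ne y z hy.1, sgn_flip_ne y w hy.2]; ring

/-- second moment of an off-diagonal sign chaos with symmetric coefficients -/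
lemma second_moment (a : Fin D → Fin D → ℝ) (hd : ∀ x, a x x = 0) (hs : ∀ x y, a x y = a y x) :
    ∑ s : Fin D → Bool, (∑ x, ∑ y, a x y * (sgn (s x) * sgn (s y))) ^ 2 =
      2 * Fintype.card (Fin D → Bool) * ∑ x, ∑ y, a x y ^ 2 := by
  have key : ∀ x y z w, a x y * a z w *
      ∑ s : Fin D → Bool, (sgn (s x) * sgn (s y)) * (sgn (s z) * sgn (s w)) =
      (Fintype.card (Fin D → Bool) : ℝ) * (a x y * ((if z = x ∧ w = y then a z w else 0) +
        (if z = y ∧ w = x then a z w else 0))) := by
    intro x y z w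
    by_cases hxy : x = y
    · subst hxy; rw [hd]; ring
    by_cases hzw : z = w
    · subst hzw; rw [hd]; simp
    by_cases h1 : z = x ∧ w = y
    · obtain ⟨rfl, rfl⟩ := h1
      have h2 : ¬ (z = w ∧ w = z) := fun h => hxy h.1
      rw [if_pos ⟨rfl, rfl⟩, if_neg h2]
      have : ∀ s : Fin D → Bool, (sgn (s z) * sgn (s w)) * (sgn (s z) * sgn (s w)) = 1 := by
        intro s
        calc (sgn (s z) * sgn (s w)) * (sgn (s z) * sgn (s w)) =
            (sgn (s z) * sgn (s z)) * (sgn (s w) * sgn (s w)) := by ring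
          _ = 1 := by rw [sgn_sq, sgn_sq]; ring
      simp only [this, Finset.sum_const, Finset.card_univ, nsmul_eq_mul]
      ring
    · by_cases h2 : z = y ∧ w = x
      · obtain ⟨rfl, rfl⟩ := h2
        rw [if_neg h1, if_pos ⟨rfl, rfl⟩]
        have : ∀ s : Fin D → Bool, (sgn (s w) * sgn (s z)) * (sgn (s z) * sgn (s w)) = 1 := by
          intro s
          calc (sgn (s w) * sgn (s z)) * (sgn (s z) * sgn (s w)) =
              (sgn (s z) * sgn (s z)) * (sgn (s w) * sgn (s w)) := by ring
            _ = 1 := by rw [sgn_sq, sgn_sq]; ring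
        simp only [this, Finset.sum_const, Finset.card_univ, nsmul_eq_mul]
        ring
      · rw [if_neg h1, if_neg h2, sum_four x y z w hxy h1 h2]
        ring
  calc ∑ s : Fin D → Bool, (∑ x, ∑ y, a x y * (sgn (s x) * sgn (s y))) ^ 2 =
      ∑ s : Fin D → Bool, ∑ x, ∑ y, ∑ z, ∑ w, a x y * a z w *
        ((sgn (s x) * sgn (s y)) * (sgn (s z) * sgn (s w))) := by
        refine Finset.sum_congr rfl fun s _ => ?_
        rw [sq, Finset.sum_mul]
        refine Finset.sum_congr rfl fun x _ => ?_
        rw [Finset.sum_mul]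
        refine Finset.sum_congr rfl fun y _ => ?_
        rw [Finset.mul_sum]
        refine Finset.sum_congr rfl fun z _ => ?_
        rw [Finset.mul_sum]
        refine Finset.sum_congr rfl fun w _ => ?_
        ring
    _ = ∑ x, ∑ y, ∑ z, ∑ w, a x y * a z w *
        ∑ s : Fin D → Bool, ((sgn (s x) * sgn (s y)) * (sgn (s z) * sgn (s w))) := by
        rw [Finset.sum_comm]
        refine Finset.sum_congr rfl fun x _ => ?_
        rw [Finset.sum_comm]
        refine Finset.sum_congr rfl fun y _ => ?_
        rw [Finset.sum_comm]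
        refine Finset.sum_congr rfl fun z _ => ?_
        rw [Finset.sum_comm]
        refine Finset.sum_congr rfl fun w _ => ?_
        rw [Finset.mul_sum]
    _ = ∑ x, ∑ y, (Fintype.card (Fin D → Bool) : ℝ) * (a x y * (2 * a x y)) := by
        refine Finset.sum_congr rfl fun x _ => ?_
        refine Finset.sum_congr rfl fun y _ => ?_
        simp only [key]
        simp only [← Finset.mul_sum, Finset.sum_add_distrib]
        congr 2
        have e1 : ∑ z, ∑ w, (if z = x ∧ w = y then a z w else 0) = a x y := by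
          rw [Finset.sum_eq_single x, Finset.sum_eq_single y]
          · simp
          · intro w _ hw; simp [hw]
          · simp
          · intro z _ hz; simp [hz]
          · simp
        have e2 : ∑ z, ∑ w, (if z = y ∧ w = x then a z w else 0) = a x y := by
          rw [Finset.sum_eq_single y, Finset.sum_eq_single x]
          · simp [hs]
          · intro w _ hw; simp [hw]
          · simp
          · intro z _ hz; simp [hz]
          · simp
        rw [e1, e2]; ring
    _ = 2 * Fintype.card (Fin D → Bool) * ∑ x, ∑ y, a x y ^ 2 := by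
        simp only [Finset.mul_sum]
        refine Finset.sum_congr rfl fun x _ => ?_
        refine Finset.sum_congr rfl fun y _ => ?_
        ring

lemma first_moment (a : Fin D → Fin D → ℝ) (hd : ∀ x, a x x = 0) :
    ∑ s : Fin D → Bool, (∑ x, ∑ y, a x y * (sgn (s x) * sgn (s y))) = 0 := by
  rw [Finset.sum_comm]
  refine Finset.sum_eq_zero fun x _ => ?_
  rw [Finset.sum_comm]
  refine Finset.sum_eq_zero fun y _ => ?_
  rw [← Finset.mul_sum]
  by_cases h : x = y
  · subst h; rw [hd, zero_mul]
  · rw [sum_two x y h, mul_zero]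

end Pool.Agent.Helper7.OSI
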