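import Pool.Agent.Helper7.OSIDefs
import Pool.Agent.Helper7.OSIHash
import Pool.Agent.Helper7.OSISigns

open MeasureTheory Matrix

namespace Pool.Agent.Helper7.OSI

section algebra

variable {D q : ℕ}

/-- sketch matrix -/
def sk (h : Fin D → Fin q) (t : ℝ) (s : Fin D → Bool) : Matrix (Fin D) (Fin q) ℝ :=
  fun x j => if h x = j then t * sgn (s x) else 0

def coef (h : Fin D → Fin q) (v : Fin D → ℝ) (x y : Fin D) : ℝ :=
  if x ≠ y ∧ h x = h y then v x * v y else 0

def R (h : Fin D → Fin q) (v : Fin D → ℝ) (s : Fin D → Bool) : ℝ :=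
  ∑ x, ∑ y, coef h v x y * (sgn (s x) * sgn (s y))

lemma sk_norm (h : Fin D → Fin q) (t : ℝ) (s : Fin D → Bool) (v : Fin D → ℝ) :
    sqNorm ((sk h t s)ᵀ *ᵥ v) = t ^ 2 * (sqNorm v + R h v s) := by
  have h1 : ∀ j, ((sk h t s)ᵀ *ᵥ v) j = ∑ x, (if h x = j then t * sgn (s x) * v x else 0) := by
    intro j
    simp only [Matrix.mulVec, dotProduct, Matrix.transpose_apply, sk]
    refine Finset.sum_congr rfl fun x _ => ?_
    split_ifs <;> ring
  have h2 : ∀ j, ((sk h t s)ᵀ *ᵥ v) j ^ 2 = ∑ x, ∑ y,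
      (if h x = j then (if h y = j then t ^ 2 * (sgn (s x) * v x * (sgn (s y) * v y)) else 0)
        else 0) := by
    intro j
    rw [h1, sq, Finset.sum_mul_sum]
    refine Finset.sum_congr rfl fun x _ => Finset.sum_congr rfl fun y _ => ?_
    split_ifs <;> ring
  unfold sqNorm
  simp only [h2]
  rw [Finset.sum_comm]
  have h3 : ∀ x, ∑ j, ∑ y,
      (if h x = j then (if h y = j then t ^ 2 * (sgn (s x) * v x * (sgn (s y) * v y)) else 0)
        else 0) = ∑ y, (if h y = h x then t ^ 2 * (sgn (s x) * v x * (sgn (s y) * v y)) else 0) := by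
    intro x
    rw [Finset.sum_comm]
    refine Finset.sum_congr rfl fun y _ => ?_
    rw [Finset.sum_ite_eq]
    simp
  simp only [h3]
  unfold R
  rw [← Finset.sum_add_distrib, Finset.mul_sum]
  refine Finset.sum_congr rfl fun x _ => ?_
  have h4 : v x ^ 2 = ∑ y, if y = x then v x ^ 2 else 0 := by simp
  rw [h4, ← Finset.sum_add_distrib, Finset.mul_sum]
  refine Finset.sum_congr rfl fun y _ => ?_
  unfold coef
  by_cases hxy : x = y
  · subst hxy
    simp only [if_true, ne_eq, not_true_eq_false, false_and, if_false]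
    have := sgn_sq (s x)
    calc t ^ 2 * (sgn (s x) * v x * (sgn (s x) * v x)) =
        t ^ 2 * ((sgn (s x) * sgn (s x)) * v x ^ 2) := by ring
      _ = _ := by rw [this]; ring
  · have hyx : ¬ (y = x) := fun h => hxy h.symm
    by_cases hh : h x = h y
    · rw [if_pos hh.symm, if_neg hyx, if_pos ⟨hxy, hh⟩]; ring
    · have hh' : ¬ (h y = h x) := fun h => hh h.symm
      simp [hyx, hh, hh']

lemma sum_R (h : Fin D → Fin q) (v : Fin D → ℝ) : ∑ s, R h v s = 0 := by
  apply first_moment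
  intro x
  simp [coef]

lemma sum_R_sq (h : Fin D → Fin q) (v : Fin D → ℝ) :
    ∑ s, R h v s ^ 2 = 2 * Fintype.card (Fin D → Bool) * ∑ x, ∑ y, coef h v x y ^ 2 := by
  apply second_moment
  · intro x; simp [coef]
  · intro x y
    unfold coef
    by_cases hxy : x ≠ y ∧ h x = h y
    · have : y ≠ x ∧ h y = h x := ⟨hxy.1.symm, hxy.2.symm⟩
      rw [if_pos hxy, if_pos this, mul_comm]
    · have : ¬ (y ≠ x ∧ h y = h x) := fun h' => hxy ⟨h'.1.symm, h'.2.symm⟩
      rw [if_neg hxy, if_neg this]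

lemma sum_sum_R_sq {C : Type*} [Fintype C] (h : C → Fin D → Fin q)
    (hh : ∀ x y, x ≠ y → q * (Finset.univ.filter fun c => h c x = h c y).card ≤ Fintype.card C)
    (v : Fin D → ℝ) :
    q * ∑ c, ∑ s, R (h c) v s ^ 2 ≤
      2 * Fintype.card (Fin D → Bool) * Fintype.card C * sqNorm v ^ 2 := by
  simp only [sum_R_sq]
  rw [← Finset.mul_sum]
  have h1 : ∑ c, ∑ x, ∑ y, coef (h c) v x y ^ 2 = ∑ x, ∑ y,
      (if x ≠ y then ((Finset.univ.filter fun c => h c x = h c y).card : ℝ) *
        (v x ^ 2 * v y ^ 2) else 0) := by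
    rw [Finset.sum_comm]
    refine Finset.sum_congr rfl fun x _ => ?_
    rw [Finset.sum_comm]
    refine Finset.sum_congr rfl fun y _ => ?_
    by_cases hxy : x = y
    · simp [coef, hxy]
    · have : ∀ c, coef (h c) v x y ^ 2 = if h c x = h c y then v x ^ 2 * v y ^ 2 else 0 := by
        intro c
        unfold coef
        by_cases hc : h c x = h c y
        · simp [hxy, hc]; ring
        · simp [hc]
      simp only [this, ne_eq, hxy, not_false_eq_true, if_true]
      rw [← Finset.sum_filter, Finset.sum_const, nsmul_eq_mul]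
  have h2 : (q : ℝ) * ∑ c, ∑ x, ∑ y, coef (h c) v x y ^ 2 ≤
      Fintype.card C * sqNorm v ^ 2 := by
    rw [h1, Finset.mul_sum]
    unfold sqNorm
    rw [sq (∑ i, v i ^ 2), Finset.sum_mul_sum, Finset.mul_sum]
    refine Finset.sum_le_sum fun x _ => ?_
    rw [Finset.mul_sum, Finset.mul_sum]
    refine Finset.sum_le_sum fun y _ => ?_
    have hnn : 0 ≤ v x ^ 2 * v y ^ 2 := by positivity
    by_cases hxy : x = y
    · simp only [hxy, ne_eq, not_true_eq_false, if_false, mul_zero]
      positivity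
    · simp only [ne_eq, hxy, not_false_eq_true, if_true]
      have h3 : ((q * (Finset.univ.filter fun c => h c x = h c y).card : ℕ) : ℝ) ≤
          Fintype.card C := by exact_mod_cast hh x y hxy
      push_cast at h3
      calc (q : ℝ) * (((Finset.univ.filter fun c => h c x = h c y).card : ℝ) *
            (v x ^ 2 * v y ^ 2)) =
          ((q : ℝ) * ((Finset.univ.filter fun c => h c x = h c y).card : ℝ)) *
            (v x ^ 2 * v y ^ 2) := by ring
        _ ≤ Fintype.card C * (v x ^ 2 * v y ^ 2) := mul_le_mul_of_nonneg_right h3 hnn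
  calc (q : ℝ) * (2 * (Fintype.card (Fin D → Bool) : ℝ) * ∑ c, ∑ x, ∑ y, coef (h c) v x y ^ 2) =
      2 * (Fintype.card (Fin D → Bool) : ℝ) *
        ((q : ℝ) * ∑ c, ∑ x, ∑ y, coef (h c) v x y ^ 2) := by ring
    _ ≤ 2 * (Fintype.card (Fin D → Bool) : ℝ) * (Fintype.card C * sqNorm v ^ 2) := by
        apply mul_le_mul_of_nonneg_left h2; positivity
    _ = _ := by ring

/-- column lower bound for the error -/
lemma col_bound (h : Fin D → Fin q) (t : ℝ) (s : Fin D → Bool) (a : Fin D → ℝ)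
    (Z : Matrix (Fin q) (Fin D) ℝ) (y : Fin D) (w : ℝ)
    (hw : w = ∑ x, if h x = h y then a x ^ 2 else 0) (hwpos : 0 < w) :
    a y ^ 2 - a y ^ 4 / w ≤
      ∑ x, (Matrix.diagonal a - Matrix.diagonal a * sk h t s * Z) x y ^ 2 := by
  have hent : ∀ x, (Matrix.diagonal a - Matrix.diagonal a * sk h t s * Z) x y =
      (if x = y then a x else 0) - a x * (t * sgn (s x)) * Z (h x) y := by
    intro x
    rw [Matrix.sub_apply, Matrix.diagonal_apply, Matrix.mul_assoc, Matrix.diagonal_mul,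
      Matrix.mul_apply]
    simp only [sk, ite_mul, zero_mul]
    rw [Finset.sum_ite_eq]
    simp; ring
  set z := Z (h y) y with hz
  have hlow : ∑ x, (if h x = h y then
      (if x = y then a y ^ 2 - 2 * a y ^ 2 * (t * sgn (s y)) * z else 0) +
        a x ^ 2 * (t ^ 2 * z ^ 2) else 0) ≤
      ∑ x, (Matrix.diagonal a - Matrix.diagonal a * sk h t s * Z) x y ^ 2 := by
    refine Finset.sum_le_sum fun x _ => ?_
    rw [hent]
    by_cases hx : h x = h y
    · rw [if_pos hx, hx, ← hz]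
      by_cases hxy : x = y
      · subst hxy
        rw [if_pos rfl, if_pos rfl]
        have := sgn_sq (s x)
        apply le_of_eq
        calc a x ^ 2 - 2 * a x ^ 2 * (t * sgn (s x)) * z + a x ^ 2 * (t ^ 2 * z ^ 2) =
            a x ^ 2 - 2 * a x ^ 2 * (t * sgn (s x)) * z +
              a x ^ 2 * (t ^ 2 * z ^ 2) * (sgn (s x) * sgn (s x)) := by rw [this]; ring
          _ = _ := by ring
      · rw [if_neg hxy, if_neg hxy]
        have := sgn_sq (s x)
        apply le_of_eq
        calc 0 + a x ^ 2 * (t ^ 2 * z ^ 2) =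
            a x ^ 2 * (t ^ 2 * z ^ 2) * (sgn (s x) * sgn (s x)) := by rw [this]; ring
          _ = _ := by ring
    · rw [if_neg hx]; positivity
  refine le_trans ?_ hlow
  have hsum : ∑ x, (if h x = h y then
      (if x = y then a y ^ 2 - 2 * a y ^ 2 * (t * sgn (s y)) * z else 0) +
        a x ^ 2 * (t ^ 2 * z ^ 2) else 0) =
      a y ^ 2 - 2 * a y ^ 2 * (t * sgn (s y)) * z + w * (t ^ 2 * z ^ 2) := by
    have : ∀ x, (if h x = h y then
      (if x = y then a y ^ 2 - 2 * a y ^ 2 * (t * sgn (s y)) * z else 0) +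
        a x ^ 2 * (t ^ 2 * z ^ 2) else 0) =
        (if x = y then a y ^ 2 - 2 * a y ^ 2 * (t * sgn (s y)) * z else 0) +
        (if h x = h y then a x ^ 2 else 0) * (t ^ 2 * z ^ 2) := by
      intro x
      by_cases hx : h x = h y
      · rw [if_pos hx, if_pos hx]
      · have hxy : x ≠ y := fun h' => hx (by rw [h'])
        rw [if_neg hx, if_neg hx, if_neg hxy]; ring
    simp only [this]
    rw [Finset.sum_add_distrib, ← Finset.sum_mul, ← hw, Finset.sum_ite_eq']
    simp
  rw [hsum]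
  have h5 : t ^ 2 * z ^ 2 = (t * sgn (s y) * z) ^ 2 := by
    have := sgn_sq (s y)
    calc t ^ 2 * z ^ 2 = t ^ 2 * z ^ 2 * (sgn (s y) * sgn (s y)) := by rw [this]; ring
      _ = _ := by ring
  rw [h5]
  set T := t * sgn (s y) * z
  have h6 : a y ^ 2 - 2 * a y ^ 2 * (t * sgn (s y)) * z + w * T ^ 2 - (a y ^ 2 - a y ^ 4 / w) =
      w * (T - a y ^ 2 / w) ^ 2 := by
    field_simp
    ring
  have h7 : 0 ≤ w * (T - a y ^ 2 / w) ^ 2 := by positivity
  linarith

/-- total lower bound for the error -/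
lemma total_bound (h : Fin D → Fin q) (m : ℕ) (hm : 0 < m)
    (hcard : ∀ j, (Finset.univ.filter fun x => h x = j).card = m)
    (x0 : Fin D) (t : ℝ) (s : Fin D → Bool) (a : Fin D → ℝ)
    (ha : ∀ x, a x ^ 2 = 1 + if x = x0 then (m : ℝ) else 0)
    (hD : D = q * m) (Z : Matrix (Fin q) (Fin D) ℝ) :
    ((q : ℝ) + 1 / 2) * ((m : ℝ) - 1) ≤
      ∑ x, ∑ y, (Matrix.diagonal a - Matrix.diagonal a * sk h t s * Z) x y ^ 2 := by
  have hm' : (0 : ℝ) < m := by exact_mod_cast hm
  have hw : ∀ y, (∑ x, if h x = h y then a x ^ 2 else 0) =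
      m + if h y = h x0 then (m : ℝ) else 0 := by
    intro y
    have : ∀ x, (if h x = h y then a x ^ 2 else 0) =
        (if h x = h y then (1 : ℝ) else 0) +
          (if x = x0 then (if h y = h x0 then (m : ℝ) else 0) else 0) := by
      intro x
      rw [ha]
      by_cases h1 : x = x0
      · subst h1
        by_cases h2 : h x = h y
        · rw [if_pos h2, if_pos rfl, if_pos h2, if_pos rfl, if_pos h2.symm]
        · have h2' : ¬ h y = h x := fun h' => h2 h'.symm
          rw [if_neg h2, if_neg h2, if_pos rfl, if_neg h2']; ring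
      · by_cases h2 : h x = h y
        · rw [if_pos h2, if_neg h1, if_pos h2, if_neg h1]
        · rw [if_neg h2, if_neg h2, if_neg h1]; ring
    simp only [this]
    rw [Finset.sum_add_distrib, Finset.sum_ite_eq', ← Finset.sum_filter, Finset.sum_const, hcard]
    simp
  rw [Finset.sum_comm]
  have hcol : ∀ y, ((1 - 1 / (m : ℝ)) + (if h y = h x0 then 1 / (2 * (m : ℝ)) else 0)) +
      (if y = x0 then ((m : ℝ) + 1 - ((m : ℝ) + 1) ^ 2 / (2 * m)) - (1 - 1 / (2 * (m : ℝ))) else 0)
      ≤ ∑ x, (Matrix.diagonal a - Matrix.diagonal a * sk h t s * Z) x y ^ 2 := by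
    intro y
    have hpos : 0 < ∑ x, if h x = h y then a x ^ 2 else 0 := by
      rw [hw]; positivity
    refine le_trans (le_of_eq ?_) (col_bound h t s a Z y _ rfl hpos)
    have h4 : a y ^ 4 = (a y ^ 2) ^ 2 := by ring
    rw [hw, h4, ha]
    by_cases h1 : y = x0
    · subst h1
      simp only [if_true]
      field_simp
      ring
    · by_cases h2 : h y = h x0
      · simp only [h1, h2, if_true, if_false]
        field_simp
        ring
      · simp only [h1, h2, if_false]
        field_simp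
        ring
  refine le_trans (le_of_eq ?_) (Finset.sum_le_sum fun y _ => hcol y)
  rw [Finset.sum_add_distrib, Finset.sum_add_distrib, Finset.sum_ite_eq', ← Finset.sum_filter,
    Finset.sum_const, Finset.sum_const, hcard, Finset.card_univ, Fintype.card_fin]
  have hD' : (D : ℝ) = q * m := by exact_mod_cast hD
  simp only [Finset.mem_univ, if_true, nsmul_eq_mul]
  rw [hD']
  field_simp
  ring

end algebra

lemma arith_bound (q N b K L V T : ℝ) (hN : 0 < N) (hqpos : 0 < q) (hq : 2 * N ^ 3 ≤ q)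
    (hb : 0 ≤ b) (hV : 0 < V)
    (h1 : q * T ≤ 2 * K * L * V ^ 2) (h2 : b * (V / N) ^ 2 ≤ T) : N * b ≤ L * K := by
  have h3 : q * (b * (V / N) ^ 2) ≤ 2 * K * L * V ^ 2 :=
    (mul_le_mul_of_nonneg_left h2 hqpos.le).trans h1
  have h4 : (2 * N ^ 3) * (b * (V / N) ^ 2) ≤ q * (b * (V / N) ^ 2) :=
    mul_le_mul_of_nonneg_right hq (by positivity)
  have h5 : (2 * N ^ 3) * (b * (V / N) ^ 2) = (2 * V ^ 2) * (N * b) := by
    field_simp
  have h6 : (2 * V ^ 2) * (N * b) ≤ (2 * V ^ 2) * (L * K) := by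
    rw [← h5]
    refine (h4.trans h3).trans (le_of_eq ?_)
    ring
  exact le_of_mul_le_mul_left h6 (by positivity)

open Classical in
lemma bad_count_gen {C : Type*} [Fintype C] {D q N : ℕ} (h : C → Fin D → Fin q) (hN : 2 ≤ N)
    (hqpos : 0 < q)
    (hh : ∀ x y, x ≠ y → q * (Finset.univ.filter fun c => h c x = h c y).card ≤
        Fintype.card C)
    (hq : 2 * N ^ 3 ≤ q) (v : Fin D → ℝ) (hv : 0 < sqNorm v) :
    N * ((Finset.univ.filter fun p : C × (Fin D → Bool) =>
      R (h p.1) v p.2 < - (sqNorm v / N)).card : ℝ) ≤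
      Fintype.card C * Fintype.card (Fin D → Bool) := by
  have hNpos : (0 : ℝ) < N := by
    have : 0 < N := by omega
    exact_mod_cast this
  have hqpos : (0 : ℝ) < q := by exact_mod_cast hqpos
  have h1 := sum_sum_R_sq h hh v
  generalize hB : (Finset.univ.filter fun p : C × (Fin D → Bool) =>
      R (h p.1) v p.2 < - (sqNorm v / N)) = B
  have hBmem : ∀ p ∈ B, R (h p.1) v p.2 < - (sqNorm v / N) := by
    intro p hp
    rw [← hB, Finset.mem_filter] at hp
    exact hp.2
  have h2a : ∑ c, ∑ s, R (h c) v s ^ 2 = ∑ p : C × (Fin D → Bool), R (h p.1) v p.2 ^ 2 :=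
    (Fintype.sum_prod_type (fun p : C × (Fin D → Bool) => R (h p.1) v p.2 ^ 2)).symm
  have h2b : ∑ p ∈ B, (sqNorm v / N) ^ 2 ≤ ∑ p ∈ B, R (h p.1) v p.2 ^ 2 := by
    refine Finset.sum_le_sum fun p hp => ?_
    have h3 := hBmem p hp
    have h4 : 0 < sqNorm v / N := by positivity
    nlinarith
  have h2c : ∑ p ∈ B, R (h p.1) v p.2 ^ 2 ≤
      ∑ p : C × (Fin D → Bool), R (h p.1) v p.2 ^ 2 :=
    Finset.sum_le_sum_of_subset_of_nonneg (Finset.subset_univ _) (fun p _ _ => sq_nonneg _)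
  have h2 : (B.card : ℝ) * (sqNorm v / N) ^ 2 ≤ ∑ c, ∑ s, R (h c) v s ^ 2 := by
    rw [h2a]
    rw [Finset.sum_const, nsmul_eq_mul] at h2b
    exact h2b.trans h2c
  have hq' : 2 * (N : ℝ) ^ 3 ≤ q := by exact_mod_cast hq
  have hb0 : (0 : ℝ) ≤ B.card := Nat.cast_nonneg _
  exact arith_bound q N B.card (Fintype.card (Fin D → Bool)) (Fintype.card C) (sqNorm v) _
    hNpos hqpos hq' hb0 hv h1 h2

section unif

variable {S : Type} [Fintype S] [Nonempty S] [MeasurableSpace S] [MeasurableSingletonClass S]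

lemma unif_integral (f : S → ℝ) :
    ∫ a, f a ∂(PMF.uniformOfFintype S).toMeasure = (∑ a, f a) / Fintype.card S := by
  rw [PMF.integral_eq_sum, Finset.sum_div]
  refine Finset.sum_congr rfl fun a _ => ?_
  rw [PMF.uniformOfFintype_apply, ENNReal.toReal_inv, ENNReal.toReal_natCast, smul_eq_mul]
  ring

open Classical in
lemma unif_real (s : Set S) :
    (PMF.uniformOfFintype S).toMeasure.real s =
      ((Finset.univ.filter fun a => a ∈ s).card : ℝ) / Fintype.card S := by
  have hs : MeasurableSet s := s.toFinite.measurableSet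
  have h1 := PMF.toMeasure_uniformOfFintype_apply (α := S) s hs
  rw [measureReal_def, h1, ENNReal.toReal_div,
    ENNReal.toReal_natCast, ENNReal.toReal_natCast, Fintype.card_subtype]

end unif

section main

variable (q N : ℕ) [Fact q.Prime]

/-- the sample space -/
abbrev Sp : Type := Fin N × ((ZMod q × ZMod q) × (Fin (q ^ 3) → Bool))

/-- scaling: the sketch vanishes when the first coordinate is zero -/
noncomputable def tau (i : Fin N) : ℝ := if (i : ℕ) = 0 then 0 else Real.sqrt (N / (N - 1))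

lemma sum_tau (hN : 2 ≤ N) : ∑ i : Fin N, tau N i ^ 2 = N := by
  obtain ⟨n, rfl⟩ : ∃ n, N = n + 1 := ⟨N - 1, by omega⟩
  rw [Fin.sum_univ_succ]
  have hn : (0 : ℝ) < n := by
    have : 0 < n := by omega
    exact_mod_cast this
  have h1 : ∀ i : Fin n, tau (n + 1) i.succ ^ 2 = ((n : ℝ) + 1) / n := by
    intro i
    unfold tau
    rw [if_neg (by simp), Real.sq_sqrt]
    · push_cast; ring
    · push_cast
      have : (0 : ℝ) ≤ ((n : ℝ) + 1) / n := by positivity
      calc (0 : ℝ) ≤ ((n : ℝ) + 1) / n := this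
        _ = _ := by ring
  simp only [h1]
  unfold tau
  rw [if_pos (by simp)]
  simp
  field_simp

variable (h : (ZMod q × ZMod q) → Fin (q ^ 3) → Fin q)

/-- the random sketch -/
noncomputable def W (ω : Sp q N) : Matrix (Fin (q ^ 3)) (Fin q) ℝ :=
  sk (h ω.2.1) (tau N ω.1) ω.2.2

lemma card_Sp : Fintype.card (Sp q N) =
    N * (Fintype.card (ZMod q × ZMod q) * Fintype.card (Fin (q ^ 3) → Bool)) := by
  rw [Fintype.card_prod, Fintype.card_prod (ZMod q × ZMod q), Fintype.card_fin]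

lemma isotropy_sum (hN : 2 ≤ N) (v : Fin (q ^ 3) → ℝ) :
    ∑ ω : Sp q N, sqNorm ((W q N h ω)ᵀ *ᵥ v) = Fintype.card (Sp q N) * sqNorm v := by
  rw [Fintype.sum_prod_type]
  have h1 : ∀ i : Fin N, ∑ p : (ZMod q × ZMod q) × (Fin (q ^ 3) → Bool),
      sqNorm ((W q N h (i, p))ᵀ *ᵥ v) =
      tau N i ^ 2 * ((Fintype.card (ZMod q × ZMod q) : ℝ) *
        (Fintype.card (Fin (q ^ 3) → Bool)) * sqNorm v) := by
    intro i
    rw [Fintype.sum_prod_type]
    have h2 : ∀ c : ZMod q × ZMod q, ∑ s : Fin (q ^ 3) → Bool,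
        sqNorm ((W q N h (i, (c, s)))ᵀ *ᵥ v) =
        tau N i ^ 2 * ((Fintype.card (Fin (q ^ 3) → Bool)) * sqNorm v) := by
      intro c
      simp only [W, sk_norm]
      rw [← Finset.mul_sum, Finset.sum_add_distrib, sum_R, Finset.sum_const, Finset.card_univ,
        nsmul_eq_mul, add_zero]
    simp only [h2]
    rw [Finset.sum_const, Finset.card_univ, nsmul_eq_mul]
    ring
  simp only [h1]
  rw [← Finset.sum_mul, sum_tau N hN, card_Sp]
  push_cast
  ring

omit [Fact q.Prime] in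
lemma good_of (hN : 2 ≤ N) (v : Fin (q ^ 3) → ℝ) (ω : Sp q N) (h1 : (ω.1 : ℕ) ≠ 0)
    (h2 : ¬ R (h ω.2.1) v ω.2.2 < - (sqNorm v / N)) :
    sqNorm v ≤ sqNorm ((W q N h ω)ᵀ *ᵥ v) := by
  push Not at h2
  have hN1 : (0 : ℝ) < (N : ℝ) - 1 := by
    have : (2 : ℝ) ≤ N := by exact_mod_cast hN
    linarith
  have hNpos : (0 : ℝ) < N := by linarith
  unfold W
  rw [sk_norm]
  unfold tau
  rw [if_neg h1, Real.sq_sqrt (by positivity)]
  have h3 : sqNorm v * (1 - 1 / N) ≤ sqNorm v + R (h ω.2.1) v ω.2.2 := by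
    have : sqNorm v * (1 - 1 / N) = sqNorm v - sqNorm v / N := by ring
    linarith
  calc sqNorm v = (N : ℝ) / (N - 1) * (sqNorm v * (1 - 1 / N)) := by
        field_simp
    _ ≤ _ := mul_le_mul_of_nonneg_left h3 (by positivity)

open Classical in
lemma bad_total (hN : 2 ≤ N)
    (hh : ∀ x y, x ≠ y → q * (Finset.univ.filter fun c => h c x = h c y).card ≤
        Fintype.card (ZMod q × ZMod q))
    (hq : 2 * N ^ 3 ≤ q) (v : Fin (q ^ 3) → ℝ) (hv : 0 < sqNorm v) :
    ((Finset.univ.filter fun ω : Sp q N =>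
      ¬ sqNorm v ≤ sqNorm ((W q N h ω)ᵀ *ᵥ v)).card : ℝ) ≤
      2 * (Fintype.card (ZMod q × ZMod q) * Fintype.card (Fin (q ^ 3) → Bool)) := by
  have h0 := bad_count_gen h hN (Fact.out : q.Prime).pos hh hq v hv
  set B := Finset.univ.filter fun p : (ZMod q × ZMod q) × (Fin (q ^ 3) → Bool) =>
      R (h p.1) v p.2 < - (sqNorm v / N) with hB
  have hsub : (Finset.univ.filter fun ω : Sp q N =>
      ¬ sqNorm v ≤ sqNorm ((W q N h ω)ᵀ *ᵥ v)) ⊆
      ((Finset.univ.filter fun i : Fin N => (i : ℕ) = 0) ×ˢ Finset.univ) ∪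
        ((Finset.univ : Finset (Fin N)) ×ˢ B) := by
    intro ω hω
    rw [Finset.mem_filter] at hω
    by_contra hcon
    apply hω.2
    rw [Finset.mem_union, not_or, Finset.mem_product, Finset.mem_product, Finset.mem_filter,
      hB, Finset.mem_filter] at hcon
    simp only [Finset.mem_univ, true_and, and_true] at hcon
    exact good_of q N h hN v ω hcon.1 hcon.2
  have hcard := (Finset.card_le_card hsub).trans (Finset.card_union_le _ _)
  rw [Finset.card_product, Finset.card_product, Finset.card_univ, Finset.card_univ,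
    Fintype.card_fin] at hcard
  have h1 : (Finset.univ.filter fun i : Fin N => (i : ℕ) = 0).card ≤ 1 := by
    rw [Finset.card_le_one]
    intro a ha b hb
    rw [Finset.mem_filter] at ha hb
    exact Fin.ext (ha.2.trans hb.2.symm)
  have h2 : (Finset.univ.filter fun ω : Sp q N =>
      ¬ sqNorm v ≤ sqNorm ((W q N h ω)ᵀ *ᵥ v)).card ≤
      Fintype.card ((ZMod q × ZMod q) × (Fin (q ^ 3) → Bool)) + N * B.card := by
    refine hcard.trans (Nat.add_le_add_right ?_ _)
    calc _ ≤ 1 * Fintype.card ((ZMod q × ZMod q) × (Fin (q ^ 3) → Bool)) :=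
          Nat.mul_le_mul_right _ h1
      _ = _ := one_mul _
  have h3 : ((Finset.univ.filter fun ω : Sp q N =>
      ¬ sqNorm v ≤ sqNorm ((W q N h ω)ᵀ *ᵥ v)).card : ℝ) ≤
      ((Fintype.card ((ZMod q × ZMod q) × (Fin (q ^ 3) → Bool)) + N * B.card : ℕ) : ℝ) := by
    exact_mod_cast h2
  rw [Fintype.card_prod (ZMod q × ZMod q)] at h3
  push_cast at h3 ⊢
  linarith

lemma sqNorm_nonneg {ι : Type*} [Fintype ι] (x : ι → ℝ) : 0 ≤ sqNorm x :=
  Finset.sum_nonneg fun i _ => sq_nonneg (x i)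

lemma sqNorm_pos {ι : Type*} [Fintype ι] (x : ι → ℝ) (hx : x ≠ 0) : 0 < sqNorm x := by
  obtain ⟨i, hi⟩ := Function.ne_iff.mp hx
  apply Finset.sum_pos' (fun i _ => sq_nonneg (x i))
  exact ⟨i, Finset.mem_univ _, by have : x i ≠ 0 := hi; positivity⟩

lemma sqNorm_smul {ι : Type*} [Fintype ι] (c : ℝ) (x : ι → ℝ) :
    sqNorm (c • x) = c ^ 2 * sqNorm x := by
  unfold sqNorm
  rw [Finset.mul_sum]
  refine Finset.sum_congr rfl fun i _ => ?_
  rw [Pi.smul_apply, smul_eq_mul]; ring

theorem isOSI (hN : 2 ≤ N)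
    (hh : ∀ x y, x ≠ y → q * (Finset.univ.filter fun c => h c x = h c y).card ≤
        Fintype.card (ZMod q × ZMod q))
    (hq : 2 * N ^ 3 ≤ q) (δ : ℝ) (hδ : 2 / N ≤ δ) (ε : ℝ) (hε : 0 < ε)
    [MeasurableSpace (Sp q N)] [MeasurableSingletonClass (Sp q N)] [Nonempty (Sp q N)] :
    IsOSI (PMF.uniformOfFintype (Sp q N)).toMeasure (W q N h) 1 (1 - ε) δ := by
  classical
  have hNpos : (0 : ℝ) < N := by
    have : 0 < N := by omega
    exact_mod_cast this
  refine ⟨?_, ?_, ?_⟩
  · intro i j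
    exact measurable_of_finite _
  · intro x
    refine ⟨Integrable.of_finite, ?_⟩
    rw [unif_integral, isotropy_sum q N h hN]
    have : (Fintype.card (Sp q N) : ℝ) ≠ 0 := by
      exact_mod_cast Fintype.card_ne_zero
    field_simp
  · intro V hV
    obtain ⟨v, hv0, hv⟩ := finrank_eq_one_iff'.mp hV
    have hv0' : (v : Fin (q ^ 3) → ℝ) ≠ 0 := by
      intro h0; apply hv0; exact Subtype.ext h0
    have hpos := sqNorm_pos _ hv0'
    have hb := bad_total q N h hN hh hq v hpos
    set Bad := Finset.univ.filter fun ω : Sp q N =>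
      ¬ sqNorm (v : Fin (q ^ 3) → ℝ) ≤ sqNorm ((W q N h ω)ᵀ *ᵥ v) with hBad
    have hgood : (Finset.univ.filter fun ω : Sp q N =>
        ω ∈ {ω | ∀ x ∈ V, (1 - ε) * sqNorm x ≤ sqNorm ((W q N h ω)ᵀ *ᵥ x)}) ⊇ Badᶜ := by
      intro ω hω
      rw [Finset.mem_compl, hBad, Finset.mem_filter] at hω
      simp only [Finset.mem_univ, true_and, not_not] at hω
      rw [Finset.mem_filter]
      refine ⟨Finset.mem_univ _, ?_⟩
      intro x hx
      obtain ⟨c, hc⟩ := hv ⟨x, hx⟩
      have hc' : x = c • (v : Fin (q ^ 3) → ℝ) := (congrArg Subtype.val hc).symm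
      rw [hc', Matrix.mulVec_smul, sqNorm_smul, sqNorm_smul]
      have h1 : c ^ 2 * sqNorm (v : Fin (q ^ 3) → ℝ) ≤
          c ^ 2 * sqNorm ((W q N h ω)ᵀ *ᵥ v) := mul_le_mul_of_nonneg_left hω (sq_nonneg c)
      have h2 : 0 ≤ ε * (c ^ 2 * sqNorm (v : Fin (q ^ 3) → ℝ)) := by positivity
      linarith
    rw [unif_real]
    have h1 := Finset.card_le_card hgood
    rw [Finset.card_compl] at h1
    have h2 : (Fintype.card (Sp q N) : ℝ) - Bad.card ≤
        ((Finset.univ.filter fun ω : Sp q N =>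
        ω ∈ {ω | ∀ x ∈ V, (1 - ε) * sqNorm x ≤ sqNorm ((W q N h ω)ᵀ *ᵥ x)}).card : ℝ) := by
      have h3 : Bad.card ≤ Fintype.card (Sp q N) := Finset.card_le_univ _
      have h4 : ((Fintype.card (Sp q N) - Bad.card : ℕ) : ℝ) ≤ _ := Nat.cast_le.mpr h1
      rwa [Nat.cast_sub h3] at h4
    have hcp : (0 : ℝ) < Fintype.card (Sp q N) := by
      exact_mod_cast Fintype.card_pos
    rw [le_div_iff₀ hcp]
    refine le_trans ?_ h2
    have h5 : (Fintype.card (Sp q N) : ℝ) = N * (Fintype.card (ZMod q × ZMod q) *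
        Fintype.card (Fin (q ^ 3) → Bool)) := by
      rw [card_Sp]; push_cast; ring
    have h6 : (Bad.card : ℝ) ≤ δ * Fintype.card (Sp q N) := by
      refine hb.trans ?_
      rw [h5]
      have h7 : (0 : ℝ) ≤ (Fintype.card (ZMod q × ZMod q) *
        Fintype.card (Fin (q ^ 3) → Bool)) := by positivity
      have h8 : 2 ≤ δ * N := by
        rwa [div_le_iff₀ hNpos] at hδ
      nlinarith
    linarith

end main

theorem not_bound (δ : ℝ) (hδ : 0 < δ) : ¬ RelativeErrorBound δ := by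
  rintro ⟨C, p, hC, hp, H⟩
  obtain ⟨N, hN, hNδ⟩ : ∃ N : ℕ, 2 ≤ N ∧ 2 / (N : ℝ) ≤ δ := by
    refine ⟨max 2 ⌈2 / δ⌉₊, le_max_left _ _, ?_⟩
    have h1 : 2 / δ ≤ ((max 2 ⌈2 / δ⌉₊ : ℕ) : ℝ) :=
      (Nat.le_ceil _).trans (by exact_mod_cast le_max_right _ _)
    have h2 : (0 : ℝ) < ((max 2 ⌈2 / δ⌉₊ : ℕ) : ℝ) := by
      have : 0 < max 2 ⌈2 / δ⌉₊ := lt_of_lt_of_le two_pos (le_max_left _ _)
      exact_mod_cast this
    rw [div_le_iff₀ h2]
    rw [div_le_iff₀ hδ] at h1
    linarith
  obtain ⟨q, hq1, hqp⟩ := Nat.exists_infinite_primes (2 * N ^ 3)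
  haveI : Fact q.Prime := ⟨hqp⟩
  have hq16 : 16 ≤ q := by
    refine le_trans ?_ hq1
    have : 2 ^ 3 ≤ N ^ 3 := Nat.pow_le_pow_left hN 3
    omega
  obtain ⟨h, hh, hcard⟩ := exists_hash q
  have hqR : (16 : ℝ) ≤ q := by exact_mod_cast hq16
  have hD0 : 0 < q ^ 3 := by positivity
  let x0 : Fin (q ^ 3) := ⟨0, hD0⟩
  let a : Fin (q ^ 3) → ℝ := fun x => if x = x0 then Real.sqrt ((q : ℝ) ^ 2 + 1) else 1
  have ha : ∀ x, a x ^ 2 = 1 + if x = x0 then ((q ^ 2 : ℕ) : ℝ) else 0 := by
    intro x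
    by_cases hx : x = x0
    · simp only [a, hx, if_true]
      rw [Real.sq_sqrt (by positivity)]
      push_cast; ring
    · simp only [a, hx, if_false]
      ring
  set L : ℝ := ((q : ℝ) + 1 / 2) * ((q : ℝ) ^ 2 - 1) with hL
  set U : ℝ := (q : ℝ) ^ 3 - 1 with hU
  have hUpos : 0 < U := by rw [hU]; nlinarith [sq_nonneg ((q : ℝ) - 1)]
  have hLU : U < L := by rw [hU, hL]; nlinarith
  have hsU : 0 < Real.sqrt U := Real.sqrt_pos.mpr hUpos
  have hsLU : Real.sqrt U < Real.sqrt L := Real.sqrt_lt_sqrt hUpos.le hLU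
  obtain ⟨ε, hε0, hε1, hε⟩ : ∃ ε : ℝ, 0 < ε ∧ ε < 1 ∧ (1 + C * ε) * Real.sqrt U < Real.sqrt L := by
    have hgap : 0 < Real.sqrt L - Real.sqrt U := by linarith
    have hx : 0 < (Real.sqrt L - Real.sqrt U) / (2 * C * Real.sqrt U) := by positivity
    refine ⟨min (1 / 2) ((Real.sqrt L - Real.sqrt U) / (2 * C * Real.sqrt U)),
      lt_min (by norm_num) hx, lt_of_le_of_lt (min_le_left _ _) (by norm_num), ?_⟩
    have h1 : C * min (1 / 2) ((Real.sqrt L - Real.sqrt U) / (2 * C * Real.sqrt U)) *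
        Real.sqrt U ≤ C * ((Real.sqrt L - Real.sqrt U) / (2 * C * Real.sqrt U)) * Real.sqrt U := by
      apply mul_le_mul_of_nonneg_right _ hsU.le
      exact mul_le_mul_of_nonneg_left (min_le_right _ _) hC.le
    have h2 : C * ((Real.sqrt L - Real.sqrt U) / (2 * C * Real.sqrt U)) * Real.sqrt U =
        (Real.sqrt L - Real.sqrt U) / 2 := by
      field_simp
    linarith
  letI : MeasurableSpace (Sp q N) := ⊤
  haveI : MeasurableSingletonClass (Sp q N) := ⟨fun _ => trivial⟩
  haveI : Nonempty (Fin N) := ⟨⟨0, by omega⟩⟩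
  haveI : Nonempty (Sp q N) := inferInstance
  have hosi := isOSI q N h hN hh hq1 δ hNδ ε hε0
  have hD1 : 1 ≤ q ^ 3 := hD0
  have hkey := H (q ^ 3) (q ^ 3) q 1 (Matrix.diagonal a) ε le_rfl hD1 hD1 hε0 hε1 (Sp q N)
    (PMF.uniformOfFintype (Sp q N)).toMeasure (W q N h) hosi
  have hempty : {ω : Sp q N | frob (Matrix.diagonal a - rsvd (Matrix.diagonal a) (W q N h ω)) ≤
      (1 + C * ε) * bestError (Matrix.diagonal a) 1} = ∅ := by
    rw [Set.eq_empty_iff_forall_notMem]
    intro ω hω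
    have hω' : frob (Matrix.diagonal a - rsvd (Matrix.diagonal a) (W q N h ω)) ≤
      (1 + C * ε) * bestError (Matrix.diagonal a) 1 := hω
    have hlow : Real.sqrt L ≤
        frob (Matrix.diagonal a - rsvd (Matrix.diagonal a) (W q N h ω)) := by
      unfold frob
      apply Real.sqrt_le_sqrt
      have hb := total_bound (h ω.2.1) (q ^ 2) (by positivity) (hcard ω.2.1) x0 (tau N ω.1)
        ω.2.2 a ha (by ring)
        (pinv (Matrix.diagonal a * W q N h ω) * Matrix.diagonal a)
      have hr : rsvd (Matrix.diagonal a) (W q N h ω) = Matrix.diagonal a *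
          sk (h ω.2.1) (tau N ω.1) ω.2.2 *
          (pinv (Matrix.diagonal a * W q N h ω) * Matrix.diagonal a) := by
        unfold rsvd
        rw [Matrix.mul_assoc]
        rfl
      rw [hr]
      refine le_trans (le_of_eq ?_) hb
      rw [hL]; push_cast; ring
    have hup : bestError (Matrix.diagonal a) 1 ≤ Real.sqrt U := by
      let b : Fin (q ^ 3) → ℝ := fun x => if x = x0 then a x0 else 0
      have hrank : (Matrix.diagonal b).rank ≤ 1 := by
        rw [Matrix.rank_diagonal, Fintype.card_subtype, Finset.card_le_one]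
        intro x hx y hy
        rw [Finset.mem_filter] at hx hy
        have e1 : x = x0 := by
          by_contra hne
          exact hx.2 (by simp [b, hne])
        have e2 : y = x0 := by
          by_contra hne
          exact hy.2 (by simp [b, hne])
        rw [e1, e2]
      have hbdd : BddBelow (Set.range fun B :
          {B : Matrix (Fin (q ^ 3)) (Fin (q ^ 3)) ℝ // B.rank ≤ 1} =>
          frob (Matrix.diagonal a - B.1)) := by
        refine ⟨0, ?_⟩
        rintro _ ⟨B, rfl⟩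
        exact Real.sqrt_nonneg _
      refine (ciInf_le hbdd ⟨Matrix.diagonal b, hrank⟩).trans ?_
      unfold frob
      apply Real.sqrt_le_sqrt
      have hent : ∀ x y, (Matrix.diagonal a - Matrix.diagonal b) x y ^ 2 =
          if x = y then (if x = x0 then 0 else 1) else 0 := by
        intro x y
        rw [Matrix.sub_apply, Matrix.diagonal_apply, Matrix.diagonal_apply]
        by_cases hxy : x = y
        · by_cases hx : x = x0
          · simp [hxy, hx, b, hxy ▸ hx]
          · simp only [hxy, if_true]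
            have hy : y ≠ x0 := hxy ▸ hx
            simp [a, b, hy]
        · simp [hxy]
      simp only [hent, Finset.sum_ite_eq, Finset.mem_univ, if_true]
      have : ∀ x, (if x = x0 then (0 : ℝ) else 1) = 1 - if x = x0 then 1 else 0 := by
        intro x; split_ifs <;> ring
      simp only [this]
      rw [Finset.sum_sub_distrib, Finset.sum_ite_eq', Finset.sum_const, Finset.card_univ,
        Fintype.card_fin]
      simp [hU]
    have h1 : (1 + C * ε) * bestError (Matrix.diagonal a) 1 ≤ (1 + C * ε) * Real.sqrt U :=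
      mul_le_mul_of_nonneg_left hup (by positivity)
    linarith
  rw [hempty, measureReal_empty] at hkey
  linarith

end Pool.Agent.Helper7.OSI
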