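import Mathlib

set_option autoImplicit false

namespace Pool.Agent.Helper7.STS

/-- A Steiner (squag) operation gives a Steiner triple system, and a group acting by automorphisms
of the operation acts on the triple system. -/
theorem sts_of_op {V : Type} [Fintype V] [DecidableEq V] (t : V → V → V)
    (idem : ∀ x, t x x = x) (comm : ∀ x y, t x y = t y x) (inv : ∀ x y, t x (t x y) = y)
    {G : Type} [Group G] (φ : G →* Equiv.Perm V)
    (hφ : ∀ g x y, φ g (t x y) = t (φ g x) (φ g y)) :
    ∃ B : Finset (Finset V), (∀ b ∈ B, b.card = 3) ∧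
      (∀ x y : V, x ≠ y → ∃! b, b ∈ B ∧ x ∈ b ∧ y ∈ b) ∧
      ∀ g : G, ∀ b ∈ B, b.image (⇑(φ g)) ∈ B := by
  classical
  have h1 : ∀ x y, x ≠ y → t x y ≠ x := by
    intro x y hxy h
    have := inv x y
    rw [h, idem] at this
    exact hxy this
  have h2 : ∀ x y, x ≠ y → t x y ≠ y := by
    intro x y hxy h
    rw [comm] at h
    exact h1 y x hxy.symm h
  let B : Finset (Finset V) := (Finset.univ.filter (fun p : V × V => p.1 ≠ p.2)).image
    (fun p => ({p.1, p.2, t p.1 p.2} : Finset V))
  have hB : ∀ b, b ∈ B ↔ ∃ x y, x ≠ y ∧ b = {x, y, t x y} := by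
    intro b
    simp only [B, Finset.mem_image, Finset.mem_filter, Finset.mem_univ, true_and, Prod.exists]
    constructor
    · rintro ⟨x, y, h, rfl⟩; exact ⟨x, y, h, rfl⟩
    · rintro ⟨x, y, h, rfl⟩; exact ⟨x, y, h, rfl⟩
  refine ⟨B, ?_, ?_, ?_⟩
  · intro b hb
    obtain ⟨x, y, h, rfl⟩ := (hB b).mp hb
    rw [Finset.card_eq_three]
    exact ⟨x, y, t x y, h, (h1 x y h).symm, (h2 x y h).symm, rfl⟩
  · intro x y hxy
    refine ⟨{x, y, t x y}, ⟨(hB _).mpr ⟨x, y, hxy, rfl⟩, by simp, by simp⟩, ?_⟩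
    rintro b ⟨hb, hx, hy⟩
    obtain ⟨u, v, h, rfl⟩ := (hB b).mp hb
    have e1 : t u (t u v) = v := inv u v
    have e2 : t v (t u v) = u := by rw [comm u v, inv]
    have e3 : t (t u v) u = v := by rw [comm, inv]
    have e4 : t (t u v) v = u := by rw [comm, e2]
    simp only [Finset.mem_insert, Finset.mem_singleton] at hx hy
    rcases hx with rfl | rfl | rfl <;> rcases hy with rfl | rfl | rfl
    · exact absurd rfl hxy
    · rfl
    · rw [e1]; ext z; simp only [Finset.mem_insert, Finset.mem_singleton]; tauto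
    · rw [comm x y]; ext z; simp only [Finset.mem_insert, Finset.mem_singleton]; tauto
    · exact absurd rfl hxy
    · rw [e2]; ext z; simp only [Finset.mem_insert, Finset.mem_singleton]; tauto
    · rw [e3]; ext z; simp only [Finset.mem_insert, Finset.mem_singleton]; tauto
    · rw [e4]; ext z; simp only [Finset.mem_insert, Finset.mem_singleton]; tauto
    · exact absurd rfl hxy
  · intro g b hb
    obtain ⟨x, y, h, rfl⟩ := (hB b).mp hb
    rw [hB]
    refine ⟨φ g x, φ g y, fun h' => h ((φ g).injective h'), ?_⟩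
    rw [Finset.image_insert, Finset.image_insert, Finset.image_singleton, hφ]

theorem z3_cases (i j : ZMod 3) : (i = j) ∨ (j = i + 1) ∨ (j = i + 2) := by
  revert i j; decide

theorem z3_1 (i : ZMod 3) : i ≠ i + 1 := by revert i; decide
theorem z3_2 (i : ZMod 3) : i ≠ i + 2 := by revert i; decide
theorem z3_3 (i : ZMod 3) : i + 1 ≠ i + 2 := by revert i; decide
theorem z3_4 (i : ZMod 3) : i + 2 + 1 = i := by revert i; decide
theorem z3_5 (i : ZMod 3) : i + 1 + 2 = i := by revert i; decide
theorem z3_6 (i : ZMod 3) : i + 1 + 1 = i + 2 := by revert i; decide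
theorem z3_7 (i : ZMod 3) : i + 2 + 2 = i + 1 := by revert i; decide

open Classical in
/-- The Bose operation. -/
noncomputable def bose {Q : Type} (q d : Q → Q → Q) (x y : Q × ZMod 3) : Q × ZMod 3 :=
  if x.2 = y.2 then (if x.1 = y.1 then x else (q x.1 y.1, x.2 + 1))
  else if y.2 = x.2 + 1 then (if x.1 = y.1 then (x.1, x.2 + 2) else (d x.1 y.1, x.2))
  else (if x.1 = y.1 then (x.1, x.2 + 1) else (d y.1 x.1, y.2))

section
variable {Q : Type} (q d : Q → Q → Q)

theorem b1 (a : Q) (i : ZMod 3) : bose q d (a, i) (a, i) = (a, i) := by simp [bose]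
theorem b2 (a b : Q) (i : ZMod 3) (h : a ≠ b) : bose q d (a, i) (b, i) = (q a b, i + 1) := by
  simp [bose, h]
theorem b3 (a : Q) (i : ZMod 3) : bose q d (a, i) (a, i + 1) = (a, i + 2) := by
  simp [bose]
theorem b4 (a b : Q) (i : ZMod 3) (h : a ≠ b) : bose q d (a, i) (b, i + 1) = (d a b, i) := by
  simp [bose, h]
theorem b5 (a : Q) (i : ZMod 3) : bose q d (a, i) (a, i + 2) = (a, i + 1) := by
  simp [bose, z3_2 i, (z3_3 i).symm]
theorem b6 (a b : Q) (i : ZMod 3) (h : a ≠ b) : bose q d (a, i) (b, i + 2) = (d b a, i + 2) := by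
  simp [bose, h, z3_2 i, (z3_3 i).symm]

end

theorem bose_op {Q : Type} (q d : Q → Q → Q) (idem : ∀ x, q x x = x)
    (comm : ∀ x y, q x y = q y x) (hd1 : ∀ x y, q x (d x y) = y) (hd2 : ∀ x y, d x (q x y) = y) :
    (∀ x, bose q d x x = x) ∧ (∀ x y, bose q d x y = bose q d y x) ∧
      (∀ x y, bose q d x (bose q d x y) = y) := by
  have n1 : ∀ a b, a ≠ b → q a b ≠ a := by
    intro a b h h'
    have := hd2 a b
    rw [h'] at this
    have h3 := hd2 a a
    rw [idem, this] at h3
    exact h h3.symm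
  have n2 : ∀ a b, a ≠ b → d a b ≠ a := by
    intro a b h h'
    have := hd1 a b
    rw [h', idem] at this
    exact h this
  refine ⟨fun x => ?_, fun x y => ?_, fun x y => ?_⟩
  · simp [bose]
  · obtain ⟨a, i⟩ := x
    obtain ⟨b, j⟩ := y
    by_cases hab : a = b
    · subst hab
      rcases z3_cases i j with rfl | rfl | rfl
      · rfl
      · rw [b3]
        have := b5 q d a (i + 1)
        rw [z3_5, z3_6] at this
        rw [this]
      · rw [b5]
        have := b3 q d a (i + 2)
        rw [z3_4, z3_7] at this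
        rw [this]
    · rcases z3_cases i j with rfl | rfl | rfl
      · rw [b2 _ _ _ _ _ hab, b2 _ _ _ _ _ (Ne.symm hab), comm]
      · rw [b4 _ _ _ _ _ hab]
        have := b6 q d b a (i + 1) (Ne.symm hab)
        rw [z3_5] at this
        rw [this]
      · rw [b6 _ _ _ _ _ hab]
        have := b4 q d b a (i + 2) (Ne.symm hab)
        rw [z3_4] at this
        rw [this]
  · obtain ⟨a, i⟩ := x
    obtain ⟨b, j⟩ := y
    by_cases hab : a = b
    · subst hab
      rcases z3_cases i j with rfl | rfl | rfl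
      · rw [b1, b1]
      · rw [b3, b5]
      · rw [b5, b3]
    · rcases z3_cases i j with rfl | rfl | rfl
      · rw [b2 _ _ _ _ _ hab, b4 _ _ _ _ _ (n1 a b hab).symm, hd2]
      · rw [b4 _ _ _ _ _ hab, b2 _ _ _ _ _ (n2 a b hab).symm, hd1]
      · have h3 : a ≠ d b a := by
          intro h
          have := hd1 b a
          rw [← h] at this
          exact n1 a b hab (by rw [comm]; exact this)
        rw [b6 _ _ _ _ _ hab, b6 _ _ _ _ _ h3]
        have h4 : q (d b a) b = a := by rw [comm, hd1]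
        have h5 := hd2 (d b a) b
        rw [h4] at h5
        rw [h5]

/-- From an equivariant idempotent commutative quasigroup to an STS on `Q × ZMod 3`. -/
theorem sts_of_quasigroup {Q : Type} [Finite Q] (q : Q → Q → Q) (idem : ∀ x, q x x = x)
    (comm : ∀ x y, q x y = q y x) (canc : ∀ x a b, q x a = q x b → a = b)
    {G : Type} [Group G] (ρ : G →* Equiv.Perm Q) (hρ : ∀ g x y, ρ g (q x y) = q (ρ g x) (ρ g y))
    (hinj : Function.Injective ρ) :
    ∃ (V : Type) (_ : Fintype V) (_ : DecidableEq V) (B : Finset (Finset V)),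
      (∀ b ∈ B, b.card = 3) ∧
      (∀ x y : V, x ≠ y → ∃! b, b ∈ B ∧ x ∈ b ∧ y ∈ b) ∧
      Fintype.card V = Nat.card Q * 3 ∧
      ∃ φ : G →* Equiv.Perm V, Function.Injective φ ∧
        ∀ g : G, ∀ b ∈ B, b.image (⇑(φ g)) ∈ B := by
  classical
  have hsurj : ∀ x, Function.Surjective (q x) := fun x =>
    Finite.surjective_of_injective (fun a b h => canc x a b h)
  choose d hd using hsurj
  have hd2 : ∀ x y, d x (q x y) = y := fun x y => canc x _ _ (hd x _)
  have hde : ∀ g x y, ρ g (d x y) = d (ρ g x) (ρ g y) := by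
    intro g x y
    apply canc (ρ g x)
    rw [hd, ← hρ, hd]
  obtain ⟨t1, t2, t3⟩ := bose_op q d idem comm hd hd2
  have := Fintype.ofFinite Q
  let φ : G →* Equiv.Perm (Q × ZMod 3) :=
    { toFun := fun g => Equiv.prodCongr (ρ g) (Equiv.refl _)
      map_one' := by
        ext x <;> simp
      map_mul' := by
        intro g h
        ext x <;> simp }
  have hφv : ∀ g x, φ g x = (ρ g x.1, x.2) := fun g x => rfl
  have hφ : ∀ g x y, φ g (bose q d x y) = bose q d (φ g x) (φ g y) := by
    intro g x y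
    rw [hφv, hφv, hφv]
    unfold bose
    by_cases h1 : x.2 = y.2
    · by_cases h2 : x.1 = y.1
      · simp [h1, h2]
      · simp [h1, h2, hρ]
    · by_cases h3 : y.2 = x.2 + 1
      · by_cases h2 : x.1 = y.1
        · simp [h3, h2]
        · simp [h3, h2, hde]
      · by_cases h2 : x.1 = y.1
        · simp [h1, h3, h2]
        · simp [h1, h3, h2, hde]
  obtain ⟨B, hB1, hB2, hB3⟩ := sts_of_op (bose q d) t1 t2 t3 φ hφ
  refine ⟨Q × ZMod 3, inferInstance, inferInstance, B, hB1, hB2, ?_, φ, ?_, hB3⟩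
  · rw [Fintype.card_prod, ZMod.card, Nat.card_eq_fintype_card]
  · intro g h hgh
    apply hinj
    ext x
    have := congrArg (fun e : Equiv.Perm (Q × ZMod 3) => (e (x, 0)).1) hgh
    exact this

end Pool.Agent.Helper7.STS
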