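import Mathlib

set_option autoImplicit false

namespace Pool.Agent.Helper7.STS

open Classical in
/-- The quasigroup operation on `Y ⊕ (G × X)`. -/
noncomputable def qop {Y G X : Type} [CommRing Y] [Group G] [AddCommGroup X] (h : Y)
    (ord : X → ℕ) (ψ : G → G) (σ : G → X) (α : Y → G × X) (lam : X → G → Y) (mu : G → Y) :
    Y ⊕ (G × X) → Y ⊕ (G × X) → Y ⊕ (G × X)
  | Sum.inl a, Sum.inl b => Sum.inl ((a + b) * h)
  | Sum.inl a, Sum.inr k => Sum.inr (k.1 * (α a).1, k.2 + (α a).2)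
  | Sum.inr k, Sum.inl a => Sum.inr (k.1 * (α a).1, k.2 + (α a).2)
  | Sum.inr k, Sum.inr k' =>
      if k.2 = k'.2 then
        (if k.1 = k'.1 then Sum.inr k
         else if k.1⁻¹ * k'.1 = (k.1⁻¹ * k'.1)⁻¹ then Sum.inl (mu (k.1⁻¹ * k'.1))
         else Sum.inr (k.1 * ψ (k.1⁻¹ * k'.1), k.2 + σ (k.1⁻¹ * k'.1)))
      else Sum.inl (lam (k.2 + k'.2) (if ord k.2 < ord k'.2 then k.1⁻¹ * k'.1 else k'.1⁻¹ * k.1))

section
variable {Y G X : Type} [CommRing Y] [Group G] [AddCommGroup X] (h : Y)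
    (ord : X → ℕ) (ψ : G → G) (σ : G → X) (α : Y → G × X) (lam : X → G → Y) (mu : G → Y)

theorem q_inl_inl (a b : Y) : qop h ord ψ σ α lam mu (Sum.inl a) (Sum.inl b) = Sum.inl ((a + b) * h) := rfl
theorem q_inl_inr (a : Y) (g : G) (i : X) : qop h ord ψ σ α lam mu (Sum.inl a) (Sum.inr (g, i)) =
  Sum.inr (g * (α a).1, i + (α a).2) := rfl
theorem q_inr_inl (a : Y) (g : G) (i : X) : qop h ord ψ σ α lam mu (Sum.inr (g, i)) (Sum.inl a) =
  Sum.inr (g * (α a).1, i + (α a).2) := rfl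
theorem q_self (g : G) (i : X) : qop h ord ψ σ α lam mu (Sum.inr (g, i)) (Sum.inr (g, i)) =
  Sum.inr (g, i) := by simp [qop]
theorem q_invol (g s : G) (i : X) (h1 : s ≠ 1) (h2 : s = s⁻¹) :
    qop h ord ψ σ α lam mu (Sum.inr (g, i)) (Sum.inr (g * s, i)) = Sum.inl (mu s) := by
  have h3 : g ≠ g * s := fun h' => h1 (by simpa using h')
  simp only [qop]
  rw [if_pos trivial, if_neg h3, inv_mul_cancel_left, if_pos h2]
theorem q_N (g s : G) (i : X) (h2 : s ≠ s⁻¹) :
    qop h ord ψ σ α lam mu (Sum.inr (g, i)) (Sum.inr (g * s, i)) = Sum.inr (g * ψ s, i + σ s) := by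
  have h1 : s ≠ 1 := by rintro rfl; simp at h2
  have h3 : g ≠ g * s := fun h' => h1 (by simpa using h')
  simp only [qop]
  rw [if_pos trivial, if_neg h3, inv_mul_cancel_left, if_neg h2]
theorem q_lt (g s : G) (i j : X) (h1 : i ≠ j) (h2 : ord i < ord j) :
    qop h ord ψ σ α lam mu (Sum.inr (g, i)) (Sum.inr (g * s, j)) = Sum.inl (lam (i + j) s) := by
  simp only [qop]
  rw [if_neg h1, if_pos h2, inv_mul_cancel_left]
theorem q_ge (g s : G) (i j : X) (h1 : i ≠ j) (h2 : ¬ ord i < ord j) :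
    qop h ord ψ σ α lam mu (Sum.inr (g, i)) (Sum.inr (g * s, j)) = Sum.inl (lam (i + j) s⁻¹) := by
  simp only [qop]
  rw [if_neg h1, if_neg h2, mul_inv_rev, inv_mul_cancel_right]

end

theorem quasi_core {Y G X : Type} [CommRing Y] [Group G] [AddCommGroup X] (h : Y)
    (ord : X → ℕ) (ψ : G → G) (σ : G → X) (α : Y → G × X) (lam : X → G → Y) (mu : G → Y)
    (hh : 2 * h = 1) (hX : ∀ x : X, x + x = 0) (hord : Function.Injective ord)
    (hψ : ∀ s, s ≠ s⁻¹ → ψ s = s * ψ s⁻¹) (hσ : ∀ s, s ≠ s⁻¹ → σ s = σ s⁻¹)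
    (hσ0 : ∀ s, σ s ≠ 0)
    (hT : ∀ s s', s ≠ s⁻¹ → s' ≠ s'⁻¹ → ψ s = ψ s' → σ s = σ s' → s = s')
    (hα : Function.Injective α) (hα0 : ∀ a, α a ≠ (1, 0))
    (hαT : ∀ a s, s ≠ s⁻¹ → α a ≠ (ψ s, σ s))
    (hlam : ∀ d s d' s', d ≠ 0 → d' ≠ 0 → lam d s = lam d' s' → d = d' ∧ s = s')
    (hmu : ∀ s s', s ≠ 1 → s = s⁻¹ → s' ≠ 1 → s' = s'⁻¹ → mu s = mu s' → s = s')
    (hlm : ∀ d s s', d ≠ 0 → s' ≠ 1 → s' = s'⁻¹ → lam d s ≠ mu s') :
    (∀ x, qop h ord ψ σ α lam mu x x = x) ∧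
    (∀ x y, qop h ord ψ σ α lam mu x y = qop h ord ψ σ α lam mu y x) ∧
    (∀ x a b, qop h ord ψ σ α lam mu x a = qop h ord ψ σ α lam mu x b → a = b) := by
  have hne : ∀ i j : X, i ≠ j → i + j ≠ 0 := by
    intro i j hij h0
    apply hij
    have : i + j = j + j := by rw [h0, hX]
    exact add_right_cancel this
  refine ⟨?_, ?_, ?_⟩
  · rintro (a | ⟨g, i⟩)
    · rw [q_inl_inl]
      congr 1
      linear_combination a * hh
    · exact q_self ..
  · rintro (a | ⟨g, i⟩) (b | ⟨g', j⟩)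
    · rw [q_inl_inl, q_inl_inl, add_comm]
    · rfl
    · rfl
    · obtain ⟨s, rfl⟩ : ∃ s, g' = g * s := ⟨g⁻¹ * g', by group⟩
      by_cases hij : i = j
      · subst hij
        by_cases h1 : s = 1
        · subst h1; rw [mul_one]
        · by_cases h2 : s = s⁻¹
          · rw [q_invol _ _ _ _ _ _ _ _ _ _ h1 h2]
            have h3 := q_invol h ord ψ σ α lam mu (g * s) s i h1 h2
            have h4 : g * s * s = g := by
              rw [mul_assoc]
              nth_rw 2 [h2]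
              simp
            rw [h4] at h3
            rw [h3]
          · rw [q_N _ _ _ _ _ _ _ _ _ _ h2]
            have h2' : s⁻¹ ≠ s⁻¹⁻¹ := by rw [inv_inv]; exact Ne.symm h2
            have h3 := q_N h ord ψ σ α lam mu (g * s) s⁻¹ i h2'
            rw [mul_inv_cancel_right] at h3
            rw [h3, mul_assoc, ← hψ s h2, ← hσ s h2]
      · have hoo : ord i ≠ ord j := fun h' => hij (hord h')
        by_cases hlt : ord i < ord j
        · rw [q_lt _ _ _ _ _ _ _ _ _ _ _ hij hlt]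
          have h3 := q_ge h ord ψ σ α lam mu (g * s) s⁻¹ j i (Ne.symm hij) (by omega)
          rw [mul_inv_cancel_right, inv_inv, add_comm j i] at h3
          rw [h3]
        · rw [q_ge _ _ _ _ _ _ _ _ _ _ _ hij hlt]
          have h3 := q_lt h ord ψ σ α lam mu (g * s) s⁻¹ j i (Ne.symm hij) (by omega)
          rw [mul_inv_cancel_right, add_comm j i] at h3
          rw [h3]
  · -- cancellation
    -- description of products `inr (g,i) * inr y`
    have key : ∀ (g : G) (i : X) (y : G × X),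
        (y = (g, i) ∧ qop h ord ψ σ α lam mu (Sum.inr (g, i)) (Sum.inr y) = Sum.inr (g, i)) ∨
        (∃ s, s ≠ s⁻¹ ∧ y = (g * s, i) ∧
          qop h ord ψ σ α lam mu (Sum.inr (g, i)) (Sum.inr y) = Sum.inr (g * ψ s, i + σ s)) ∨
        (∃ s, s ≠ 1 ∧ s = s⁻¹ ∧ y = (g * s, i) ∧
          qop h ord ψ σ α lam mu (Sum.inr (g, i)) (Sum.inr y) = Sum.inl (mu s)) ∨
        (∃ s j, i ≠ j ∧ y = (g * s, j) ∧
          qop h ord ψ σ α lam mu (Sum.inr (g, i)) (Sum.inr y) =
            Sum.inl (lam (i + j) (if ord i < ord j then s else s⁻¹))) := by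
      rintro g i ⟨g', j⟩
      obtain ⟨s, rfl⟩ : ∃ s, g' = g * s := ⟨g⁻¹ * g', by group⟩
      by_cases hij : i = j
      · subst hij
        by_cases h1 : s = 1
        · subst h1
          left
          rw [mul_one]
          exact ⟨rfl, q_self ..⟩
        · by_cases h2 : s = s⁻¹
          · right; right; left
            exact ⟨s, h1, h2, rfl, q_invol _ _ _ _ _ _ _ _ _ _ h1 h2⟩
          · right; left
            exact ⟨s, h2, rfl, q_N _ _ _ _ _ _ _ _ _ _ h2⟩
      · right; right; right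
        refine ⟨s, j, hij, rfl, ?_⟩
        split_ifs with hlt
        · exact q_lt _ _ _ _ _ _ _ _ _ _ _ hij hlt
        · exact q_ge _ _ _ _ _ _ _ _ _ _ _ hij hlt
    -- mixed case
    have mixed : ∀ (g : G) (i : X) (a : Y) (y : G × X),
        qop h ord ψ σ α lam mu (Sum.inr (g, i)) (Sum.inl a) ≠
          qop h ord ψ σ α lam mu (Sum.inr (g, i)) (Sum.inr y) := by
      intro g i a y he
      rw [q_inr_inl] at he
      rcases key g i y with ⟨hy, e⟩ | ⟨s, h2, hy, e⟩ | ⟨s, h1, h2, hy, e⟩ | ⟨s, j, hij, hy, e⟩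
      · rw [e] at he
        have h3 := Sum.inr.inj he
        rw [Prod.mk.injEq] at h3
        exact hα0 a (Prod.ext (by simpa using h3.1) (by simpa using h3.2))
      · rw [e] at he
        have h3 := Sum.inr.inj he
        rw [Prod.mk.injEq] at h3
        exact hαT a s h2 (Prod.ext (mul_left_cancel h3.1) (add_left_cancel h3.2))
      · rw [e] at he; simp at he
      · rw [e] at he; simp at he
    rintro (x | ⟨g, i⟩) (a | ⟨a, i'⟩) (b | ⟨b, j'⟩) he
    · rw [q_inl_inl, q_inl_inl] at he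
      have h3 := Sum.inl.inj he
      congr 1
      linear_combination 2 * h3 - (a - b) * hh
    · rw [q_inl_inl, q_inl_inr] at he; simp at he
    · rw [q_inl_inl, q_inl_inr] at he; simp at he
    · rw [q_inl_inr, q_inl_inr] at he
      have h3 := Sum.inr.inj he
      rw [Prod.mk.injEq] at h3
      rw [mul_right_cancel h3.1, add_right_cancel h3.2]
    · rw [q_inr_inl, q_inr_inl] at he
      have h3 := Sum.inr.inj he
      rw [Prod.mk.injEq] at h3
      rw [hα (Prod.ext (mul_left_cancel h3.1) (add_left_cancel h3.2))]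
    · exact absurd he (mixed g i a (b, j'))
    · exact absurd he.symm (mixed g i b (a, i'))
    · congr 1
      rcases key g i (a, i') with ⟨hy, e⟩ | ⟨s, h2, hy, e⟩ | ⟨s, h1, h2, hy, e⟩ | ⟨s, j, hij, hy, e⟩ <;>
      rcases key g i (b, j') with ⟨hy', e'⟩ | ⟨s', h2', hy', e'⟩ | ⟨s', h1', h2', hy', e'⟩ | ⟨s', j', hij', hy', e'⟩ <;>
      rw [e, e'] at he
      · rw [hy, hy']
      · exfalso
        have h3 := Sum.inr.inj he
        rw [Prod.mk.injEq] at h3
        exact hσ0 s' (by simpa using h3.2.symm)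
      · simp at he
      · simp at he
      · exfalso
        have h3 := Sum.inr.inj he
        rw [Prod.mk.injEq] at h3
        exact hσ0 s (by simpa using h3.2)
      · have h3 := Sum.inr.inj he
        rw [Prod.mk.injEq] at h3
        rw [hy, hy', hT s s' h2 h2' (mul_left_cancel h3.1) (add_left_cancel h3.2)]
      · simp at he
      · simp at he
      · simp at he
      · simp at he
      · rw [hy, hy', hmu s s' h1 h2 h1' h2' (Sum.inl.inj he)]
      · exact absurd (Sum.inl.inj he).symm (hlm _ _ _ (hne _ _ hij') h1 h2)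
      · simp at he
      · simp at he
      · exact absurd (Sum.inl.inj he) (hlm _ _ _ (hne _ _ hij) h1' h2')
      · obtain ⟨h3, h4⟩ := hlam _ _ _ _ (hne _ _ hij) (hne _ _ hij') (Sum.inl.inj he)
        have h5 := add_left_cancel h3
        subst h5
        rw [hy, hy']
        split_ifs at h4
        · rw [h4]
        · rw [inv_inj.mp h4]

theorem quasi_equiv {Y G X : Type} [CommRing Y] [Group G] [AddCommGroup X] (h : Y)
    (ord : X → ℕ) (ψ : G → G) (σ : G → X) (α : Y → G × X) (lam : X → G → Y) (mu : G → Y) :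
    ∃ ρ : G →* Equiv.Perm (Y ⊕ (G × X)),
      (∀ g k, ρ g (Sum.inr k) = Sum.inr (g * k.1, k.2)) ∧
      (∀ g x y, ρ g (qop h ord ψ σ α lam mu x y) = qop h ord ψ σ α lam mu (ρ g x) (ρ g y)) := by
  let ρ : G →* Equiv.Perm (Y ⊕ (G × X)) :=
    { toFun := fun g => Equiv.sumCongr (Equiv.refl _) (Equiv.prodCongr (Equiv.mulLeft g) (Equiv.refl _))
      map_one' := by
        ext x
        rcases x with a | ⟨k, i⟩ <;> simp
      map_mul' := by
        intro g g'
        ext x
        rcases x with a | ⟨k, i⟩ <;> simp [mul_assoc] }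
  have r1 : ∀ g a, ρ g (Sum.inl a) = Sum.inl a := fun g a => rfl
  have r2 : ∀ g k, ρ g (Sum.inr k) = Sum.inr (g * k.1, k.2) := fun g k => rfl
  refine ⟨ρ, r2, ?_⟩
  rintro g (a | ⟨k, i⟩) (b | ⟨k', j⟩)
  · rfl
  · rw [r1, r2, q_inl_inr, q_inl_inr, r2, mul_assoc]
  · rw [r1, r2, q_inr_inl, q_inr_inl, r2, mul_assoc]
  · have e1 : (g * k)⁻¹ * (g * k') = k⁻¹ * k' := by group
    have e2 : (g * k')⁻¹ * (g * k) = k'⁻¹ * k := by group
    rw [r2, r2]
    simp only [qop, e1, e2]
    by_cases c1 : i = j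
    · rw [if_pos c1, if_pos c1]
      by_cases c2 : k = k'
      · have c2' : g * k = g * k' := by rw [c2]
        rw [if_pos c2, if_pos c2', r2]
      · have c2' : ¬ g * k = g * k' := fun h' => c2 (mul_left_cancel h')
        rw [if_neg c2, if_neg c2']
        by_cases c3 : k⁻¹ * k' = (k⁻¹ * k')⁻¹
        · have c3' : (g * k)⁻¹ * (g * k') = ((g * k)⁻¹ * (g * k'))⁻¹ := by rw [e1]; exact c3
          rw [if_pos c3, if_pos c3', r1]
        · have c3' : ¬ (g * k)⁻¹ * (g * k') = ((g * k)⁻¹ * (g * k'))⁻¹ := by rw [e1]; exact c3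
          rw [if_neg c3, if_neg c3', r2, mul_assoc]
    · rw [if_neg c1, if_neg c1, r1]

end Pool.Agent.Helper7.STS
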