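import Mathlib
import Pool.Agent.Helper7.STS1
import Pool.Agent.Helper7.STS2

set_option autoImplicit false

namespace Pool.Agent.Helper7.STS

open Classical in
theorem even_N (G : Type) [Group G] [Fintype G] :
    Even ((Finset.univ.filter (fun s : G => s ≠ s⁻¹)).card) := by
  have h : ∑ s ∈ Finset.univ.filter (fun s : G => s ≠ s⁻¹), (1 : ZMod 2) = 0 := by
    apply Finset.sum_involution (fun s _ => s⁻¹)
    · intro a ha; decide
    · intro a ha _
      rw [Finset.mem_filter] at ha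
      exact ha.2.symm
    · intro a ha
      exact inv_inv a
    · intro a ha
      rw [Finset.mem_filter] at ha ⊢
      exact ⟨Finset.mem_univ _, by rw [inv_inv]; exact ha.2.symm⟩
  rw [Finset.sum_const, nsmul_eq_mul, mul_one] at h
  rw [even_iff_two_dvd]
  exact (ZMod.natCast_eq_zero_iff _ _).mp h

theorem exists_sts (G : Type) [Group G] [Fintype G] (hG : 2 ≤ Fintype.card G) :
    ∃ (V : Type) (_ : Fintype V) (_ : DecidableEq V) (B : Finset (Finset V)),
      (∀ b ∈ B, b.card = 3) ∧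
      (∀ x y : V, x ≠ y → ∃! b, b ∈ B ∧ x ∈ b ∧ y ∈ b) ∧
      Fintype.card V ≤ (Fintype.card G) ^ 7 ∧
      ∃ φ : G →* Equiv.Perm V, Function.Injective φ ∧
        ∀ g : G, ∀ b ∈ B, b.image (⇑(φ g)) ∈ B := by
  classical
  obtain ⟨n, hn⟩ : ∃ n, n = Fintype.card G := ⟨_, rfl⟩
  rw [← hn] at hG ⊢
  obtain ⟨m, hm⟩ : ∃ m, m = Nat.clog 2 (n + 1) := ⟨_, rfl⟩
  have hm1 : n + 1 ≤ 2 ^ m := by rw [hm]; exact Nat.le_pow_clog (by norm_num) _
  have hm0 : 0 < m := by
    rcases Nat.eq_zero_or_pos m with h | h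
    · rw [h] at hm1; simp at hm1; omega
    · exact h
  have hm2 : 2 ^ (m - 1) < n + 1 := by
    have := Nat.pow_pred_clog_lt_self (b := 2) (by norm_num) (x := n + 1) (by omega)
    rw [← hm] at this
    exact this
  have hm3 : 2 ^ m = 2 ^ (m - 1) * 2 := by
    rw [← pow_succ]; congr 1; omega
  let X := Fin m → ZMod 2
  have hXc : Fintype.card X = 2 ^ m := by
    show Fintype.card (Fin m → ZMod 2) = _
    rw [Fintype.card_fun, ZMod.card, Fintype.card_fin]
  have hX : ∀ x : X, x + x = 0 := by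
    intro x
    funext i
    exact CharTwo.add_self_eq_zero (x i)
  -- rankings
  let rk : G → ℕ := fun g => (Fintype.equivFin G g : ℕ)
  have hrk : Function.Injective rk := by
    intro a b hab
    exact (Fintype.equivFin G).injective (Fin.ext hab)
  let ord : X → ℕ := fun x => (Fintype.equivFin X x : ℕ)
  have hord : Function.Injective ord := by
    intro a b hab
    exact (Fintype.equivFin X).injective (Fin.ext hab)
  -- labels
  have hXne : Fintype.card {x : X // x ≠ 0} = 2 ^ m - 1 := by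
    have h1 := Fintype.card_subtype_compl (fun x : X => x = 0)
    rw [Fintype.card_subtype_eq, hXc] at h1
    exact h1
  obtain ⟨σ0⟩ : Nonempty (G ↪ {x : X // x ≠ 0}) := by
    apply Function.Embedding.nonempty_of_card_le
    rw [hXne, ← hn]; omega
  let ψ : G → G := fun s => if rk s⁻¹ < rk s then s else 1
  let mx : G → G := fun s => if rk s⁻¹ < rk s then s else s⁻¹
  let σ : G → X := fun s => (σ0 (mx s)).1
  have hσ0 : ∀ s, σ s ≠ 0 := fun s => (σ0 (mx s)).2
  have hrk2 : ∀ s, s ≠ s⁻¹ → rk s ≠ rk s⁻¹ := fun s hs h => hs (hrk h)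
  have hψ : ∀ s, s ≠ s⁻¹ → ψ s = s * ψ s⁻¹ := by
    intro s hs
    have := hrk2 s hs
    simp only [ψ, inv_inv]
    by_cases h1 : rk s⁻¹ < rk s
    · rw [if_pos h1, if_neg (by omega), mul_one]
    · rw [if_neg h1, if_pos (by omega), mul_inv_cancel]
  have hmx : ∀ s, s ≠ s⁻¹ → mx s = mx s⁻¹ := by
    intro s hs
    have := hrk2 s hs
    simp only [mx, inv_inv]
    by_cases h1 : rk s⁻¹ < rk s
    · rw [if_pos h1, if_neg (by omega)]
    · rw [if_neg h1, if_pos (by omega)]
  have hσ : ∀ s, s ≠ s⁻¹ → σ s = σ s⁻¹ := by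
    intro s hs
    simp only [σ]
    rw [hmx s hs]
  have hT : ∀ s s', s ≠ s⁻¹ → s' ≠ s'⁻¹ → ψ s = ψ s' → σ s = σ s' → s = s' := by
    intro s s' hs hs' h1 h2
    have h3 : mx s = mx s' := σ0.injective (Subtype.ext h2)
    have hs1 : s ≠ 1 := by rintro rfl; simp at hs
    have hs1' : s' ≠ 1 := by rintro rfl; simp at hs'
    simp only [mx] at h3
    simp only [ψ] at h1
    split_ifs at h1 h3
    · exact h1
    · exact absurd h1 hs1
    · exact absurd h1.symm hs1'
    · exact inv_injective h3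
  -- counting
  let N : Finset G := Finset.univ.filter (fun s : G => s ≠ s⁻¹)
  let J : Finset G := Finset.univ.filter (fun s : G => s ≠ 1 ∧ s = s⁻¹)
  have hNJ : n = 1 + J.card + N.card := by
    have h1 : (Finset.univ : Finset G) = {1} ∪ J ∪ N := by
      ext s
      simp only [J, N, Finset.mem_univ, Finset.mem_union, Finset.mem_filter, Finset.mem_singleton,
        true_and, true_iff]
      tauto
    have h2 : Disjoint ({1} : Finset G) J := by
      rw [Finset.disjoint_left]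
      intro s hs hs'
      simp only [J, Finset.mem_filter, Finset.mem_singleton] at hs hs'
      exact hs'.2.1 hs
    have h3 : Disjoint ({1} ∪ J : Finset G) N := by
      rw [Finset.disjoint_left]
      intro s hs hs'
      simp only [J, N, Finset.mem_union, Finset.mem_filter, Finset.mem_singleton] at hs hs'
      rcases hs with rfl | hs
      · simp at hs'
      · exact hs'.2 hs.2.2
    have h4 := congrArg Finset.card h1
    rw [Finset.card_union_of_disjoint h3, Finset.card_union_of_disjoint h2, Finset.card_singleton,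
      Finset.card_univ, ← hn] at h4
    exact h4
  have hNe : Even N.card := even_N G
  let L := ({x : X // x ≠ 0} × G) ⊕ {s : G // s ≠ 1 ∧ s = s⁻¹}
  obtain ⟨f, hf⟩ : ∃ f, f = (2 ^ m - 1) * n + J.card := ⟨_, rfl⟩
  have hLc : Fintype.card L = f := by
    show Fintype.card (({x : X // x ≠ 0} × G) ⊕ {s : G // s ≠ 1 ∧ s = s⁻¹}) = f
    rw [Fintype.card_sum, Fintype.card_prod, hXne, ← hn, hf, Fintype.card_subtype]
  have hfodd : Odd f := by
    rw [hf]
    obtain ⟨k, hk⟩ := hNe
    have h5 : (2 ^ m - 1) * n = 2 * ((2 ^ (m - 1) - 1) * n) + n := by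
      rw [hm3]
      have : 2 ^ (m - 1) * 2 - 1 = 2 * (2 ^ (m - 1) - 1) + 1 := by
        have : 0 < 2 ^ (m - 1) := by positivity
        omega
      rw [this]; ring
    rw [h5]
    refine ⟨(2 ^ (m - 1) - 1) * n + J.card + k, ?_⟩
    omega
  have hf0 : NeZero f := ⟨by rintro rfl; simp at hfodd⟩
  -- half
  obtain ⟨h, hh⟩ : ∃ h : ZMod f, 2 * h = 1 := by
    have hc : Nat.Coprime 2 f := by
      rw [Nat.coprime_two_left]; exact hfodd
    refine ⟨(2 : ZMod f)⁻¹, ?_⟩
    have := ZMod.coe_mul_inv_eq_one 2 hc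
    simpa using this
  -- equivalence of labels
  have eL : L ≃ ZMod f := Fintype.equivOfCardEq (by rw [hLc, ZMod.card])
  let lam : X → G → ZMod f := fun d s => if hd : d ≠ 0 then eL (Sum.inl (⟨d, hd⟩, s)) else 0
  let mu : G → ZMod f := fun s => if hs : s ≠ 1 ∧ s = s⁻¹ then eL (Sum.inr ⟨s, hs⟩) else 0
  have hlamv : ∀ d s (hd : d ≠ 0), lam d s = eL (Sum.inl (⟨d, hd⟩, s)) := fun d s hd => dif_pos hd
  have hmuv : ∀ s (hs : s ≠ 1 ∧ s = s⁻¹), mu s = eL (Sum.inr ⟨s, hs⟩) := fun s hs => dif_pos hs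
  have hlam : ∀ d s d' s', d ≠ 0 → d' ≠ 0 → lam d s = lam d' s' → d = d' ∧ s = s' := by
    intro d s d' s' hd hd' he
    rw [hlamv _ _ hd, hlamv _ _ hd'] at he
    have h1 := Sum.inl.inj (eL.injective he)
    rw [Prod.mk.injEq, Subtype.mk.injEq] at h1
    exact h1
  have hmu : ∀ s s', s ≠ 1 → s = s⁻¹ → s' ≠ 1 → s' = s'⁻¹ → mu s = mu s' → s = s' := by
    intro s s' h1 h2 h1' h2' he
    rw [hmuv s ⟨h1, h2⟩, hmuv s' ⟨h1', h2'⟩] at he
    have h3 := Sum.inr.inj (eL.injective he)
    rw [Subtype.mk.injEq] at h3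
    exact h3
  have hlm : ∀ d s s', d ≠ 0 → s' ≠ 1 → s' = s'⁻¹ → lam d s ≠ mu s' := by
    intro d s s' hd h1 h2 he
    rw [hlamv _ _ hd, hmuv s' ⟨h1, h2⟩] at he
    have h3 := eL.injective he
    simp at h3
  -- the complement
  let Bad : Finset (G × X) := insert ((1 : G), (0 : X)) (N.image (fun s => (ψ s, σ s)))
  have hBad : Bad.card ≤ 1 + N.card := by
    calc Bad.card ≤ (N.image (fun s => (ψ s, σ s))).card + 1 := Finset.card_insert_le _ _
      _ ≤ N.card + 1 := by
        have := Finset.card_image_le (s := N) (f := fun s => (ψ s, σ s))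
        omega
      _ = 1 + N.card := by ring
  have hC : f ≤ Fintype.card {p : G × X // p ∉ Bad} := by
    have h1 : Fintype.card {p : G × X // p ∉ Bad} = Fintype.card (G × X) - Bad.card := by
      rw [Fintype.card_subtype_compl (fun p => p ∈ Bad)]
      congr 1
      simp
    rw [h1, Fintype.card_prod, hXc, ← hn, hf]
    have h2 : (2 ^ m - 1) * n + n = n * 2 ^ m := by
      have : 0 < 2 ^ m := by positivity
      obtain ⟨t, ht⟩ : ∃ t, 2 ^ m = t + 1 := ⟨2 ^ m - 1, by omega⟩
      rw [ht]; simp only [Nat.add_sub_cancel]; ring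
    omega
  obtain ⟨α0⟩ : Nonempty (ZMod f ↪ {p : G × X // p ∉ Bad}) := by
    apply Function.Embedding.nonempty_of_card_le
    rw [ZMod.card]; exact hC
  let α : ZMod f → G × X := fun a => (α0 a).1
  have hα : Function.Injective α := fun a b hab => α0.injective (Subtype.ext hab)
  have hα0 : ∀ a, α a ≠ (1, 0) := by
    intro a he
    apply (α0 a).2
    show α a ∈ Bad
    rw [he]
    exact Finset.mem_insert_self _ _
  have hαT : ∀ a s, s ≠ s⁻¹ → α a ≠ (ψ s, σ s) := by
    intro a s hs he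
    apply (α0 a).2
    show α a ∈ Bad
    rw [he]
    apply Finset.mem_insert_of_mem
    exact Finset.mem_image.mpr ⟨s, Finset.mem_filter.mpr ⟨Finset.mem_univ _, hs⟩, rfl⟩
  obtain ⟨p1, p2, p3⟩ := quasi_core h ord ψ σ α lam mu hh hX hord hψ hσ hσ0 hT hα hα0 hαT hlam hmu hlm
  obtain ⟨ρ, r1, r2⟩ := quasi_equiv h ord ψ σ α lam mu
  have hρ : Function.Injective ρ := by
    intro a b hab
    have h1 := congrArg (fun e : Equiv.Perm (ZMod f ⊕ (G × X)) => e (Sum.inr (1, 0))) hab
    simp only [r1, mul_one] at h1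
    have h2 := Sum.inr.inj h1
    rw [Prod.mk.injEq] at h2
    exact h2.1
  obtain ⟨V, i1, i2, B, hB1, hB2, hB3, hB4⟩ := sts_of_quasigroup (qop h ord ψ σ α lam mu) p1 p2 p3 ρ r2 hρ
  refine ⟨V, i1, i2, B, hB1, hB2, ?_, hB4⟩
  rw [hB3, Nat.card_eq_fintype_card, Fintype.card_sum, ZMod.card, Fintype.card_prod, hXc, ← hn]
  have q1 : f ≤ n * 2 ^ m := by
    rw [hf]
    have h2 : (2 ^ m - 1) * n + n = n * 2 ^ m := by
      have : 0 < 2 ^ m := by positivity
      obtain ⟨t, ht⟩ : ∃ t, 2 ^ m = t + 1 := ⟨2 ^ m - 1, by omega⟩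
      rw [ht]; simp only [Nat.add_sub_cancel]; ring
    omega
  have q2 : 2 ^ m ≤ 2 * (n + 1) := by omega
  have q3 : n * 2 ^ m ≤ n * (2 * (n + 1)) := Nat.mul_le_mul_left _ q2
  calc (f + n * 2 ^ m) * 3 ≤ (n * (2 * (n + 1)) + n * (2 * (n + 1))) * 3 := by
        apply Nat.mul_le_mul_right; omega
    _ = 12 * (n * (n + 1)) := by ring
    _ ≤ 12 * (n * (2 * n)) := by
        apply Nat.mul_le_mul_left; apply Nat.mul_le_mul_left; omega
    _ = 24 * n ^ 2 := by ring
    _ ≤ 2 ^ 5 * n ^ 2 := by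
        apply Nat.mul_le_mul_right; norm_num
    _ ≤ n ^ 5 * n ^ 2 := by
        apply Nat.mul_le_mul_right
        exact Nat.pow_le_pow_left hG 5
    _ = n ^ 7 := by ring

end Pool.Agent.Helper7.STS
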