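import Mathlib

namespace Pool.Agent.Helper7.UBalls

/-- The vertex set of the ball `B(v, r)`: the vertices reachable from `v` by a walk of length at
most `r`. -/
def ball {V : Type} (G : SimpleGraph V) (v : V) (r : ℕ) : Set V :=
  {u | ∃ p : G.Walk v u, p.length ≤ r}

theorem mem_ball_self {V : Type} (G : SimpleGraph V) (v : V) (r : ℕ) : v ∈ ball G v r :=
  ⟨SimpleGraph.Walk.nil, Nat.zero_le r⟩

/-- `G` has uniform `k`-balls: for some radius `r` all balls `B(v, r)` have exactly `k` vertices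
and, as induced subgraphs rooted at their centres, they are pairwise isomorphic. -/
def HasUniformBalls {V : Type} (G : SimpleGraph V) (k : ℕ) : Prop :=
  ∃ r : ℕ, (∀ v, (ball G v r).ncard = k) ∧
    ∀ v w, ∃ f : G.induce (ball G v r) ≃g G.induce (ball G w r),
      f ⟨v, mem_ball_self G v r⟩ = ⟨w, mem_ball_self G w r⟩

/-- Vertex transitivity. -/
def VertexTransitive {V : Type} (G : SimpleGraph V) : Prop :=
  ∀ u v, ∃ f : G ≃g G, f u = v

/-- the transposition `(0 1)` of the fibre -/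
def sw (x : Fin 3) : Fin 3 := if x = 0 then 1 else if x = 1 then 0 else 2

/-- next vertex on the rail -/
def nxt (p : Fin 6 × Fin 3) : Fin 6 × Fin 3 := (p.1 + 1, if p.1 = 5 then sw p.2 else p.2)

/-- previous vertex on the rail -/
def prv (p : Fin 6 × Fin 3) : Fin 6 × Fin 3 := (p.1 - 1, if p.1 = 0 then sw p.2 else p.2)

/-- The twisted product of the 6-cycle and the triangle: 18 vertices. -/
def TG : SimpleGraph (Fin 6 × Fin 3) where
  Adj p q := (p.1 = q.1 ∧ p.2 ≠ q.2) ∨ nxt p = q ∨ nxt q = p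
  symm := ⟨by
    intro p q h
    rcases h with ⟨h1, h2⟩ | h | h
    · exact Or.inl ⟨h1.symm, h2.symm⟩
    · exact Or.inr (Or.inr h)
    · exact Or.inr (Or.inl h)⟩
  loopless := ⟨by
    intro p h
    have : ∀ p : Fin 6 × Fin 3, nxt p ≠ p := by decide
    rcases h with ⟨_, h2⟩ | h | h
    · exact h2 rfl
    · exact this p h
    · exact this p h⟩

instance : DecidableRel TG.Adj := fun p q =>
  inferInstanceAs (Decidable ((p.1 = q.1 ∧ p.2 ≠ q.2) ∨ nxt p = q ∨ nxt q = p))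

/-- parametrisation of the ball of radius 2 -/
def s (v : Fin 6 × Fin 3) (a : Fin 11) : Fin 6 × Fin 3 :=
  match a with
  | 0 => v
  | 1 => (v.1, v.2 + 1)
  | 2 => (v.1, v.2 + 2)
  | 3 => nxt v
  | 4 => nxt (v.1, v.2 + 1)
  | 5 => nxt (v.1, v.2 + 2)
  | 6 => prv v
  | 7 => prv (v.1, v.2 + 1)
  | 8 => prv (v.1, v.2 + 2)
  | 9 => nxt (nxt v)
  | 10 => prv (prv v)

theorem s_inj : ∀ v, ∀ a b, s v a = s v b → a = b := by decide +kernel

theorem s_adj : ∀ v, ∀ a b, TG.Adj (s v a) (s v b) ↔ TG.Adj (s (0, 0) a) (s (0, 0) b) := by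
  decide +kernel

theorem s_range : ∀ v u, (u = v ∨ TG.Adj v u ∨ ∃ w, TG.Adj v w ∧ TG.Adj w u) ↔ ∃ a, s v a = u := by
  decide +kernel

theorem mem_ball_two {V : Type} (G : SimpleGraph V) (v u : V) :
    u ∈ ball G v 2 ↔ (u = v ∨ G.Adj v u ∨ ∃ w, G.Adj v w ∧ G.Adj w u) := by
  constructor
  · rintro ⟨p, hp⟩
    cases p with
    | nil => exact Or.inl rfl
    | cons h p =>
      cases p with
      | nil => exact Or.inr (Or.inl h)
      | cons h' p =>
        cases p with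
        | nil => exact Or.inr (Or.inr ⟨_, h, h'⟩)
        | cons h'' p =>
          simp only [SimpleGraph.Walk.length_cons] at hp
          omega
  · rintro (rfl | h | ⟨w, h1, h2⟩)
    · exact mem_ball_self G _ 2
    · exact ⟨SimpleGraph.Walk.cons h SimpleGraph.Walk.nil, by simp⟩
    · exact ⟨SimpleGraph.Walk.cons h1 (SimpleGraph.Walk.cons h2 SimpleGraph.Walk.nil), by simp⟩

theorem mem_ball_iff (v u : Fin 6 × Fin 3) : u ∈ ball TG v 2 ↔ ∃ a, s v a = u := by
  rw [mem_ball_two, s_range]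

/-- the parametrisation as an equivalence -/
noncomputable def e (v : Fin 6 × Fin 3) : Fin 11 ≃ ball TG v 2 :=
  Equiv.ofBijective (fun a => ⟨s v a, (mem_ball_iff v _).mpr ⟨a, rfl⟩⟩) (by
    constructor
    · intro a b h
      exact s_inj v a b (congrArg Subtype.val h)
    · rintro ⟨u, hu⟩
      obtain ⟨a, ha⟩ := (mem_ball_iff v u).mp hu
      exact ⟨a, Subtype.ext ha⟩)

theorem e_apply (v : Fin 6 × Fin 3) (a : Fin 11) : ((e v a : ball TG v 2) : Fin 6 × Fin 3) = s v a :=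
  rfl

theorem uniform : HasUniformBalls TG 11 := by
  refine ⟨2, ?_, ?_⟩
  · intro v
    rw [← Nat.card_coe_set_eq, ← Nat.card_congr (e v)]
    simp
  · intro v w
    refine ⟨⟨(e v).symm.trans (e w), ?_⟩, ?_⟩
    · intro x y
      obtain ⟨a, rfl⟩ := (e v).surjective x
      obtain ⟨b, rfl⟩ := (e v).surjective y
      simp only [Equiv.trans_apply, Equiv.symm_apply_apply]
      show TG.Adj (s w a) (s w b) ↔ TG.Adj (s v a) (s v b)
      rw [s_adj w, s_adj v]
    · show (e w) ((e v).symm ⟨v, mem_ball_self TG v 2⟩) = ⟨w, mem_ball_self TG w 2⟩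
      have h1 : (e v) 0 = ⟨v, mem_ball_self TG v 2⟩ := rfl
      rw [← h1, Equiv.symm_apply_apply]
      rfl

theorem rail : ∀ p q, (TG.Adj p q ∧ ¬ ∃ t, TG.Adj p t ∧ TG.Adj q t) ↔ (nxt p = q ∨ prv p = q) := by
  decide +kernel

theorem rail_map (f : TG ≃g TG) (p q : Fin 6 × Fin 3) (h : nxt p = q ∨ prv p = q) :
    nxt (f p) = f q ∨ prv (f p) = f q := by
  rw [← rail] at h ⊢
  refine ⟨f.map_adj_iff.mpr h.1, ?_⟩
  rintro ⟨t, h1, h2⟩
  apply h.2
  refine ⟨f.symm t, ?_, ?_⟩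
  · rw [← f.map_adj_iff]; simpa using h1
  · rw [← f.map_adj_iff]; simpa using h2

theorem nn : ∀ p, nxt (nxt p) ≠ p ∧ prv (nxt p) = p ∧ nxt (prv p) = p := by decide +kernel

theorem stepN (f : TG ≃g TG) (p p' : Fin 6 × Fin 3) (h1 : f p = p') (h2 : f (nxt p) = nxt p') :
    f (nxt p) = nxt p' ∧ f (nxt (nxt p)) = nxt (nxt p') := by
  refine ⟨h2, ?_⟩
  rcases rail_map f (nxt p) (nxt (nxt p)) (Or.inl rfl) with h | h
  · rw [← h, h2]
  · rw [h2, (nn p').2.1, ← h1] at h
    exact absurd (f.injective h).symm (nn p).1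

theorem stepP (f : TG ≃g TG) (p p' : Fin 6 × Fin 3) (h1 : f p = p') (h2 : f (nxt p) = prv p') :
    f (nxt p) = prv p' ∧ f (nxt (nxt p)) = prv (prv p') := by
  refine ⟨h2, ?_⟩
  rcases rail_map f (nxt p) (nxt (nxt p)) (Or.inl rfl) with h | h
  · rw [h2, (nn p').2.2, ← h1] at h
    exact absurd (f.injective h).symm (nn p).1
  · rw [← h, h2]

theorem not_transitive : ¬ VertexTransitive TG := by
  intro h
  obtain ⟨f, hf⟩ := h (0, 2) (0, 0)
  rcases rail_map f (0, 2) (nxt (0, 2)) (Or.inl rfl) with h1 | h1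
  · have a1 := stepN f _ _ hf (by rw [← h1, hf])
    have a2 := stepN f _ _ a1.1 a1.2
    have a3 := stepN f _ _ a2.1 a2.2
    have a4 := stepN f _ _ a3.1 a3.2
    have a5 := stepN f _ _ a4.1 a4.2
    have h2 := a5.2
    have e1 : nxt (nxt (nxt (nxt (nxt (nxt ((0, 2) : Fin 6 × Fin 3)))))) = (0, 2) := by decide
    rw [e1, hf] at h2
    exact absurd h2 (by decide)
  · have a1 := stepP f _ _ hf (by rw [← h1, hf])
    have a2 := stepP f _ _ a1.1 a1.2
    have a3 := stepP f _ _ a2.1 a2.2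
    have a4 := stepP f _ _ a3.1 a3.2
    have a5 := stepP f _ _ a4.1 a4.2
    have h2 := a5.2
    have e1 : nxt (nxt (nxt (nxt (nxt (nxt ((0, 2) : Fin 6 × Fin 3)))))) = (0, 2) := by decide
    rw [e1, hf] at h2
    exact absurd h2 (by decide)

end Pool.Agent.Helper7.UBalls
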