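import Mathlib
import Pool.Agent.Helper7.UniformBalls

namespace Pool.Agent.Helper7.UBalls

/-- `G` has uniform `k`-balls with radius `r`: all balls `B(v, r)` have exactly `k` vertices
and, as induced subgraphs rooted at their centres, they are pairwise isomorphic. -/
def HasUniformBallsOfRadius {V : Type} (G : SimpleGraph V) (r k : ℕ) : Prop :=
  (∀ v, (ball G v r).ncard = k) ∧
    ∀ v w, ∃ f : G.induce (ball G v r) ≃g G.induce (ball G w r),
      f ⟨v, mem_ball_self G v r⟩ = ⟨w, mem_ball_self G w r⟩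

theorem sw_sw : ∀ x, sw (sw x) = x := by decide

section

variable {m : ℕ}

/-- the rail permutation -/
def N (m : ℕ) : Equiv.Perm (ZMod m × Fin 3) where
  toFun p := (p.1 + 1, if p.1 + 1 = 0 then sw p.2 else p.2)
  invFun p := (p.1 - 1, if p.1 = 0 then sw p.2 else p.2)
  left_inv := by
    rintro ⟨i, x⟩
    by_cases h : i + 1 = 0
    · simp [h, sw_sw]
      linear_combination (-1 : ZMod m) * h
    · simp [h]
  right_inv := by
    rintro ⟨i, x⟩
    by_cases h : i = 0
    · simp [h, sw_sw]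
    · simp [h]

theorem N_apply (p : ZMod m × Fin 3) :
    N m p = (p.1 + 1, if p.1 + 1 = 0 then sw p.2 else p.2) := rfl

theorem N_fst (p : ZMod m × Fin 3) : (N m p).1 = p.1 + 1 := rfl

theorem N_zpow_fst (j : ℤ) (p : ZMod m × Fin 3) : ((N m ^ j) p).1 = p.1 + j := by
  induction j using Int.induction_on with
  | zero => simp
  | succ k ih =>
    rw [add_comm, zpow_add, zpow_one, Equiv.Perm.mul_apply, N_fst, ih]
    push_cast; ring
  | pred k ih =>
    have h : (N m) ((N m ^ (-(k : ℤ) - 1)) p) = (N m ^ (-(k : ℤ))) p := by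
      rw [← Equiv.Perm.mul_apply]
      congr 1
      rw [← zpow_one_add]
      congr 1
      ring
    have h2 := congrArg Prod.fst h
    rw [N_fst, ih] at h2
    have h3 : ((N m ^ (-(k : ℤ) - 1)) p).1 = p.1 + ((-(k : ℤ) : ℤ) : ZMod m) - 1 := by
      rw [← h2]; ring
    rw [h3]; push_cast; ring

/-- The twisted product of the `m`-cycle and the triangle. -/
def TGm (m : ℕ) : SimpleGraph (ZMod m × Fin 3) where
  Adj p q := p ≠ q ∧ (p.1 = q.1 ∨ N m p = q ∨ N m q = p)
  symm := ⟨by
    rintro p q ⟨h0, h⟩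
    refine ⟨h0.symm, ?_⟩
    rcases h with h | h | h
    · exact Or.inl h.symm
    · exact Or.inr (Or.inr h)
    · exact Or.inr (Or.inl h)⟩
  loopless := ⟨fun p h => h.1 rfl⟩

theorem TGm_adj (p q : ZMod m × Fin 3) :
    (TGm m).Adj p q ↔ p ≠ q ∧ (p.1 = q.1 ∨ N m p = q ∨ N m q = p) := Iff.rfl

/-- parametrisation of the balls -/
def S (v : ZMod m × Fin 3) (a : ℤ × Fin 3) : ZMod m × Fin 3 := (N m ^ a.1) (v.1, v.2 + a.2)

/-- weight -/
def wt (a : ℤ × Fin 3) : ℕ := a.1.natAbs + (if a.2 = 0 then 0 else 1)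

theorem S_fst (v : ZMod m × Fin 3) (a : ℤ × Fin 3) : (S v a).1 = v.1 + a.1 := N_zpow_fst _ _

theorem S_zero (v : ZMod m × Fin 3) : S v (0, 0) = v := by simp [S]

theorem N_S (v : ZMod m × Fin 3) (j : ℤ) (z : Fin 3) : N m (S v (j, z)) = S v (j + 1, z) := by
  unfold S
  simp only
  rw [add_comm j 1, zpow_one_add, Equiv.Perm.mul_apply]

theorem S_surj (v u : ZMod m × Fin 3) (j : ℤ) (h : u.1 = v.1 + j) : ∃ z, u = S v (j, z) := by
  refine ⟨((N m ^ (-j)) u).2 - v.2, ?_⟩
  unfold S
  have h1 : ((N m ^ (-j)) u).1 = v.1 := by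
    rw [N_zpow_fst, h]; push_cast; ring
  have h2 : ((v.1, v.2 + (((N m ^ (-j)) u).2 - v.2)) : ZMod m × Fin 3) = (N m ^ (-j)) u := by
    apply Prod.ext
    · exact h1.symm
    · simp
  simp only
  rw [h2, ← Equiv.Perm.mul_apply, ← zpow_add]
  simp

theorem S_eq_same (v : ZMod m × Fin 3) (j : ℤ) (z z' : Fin 3) :
    S v (j, z) = S v (j, z') ↔ z = z' := by
  unfold S
  simp only [EmbeddingLike.apply_eq_iff_eq, Prod.mk.injEq, true_and, add_right_inj]

theorem zmod_eq {j j' : ℤ} (h : ((j : ℤ) : ZMod m) = j') (hb : |j - j'| < m) : j = j' := by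
  rw [ZMod.intCast_eq_intCast_iff_dvd_sub] at h
  have h1 := Int.eq_zero_of_abs_lt_dvd h (by rw [abs_sub_comm]; exact hb)
  linarith

theorem abs_le_of_wt {a : ℤ × Fin 3} {r : ℕ} (h : wt a ≤ r) : |a.1| ≤ r := by
  unfold wt at h
  rw [Int.abs_eq_natAbs]
  have : a.1.natAbs ≤ r := by omega
  exact_mod_cast this

theorem S_inj {r : ℕ} (hm : 2 * r < m) (v : ZMod m × Fin 3) {a b : ℤ × Fin 3} (ha : wt a ≤ r)
    (hb : wt b ≤ r) (h : S v a = S v b) : a = b := by
  have h1 := congrArg Prod.fst h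
  rw [S_fst, S_fst] at h1
  have h2 := zmod_eq (add_left_cancel h1) (by
    have h3 := abs_le_of_wt ha
    have h4 := abs_le_of_wt hb
    have h5 := abs_sub a.1 b.1
    have : ((2 * r : ℕ) : ℤ) < m := by exact_mod_cast hm
    push_cast at this
    linarith)
  obtain ⟨j, z⟩ := a
  obtain ⟨j', z'⟩ := b
  simp only at h2
  subst h2
  rw [S_eq_same] at h
  rw [h]

/-- standard adjacency of the strip -/
def stripAdj (a b : ℤ × Fin 3) : Prop :=
  a ≠ b ∧ (a.1 = b.1 ∨ (a.1 + 1 = b.1 ∧ a.2 = b.2) ∨ (b.1 + 1 = a.1 ∧ b.2 = a.2))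

theorem S_adj {r : ℕ} (hm : 2 * r + 1 < m) (v : ZMod m × Fin 3) {a b : ℤ × Fin 3}
    (ha : wt a ≤ r) (hb : wt b ≤ r) : (TGm m).Adj (S v a) (S v b) ↔ stripAdj a b := by
  have h3 := abs_le_of_wt ha
  have h4 := abs_le_of_wt hb
  have hmz : ((2 * r + 1 : ℕ) : ℤ) < m := by exact_mod_cast hm
  push_cast at hmz
  rw [TGm_adj, stripAdj]
  apply and_congr
  · constructor
    · intro h h'; exact h (by rw [h'])
    · intro h h'; exact h (S_inj (by omega) v ha hb h')
  apply or_congr
  · rw [S_fst, S_fst]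
    constructor
    · intro h
      exact zmod_eq (add_left_cancel h) (by
        have h5 := abs_sub a.1 b.1
        linarith)
    · intro h; rw [h]
  have key : ∀ a b : ℤ × Fin 3, |a.1| ≤ r → |b.1| ≤ r →
      (N m (S v a) = S v b ↔ (a.1 + 1 = b.1 ∧ a.2 = b.2)) := by
    rintro ⟨j, z⟩ ⟨j', z'⟩ h3 h4
    rw [N_S]
    constructor
    · intro h
      have h1 := congrArg Prod.fst h
      rw [S_fst, S_fst] at h1
      have h2 := zmod_eq (add_left_cancel h1) (by
        have h5 := abs_sub (j + 1) j'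
        have h6 := abs_add_le j 1
        simp only [abs_one] at h6
        simp only at h3 h4
        linarith)
      simp only at h2
      refine ⟨h2, ?_⟩
      rw [← h2, S_eq_same] at h
      exact h
    · rintro ⟨h1, h2⟩
      simp only at h1 h2
      rw [h1, h2]
  apply or_congr
  · exact key a b h3 h4
  · exact key b a h4 h3

theorem adj_wt (v : ZMod m × Fin 3) (a : ℤ × Fin 3) (u : ZMod m × Fin 3)
    (h : (TGm m).Adj (S v a) u) : ∃ b, u = S v b ∧ wt b ≤ wt a + 1 := by
  obtain ⟨j, z⟩ := a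
  rw [TGm_adj] at h
  obtain ⟨h0, h | h | h⟩ := h
  · rw [S_fst] at h
    obtain ⟨z', hz'⟩ := S_surj v u j h.symm
    refine ⟨(j, z'), hz', ?_⟩
    unfold wt
    simp only
    split_ifs <;> omega
  · rw [N_S] at h
    refine ⟨(j + 1, z), h.symm, ?_⟩
    unfold wt
    simp only
    have : (j + 1).natAbs ≤ j.natAbs + 1 := by omega
    omega
  · refine ⟨(j - 1, z), ?_, ?_⟩
    · have : N m u = N m (S v (j - 1, z)) := by
        rw [h, N_S, sub_add_cancel]
      exact (N m).injective this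
    · unfold wt
      simp only
      have : (j - 1).natAbs ≤ j.natAbs + 1 := by omega
      omega

theorem walk_wt (v : ZMod m × Fin 3) (u w : ZMod m × Fin 3) (p : (TGm m).Walk u w)
    (a : ℤ × Fin 3) (ha : u = S v a) : ∃ b, w = S v b ∧ wt b ≤ wt a + p.length := by
  induction p generalizing a with
  | nil => exact ⟨a, ha, by simp⟩
  | cons h p ih =>
    rw [ha] at h
    obtain ⟨b, hb, hb'⟩ := adj_wt v a _ h
    obtain ⟨c, hc, hc'⟩ := ih b hb
    refine ⟨c, hc, ?_⟩
    rw [SimpleGraph.Walk.length_cons]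
    omega

theorem N_ne (hm : 1 < m) (p : ZMod m × Fin 3) : p ≠ N m p := by
  intro h
  have h1 := congrArg Prod.fst h
  rw [N_fst] at h1
  have : Fact (1 < m) := ⟨hm⟩
  have h2 : (1 : ZMod m) = 0 := by
    have := add_left_cancel (a := p.1) (b := 0) (c := 1) (by rw [add_zero]; exact h1)
    exact this.symm
  exact one_ne_zero h2

theorem walk_exists (hm : 1 < m) (v : ZMod m × Fin 3) (a : ℤ × Fin 3) :
    ∃ p : (TGm m).Walk v (S v a), p.length ≤ wt a := by
  obtain ⟨j, z⟩ := a
  induction j using Int.induction_on with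
  | zero =>
    by_cases hz : z = 0
    · subst hz
      rw [S_zero]
      exact ⟨SimpleGraph.Walk.nil, by simp⟩
    · have hadj : (TGm m).Adj v (S v (0, z)) := by
        rw [TGm_adj]
        refine ⟨?_, Or.inl (by rw [S_fst]; simp)⟩
        intro h
        have h1 : S v (0, 0) = S v (0, z) := by rw [S_zero]; exact h
        rw [S_eq_same] at h1
        exact hz h1.symm
      exact ⟨SimpleGraph.Walk.cons hadj SimpleGraph.Walk.nil, by simp [wt, hz]⟩
  | succ k ih =>
    obtain ⟨p, hp⟩ := ih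
    have hadj : (TGm m).Adj (S v ((k : ℤ), z)) (S v ((k : ℤ) + 1, z)) := by
      rw [← N_S, TGm_adj]
      exact ⟨N_ne hm _, Or.inr (Or.inl rfl)⟩
    refine ⟨p.concat hadj, ?_⟩
    rw [SimpleGraph.Walk.length_concat]
    unfold wt at hp ⊢
    simp only at hp ⊢
    omega
  | pred k ih =>
    obtain ⟨p, hp⟩ := ih
    have hadj : (TGm m).Adj (S v (-(k : ℤ), z)) (S v (-(k : ℤ) - 1, z)) := by
      have e : N m (S v (-(k : ℤ) - 1, z)) = S v (-(k : ℤ), z) := by
        rw [N_S]; congr 2; ring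
      rw [← e, TGm_adj]
      exact ⟨(N_ne hm _).symm, Or.inr (Or.inr rfl)⟩
    refine ⟨p.concat hadj, ?_⟩
    rw [SimpleGraph.Walk.length_concat]
    unfold wt at hp ⊢
    simp only at hp ⊢
    omega

theorem mem_ball_m (hm : 1 < m) (v u : ZMod m × Fin 3) (r : ℕ) :
    u ∈ ball (TGm m) v r ↔ ∃ a, wt a ≤ r ∧ S v a = u := by
  constructor
  · rintro ⟨p, hp⟩
    obtain ⟨b, hb, hb'⟩ := walk_wt v v u p (0, 0) (S_zero v).symm
    refine ⟨b, ?_, hb.symm⟩
    have : wt (0, 0) = 0 := by simp [wt]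
    omega
  · rintro ⟨a, ha, rfl⟩
    obtain ⟨p, hp⟩ := walk_exists hm v a
    exact ⟨p, hp.trans ha⟩

/-- parameter set -/
def P (r : ℕ) : Set (ℤ × Fin 3) := {a | wt a ≤ r}

/-- the parametrisation as an equivalence -/
noncomputable def E {r : ℕ} (hm : 2 * r + 1 < m) (v : ZMod m × Fin 3) :
    P r ≃ ball (TGm m) v r :=
  Equiv.ofBijective (fun a => ⟨S v a.1, (mem_ball_m (by omega) v _ r).mpr ⟨a.1, a.2, rfl⟩⟩) (by
    constructor
    · rintro ⟨a, ha⟩ ⟨b, hb⟩ h
      exact Subtype.ext (S_inj (by omega) v ha hb (congrArg Subtype.val h))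
    · rintro ⟨u, hu⟩
      obtain ⟨a, ha, hau⟩ := (mem_ball_m (by omega) v u r).mp hu
      exact ⟨⟨a, ha⟩, Subtype.ext hau⟩)

theorem P_card (r : ℕ) (hr : 1 ≤ r) : (P r).ncard = 6 * r - 1 := by
  have h : P r = ↑(((Finset.Icc (-((r : ℤ) - 1)) ((r : ℤ) - 1)) ×ˢ (Finset.univ : Finset (Fin 3))) ∪
      {((r : ℤ), (0 : Fin 3)), (-(r : ℤ), (0 : Fin 3))}) := by
    ext ⟨j, z⟩
    simp only [P, wt, Set.mem_ofPred_eq, Finset.coe_union, Finset.coe_product, Finset.coe_Icc,
      Finset.coe_univ, Finset.coe_insert, Finset.coe_singleton, Set.mem_union, Set.mem_prod,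
      Set.mem_Icc, Set.mem_univ, and_true, Set.mem_insert_iff, Set.mem_singleton_iff,
      Prod.mk.injEq]
    by_cases hz : z = 0
    · simp only [hz, if_true, and_true]; omega
    · simp only [hz, if_false, and_false, or_false]; omega
  rw [h, Set.ncard_coe_finset, Finset.card_union_of_disjoint, Finset.card_product,
    Finset.card_pair]
  · simp; omega
  · intro h
    have := congrArg Prod.fst h
    simp only at this
    omega
  · rw [Finset.disjoint_left]
    rintro ⟨j, z⟩ h1 h2
    simp only [Finset.mem_product, Finset.mem_Icc, Finset.mem_univ, and_true] at h1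
    simp only [Finset.mem_insert, Finset.mem_singleton, Prod.mk.injEq] at h2
    omega

theorem uniform_m (r : ℕ) (hr : 1 ≤ r) :
    HasUniformBallsOfRadius (TGm (2 * r + 2)) r (6 * r - 1) := by
  have hm : 2 * r + 1 < 2 * r + 2 := by omega
  refine ⟨?_, ?_⟩
  · intro v
    rw [← P_card r hr, ← Nat.card_coe_set_eq, ← Nat.card_coe_set_eq, Nat.card_congr (E hm v)]
  · intro v w
    refine ⟨⟨(E hm v).symm.trans (E hm w), ?_⟩, ?_⟩
    · intro x y
      obtain ⟨a, rfl⟩ := (E hm v).surjective x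
      obtain ⟨b, rfl⟩ := (E hm v).surjective y
      simp only [Equiv.trans_apply, Equiv.symm_apply_apply]
      show (TGm (2 * r + 2)).Adj (S w a) (S w b) ↔ (TGm (2 * r + 2)).Adj (S v a) (S v b)
      rw [S_adj hm w a.2 b.2, S_adj hm v a.2 b.2]
    · have h0 : wt ((0 : ℤ), (0 : Fin 3)) ≤ r := by simp [wt]
      have h1 : ∀ v, (E hm v) ⟨(0, 0), h0⟩ = ⟨v, mem_ball_self _ v r⟩ :=
        fun v => Subtype.ext (S_zero v)
      show (E hm w) ((E hm v).symm ⟨v, mem_ball_self _ v r⟩) = ⟨w, mem_ball_self _ w r⟩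
      rw [← h1 v, Equiv.symm_apply_apply, h1 w]

theorem diam_m (r : ℕ) (u v : ZMod (2 * r + 2) × Fin 3) :
    ∃ p : (TGm (2 * r + 2)).Walk u v, p.length ≤ r + 2 := by
  obtain ⟨j, hj, hj'⟩ : ∃ j : ℤ, v.1 = u.1 + j ∧ j.natAbs ≤ r + 1 := by
    refine ⟨(v.1 - u.1).valMinAbs, ?_, ?_⟩
    · rw [ZMod.coe_valMinAbs]; ring
    · have := ZMod.natAbs_valMinAbs_le (v.1 - u.1)
      omega
  obtain ⟨z, hz⟩ := S_surj u v j hj
  obtain ⟨p, hp⟩ := walk_exists (by omega) u (j, z)
  subst hz
  refine ⟨p, hp.trans ?_⟩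
  unfold wt
  simp only
  split_ifs <;> omega

theorem fiber_third : ∀ x y : Fin 3, x ≠ y → ∃ z, z ≠ x ∧ z ≠ y := by decide

theorem rail_m (hm : 4 ≤ m) (p q : ZMod m × Fin 3) :
    ((TGm m).Adj p q ∧ ¬ ∃ t, (TGm m).Adj p t ∧ (TGm m).Adj q t) ↔ (N m p = q ∨ N m q = p) := by
  have hne : ∀ k : ℕ, 0 < k → k < m → ((k : ℕ) : ZMod m) ≠ 0 := by
    intro k hk hkm h
    rw [ZMod.natCast_eq_zero_iff] at h
    exact absurd (Nat.le_of_dvd hk h) (by omega)
  have h1 := hne 1 (by omega) (by omega)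
  have h2 := hne 2 (by omega) (by omega)
  have h3 := hne 3 (by omega) (by omega)
  push_cast at h1 h2 h3
  constructor
  · rintro ⟨⟨h0, h | h | h⟩, hno⟩
    · exfalso
      apply hno
      have hx : p.2 ≠ q.2 := fun h' => h0 (Prod.ext h h')
      obtain ⟨z, hz1, hz2⟩ := fiber_third _ _ hx
      refine ⟨(p.1, z), ⟨?_, Or.inl rfl⟩, ⟨?_, Or.inl h.symm⟩⟩
      · intro h'; exact hz1 (congrArg Prod.snd h').symm
      · intro h'; exact hz2 (congrArg Prod.snd h').symm
    · exact Or.inl h
    · exact Or.inr h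
  · intro h
    have hfst : q.1 = p.1 + 1 ∨ p.1 = q.1 + 1 := by
      rcases h with h | h
      · left; rw [← h]; rfl
      · right; rw [← h]; rfl
    have hpq : p ≠ q := by
      intro h'
      rw [h'] at hfst
      rcases hfst with h' | h' <;>
        exact h1 (by linear_combination (-1 : ZMod m) * h')
    refine ⟨⟨hpq, Or.inr h⟩, ?_⟩
    rintro ⟨t, ⟨hpt, h4⟩, ⟨hqt, h5⟩⟩
    -- first coordinates
    have e4 : t.1 = p.1 ∨ t.1 = p.1 + 1 ∨ t.1 = p.1 - 1 := by
      rcases h4 with h4 | h4 | h4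
      · exact Or.inl h4.symm
      · right; left; rw [← h4]; rfl
      · right; right; rw [← h4]; show t.1 = t.1 + 1 - 1; ring
    have e5 : t.1 = q.1 ∨ t.1 = q.1 + 1 ∨ t.1 = q.1 - 1 := by
      rcases h5 with h5 | h5 | h5
      · exact Or.inl h5.symm
      · right; left; rw [← h5]; rfl
      · right; right; rw [← h5]; show t.1 = t.1 + 1 - 1; ring
    -- t in the block of p or of q
    have hblock : t.1 = p.1 ∨ t.1 = q.1 := by
      rcases e4 with e4 | e4 | e4
      · exact Or.inl e4
      · rcases hfst with hf | hf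
        · right; rw [e4, hf]
        · exfalso
          rcases e5 with e5 | e5 | e5
          · rw [e4, hf] at e5; exact h2 (by linear_combination e5)
          · rw [e4, hf] at e5; exact h1 (by linear_combination e5)
          · rw [e4, hf] at e5; exact h3 (by linear_combination e5)
      · rcases hfst with hf | hf
        · exfalso
          rcases e5 with e5 | e5 | e5
          · rw [e4, hf] at e5; exact h2 (by linear_combination (-1 : ZMod m) * e5)
          · rw [e4, hf] at e5; exact h3 (by linear_combination (-1 : ZMod m) * e5)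
          · rw [e4, hf] at e5; exact h1 (by linear_combination (-1 : ZMod m) * e5)
        · right; rw [e4, hf]; ring
    have hNp : ∀ a b : ZMod m × Fin 3, N m a = b → (a.1 = b.1 → False) := by
      intro a b hab h'
      have : b.1 = a.1 + 1 := by rw [← hab]; rfl
      rw [h'] at this
      exact h1 (by linear_combination (-1 : ZMod m) * this)
    have hN2 : ∀ a b : ZMod m × Fin 3, N m a = b → N m b = a → False := by
      intro a b hab hba
      have e1 : b.1 = a.1 + 1 := by rw [← hab]; rfl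
      have e2 : a.1 = b.1 + 1 := by rw [← hba]; rfl
      exact h2 (by linear_combination (-1 : ZMod m) * (e1 + e2))
    rcases hblock with hb | hb
    · -- t in the block of p; then t and q joined by a rail
      rcases h5 with h5 | h5 | h5
      · rw [← h5] at hb
        rcases h with h | h
        · exact hNp p q h hb.symm
        · exact hNp q p h hb
      · -- N q = t
        rcases h with h | h
        · have e1 : q.1 = p.1 + 1 := by rw [← h]; rfl
          have e2 : t.1 = q.1 + 1 := by rw [← h5]; rfl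
          exact h2 (by linear_combination (-1 : ZMod m) * (e1 + e2) + hb)
        · exact hpt (by rw [← h, h5])
      · rcases h with h | h
        · exact hpt ((N m).injective (by rw [h, h5]))
        · have e1 : p.1 = q.1 + 1 := by rw [← h]; rfl
          have e2 : q.1 = t.1 + 1 := by rw [← h5]; rfl
          exact h2 (by linear_combination (-1 : ZMod m) * (e1 + e2 + hb))
    · rcases h4 with h4 | h4 | h4
      · rw [← h4] at hb
        rcases h with h | h
        · exact hNp p q h hb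
        · exact hNp q p h hb.symm
      · rcases h with h | h
        · exact hqt (by rw [← h, h4])
        · have e1 : p.1 = q.1 + 1 := by rw [← h]; rfl
          have e2 : t.1 = p.1 + 1 := by rw [← h4]; rfl
          exact h2 (by linear_combination (-1 : ZMod m) * (e1 + e2) + hb)
      · rcases h with h | h
        · have e1 : q.1 = p.1 + 1 := by rw [← h]; rfl
          have e2 : p.1 = t.1 + 1 := by rw [← h4]; rfl
          exact h2 (by linear_combination (-1 : ZMod m) * (e1 + e2 + hb))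
        · exact hqt ((N m).injective (by rw [h, h4]))

theorem N_pow_zero (k : ℕ) (hk : k < m) (x : Fin 3) : (N m ^ k) (0, x) = ((k : ZMod m), x) := by
  induction k with
  | zero => simp
  | succ k ih =>
    rw [pow_succ', Equiv.Perm.mul_apply, ih (by omega), N_apply]
    have h : ¬ ((k : ZMod m) + 1 = 0) := by
      intro h
      have h' : ((k + 1 : ℕ) : ZMod m) = 0 := by push_cast; exact h
      rw [ZMod.natCast_eq_zero_iff] at h'
      exact absurd (Nat.le_of_dvd (by omega) h') (by omega)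
    simp [h]

theorem N_pow_m (hm : 0 < m) (x : Fin 3) : (N m ^ m) (0, x) = (0, sw x) := by
  obtain ⟨k, rfl⟩ : ∃ k, m = k + 1 := ⟨m - 1, by omega⟩
  rw [pow_succ', Equiv.Perm.mul_apply, N_pow_zero k (by omega), N_apply]
  have h : ((k : ZMod (k + 1)) + 1 = 0) := by
    have h' : ((k + 1 : ℕ) : ZMod (k + 1)) = 0 := ZMod.natCast_self _
    push_cast at h'
    exact h'
  simp [h]

theorem not_transitive_m (hm : 4 ≤ m) : ¬ VertexTransitive (TGm m) := by
  intro h
  obtain ⟨f, hf⟩ := h (0, 2) (0, 0)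
  have hrail : ∀ p q, (N m p = q ∨ N m q = p) → (N m (f p) = f q ∨ N m (f q) = f p) := by
    intro p q hpq
    rw [← rail_m hm] at hpq ⊢
    refine ⟨f.map_adj_iff.mpr hpq.1, ?_⟩
    rintro ⟨t, h1, h2⟩
    apply hpq.2
    refine ⟨f.symm t, ?_, ?_⟩
    · rw [← f.map_adj_iff]; simpa using h1
    · rw [← f.map_adj_iff]; simpa using h2
  have h2ne : ∀ p, N m (N m p) ≠ p := by
    intro p hp
    have := congrArg Prod.fst hp
    rw [N_fst, N_fst] at this
    have h2 : ((2 : ℕ) : ZMod m) = 0 := by push_cast; linear_combination this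
    rw [ZMod.natCast_eq_zero_iff] at h2
    exact absurd (Nat.le_of_dvd (by omega) h2) (by omega)
  have key : ∀ M : Equiv.Perm (ZMod m × Fin 3), (M = N m ∨ M = (N m)⁻¹) →
      f (N m (0, 2)) = M (0, 0) → ∀ k : ℕ, f ((N m ^ k) (0, 2)) = (M ^ k) (0, 0) ∧
        f ((N m ^ (k + 1)) (0, 2)) = (M ^ (k + 1)) (0, 0) := by
    intro M hM h1 k
    induction k with
    | zero => exact ⟨by simpa using hf, by simpa using h1⟩
    | succ k ih =>
      refine ⟨ih.2, ?_⟩
      have hr := hrail ((N m ^ (k + 1)) (0, 2)) ((N m ^ (k + 2)) (0, 2)) (Or.inl (by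
        rw [pow_succ' (N m) (k + 1), Equiv.Perm.mul_apply]))
      rw [ih.2] at hr
      have hback : (N m ^ (k + 2)) (0, 2) ≠ (N m ^ k) (0, 2) := by
        rw [pow_succ' (N m) (k + 1), Equiv.Perm.mul_apply, pow_succ' (N m) k,
          Equiv.Perm.mul_apply]
        exact h2ne _
      have hM2 : (M ^ (k + 1)) (0, 0) = M ((M ^ k) (0, 0)) := by
        rw [pow_succ', Equiv.Perm.mul_apply]
      have hM3 : (M ^ (k + 2)) (0, 0) = M ((M ^ (k + 1)) (0, 0)) := by
        rw [pow_succ' M (k + 1), Equiv.Perm.mul_apply]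
      rcases hM with rfl | rfl
      · rcases hr with hr | hr
        · rw [hM3, hr]
        · exfalso
          apply hback
          apply f.injective
          rw [ih.1]
          apply (N m).injective
          rw [hr, hM2]
      · rcases hr with hr | hr
        · exfalso
          apply hback
          apply f.injective
          rw [ih.1, ← hr, hM2]
          rw [← Equiv.Perm.mul_apply, mul_inv_cancel]; rfl
        · rw [hM3, ← hr, ← Equiv.Perm.mul_apply, inv_mul_cancel]; rfl
  have hsw0 : sw 0 = 1 := by decide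
  have hsw2 : sw 2 = 2 := by decide
  have hsw1 : sw 1 = 0 := by decide
  have hNm0 : (N m ^ m) (0, 0) = (0, 1) := by rw [N_pow_m (by omega), hsw0]
  have hNm1 : (N m ^ m) (0, 1) = (0, 0) := by rw [N_pow_m (by omega), hsw1]
  have hNm2 : (N m ^ m) (0, 2) = (0, 2) := by rw [N_pow_m (by omega), hsw2]
  rcases hrail (0, 2) (N m (0, 2)) (Or.inl rfl) with h1 | h1
  · have h2 := (key (N m) (Or.inl rfl) (by rw [← h1, hf]) m).1
    rw [hNm2, hf, hNm0] at h2
    have h3 : (0 : Fin 3) = 1 := congrArg Prod.snd h2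
    exact absurd h3 (by decide)
  · have h2 := (key (N m)⁻¹ (Or.inr rfl) (by
      rw [hf] at h1
      rw [← h1, ← Equiv.Perm.mul_apply, inv_mul_cancel]; rfl) m).1
    rw [hNm2, hf] at h2
    have h3 : (N m ^ m) (((N m)⁻¹ ^ m) (0, 0)) = (0, 0) := by
      rw [← Equiv.Perm.mul_apply, inv_pow, mul_inv_cancel]; rfl
    rw [← h2, hNm0] at h3
    have h4 : (1 : Fin 3) = 0 := congrArg Prod.snd h3
    exact absurd h4 (by decide)

end

end Pool.Agent.Helper7.UBalls
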