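import Mathlib

namespace Pool.Agent.Helper7.UnivAlg

universe u

variable {F : Type u} [Field F]

/-- Words in six letters. -/
abbrev Wd := List (Fin 6)

/-- The functional `Ψ ↦ ∑ u, g u * Ψ (w ++ u ++ v)`. -/
noncomputable def pairL (g : Wd →₀ F) (w v : Wd) : (Wd → F) →ₗ[F] F :=
  ∑ u ∈ g.support, g u • LinearMap.proj (w ++ u ++ v)

lemma pairL_apply (g : Wd →₀ F) (w v : Wd) (Ψ : Wd → F) :
    pairL g w v Ψ = ∑ u ∈ g.support, g u * Ψ (w ++ u ++ v) := by
  simp [pairL]

/-- Functions supported on words of length `n`, killed by `G p` at each cut `p`. -/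
noncomputable def K (G : ℕ → (Wd →₀ F)) (n : ℕ) : Submodule F (Wd → F) where
  carrier := {Ψ | (∀ l : Wd, l.length ≠ n → Ψ l = 0) ∧
    ∀ (p : ℕ) (w v : Wd), v.length < p → w.length + p ≤ n → pairL (G p) w v Ψ = 0}
  add_mem' := by
    rintro a b ⟨ha, ha'⟩ ⟨hb, hb'⟩
    refine ⟨fun l hl => by simp [ha l hl, hb l hl], fun p w v h1 h2 => ?_⟩
    rw [map_add, ha' p w v h1 h2, hb' p w v h1 h2, add_zero]
  zero_mem' := ⟨fun _ _ => rfl, fun _ _ _ _ _ => map_zero _⟩
  smul_mem' := by
    rintro c a ⟨ha, ha'⟩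
    refine ⟨fun l hl => by simp [ha l hl], fun p w v h1 h2 => ?_⟩
    rw [map_smul, ha' p w v h1 h2, smul_zero]

lemma mem_K {G : ℕ → (Wd →₀ F)} {n : ℕ} {Ψ : Wd → F} :
    Ψ ∈ K G n ↔ (∀ l : Wd, l.length ≠ n → Ψ l = 0) ∧
    ∀ (p : ℕ) (w v : Wd), v.length < p → w.length + p ≤ n → pairL (G p) w v Ψ = 0 := Iff.rfl

instance instFiniteK (G : ℕ → (Wd →₀ F)) (n : ℕ) : Module.Finite F (K G n) := by
  let f : K G n →ₗ[F] (List.Vector (Fin 6) n → F) :=
    { toFun := fun Ψ v => Ψ.1 v.1
      map_add' := fun _ _ => rfl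
      map_smul' := fun _ _ => rfl }
  refine Module.Finite.of_injective f ?_
  intro a b hab
  apply Subtype.ext
  funext l
  by_cases hl : l.length = n
  · exact congrFun hab ⟨l, hl⟩
  · rw [a.2.1 l hl, b.2.1 l hl]

/-- Gluing six functions along the first letter. -/
def glue (Φ : Fin 6 → (Wd → F)) : Wd → F
  | [] => 0
  | x :: l => Φ x l

noncomputable def glueL (G : ℕ → (Wd →₀ F)) (n : ℕ) : (Fin 6 → K G n) →ₗ[F] (Wd → F) where
  toFun := fun Φ => glue (fun x => (Φ x).1)
  map_add' := by
    intro a b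
    funext l
    cases l <;> simp [glue]
  map_smul' := by
    intro c a
    funext l
    cases l <;> simp [glue]

@[simp] lemma glueL_nil (G : ℕ → (Wd →₀ F)) (n : ℕ) (Φ : Fin 6 → K G n) :
    glueL G n Φ [] = 0 := rfl

@[simp] lemma glueL_cons (G : ℕ → (Wd →₀ F)) (n : ℕ) (Φ : Fin 6 → K G n) (x : Fin 6) (l : Wd) :
    glueL G n Φ (x :: l) = (Φ x).1 l := rfl

lemma glueL_supp (G : ℕ → (Wd →₀ F)) (n : ℕ) (Φ : Fin 6 → K G n) (l : Wd)
    (hl : l.length ≠ n + 1) : glueL G n Φ l = 0 := by
  cases l with
  | nil => rfl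
  | cons x l =>
    rw [glueL_cons]
    exact (Φ x).2.1 l (by simpa using hl)

lemma glueL_pair (G : ℕ → (Wd →₀ F)) (n : ℕ) (Φ : Fin 6 → K G n) (p : ℕ) (w v : Wd)
    (hw : w ≠ []) (h1 : v.length < p) (h2 : w.length + p ≤ n + 1) :
    pairL (G p) w v (glueL G n Φ) = 0 := by
  cases w with
  | nil => exact absurd rfl hw
  | cons x w =>
    have := (Φ x).2.2 p w v h1 (by simp at h2; omega)
    rw [pairL_apply] at this ⊢
    simpa using this

noncomputable def TL (G : ℕ → (Wd →₀ F)) (n b p : ℕ) : (Fin 6 → K G n) →ₗ[F] (Wd → F) :=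
  LinearMap.pi (fun v => if v.length = b then (pairL (G p) [] v) ∘ₗ glueL G n else 0)

lemma TL_apply (G : ℕ → (Wd →₀ F)) (n b p : ℕ) (Φ : Fin 6 → K G n) (v : Wd) :
    TL G n b p Φ v = if v.length = b then pairL (G p) [] v (glueL G n Φ) else 0 := by
  simp only [TL, LinearMap.pi_apply]
  split_ifs <;> rfl

lemma TL_mem (G : ℕ → (Wd →₀ F)) (n b p : ℕ) (hb : b ≤ n) (Φ : Fin 6 → K G n) :
    TL G n b p Φ ∈ K G b := by
  refine ⟨fun l hl => by rw [TL_apply, if_neg hl], fun p' w' v' h1 h2 => ?_⟩
  rw [pairL_apply]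
  have key : ∀ u' : Wd, TL G n b p Φ (w' ++ u' ++ v') =
      ∑ u ∈ (G p).support, if u.length = n + 1 - b then
        G p u * glueL G n Φ (u ++ w' ++ u' ++ v') else 0 := by
    intro u'
    rw [TL_apply]
    by_cases hlen : (w' ++ u' ++ v').length = b
    · rw [if_pos hlen, pairL_apply]
      apply Finset.sum_congr rfl
      intro u _
      by_cases hu : u.length = n + 1 - b
      · rw [if_pos hu]
        simp
      · rw [if_neg hu, glueL_supp, mul_zero]
        simp only [List.length_append, List.nil_append] at hlen ⊢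
        omega
    · rw [if_neg hlen]
      symm
      apply Finset.sum_eq_zero
      intro u _
      by_cases hu : u.length = n + 1 - b
      · rw [if_pos hu, glueL_supp, mul_zero]
        simp only [List.length_append] at hlen ⊢
        omega
      · rw [if_neg hu]
  simp_rw [key, Finset.mul_sum]
  rw [Finset.sum_comm]
  apply Finset.sum_eq_zero
  intro u _
  by_cases hu : u.length = n + 1 - b
  · have h := glueL_pair G n Φ p' (u ++ w') v' (by
      intro h0
      have := congrArg List.length h0
      simp at this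
      simp [this.1] at hu
      omega) h1 (by simp; omega)
    rw [pairL_apply] at h
    simp only [if_pos hu]
    have h' : ∑ x ∈ (G p').support, G p' x * (G p u * glueL G n Φ (u ++ w' ++ x ++ v')) =
        G p u * ∑ x ∈ (G p').support, G p' x * glueL G n Φ (u ++ w' ++ x ++ v') := by
      rw [Finset.mul_sum]
      apply Finset.sum_congr rfl
      intro x _
      ring
    rw [h', h, mul_zero]
  · simp [if_neg hu]

lemma rec_ineq (G : ℕ → (Wd →₀ F)) (n : ℕ) :
    6 * Module.finrank F (K G n) ≤ Module.finrank F (K G (n+1)) +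
      ∑ b ∈ Finset.range (n+1), (n + 1 - b) * Module.finrank F (K G b) := by
  let L : (Fin 6 → K G n) →ₗ[F] (∀ q : (Σ b : Fin (n+1), Fin (n + 1 - b)), K G q.1) :=
    LinearMap.pi (fun q => LinearMap.codRestrict (K G q.1) (TL G n q.1 (q.1 + 1 + q.2))
      (fun Φ => TL_mem G n q.1 _ (by omega) Φ))
  have h1 := LinearMap.finrank_range_add_finrank_ker L
  have h2 : Module.finrank F (LinearMap.range L) ≤
      ∑ b ∈ Finset.range (n+1), (n + 1 - b) * Module.finrank F (K G b) := by
    refine (Submodule.finrank_le _).trans ?_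
    rw [Module.finrank_pi_fintype, Fintype.sum_sigma]
    rw [← Fin.sum_univ_eq_sum_range (fun b => (n + 1 - b) * Module.finrank F (K G b)) (n+1)]
    apply le_of_eq
    apply Finset.sum_congr rfl
    intro b _
    change ∑ _y : Fin (n + 1 - b), Module.finrank F (K G b) = _
    rw [Finset.sum_const, Finset.card_univ, Fintype.card_fin, smul_eq_mul]
  have h3 : Module.finrank F (LinearMap.ker L) ≤ Module.finrank F (K G (n+1)) := by
    have hmem : ∀ Φ : LinearMap.ker L, glueL G n Φ.1 ∈ K G (n+1) := by
      intro Φ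
      refine ⟨glueL_supp G n Φ.1, fun p w v hv hw => ?_⟩
      by_cases hw0 : w = []
      · subst hw0
        have hΦ := Φ.2
        rw [LinearMap.mem_ker] at hΦ
        simp only [List.length_nil, zero_add] at hw
        have := congrFun hΦ ⟨⟨v.length, by omega⟩, ⟨p - v.length - 1, by simp; omega⟩⟩
        have h4 := congrArg Subtype.val this
        have h5 := congrFun h4 v
        simp only [L, LinearMap.pi_apply, LinearMap.codRestrict_apply] at h5
        rw [TL_apply, if_pos rfl] at h5
        have h6 : v.length + 1 + (p - v.length - 1) = p := by omega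
        rw [h6] at h5
        exact h5
      · exact glueL_pair G n Φ.1 p w v hw0 hv hw
    let f : LinearMap.ker L →ₗ[F] K G (n+1) :=
      LinearMap.codRestrict (K G (n+1)) (glueL G n ∘ₗ (LinearMap.ker L).subtype) hmem
    refine LinearMap.finrank_le_finrank_of_injective (f := f) ?_
    intro a b hab
    apply Subtype.ext
    funext x
    apply Subtype.ext
    funext l
    have := congrArg Subtype.val hab
    have h7 := congrFun this (x :: l)
    exact h7
  have h8 : Module.finrank F (Fin 6 → K G n) = 6 * Module.finrank F (K G n) := by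
    rw [Module.finrank_pi_fintype]; simp
  omega

lemma growth (G : ℕ → (Wd →₀ F)) (n : ℕ) :
    1 ≤ Module.finrank F (K G n) ∧
    ∑ b ∈ Finset.range (n+1), Module.finrank F (K G b) ≤ 2 * Module.finrank F (K G n) ∧
    ∑ b ∈ Finset.range (n+1), (n + 1 - b) * Module.finrank F (K G b) ≤
      4 * Module.finrank F (K G n) := by
  induction n with
  | zero =>
    have h1 : 1 ≤ Module.finrank F (K G 0) := by
      rw [Nat.one_le_iff_ne_zero]
      intro h
      rw [Module.finrank_zero_iff] at h
      have hm : (fun l : Wd => if l = [] then (1:F) else 0) ∈ K G 0 := by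
        refine ⟨fun l hl => ?_, fun p w v h1 h2 => by omega⟩
        have : l ≠ [] := by
          rintro rfl
          exact hl rfl
        simp [this]
      have := congrFun (congrArg Subtype.val
        (Subsingleton.elim (⟨_, hm⟩ : K G 0) 0)) []
      simp at this
    refine ⟨h1, ?_, ?_⟩
    · simp; omega
    · simp; omega
  | succ n ih =>
    obtain ⟨h1, h2, h3⟩ := ih
    have h4 := rec_ineq G n
    have h5 : 2 * Module.finrank F (K G n) ≤ Module.finrank F (K G (n+1)) := by omega
    have h6 : ∑ b ∈ Finset.range (n+1+1), Module.finrank F (K G b) ≤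
        2 * Module.finrank F (K G (n+1)) := by
      rw [Finset.sum_range_succ]; omega
    refine ⟨by omega, h6, ?_⟩
    have h7 : ∑ b ∈ Finset.range (n+1+1), (n + 1 + 1 - b) * Module.finrank F (K G b) =
        ∑ b ∈ Finset.range (n+1), (n + 1 - b) * Module.finrank F (K G b) +
        ∑ b ∈ Finset.range (n+1+1), Module.finrank F (K G b) := by
      rw [Finset.sum_range_succ, Finset.sum_range_succ (fun b => Module.finrank F (K G b)),
        ← add_assoc, ← Finset.sum_add_distrib]
      congr 1
      · apply Finset.sum_congr rfl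
        intro b hb
        rw [Finset.mem_range] at hb
        have : n + 1 + 1 - b = (n + 1 - b) + 1 := by omega
        rw [this]; ring
      · have : n + 1 + 1 - (n + 1) = 1 := by omega
        rw [this, one_mul]
    rw [h7]
    omega

/-- The Golod–Shafarevich type existence statement. -/
theorem exists_K (G : ℕ → (Wd →₀ F)) (n : ℕ) :
    ∃ Ψ ∈ K G n, ∃ h : Wd, Ψ h ≠ 0 := by
  have h := (growth G n).1
  have hne : Nontrivial (K G n) := by
    apply Module.nontrivial_of_finrank_pos (R := F); omega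
  obtain ⟨Ψ, hΨ⟩ := exists_ne (0 : K G n)
  refine ⟨Ψ.1, Ψ.2, ?_⟩
  by_contra hcon
  push Not at hcon
  exact hΨ (Subtype.ext (funext hcon))

end Pool.Agent.Helper7.UnivAlg
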