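import Pool.Agent.Helper7.UnivAlgA

namespace Pool.Agent.Helper7.UnivAlg

universe u

variable {F : Type u} [Field F]

/-- Right shift by a word. -/
noncomputable def sh (y : Wd) : (Wd → F) →ₗ[F] (Wd → F) :=
  LinearMap.funLeft F F (fun w => w ++ y)

@[simp] lemma sh_apply (y : Wd) (Ψ : Wd → F) (w : Wd) : sh y Ψ w = Ψ (w ++ y) := rfl

lemma sh_sh (y z : Wd) (Ψ : Wd → F) : sh y (sh z Ψ) = sh (y ++ z) Ψ := by
  funext w
  simp

@[simp] lemma sh_nil (Ψ : Wd → F) : sh ([] : Wd) Ψ = Ψ := by
  funext w
  simp

noncomputable def act (g : Wd →₀ F) : Module.End F (Wd → F) :=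
  ∑ u ∈ g.support, g u • sh u

lemma act_apply (g : Wd →₀ F) (Ψ : Wd → F) : act g Ψ = ∑ u ∈ g.support, g u • sh u Ψ := by
  simp [act]

lemma act_apply' (g : Wd →₀ F) (v : Wd) (Ψ : Wd → F) (w : Wd) :
    act g (sh v Ψ) w = pairL g w v Ψ := by
  rw [act_apply, pairL_apply]
  simp [Finset.sum_apply]

/-- Nilpotency through one cut. -/
lemma nil_of_cut (g : Wd →₀ F) (hg : g [] = 0) (n p : ℕ) (Ψ : Wd → F)
    (hΨ : ∀ l : Wd, l.length ≠ n → Ψ l = 0)
    (hcut : ∀ w v : Wd, v.length < p → w.length + p ≤ n → pairL g w v Ψ = 0)
    (N : ℕ) : ∀ v : Wd, v.length < p → p ≤ v.length + N → (act g ^ N) (sh v Ψ) = 0 := by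
  induction N with
  | zero => intro v h1 h2; omega
  | succ N ih =>
    intro v h1 h2
    rw [pow_succ, Module.End.mul_apply]
    have key : act g (sh v Ψ) =
        ∑ u ∈ g.support, if (u ++ v).length < p then g u • sh (u ++ v) Ψ else 0 := by
      funext w
      rw [Finset.sum_apply]
      by_cases hw : w.length + p ≤ n
      · rw [act_apply', hcut w v h1 hw]
        symm
        apply Finset.sum_eq_zero
        intro u _
        split_ifs with hu
        · simp only [Pi.smul_apply, sh_apply]
          rw [hΨ, smul_zero]
          simp only [List.length_append] at hu ⊢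
          omega
        · rfl
      · rw [act_apply, Finset.sum_apply]
        apply Finset.sum_congr rfl
        intro u _
        rw [sh_sh]
        split_ifs with hu
        · rfl
        · simp only [Pi.smul_apply, sh_apply]
          rw [hΨ, smul_zero]; rfl
          simp only [List.length_append] at hu ⊢
          omega
    rw [key, map_sum]
    apply Finset.sum_eq_zero
    intro u hu
    split_ifs with h
    · rw [map_smul, ih (u ++ v) h, smul_zero]
      have : 1 ≤ u.length := by
        rw [Nat.one_le_iff_ne_zero]
        intro h0
        rw [List.length_eq_zero_iff] at h0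
        subst h0
        rw [Finsupp.mem_support_iff] at hu
        exact hu hg
      simp only [List.length_append]
      omega
    · exact map_zero _

/-- maximal length of a word in the support -/
def deg (g : Wd →₀ F) : ℕ := g.support.sup List.length

lemma length_le_deg (g : Wd →₀ F) {u : Wd} (hu : u ∈ g.support) : u.length ≤ deg g :=
  Finset.le_sup (f := List.length) hu

/-- block powers of a functional -/
def tp (Ψ : Wd → F) (e : ℕ) : ℕ → Wd → F
  | 0, l => if l = [] then 1 else 0
  | (i+1), l => Ψ (l.take e) * tp Ψ e i (l.drop e)

lemma tp_supp (Ψ : Wd → F) (e : ℕ) (hΨ : ∀ l : Wd, l.length ≠ e → Ψ l = 0) (i : ℕ) :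
    ∀ l : Wd, l.length ≠ e * i → tp Ψ e i l = 0 := by
  induction i with
  | zero =>
    intro l hl
    have : l ≠ [] := by rintro rfl; simp at hl
    simp [tp, this]
  | succ i ih =>
    intro l hl
    rw [tp]
    by_cases h : (l.take e).length = e
    · rw [ih, mul_zero]
      rw [List.length_take] at h
      rw [List.length_drop]
      rw [mul_add, mul_one] at hl
      omega
    · rw [hΨ _ h, zero_mul]

lemma tp_cut (Ψ : Wd → F) (e : ℕ) (hΨ : ∀ l : Wd, l.length ≠ e → Ψ l = 0) (g : Wd →₀ F)
    (p : ℕ) (hp0 : 0 < p) (hp1 : deg g ≤ p) (hp2 : p + deg g ≤ e)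
    (hcut : ∀ w v : Wd, v.length < p → w.length + p ≤ e → pairL g w v Ψ = 0) (i : ℕ) :
    ∀ (l' : ℕ) (w v : Wd), v.length < e * l' + p → w.length + (e * l' + p) ≤ e * i →
      pairL g w v (tp Ψ e i) = 0 := by
  induction i with
  | zero =>
    intro l' w v h1 h2
    omega
  | succ i ih =>
    intro l' w v h1 h2
    by_cases hw : e ≤ w.length
    · -- peel a block from w
      have h3 := ih l' (w.drop e) v h1 (by
        rw [List.length_drop]; rw [mul_add, mul_one] at h2; omega)
      rw [pairL_apply] at h3 ⊢
      have h4 : ∀ u : Wd, tp Ψ e (i+1) (w ++ u ++ v) =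
          Ψ (w.take e) * tp Ψ e i (w.drop e ++ u ++ v) := by
        intro u
        rw [tp, List.append_assoc, List.take_append_of_le_length hw,
          List.drop_append_of_le_length hw, List.append_assoc]
      simp_rw [h4]
      have h5 : ∑ x ∈ g.support, g x * (Ψ (w.take e) * tp Ψ e i (w.drop e ++ x ++ v)) =
          Ψ (w.take e) * ∑ x ∈ g.support, g x * tp Ψ e i (w.drop e ++ x ++ v) := by
        rw [Finset.mul_sum]
        apply Finset.sum_congr rfl
        intro x _
        ring
      rw [h5, h3, mul_zero]
    · push Not at hw
      -- all terms vanish unless v is long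
      by_cases hv : e * i ≤ v.length
      · -- split v
        set v1 := v.take (v.length - e * i) with hv1
        set v2 := v.drop (v.length - e * i) with hv2
        have hv12 : v = v1 ++ v2 := (List.take_append_drop _ _).symm
        have hl2 : v2.length = e * i := by rw [hv2, List.length_drop]; omega
        have hl1 : v1.length + e * i = v.length := by
          rw [hv1, List.length_take]; omega
        have hli : l' ≤ i := by
          by_contra hcon
          push Not at hcon
          have : e * (i + 1) ≤ e * l' := Nat.mul_le_mul_left e hcon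
          omega
        have hli' : e * l' ≤ e * i := Nat.mul_le_mul_left e hli
        have h3 : pairL g w v1 Ψ = 0 := by
          by_cases hlt : l' = i
          · subst hlt
            apply hcut
            · omega
            · rw [mul_add, mul_one] at h2; omega
          · exfalso
            have : e * (l' + 1) ≤ e * i := Nat.mul_le_mul_left e (by omega)
            rw [mul_add, mul_one] at this
            omega
        rw [pairL_apply] at h3 ⊢
        have h4 : ∀ u : Wd, tp Ψ e (i+1) (w ++ u ++ v) =
            Ψ (w ++ u ++ v1) * tp Ψ e i v2 := by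
          intro u
          by_cases hlen : (w ++ u ++ v1).length = e
          · rw [tp, hv12, ← List.append_assoc, List.take_left' hlen, List.drop_left' hlen]
          · rw [hΨ _ hlen, zero_mul]
            apply tp_supp _ _ hΨ
            rw [hv12, ← List.append_assoc]
            simp only [List.length_append] at hlen ⊢
            rw [mul_add, mul_one]
            omega
        simp_rw [h4]
        have h5 : ∑ x ∈ g.support, g x * (Ψ (w ++ x ++ v1) * tp Ψ e i v2) =
            (∑ x ∈ g.support, g x * Ψ (w ++ x ++ v1)) * tp Ψ e i v2 := by
          rw [Finset.sum_mul]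
          apply Finset.sum_congr rfl
          intro x _
          ring
        rw [h5, h3, zero_mul]
      · push Not at hv
        rw [pairL_apply]
        apply Finset.sum_eq_zero
        intro u hu
        have hu' := length_le_deg g hu
        rw [tp_supp _ _ hΨ, mul_zero]
        simp only [List.length_append]
        rw [mul_add, mul_one] at h2 ⊢
        have hli : l' ≤ i := by
          by_contra hcon
          push Not at hcon
          have : e * (i + 1) ≤ e * l' := Nat.mul_le_mul_left e hcon
          rw [mul_add, mul_one] at this
          omega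
        by_cases hlt : l' = i
        · subst hlt
          omega
        · have : e * (l' + 1) ≤ e * i := Nat.mul_le_mul_left e (by omega)
          rw [mul_add, mul_one] at this
          omega

lemma tp_rep (Ψ : Wd → F) (h : Wd) (i : ℕ) :
    tp Ψ h.length i (List.replicate i h).flatten = Ψ h ^ i := by
  induction i with
  | zero => simp [tp]
  | succ i ih =>
    rw [List.replicate_succ, List.flatten_cons, tp, List.take_left, List.drop_left, ih, pow_succ']

end Pool.Agent.Helper7.UnivAlg
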