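import Pool.Agent.Helper7.UnivAlgB

namespace Pool.Agent.Helper7.UnivAlg

universe u

variable {F : Type u} [Field F]

lemma ruler (j r : ℕ) : ∃ p, r < p ∧ p ≤ r + 2^(j+1) ∧ padicValNat 2 p = j := by
  refine ⟨2^j * (2 * ((r + 2^j) / 2^(j+1)) + 1), ?_, ?_, ?_⟩
  · have h1 := Nat.lt_mul_div_succ (r + 2^j) (b := 2^(j+1)) (by positivity)
    rw [pow_succ] at h1 ⊢
    generalize (r + 2^j) / (2^j * 2) = t at *
    generalize 2^j = a at *
    nlinarith
  · have h1 := Nat.mul_div_le (r + 2^j) (2^(j+1))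
    rw [pow_succ] at h1 ⊢
    generalize (r + 2^j) / (2^j * 2) = t at *
    generalize 2^j = a at *
    nlinarith
  · rw [padicValNat.mul (by positivity) (by omega), padicValNat.prime_pow,
      padicValNat.eq_zero_of_not_dvd (by omega), add_zero]

lemma cut_exists (j d e s : ℕ) (he : 2 * d + 2^(j+1) ≤ e) :
    ∃ l' p, 0 < p ∧ d ≤ p ∧ p + d ≤ e ∧ s < e * l' + p ∧
      e * l' + p ≤ s + (2 * d + 2 * 2^(j+1)) ∧ padicValNat 2 p = j := by
  have hJ : 0 < 2^(j+1) := by positivity
  have he0 : 0 < e := by omega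
  have hs := Nat.div_add_mod s e
  have hr := Nat.mod_lt s he0
  set l0 := s / e with hl0
  set r := s % e with hr0
  by_cases hA : r + 2^(j+1) + d ≤ e
  · obtain ⟨p, hp1, hp2, hp3⟩ := ruler j (max r d)
    refine ⟨l0, p, by omega, ?_, ?_, ?_, ?_, hp3⟩
    · have := le_max_right r d; omega
    · rcases le_total r d with h | h
      · rw [max_eq_right h] at hp2; omega
      · rw [max_eq_left h] at hp2; omega
    · have := le_max_left r d; omega
    · rcases le_total r d with h | h
      · rw [max_eq_right h] at hp2; omega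
      · rw [max_eq_left h] at hp2; omega
  · obtain ⟨p, hp1, hp2, hp3⟩ := ruler j d
    have h5 : e * (l0 + 1) = e * l0 + e := by ring
    refine ⟨l0 + 1, p, by omega, by omega, by omega, by omega, by omega, hp3⟩

lemma sh_long (Ψ : Wd → F) (n : ℕ) (hΨ : ∀ l : Wd, l.length ≠ n → Ψ l = 0) (v : Wd)
    (hv : n < v.length) : sh v Ψ = 0 := by
  funext w
  rw [sh_apply, hΨ]; rfl
  simp only [List.length_append]; omega

lemma nil_trivial (g : Wd →₀ F) (hg : g [] = 0) (Ψ : Wd → F) (n : ℕ)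
    (hΨ : ∀ l : Wd, l.length ≠ n → Ψ l = 0) (N : ℕ) (v : Wd) (hN : n < v.length + N) :
    (act g ^ N) (sh v Ψ) = 0 := by
  by_cases hv : v.length < n + 1
  · exact nil_of_cut g hg n (n+1) Ψ hΨ (fun w v h1 h2 => by omega) N v hv (by omega)
  · rw [sh_long Ψ n hΨ v (by omega), map_zero]

lemma nil_main (g : ℕ → (Wd →₀ F)) (j : ℕ) (hg : g j [] = 0) (e : ℕ)
    (he : 2 * deg (g j) + 2^(j+1) ≤ e) (Ψ : Wd → F)
    (hΨ : Ψ ∈ K (fun p => g (padicValNat 2 p)) e) (i N : ℕ)
    (hN : 2 * deg (g j) + 2 * 2^(j+1) ≤ N) (v : Wd) :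
    (act (g j) ^ N) (sh v (tp Ψ e i)) = 0 := by
  obtain ⟨l', p, hp0, hp1, hp2, hp3, hp4, hp5⟩ := cut_exists j (deg (g j)) e v.length he
  have hsupp := tp_supp Ψ e hΨ.1 i
  by_cases hP : e * l' + p ≤ e * i
  · refine nil_of_cut (g j) hg (e * i) (e * l' + p) _ hsupp ?_ N v hp3 (by omega)
    intro w v h1 h2
    refine tp_cut Ψ e hΨ.1 (g j) p hp0 hp1 hp2 ?_ i l' w v h1 h2
    intro w v h1 h2
    have : pairL (g (padicValNat 2 p)) w v Ψ = 0 := hΨ.2 p w v h1 h2
    rw [hp5] at this
    exact this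
  · exact nil_trivial (g j) hg _ (e * i) hsupp N v (by omega)

theorem main_comb [Countable F] (P : ℕ → Wd → ℕ) :
    ∃ M : Submodule F (Wd → F), (∀ (y : Wd), ∀ Ψ ∈ M, sh y Ψ ∈ M) ∧
      (∀ g : Wd →₀ F, g [] = 0 → ∃ N, ∀ Ψ ∈ M, (act g ^ N) Ψ = 0) ∧
      ∀ k, ∃ h : Wd, h ≠ [] ∧ ∀ i ≤ P k h, ∃ Ψ ∈ M,
        (Ψ (List.replicate i h).flatten ≠ 0) ∧
        ∀ m ≠ i, Ψ (List.replicate m h).flatten = 0 := by
  -- enumerate all `g` with `g [] = 0`
  have : Countable {g : Wd →₀ F // g [] = 0} := inferInstance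
  have : Nonempty {g : Wd →₀ F // g [] = 0} := ⟨⟨0, rfl⟩⟩
  obtain ⟨gs, hgs⟩ := exists_surjective_nat {g : Wd →₀ F // g [] = 0}
  let g : ℕ → (Wd →₀ F) := fun j => (gs j).1
  have hg0 : ∀ j, g j [] = 0 := fun j => (gs j).2
  let e : ℕ → ℕ := fun k => 1 + ∑ j ∈ Finset.range k, (2 * deg (g j) + 2^(j+1))
  have he : ∀ k j, j < k → 2 * deg (g j) + 2^(j+1) ≤ e k := by
    intro k j hj
    have := Finset.single_le_sum (f := fun j => 2 * deg (g j) + 2^(j+1))
      (fun _ _ => Nat.zero_le _) (Finset.mem_range.2 hj)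
    simp only [e]
    omega
  choose Ψ hΨ h hh using fun k => exists_K (fun p => g (padicValNat 2 p)) (e k)
  have hlen : ∀ k, (h k).length = e k := by
    intro k
    by_contra hcon
    exact hh k ((hΨ k).1 _ hcon)
  let N : ℕ → ℕ := fun j => 2 * deg (g j) + 2 * 2^(j+1) + 1 +
    ∑ k ∈ Finset.range (j+1), e k * P k (h k)
  let M : Submodule F (Wd → F) :=
    { carrier := {Θ | ∀ j v, (act (g j) ^ N j) (sh v Θ) = 0}
      add_mem' := by
        intro a b ha hb j v
        rw [map_add, map_add, ha j v, hb j v, add_zero]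
      zero_mem' := by
        intro j v
        rw [map_zero, map_zero]
      smul_mem' := by
        intro c a ha j v
        rw [map_smul, map_smul, ha j v, smul_zero] }
  refine ⟨M, ?_, ?_, ?_⟩
  · intro y Θ hΘ j v
    rw [sh_sh]
    exact hΘ j (v ++ y)
  · intro g' hg'
    obtain ⟨j, hj⟩ := hgs ⟨g', hg'⟩
    refine ⟨N j, fun Θ hΘ => ?_⟩
    have := hΘ j []
    rw [sh_nil] at this
    have h2 : g j = g' := congrArg Subtype.val hj
    rw [h2] at this
    exact this
  · intro k
    refine ⟨h k, ?_, ?_⟩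
    · intro h0
      have := hlen k
      rw [h0] at this
      simp [e] at this
      omega
    · intro i hi
      have hsupp := tp_supp (Ψ k) (e k) (hΨ k).1 i
      refine ⟨tp (Ψ k) (e k) i, ?_, ?_, ?_⟩
      · intro j v
        by_cases hjk : j < k
        · apply nil_main g j (hg0 j) (e k) (he k j hjk) (Ψ k) (hΨ k)
          simp only [N]; omega
        · apply nil_trivial (g j) (hg0 j) _ _ hsupp
          have h3 := Finset.single_le_sum (f := fun k => e k * P k (h k))
            (fun _ _ => Nat.zero_le _) (Finset.mem_range.2 (show k < j + 1 by omega))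
          have h4 : e k * i ≤ e k * P k (h k) := Nat.mul_le_mul_left _ hi
          simp only [N]
          omega
      · have := tp_rep (Ψ k) (h k) i
        rw [hlen k] at this
        rw [this]
        exact pow_ne_zero _ (hh k)
      · intro m hm
        apply hsupp
        rw [List.length_flatten]
        simp only [List.map_replicate, List.sum_replicate, smul_eq_mul, hlen k]
        intro h5
        have h6 : 0 < e k := by simp only [e]; omega
        apply hm
        apply Nat.eq_of_mul_eq_mul_left h6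
        rw [← h5, mul_comm]

end Pool.Agent.Helper7.UnivAlg
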