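import Pool.Agent.Helper7.UnivAlgC

namespace Pool.Agent.Helper7.UnivAlg

universe u v

open Polynomial

lemma act_eq {F : Type u} [Field F] (g : Wd →₀ F) :
    act g = Finsupp.linearCombination F (fun y => (sh y : Module.End F (Wd → F))) g := by
  rw [Finsupp.linearCombination_apply]; rfl

/-- From operators to an algebraic algebra. -/
theorem alg_of_ops (F : Type u) [Field F] [Countable F] (V : Type u) [AddCommGroup V]
    [Module F V] (s : Wd → Module.End F V) (s_append : ∀ y z, s (y ++ z) = s y * s z)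
    (s_nil : s [] = 1)
    (hnil : ∀ g : Wd →₀ F, g [] = 0 → ∃ N : ℕ, (Finsupp.linearCombination F s g) ^ N = 0)
    (P : ℕ → Wd → ℕ)
    (hsep : ∀ k, ∃ h : Wd, h ≠ [] ∧ ∀ i ≤ P k h, ∃ (ψ : V) (ev : V →ₗ[F] F),
        ev (s (List.replicate i h).flatten ψ) ≠ 0 ∧
        ∀ m ≠ i, ev (s (List.replicate m h).flatten ψ) = 0) :
    ∃ (A : Type u) (_ : Ring A) (_ : Algebra F A) (gen : Fin 6 → A),
      Countable A ∧ (∀ a : A, IsAlgebraic F a) ∧
      ∀ k, ∃ h : Wd, h ≠ [] ∧ ∀ f : F[X], f ≠ 0 → f.natDegree ≤ P k h →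
        aeval ((h.map gen).prod) f ≠ 0 := by
  have s_pow : ∀ (h : Wd) (m : ℕ), s h ^ m = s (List.replicate m h).flatten := by
    intro h m
    induction m with
    | zero => simp [s_nil]
    | succ m ih => rw [pow_succ', ih, List.replicate_succ, List.flatten_cons, s_append]
  let A := Algebra.adjoin F (Set.range s)
  have hmemA : ∀ y, s y ∈ A := fun y => Algebra.subset_adjoin ⟨y, rfl⟩
  have hrep : ∀ a ∈ A, ∃ g : Wd →₀ F, Finsupp.linearCombination F s g = a := by
    intro a ha
    have h1 : a ∈ Subalgebra.toSubmodule A := ha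
    rw [Algebra.adjoin_eq_span] at h1
    let S : Submonoid (Module.End F V) :=
      { carrier := Set.range s
        mul_mem' := by
          rintro _ _ ⟨y, rfl⟩ ⟨z, rfl⟩
          exact ⟨y ++ z, s_append y z⟩
        one_mem' := ⟨[], s_nil⟩ }
    have h2 : (Submonoid.closure (Set.range s) : Set (Module.End F V)) = Set.range s := by
      apply Set.Subset.antisymm
      · have : Submonoid.closure (Set.range s) ≤ S := Submonoid.closure_le.2 (fun _ h => h)
        exact this
      · exact Submonoid.subset_closure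
    rw [h2, Finsupp.mem_span_range_iff_exists_finsupp] at h1
    exact h1
  let gen : Fin 6 → A := fun x => ⟨s [x], hmemA [x]⟩
  have hprod : ∀ h : Wd, (h.map gen).prod = ⟨s h, hmemA h⟩ := by
    intro h
    induction h with
    | nil => apply Subtype.ext; simp [s_nil]
    | cons x h ih =>
      rw [List.map_cons, List.prod_cons, ih]
      apply Subtype.ext
      exact (s_append [x] h).symm
  refine ⟨A, inferInstance, inferInstance, gen, ?_, ?_, ?_⟩
  · have h1 : (A : Set (Module.End F V)) ⊆
        Set.range (fun g : Wd →₀ F => Finsupp.linearCombination F s g) := by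
      intro a ha
      exact hrep a ha
    exact ((Set.countable_range _).mono h1).to_subtype
  · rintro ⟨a, ha⟩
    obtain ⟨g, hg⟩ := hrep a ha
    obtain ⟨N, hN⟩ := hnil (g - Finsupp.single [] (g [])) (by simp)
    have h1 : Finsupp.linearCombination F s (g - Finsupp.single [] (g [])) =
        a - algebraMap F (Module.End F V) (g []) := by
      rw [map_sub, Finsupp.linearCombination_single, hg, s_nil, Algebra.algebraMap_eq_smul_one]
    rw [h1] at hN
    refine ⟨(X - C (g [])) ^ N, pow_ne_zero _ (X_sub_C_ne_zero _), ?_⟩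
    rw [map_pow, map_sub, aeval_X, aeval_C]
    apply Subtype.ext
    exact hN
  · intro k
    obtain ⟨h, h0, hh⟩ := hsep k
    refine ⟨h, h0, fun f hf hdeg hcon => ?_⟩
    obtain ⟨ψ, ev, h1, h2⟩ := hh _ hdeg
    rw [hprod] at hcon
    have h3 : aeval (s h) f = 0 := by
      have := congrArg (Subalgebra.val A) hcon
      rw [← aeval_algHom_apply] at this
      exact this
    have h4 := congrArg ev (LinearMap.congr_fun h3 ψ)
    rw [aeval_eq_sum_range] at h4
    simp only [LinearMap.sum_apply, LinearMap.smul_apply, s_pow, map_sum, map_smul,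
      LinearMap.zero_apply, map_zero, smul_eq_mul] at h4
    rw [Finset.sum_eq_single f.natDegree] at h4
    · rcases mul_eq_zero.1 h4 with h7 | h7
      · exact hf (leadingCoeff_eq_zero.1 h7)
      · exact h1 h7
    · intro m _ hm
      rw [h2 m hm, mul_zero]
    · intro hcon2
      exact absurd (Finset.mem_range.2 (Nat.lt_succ_self _)) hcon2

theorem main_alg (F : Type u) [Field F] [Countable F] (P : ℕ → Wd → ℕ) :
    ∃ (A : Type u) (_ : Ring A) (_ : Algebra F A) (gen : Fin 6 → A),
      Countable A ∧ (∀ a : A, IsAlgebraic F a) ∧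
      ∀ k, ∃ h : Wd, h ≠ [] ∧ ∀ f : F[X], f ≠ 0 → f.natDegree ≤ P k h →
        aeval ((h.map gen).prod) f ≠ 0 := by
  obtain ⟨M, hM, hnil, hsep⟩ := main_comb (F := F) P
  refine alg_of_ops F M (fun y => (sh y).restrict (hM y)) ?_ ?_ ?_ P ?_
  · intro y z
    ext Ψ : 1
    apply Subtype.ext
    exact (sh_sh y z Ψ.1).symm
  · ext Ψ : 1
    apply Subtype.ext
    exact sh_nil Ψ.1
  · intro g hg
    obtain ⟨N, hN⟩ := hnil g hg
    refine ⟨N, ?_⟩
    have h1 : ∀ Ψ : M, (((Finsupp.linearCombination F
        (fun y => ((sh y).restrict (hM y) : Module.End F M))) g) Ψ).1 = act g Ψ.1 := by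
      intro Ψ
      rw [act_eq, Finsupp.linearCombination_apply, Finsupp.linearCombination_apply]
      simp only [Finsupp.sum, LinearMap.sum_apply, LinearMap.smul_apply]
      rw [AddSubmonoidClass.coe_finsetSum]
      rfl
    have h2 : ∀ n, ∀ Ψ : M, ((((Finsupp.linearCombination F
        (fun y => ((sh y).restrict (hM y) : Module.End F M))) g) ^ n) Ψ).1 =
        (act g ^ n) Ψ.1 := by
      intro n
      induction n with
      | zero => intro Ψ; rfl
      | succ n ih =>
        intro Ψ
        rw [pow_succ, pow_succ, Module.End.mul_apply, Module.End.mul_apply, ih, h1]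
    ext Ψ : 1
    apply Subtype.ext
    rw [h2, hN Ψ.1 Ψ.2]; rfl
  · intro k
    obtain ⟨h, h0, hh⟩ := hsep k
    refine ⟨h, h0, fun i hi => ?_⟩
    obtain ⟨Ψ, hΨ, h1, h2⟩ := hh i hi
    refine ⟨⟨Ψ, hΨ⟩, (LinearMap.proj []) ∘ₗ M.subtype, h1, h2⟩

end Pool.Agent.Helper7.UnivAlg
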